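import Pool.Agent.W_eea520_h99.OneA
import Pool.Agent.W_eea520_h25.Cusp
import Pool.Agent.W_eea520_g1.A5
import Pool.Agent.W_eea520_g1.A6

/-!
# The laws of the traces (MP_eea520_nt, theorem G)
-/

set_option autoImplicit false

namespace Pool.Agent.EEA520

open Filter Topology Pool.Agent.EEAG1 MeasureTheory

/-- The trace of `π p` in the spin representation, for `GL_2`: the eigenvalues are `c` and `c x`. -/
noncomputable def lam (π : GSys 1) (p : Pr) : ℂ := ((π p).c : ℂ) + (π p).c * (π p).x 0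

/-- In the sense of Dirichlet densities of sets of primes the absolute values of the traces `lam π p` are
distributed like the absolute value of a real random variable with values in `[-2, 2]` and law `Λ`, and
if the central character is trivial (so that the traces are real) then the traces themselves are
distributed according to `Λ`. -/
def TraceLaw (π : GSys 1) (Λ : (ℝ → ℝ) → ℝ) : Prop :=
  (∀ f : ℝ → ℝ, ContinuousOn f (Set.Icc 0 2) →
    Tendsto (fun s : ℝ => (∑' p : Pr, f ‖lam π p‖ * ((p : ℕ) : ℝ) ^ (-s)) /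
      ∑' p : Pr, ((p : ℕ) : ℝ) ^ (-s)) (𝓝[>] 1) (𝓝 (Λ fun y => f |y|))) ∧
  ((∀ p, (π p).nu = 1) → ∀ f : ℝ → ℝ, ContinuousOn f (Set.Icc (-2) 2) →
    Tendsto (fun s : ℝ => (∑' p : Pr, f (lam π p).re * ((p : ℕ) : ℝ) ^ (-s)) /
      ∑' p : Pr, ((p : ℕ) : ℝ) ^ (-s)) (𝓝[>] 1) (𝓝 (Λ f)))

/-- The moments of `x`. -/
theorem mean_x {π : GSys 1} (hπ : Tempered π) {E : AddSubgroup ℝ} {c : Wt 1 × E → ℤ}
    (hc : IsOrd π E c) (k : ℤ) :
    Mean (fun p => ((π p).x 0 : ℂ)) (fun z => 2 * (z ^ k).re) (c (w1 0 k, 0)) := by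
  have h1 : MeanP (fun p => ∑ g : WG 1, zre π (act g (w1 0 k)) ((0 : E) : ℝ) p)
      (c (w1 0 k, 0)) := hc.mean hπ (w1 0 k, 0)
  refine h1.congr fun s => ?_
  congr 1
  unfold psm psum
  refine tsum_congr fun p => ?_
  congr 1
  show ∑ g : WG 1, zre π (act g (w1 0 k)) ((0 : E) : ℝ) p = 2 * (((π p).x 0 : ℂ) ^ k).re
  rw [orb_sum_one 0 k fun w => zre π w ((0 : E) : ℝ) p]
  have hx : ‖((π p).x 0 : ℂ)‖ = 1 := (hπ p).2 0
  have h2 : ∀ j : ℤ, zre π (w1 0 j) ((0 : E) : ℝ) p = (((π p).x 0 : ℂ) ^ j).re := by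
    intro j
    unfold zre Torus.ev w1
    simp
  rw [h2, h2, zero_sub, A5_re hx]
  ring

/-- The moments of `c`, if the central character is trivial. -/
theorem mean_cg {π : GSys 1} (hπ : Tempered π) (hnu : ∀ p, (π p).nu = 1) {E : AddSubgroup ℝ}
    {c : Wt 1 × E → ℤ} (hc : IsOrd π E c) (k m : ℤ) :
    Mean (fun p => ((π p).c : ℂ)) (fun z => 2 * (z ^ (k - 2 * m)).re) (c (w1 k m, 0)) := by
  have h1 : MeanP (fun p => ∑ g : WG 1, zre π (act g (w1 k m)) ((0 : E) : ℝ) p)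
      (c (w1 k m, 0)) := hc.mean hπ (w1 k m, 0)
  refine h1.congr fun s => ?_
  congr 1
  unfold psm psum
  refine tsum_congr fun p => ?_
  congr 1
  show ∑ g : WG 1, zre π (act g (w1 k m)) ((0 : E) : ℝ) p =
    2 * (((π p).c : ℂ) ^ (k - 2 * m)).re
  rw [orb_sum_one k m fun w => zre π w ((0 : E) : ℝ) p]
  have hx : ‖((π p).c : ℂ)‖ = 1 := (hπ p).1
  have hnu1 : (π p).c ^ 2 * (π p).x 0 = 1 := by
    have h2 := hnu p
    unfold Torus.nu at h2
    simpa using h2
  have hxc : (π p).x 0 = (π p).c ^ (-2 : ℤ) := by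
    rw [zpow_neg, eq_inv_iff_mul_eq_one, mul_comm]
    exact_mod_cast hnu1
  have h2 : ∀ i j : ℤ, zre π (w1 i j) ((0 : E) : ℝ) p = (((π p).c : ℂ) ^ (i - 2 * j)).re := by
    intro i j
    unfold zre Torus.ev w1
    have h3 : (π p).c ^ i * (π p).x 0 ^ j = (π p).c ^ (i - 2 * j) := by
      rw [hxc, ← zpow_mul, ← zpow_add]
      congr 1
      ring
    have h4 : (π p).c ^ i * ∏ l : Fin 1, (π p).x l ^ j = (π p).c ^ (i - 2 * j) := by
      rw [Fin.prod_univ_one, h3]
    simp only [h4]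
    simp
  rw [h2, h2, show k - 2 * (k - m) = -(k - 2 * m) by ring, A5_re hx]
  ring

theorem mean_c {π : GSys 1} (hπ : Tempered π) (hnu : ∀ p, (π p).nu = 1) {E : AddSubgroup ℝ}
    {c : Wt 1 × E → ℤ} (hc : IsOrd π E c) (k : ℤ) :
    Mean (fun p => ((π p).c : ℂ)) (fun z => 2 * (z ^ k).re) (c (w1 k 0, 0)) := by
  have h1 := mean_cg hπ hnu hc k 0
  rwa [mul_zero, sub_zero] at h1

theorem ord_nug {π : GSys 1} (hπ : Tempered π) (hnu : ∀ p, (π p).nu = 1) {E : AddSubgroup ℝ}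
    {c : Wt 1 × E → ℤ} (hc : IsOrd π E c) (k m : ℤ) : c (w1 k m, 0) = c (w1 (k - 2 * m) 0, 0) := by
  have h1 := mean_cg hπ hnu hc k m
  have h2 := mean_c hπ hnu hc (k - 2 * m)
  exact_mod_cast tendsto_nhds_unique h1 h2

/-- Invariance under twists by the central character, if it is trivial. -/
theorem ord_nu {π : GSys 1} (hπ : Tempered π) (hnu : ∀ p, (π p).nu = 1) {E : AddSubgroup ℝ}
    {c : Wt 1 × E → ℤ} (hc : IsOrd π E c) (k : ℤ) : c (w1 (2 * k) 0, 0) = c (w1 0 k, 0) := by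
  have h1 := mean_x hπ hc k
  have h2 := mean_c hπ hnu hc (2 * k)
  have h3 : Mean (fun p => ((π p).c : ℂ)) (fun z => 2 * (z ^ (2 * k)).re) (c (w1 0 k, 0)) := by
    refine Tendsto.congr (fun s => ?_) h1
    congr 1
    unfold psum
    refine tsum_congr fun p => ?_
    congr 1
    show 2 * (((π p).x 0 : ℂ) ^ k).re = 2 * (((π p).c : ℂ) ^ (2 * k)).re
    have hx : ‖((π p).c : ℂ)‖ = 1 := (hπ p).1
    have hnu1 : (π p).c ^ 2 * (π p).x 0 = 1 := by
      have h2 := hnu p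
      unfold Torus.nu at h2
      simpa using h2
    have hxc : (π p).x 0 = (π p).c ^ (-2 : ℤ) := by
      rw [zpow_neg, eq_inv_iff_mul_eq_one, mul_comm]
      exact_mod_cast hnu1
    rw [hxc, Units.val_zpow_eq_zpow_val, ← zpow_mul, show -2 * k = -(2 * k) by ring, A5_re hx]
  exact_mod_cast tendsto_nhds_unique h2 h3

/-- The law of the traces. -/
theorem traceLaw_of_moments {π : GSys 1} (hπ : Tempered π) {E : AddSubgroup ℝ}
    {c : Wt 1 × E → ℤ} (hc : IsOrd π E c) (μ : Measure ℝ) [IsFiniteMeasure μ]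
    (h1 : ∀ k : ℤ, ∫ θ, 2 * Real.cos ((2 * k : ℤ) * θ) ∂μ = c (w1 0 k, 0))
    (h2 : (∀ p, (π p).nu = 1) → ∀ k : ℤ, ∫ θ, 2 * Real.cos (k * θ) ∂μ = c (w1 k 0, 0)) :
    TraceLaw π fun f => ∫ θ, f (2 * Real.cos θ) ∂μ := by
  have hx : ∀ p, ‖((π p).x 0 : ℂ)‖ = 1 := fun p => (hπ p).2 0
  have hcn : ∀ p, ‖((π p).c : ℂ)‖ = 1 := fun p => (hπ p).1
  refine ⟨fun f hf => ?_, fun hnu f hf => ?_⟩
  · have hmap : ∀ F : ℝ → ℝ, Continuous F →
        ∫ θ, F θ ∂(μ.map fun θ => 2 * θ) = ∫ θ, F (2 * θ) ∂μ := fun F hF =>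
      integral_map (by fun_prop) hF.aestronglyMeasurable
    have h3 := law_of_moments hx (c := fun k => (c (w1 0 k, 0) : ℝ)) (fun k => mean_x hπ hc k)
      (μ.map fun θ => 2 * θ) (fun k => by
        rw [hmap _ (by fun_prop), ← h1]
        refine integral_congr_ae (Eventually.of_forall fun θ => ?_)
        push_cast
        ring_nf)
    have hF : ContinuousOn (fun t : ℝ => f (Real.sqrt (2 + t))) (Set.Icc (-2) 2) := by
      refine hf.comp (by fun_prop) fun t ht => ?_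
      refine ⟨Real.sqrt_nonneg _, ?_⟩
      rw [Real.sqrt_le_left (by norm_num)]
      linarith [ht.2]
    have h4 := h3 _ hF
    have hcont : Continuous fun θ : ℝ => f (Real.sqrt (2 + 2 * Real.cos θ)) := by
      refine hF.comp_continuous (f := fun θ : ℝ => 2 * Real.cos θ) (by fun_prop) fun θ => ?_
      exact ⟨by linarith [Real.neg_one_le_cos θ], by linarith [Real.cos_le_one θ]⟩
    have h5 : ∫ θ, f (Real.sqrt (2 + 2 * Real.cos θ)) ∂(μ.map fun θ => 2 * θ) =
        ∫ θ, f |2 * Real.cos θ| ∂μ := by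
      rw [hmap _ hcont]
      refine integral_congr_ae (Eventually.of_forall fun θ => ?_)
      show f (Real.sqrt (2 + 2 * Real.cos (2 * θ))) = f |2 * Real.cos θ|
      rw [← Real.sqrt_sq_eq_abs, Real.cos_two_mul]
      congr 2
      ring
    change Tendsto _ _ (𝓝 (∫ θ, f (Real.sqrt (2 + 2 * Real.cos θ)) ∂(μ.map fun θ => 2 * θ))) at h4
    rw [h5] at h4
    refine h4.congr fun s => ?_
    congr 1
    refine tsum_congr fun p => ?_
    congr 2
    have h6 : ‖lam π p‖ ^ 2 = 2 + 2 * ((π p).x 0 : ℂ).re := by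
      have h7 : lam π p = ((π p).c : ℂ) * (1 + (π p).x 0) := by
        unfold lam
        ring
      rw [h7, norm_mul, hcn, one_mul, ← Complex.normSq_eq_norm_sq, Complex.normSq_add]
      have h8 : Complex.normSq ((π p).x 0 : ℂ) = 1 := by
        rw [Complex.normSq_eq_norm_sq, hx, one_pow]
      rw [h8]
      simp
      ring
    rw [← h6, Real.sqrt_sq (norm_nonneg _)]
  · have h3 := law_of_moments hcn (c := fun k => (c (w1 k 0, 0) : ℝ))
      (fun k => mean_c hπ hnu hc k) μ (h2 hnu)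
    have h4 := h3 f hf
    refine h4.congr fun s => ?_
    congr 1
    refine tsum_congr fun p => ?_
    congr 2
    have hnu1 : (π p).c ^ 2 * (π p).x 0 = 1 := by
      have h2 := hnu p
      unfold Torus.nu at h2
      simpa using h2
    have hxc : (π p).c * (π p).x 0 = ((π p).c)⁻¹ := by
      rw [eq_inv_iff_mul_eq_one, mul_comm, ← mul_assoc, ← pow_two]
      exact hnu1
    unfold lam
    rw [← Units.val_mul, hxc, Units.val_inv_eq_inv_val, Complex.inv_eq_conj (hcn p),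
      Complex.add_re, Complex.conj_re]
    ring

end Pool.Agent.EEA520
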