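import Pool.Agent.W_eea520_h99.OneB
import Pool.Agent.W_eea520_h99.LawG
import Pool.Agent.W_eea520_g1.A7
import Pool.Agent.W_eea520_g1.Fin1

/-!
# `GL_2`: the theorem (MP_eea520_nt, theorem G)
-/

set_option autoImplicit false

namespace Pool.Agent.EEA520

open Filter Topology Pool.Agent.EEAG1 MeasureTheory

theorem pt_zero : pt 0 = 1 := by
  unfold pt
  simp

theorem had_of {π : GSys 1} (hπ : Tempered π) {E : AddSubgroup ℝ} {c : Wt 1 × E → ℤ}
    (hc : IsOrd π E c) (h : PoleOrder π (symdet 2 (-1)) 1 0) : c (w1 0 1, 0) = -1 := by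
  have h1 : PoleOrder π (symdet 2 (-1)) (pt ((0 : E) : ℝ)) 0 := by
    rw [AddSubgroup.coe_zero, pt_zero]
    exact h
  have h2 := order_symdet hπ hc h1
  rw [Finset.sum_range_succ, Finset.sum_range_succ, Finset.sum_range_one] at h2
  have h3 := ord_reflect hπ hc 0 1 0
  have h4 := ord_zero hπ hc 0
  rw [if_pos rfl, card_WG] at h4
  norm_num at h2 h3 h4
  have h5 : w1 0 0 = 0 := rfl
  rw [h5, h4, h3] at h2
  linarith

theorem telescope (f : ℕ → ℤ) (k : ℕ) :
    ∑ i ∈ Finset.range (k + 1), (f i - f (i + 1)) = f 0 - f (k + 1) :=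
  Finset.sum_range_sub' f (k + 1)

theorem sum_alt (a : ℕ) : ∑ i ∈ Finset.range (2 * a + 1), ((-1 : ℤ)) ^ ((i : ℤ) + -(a : ℤ)).natAbs =
    (-1) ^ a := by
  have h1 : ∀ i : ℕ, ((-1 : ℤ)) ^ ((i : ℤ) + -(a : ℤ)).natAbs = (-1) ^ a * (-1) ^ i := by
    intro i
    rw [← pow_add]
    have h2 : Even ((i : ℤ) + -(a : ℤ)).natAbs ↔ Even (a + i) := by
      rw [Int.natAbs_even, ← sub_eq_add_neg, Int.even_sub, Nat.even_add, Int.even_coe_nat,
        Int.even_coe_nat]
      tauto
    by_cases h3 : Even (a + i)
    · rw [h3.neg_one_pow, (h2.2 h3).neg_one_pow]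
    · rw [(Nat.not_even_iff_odd.1 h3).neg_one_pow,
        (Nat.not_even_iff_odd.1 (fun h4 => h3 (h2.1 h4))).neg_one_pow]
  simp only [h1]
  rw [← Finset.mul_sum, neg_one_geom_sum, if_neg (by simp [parity_simps]), mul_one]

/-- The theorem for `GL_2`. -/
theorem gl2 {π : GSys 1} (hπ : Tempered π) {E : AddSubgroup ℝ}
    (h : ∀ m, IsCharacter m → ∀ t ∈ E, MeroAt π m (pt t))
    (had : PoleOrder π (symdet 2 (-1)) 1 0) :
    ((∀ k : ℕ, 1 ≤ k → ∀ (j : ℤ), ∀ t ∈ E, PoleOrder π (symdet k j) (pt t) 0) ∧
      TraceLaw π satoTate) ∨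
    ((∀ k : ℕ, Odd k → ∀ (j : ℤ), ∀ t ∈ E, PoleOrder π (symdet k j) (pt t) 0) ∧
      (∀ a : ℕ, ∀ t ∈ E, PoleOrder π (symdet (2 * a) (-a)) (pt t)
        (if t = 0 ∧ Even a then 1 else 0)) ∧
      TraceLaw π cmLaw) ∨
    ∃ (r : ℕ) (w : Fin r → ℝ), (∀ j, 0 ≤ w j) ∧ ∑ j, w j = 1 ∧
      TraceLaw π fun f => ∑ j, w j * f (2 * Real.cos (2 * Real.pi * j / r)) := by
  classical
  obtain ⟨c, hc⟩ := exists_isOrd hπ h
  have had' := had_of hπ hc had
  -- the orders of the symmetric powers
  have hord : ∀ (k : ℕ) (j : ℤ) (t : ℝ) (ht : t ∈ E) (o : ℤ),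
      2 * o = ∑ i ∈ Finset.range (k + 1), c (w1 (k + 2 * j) (i + j), ⟨t, ht⟩) →
      PoleOrder π (symdet k j) (pt t) o := by
    intro k j t ht o ho
    obtain ⟨o', ho'⟩ := exists_poleOrder hπ (h _ (symdet_isCharacter k j) t ht)
    have h1 := order_symdet (t := ⟨t, ht⟩) hπ hc ho'
    have h2 : o = o' := by linarith
    rw [h2]
    exact ho'
  rcases one_cases hπ hc had' with ⟨r, h1, h2, h3⟩ | ⟨r, s, h1, h2, h3, h4, h5, h6⟩ | ⟨r, hr, h1⟩
  · left
    refine ⟨fun k hk j t ht => hord k j t ht 0 ?_, ?_⟩
    · set f : ℕ → ℤ := fun i => r (k + 2 * j) ⟨t, ht⟩ (i + j) - r (k + 2 * j) ⟨t, ht⟩ (i + j - 1)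
        with hf
      have e1 : ∀ i ∈ Finset.range (k + 1), c (w1 (k + 2 * j) (i + j), ⟨t, ht⟩) = f i - f (i + 1) := by
        intro i _
        rw [h1, hf]
        push_cast
        have e2 : (i : ℤ) + 1 + j = i + j + 1 := by ring
        have e3 : (i : ℤ) + j + 1 - 1 = i + j := by ring
        rw [e2, e3]
        ring
      rw [Finset.sum_congr rfl e1, telescope]
      have hz : ∀ M : ℤ, 2 * M ≠ k + 2 * j → r (k + 2 * j) ⟨t, ht⟩ M = 0 := by
        intro M hM
        by_contra hne
        exact hM (h2 _ _ _ hne)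
      rw [hf]
      push_cast
      rw [hz _ (by push_cast; omega), hz _ (by push_cast; omega), hz _ (by push_cast; omega),
        hz _ (by push_cast; omega)]
      ring
    · obtain ⟨μ, hμ, hμ1, hμ2⟩ := exists_st
      have hx : ∀ k : ℤ, (c (w1 0 k, 0) : ℝ) =
          if k = 0 then 2 else if k = 1 ∨ k = -1 then -1 else 0 := by
        intro k
        rw [h1, h3, h3, h3]
        by_cases hk0 : k = 0
        · subst hk0
          norm_num
        · rw [if_neg hk0, if_neg hk0]
          by_cases hk1 : k = 1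
          · subst hk1
            norm_num
          · by_cases hk2 : k = -1
            · subst hk2
              norm_num
            · rw [if_neg (by omega), if_neg (by omega), if_neg (by omega)]
              norm_num
      have h7 := traceLaw_of_moments hπ hc μ (fun k => by
        rw [hμ2, hx]
        by_cases hk0 : k = 0
        · subst hk0
          norm_num
        · rw [if_neg (by omega), if_neg hk0]
          by_cases hk1 : k = 1 ∨ k = -1
          · rw [if_pos (by omega), if_pos hk1]
          · rw [if_neg (by omega), if_neg hk1]) (fun hnu k => by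
        rcases Int.even_or_odd' k with ⟨i, rfl | rfl⟩
        · rw [ord_nu hπ hnu hc, hx, hμ2]
          by_cases hk0 : i = 0
          · subst hk0
            norm_num
          · rw [if_neg (by omega), if_neg hk0]
            by_cases hk1 : i = 1 ∨ i = -1
            · rw [if_pos (by omega), if_pos hk1]
            · rw [if_neg (by omega), if_neg hk1]
        · have hz : ∀ M : ℤ, r (2 * i + 1) 0 M = 0 := by
            intro M
            by_contra hne
            have := h2 _ _ _ hne
            omega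
          rw [h1, hz, hz, hz, hμ2, if_neg (by omega), if_neg (by omega)]
          norm_num)
      simp only [hμ1] at h7
      exact h7
  · right
    left
    have hr0 : ∀ K t M, 2 * M ≠ K → r K t M = 0 := by
      intro K t M hM
      by_contra hne
      exact hM (h2 _ _ _ hne)
    refine ⟨fun k hk j t ht => hord k j t ht 0 ?_, fun a t ht => hord _ _ t ht _ ?_, ?_⟩
    · rw [Finset.sum_eq_zero, mul_zero]
      intro i _
      have hodd : Odd ((k : ℤ) + 2 * j) := by
        have : Odd (k : ℤ) := by exact_mod_cast hk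
        exact this.add_even (even_two_mul j)
      rw [h1, h3 _ _ hodd, hr0, mul_zero, add_zero]
      intro h7
      rw [← h7] at hodd
      exact (Int.not_odd_iff_even.2 (even_two_mul _)) hodd
    · have e0 : ((2 * a : ℕ) : ℤ) + 2 * -(a : ℤ) = 0 := by push_cast; ring
      rw [e0]
      by_cases ht0 : t = 0
      · subst ht0
        have e1 : ∀ i ∈ Finset.range (2 * a + 1), c (w1 0 (i + -(a : ℤ)), ⟨0, ht⟩) =
            (if i = a then 1 else 0) + (-1) ^ ((i : ℤ) + -(a : ℤ)).natAbs := by
          intro i _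
          have e2 : (⟨0, ht⟩ : E) = 0 := rfl
          rw [e2, h1, h5, h6, mul_one]
          congr 1
          refine if_congr ?_ rfl rfl
          omega
        rw [Finset.sum_congr rfl e1, Finset.sum_add_distrib, sum_alt, Finset.sum_ite_eq',
          if_pos (Finset.mem_range.2 (by omega))]
        by_cases ha : Even a
        · rw [if_pos ⟨rfl, ha⟩, ha.neg_one_pow]
          norm_num
        · rw [if_neg (fun h7 => ha h7.2), (Nat.not_even_iff_odd.1 ha).neg_one_pow]
          norm_num
      · rw [if_neg (fun h7 => ht0 h7.1), mul_zero, Finset.sum_eq_zero]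
        intro i _
        have e2 : (⟨t, ht⟩ : E) ≠ 0 := fun h7 => ht0 (congrArg Subtype.val h7)
        obtain ⟨h7, h8⟩ := h4 _ e2
        rw [h1, h7, h8]
        ring
    · obtain ⟨μ, hμ, hμ1, hμ2, hμ3⟩ := exists_cm
      have hx : ∀ k : ℤ, (c (w1 0 k, 0) : ℝ) = (if k = 0 then 1 else 0) + (-1) ^ k.natAbs := by
        intro k
        rw [h1, h5, h6]
        push_cast
        ring
      have h7 := traceLaw_of_moments hπ hc μ (fun k => by rw [hμ2, hx]) (fun hnu k => by
        rcases Int.even_or_odd' k with ⟨i, rfl | rfl⟩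
        · rw [ord_nu hπ hnu hc, hx, hμ2]
        · rw [h1, hr0 _ _ _ (by omega), h3 _ _ ⟨i, rfl⟩, hμ3]
          norm_num)
      refine ⟨fun f hf => ?_, fun hnu f hf => ?_⟩
      · have h8 := h7.1 f hf
        have h9 : ContinuousOn (fun y : ℝ => f |y|) (Set.Icc (-2) 2) := by
          refine hf.comp (by fun_prop) fun y hy => ⟨abs_nonneg _, abs_le.2 hy⟩
        rw [← hμ1 _ h9]
        exact h8
      · have h8 := h7.2 hnu f hf
        rw [← hμ1 f hf]
        exact h8
  · right
    right
    have hc0 : (c (w1 0 0, 0) : ℝ) = 2 := by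
      have h4 := ord_zero hπ hc 0
      rw [if_pos rfl, card_WG] at h4
      have h5 : c (w1 0 0, 0) = 2 := by
        rw [w1_zero, h4]
        norm_num
      rw [h5]
      norm_num
    by_cases hnu : ∀ p, (π p).nu = 1
    · have hpd : PosDef fun k => (c (w1 k 0, 0) : ℝ) :=
        posDef_of_mean (fun p => (hπ p).1) fun k => mean_c hπ hnu hc k
      obtain ⟨w, hw0, hw⟩ := exists_weights hpd (r := 2 * r) (by omega) (fun k => by
        show (c (w1 (k + ((2 * r : ℕ) : ℤ)) 0, 0) : ℝ) = c (w1 k 0, 0)
        have h4 := h1 (w1 k (-(r : ℤ)), 0)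
        have h5 : ((w1 k (-(r : ℤ)), (0 : E)) + (w1 0 r, 0) : Wt 1 × E) = (w1 k 0, 0) := by
          show (w1 k (-(r : ℤ)) + w1 0 r, (0 : E) + 0) = _
          rw [w1_add, add_zero, add_zero, neg_add_cancel]
        rw [h5, ord_nug hπ hnu hc k (-(r : ℤ))] at h4
        rw [h4]
        congr 3
        push_cast
        ring)
      obtain ⟨μ, hμ, hμ1⟩ := exists_fin w hw0
      refine ⟨2 * r, w, hw0, ?_, ?_⟩
      · have h3 := hw 0
        rw [hc0] at h3
        simp only [Int.cast_zero, zero_mul, Real.cos_zero, mul_one] at h3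
        rw [← Finset.sum_mul] at h3
        linarith
      · have h7 := traceLaw_of_moments hπ hc μ (fun k => by
          rw [hμ1, ← ord_nu hπ hnu hc]
          exact hw (2 * k)) (fun _ k => by
          rw [hμ1]
          exact hw k)
        simp only [hμ1] at h7
        exact h7
    · have hpd : PosDef fun k => (c (w1 0 k, 0) : ℝ) :=
        posDef_of_mean (fun p => (hπ p).2 0) fun k => mean_x hπ hc k
      obtain ⟨w, hw0, hw⟩ := exists_weights hpd hr (fun k => by
        have h4 := h1 (w1 0 k, 0)
        have h5 : ((w1 0 k, (0 : E)) + (w1 0 r, 0) : Wt 1 × E) = (w1 0 (k + r), 0) := by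
          show (w1 0 k + w1 0 r, (0 : E) + 0) = _
          rw [w1_add, add_zero, add_zero]
        rw [h5] at h4
        show (c (w1 0 (k + r), 0) : ℝ) = c (w1 0 k, 0)
        rw [h4])
      set W : ℕ → ℝ := fun j => if h : j < r then w ⟨j, h⟩ else 0 with hW
      have hsum : ∀ F : ℕ → ℝ, ∑ j : Fin (2 * r), W j * F j = ∑ j : Fin r, w j * F j := by
        intro F
        rw [Fin.sum_univ_eq_sum_range (fun j => W j * F j) (2 * r), two_mul,
          Finset.sum_range_add]
        have e1 : ∑ i ∈ Finset.range r, W (r + i) * F (r + i) = 0 := by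
          refine Finset.sum_eq_zero fun i _ => ?_
          rw [hW]
          simp
        rw [e1, add_zero, ← Fin.sum_univ_eq_sum_range (fun j => W j * F j) r]
        refine Finset.sum_congr rfl fun i _ => ?_
        rw [hW]
        simp
      obtain ⟨μ, hμ, hμ1⟩ := exists_fin (r := 2 * r) (fun j => W j) (fun j => by
        rw [hW]
        dsimp only
        split_ifs
        · exact hw0 _
        · exact le_rfl)
      refine ⟨2 * r, fun j => W j, ?_, ?_, ?_⟩
      · intro j
        rw [hW]
        dsimp only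
        split_ifs
        · exact hw0 _
        · exact le_rfl
      · have h3 := hw 0
        rw [hc0] at h3
        simp only [Int.cast_zero, zero_mul, Real.cos_zero, mul_one] at h3
        rw [← Finset.sum_mul] at h3
        have h4 := hsum fun _ => 1
        simp only [mul_one] at h4
        rw [h4]
        linarith
      · have h7 := traceLaw_of_moments hπ hc μ (fun k => by
          rw [hμ1, hsum fun j => 2 * Real.cos (((2 * k : ℤ) : ℝ) * (2 * Real.pi * j / (2 * r : ℕ))),
            ← hw k]
          refine Finset.sum_congr rfl fun j _ => ?_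
          have hr' : (r : ℝ) ≠ 0 := by exact_mod_cast hr.ne'
          congr 3
          push_cast
          field_simp) (fun h8 => absurd h8 hnu)
        simp only [hμ1] at h7
        exact h7

end Pool.Agent.EEA520
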