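import Pool.Agent.W_eea520_g1.C6

/-!
# Isometries commuting with `T` (MP_eea520_nt, theorem G)
-/

set_option autoImplicit false

namespace Pool.Agent.EEAG1

open Filter Topology
open scoped InnerProductSpace

/-- A real sequence which tends to zero at infinity and whose second differences are integers is
integral. (Second differences are `0` outside a finite set; there the first differences are constant,
so `0`; so all first differences are integers, and then the sequence is integral.) -/
theorem int_of_second_diff {r : ℤ → ℝ} (h0 : Tendsto r cofinite (𝓝 0))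
    (h : ∀ k, ∃ n : ℤ, 2 * r k - r (k + 1) - r (k - 1) = n) : ∀ k, ∃ n : ℤ, r k = n := by
  have hle : (atTop : Filter ℤ) ≤ cofinite := atTop_le_cofinite
  have ht : Tendsto r atTop (𝓝 0) := h0.mono_left hle
  have htp : Tendsto (fun k : ℤ => r (k + 1)) atTop (𝓝 0) :=
    ht.comp (tendsto_atTop_add_const_right _ 1 tendsto_id)
  have htm : Tendsto (fun k : ℤ => r (k - 1)) atTop (𝓝 0) := by
    have := ht.comp (tendsto_atTop_add_const_right _ (-1) tendsto_id)
    simpa [sub_eq_add_neg, Function.comp_def] using this
  have htd : Tendsto (fun k : ℤ => 2 * r k - r (k + 1) - r (k - 1)) atTop (𝓝 0) := by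
    have := ((ht.const_mul 2).sub htp).sub htm
    simpa using this
  have hev : ∀ᶠ k : ℤ in atTop, 2 * r k - r (k + 1) - r (k - 1) = 0 := by
    have h1 : ∀ᶠ k : ℤ in atTop, |2 * r k - r (k + 1) - r (k - 1)| < 1 := by
      have := htd.abs
      rw [abs_zero] at this
      exact this.eventually (gt_mem_nhds one_pos)
    filter_upwards [h1] with k hk
    obtain ⟨n, hn⟩ := h k
    rw [hn] at hk ⊢
    have h2 : |n| < 1 := by exact_mod_cast hk
    have h3 : n = 0 := Int.abs_lt_one_iff.1 h2
    rw [h3, Int.cast_zero]
  obtain ⟨M, hM⟩ := eventually_atTop.1 hev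
  -- first differences are constant
  have hd : ∀ n : ℕ, r (M + n + 1) - r (M + n) = r (M + 1) - r M := by
    intro n
    induction n with
    | zero => simp
    | succ n ih =>
      have h1 := hM (M + n + 1) (by omega)
      rw [show M + (n : ℤ) + 1 - 1 = M + n by ring] at h1
      push_cast
      rw [show M + ((n : ℤ) + 1) = M + n + 1 by ring]
      linarith
  have hdz : r (M + 1) - r M = 0 := by
    have h1 : Tendsto (fun n : ℕ => r (M + n + 1) - r (M + n)) atTop (𝓝 (0 - 0)) := by
      have hcast : Tendsto (fun n : ℕ => M + (n : ℤ)) atTop atTop :=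
        tendsto_atTop_add_const_left _ M tendsto_natCast_atTop_atTop
      exact (htp.comp hcast).sub (ht.comp hcast)
    rw [sub_zero] at h1
    refine tendsto_nhds_unique (f := fun n : ℕ => r (M + n + 1) - r (M + n)) ?_ h1
    simp_rw [hd]
    exact tendsto_const_nhds
  have hc : ∀ n : ℕ, r (M + n) = r M := by
    intro n
    induction n with
    | zero => simp
    | succ n ih =>
      have h1 := hd n
      rw [hdz] at h1
      push_cast
      rw [← add_assoc]
      linarith
  have hz : r M = 0 := by
    have h1 : Tendsto (fun n : ℕ => r (M + n)) atTop (𝓝 0) := by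
      have hcast : Tendsto (fun n : ℕ => M + (n : ℤ)) atTop atTop :=
        tendsto_atTop_add_const_left _ M tendsto_natCast_atTop_atTop
      exact ht.comp hcast
    refine tendsto_nhds_unique (f := fun n : ℕ => r (M + n)) ?_ h1
    simp_rw [hc]
    exact tendsto_const_nhds
  have hdown : ∀ n : ℕ, (∃ a : ℤ, r (M - n) = a) ∧ ∃ b : ℤ, r (M - n + 1) = b := by
    intro n
    induction n with
    | zero =>
      refine ⟨⟨0, by simpa using hz⟩, ⟨0, ?_⟩⟩
      have h1 := hc 1
      rw [hz] at h1
      simpa using h1
    | succ n ih =>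
      obtain ⟨⟨a, ha⟩, b, hb⟩ := ih
      obtain ⟨m, hm⟩ := h (M - n)
      push_cast
      refine ⟨⟨2 * a - b - m, ?_⟩, ⟨a, ?_⟩⟩
      · rw [show M - ((n : ℤ) + 1) = M - n - 1 by ring]
        push_cast
        linarith
      · rw [show M - ((n : ℤ) + 1) + 1 = M - n by ring]
        exact ha
  intro k
  rcases le_total M k with hk | hk
  · obtain ⟨n, hn⟩ := Int.eq_ofNat_of_zero_le (sub_nonneg.2 hk)
    refine ⟨0, ?_⟩
    have h1 := hc n
    rw [← hn, hz] at h1
    simpa using h1
  · obtain ⟨n, hn⟩ := Int.eq_ofNat_of_zero_le (sub_nonneg.2 hk)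
    obtain ⟨a, ha⟩ := (hdown n).1
    refine ⟨a, ?_⟩
    rw [← ha]
    congr 1
    omega

/-- Symmetry passes from the second differences to the sequence (the difference of both sides has
zero second differences and finite support, so it is zero). -/
theorem sym_of_second_diff {r : ℤ → ℤ} (h1 : ∀ k l, r k ≠ 0 → r l ≠ 0 → k = l) (K : ℤ)
    (h : ∀ k, 2 * r k - r (k + 1) - r (k - 1) =
      2 * r (K - k) - r (K - k + 1) - r (K - k - 1)) : ∀ k, r k = r (K - k) := by
  by_cases hz : ∀ k, r k = 0
  · intro k
    rw [hz, hz]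
  push Not at hz
  obtain ⟨a, ha⟩ := hz
  have hr : ∀ k, k ≠ a → r k = 0 := by
    intro k hk
    by_contra hne
    exact hk (h1 k a hne ha)
  have hs0 : ∀ k, k ≠ a → K - k ≠ a → r k = r (K - k) := by
    intro k hk hk'
    rw [hr k hk, hr _ hk']
  obtain ⟨J, hJ1, hJ2⟩ : ∃ J : ℤ, a < J ∧ K - a < J :=
    ⟨max a (K - a) + 1, by have := le_max_left a (K - a); omega,
      by have := le_max_right a (K - a); omega⟩
  have hup : ∀ k, J ≤ k → r k = r (K - k) := by
    intro k hk
    exact hs0 k (by omega) (by omega)
  have hdown : ∀ n : ℕ, r (J - n) = r (K - (J - n)) ∧ r (J - n + 1) = r (K - (J - n + 1)) := by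
    intro n
    induction n with
    | zero =>
      refine ⟨hup _ (by simp), hup _ (by simp)⟩
    | succ n ih =>
      obtain ⟨e1, e2⟩ := ih
      have h2 := h (J - n)
      push_cast
      rw [show J - ((n : ℤ) + 1) = J - n - 1 by ring]
      rw [show K - (J - (n : ℤ) - 1) = K - (J - n) + 1 by ring]
      rw [show J - (n : ℤ) - 1 + 1 = J - n by ring]
      rw [show K - (J - (n : ℤ) + 1) = K - (J - n) - 1 by ring] at e2
      refine ⟨by linarith, e1⟩
  intro k
  rcases le_total J k with hk | hk
  · exact hup k hk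
  · obtain ⟨n, hn⟩ := Int.eq_ofNat_of_zero_le (sub_nonneg.2 hk)
    have h3 := (hdown n).1
    rwa [show J - (n : ℤ) = k by omega] at h3

end Pool.Agent.EEAG1
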