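import Pool.Agent.W_eea520_g1.C6
import Pool.Agent.W_eea520_h99.RLa

/-!
# Isometries commuting with `T` (MP_eea520_nt, theorem G)
-/

set_option autoImplicit false

namespace Pool.Agent.EEAG1

open Filter Topology
open scoped InnerProductSpace

/-- Bessel's inequality for the coefficients `⟪T^k x, y⟫`, `k` in a finite set. -/
theorem RLb_bessel {H : Type*} [NormedAddCommGroup H] [InnerProductSpace ℝ H] {T : H ≃ₗᵢ[ℝ] H}
    {x y : H} (hx : ‖x‖ ^ 2 = 1) (hy : ‖y‖ ^ 2 = 1)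
    (ho : ∀ k : ℤ, k ≠ 0 → ⟪(T ^ k) y, y⟫_ℝ = 0) (s : Finset ℤ) :
    ∑ k ∈ s, ⟪(T ^ k) x, y⟫_ℝ ^ 2 ≤ 1 := by
  have horth := orthonormal_orbit hy ho
  have h1 := (horth.comp _ neg_injective).sum_inner_products_le x (s := s)
  rw [hx] at h1
  refine le_trans (le_of_eq (Finset.sum_congr rfl fun k _ => ?_)) h1
  show ⟪(T ^ k) x, y⟫_ℝ ^ 2 = ‖⟪(T ^ (-k)) y, x⟫_ℝ‖ ^ 2
  rw [Real.norm_eq_abs, sq_abs, inner_zpow_left, real_inner_comm]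

theorem RLb_tendsto {H : Type*} [NormedAddCommGroup H] [InnerProductSpace ℝ H] {T : H ≃ₗᵢ[ℝ] H}
    {x y : H} (hx : ‖x‖ ^ 2 = 1) (hy : ‖y‖ ^ 2 = 1)
    (ho : ∀ k : ℤ, k ≠ 0 → ⟪(T ^ k) y, y⟫_ℝ = 0) :
    Tendsto (fun k : ℤ => ⟪(T ^ k) x, y⟫_ℝ) cofinite (𝓝 0) := by
  have hs : Summable fun k : ℤ => ⟪(T ^ k) x, y⟫_ℝ ^ 2 :=
    summable_of_sum_le (fun k => sq_nonneg _) (RLb_bessel hx hy ho)
  have h1 := hs.tendsto_cofinite_zero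
  have h2 := (Real.continuous_sqrt.tendsto 0).comp h1
  rw [Real.sqrt_zero] at h2
  rw [tendsto_zero_iff_abs_tendsto_zero]
  refine h2.congr fun k => ?_
  exact Real.sqrt_sq_eq_abs _

/-- `r_k = ⟪T^k R y, y⟫`, `∑ r_k ^ 2 ≤ 1` (Bessel for the orthonormal family `T^(-k) y` and the vector `R y`, or
`T^k R y`), `⟪T^k R v, v⟫ = 2 r_k - r_(k+1) - r_(k-1)`, `int_of_second_diff`. -/
theorem rlem_st {H : Type*} [NormedAddCommGroup H] [InnerProductSpace ℝ H] {T R : H ≃ₗᵢ[ℝ] H}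
    (hTR : ∀ x, R (T x) = T (R x)) {v y : H} (hv : v = y - T y) (hy : ‖y‖ ^ 2 = 1)
    (ho : ∀ k : ℤ, k ≠ 0 → ⟪(T ^ k) y, y⟫_ℝ = 0)
    (hI : ∀ k : ℤ, ∃ n : ℤ, ⟪(T ^ k) (R v), v⟫_ℝ = n) :
    ∃ r : ℤ → ℤ, (∀ k, ⟪(T ^ k) (R y), y⟫_ℝ = r k) ∧
      (∀ k, ⟪(T ^ k) (R v), v⟫_ℝ = 2 * r k - r (k + 1) - r (k - 1)) ∧
      (∀ k l, r k ≠ 0 → r l ≠ 0 → k = l) ∧ ∀ k, |r k| ≤ 1 := by
  have hRy : ‖R y‖ ^ 2 = 1 := by rw [R.norm_map, hy]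
  have hsd : ∀ k : ℤ, ⟪(T ^ k) (R v), v⟫_ℝ = 2 * ⟪(T ^ k) (R y), y⟫_ℝ
      - ⟪(T ^ (k + 1)) (R y), y⟫_ℝ - ⟪(T ^ (k - 1)) (R y), y⟫_ℝ := by
    intro k
    have h1 : ∀ x : H, T x = (T ^ (1 : ℤ)) x := fun x => by rw [zpow_one]
    rw [hv, map_sub, hTR, map_sub, h1 (R y), h1 y, ← zpow_add_apply, inner_sub_left, inner_sub_right,
      inner_sub_right, inner_zpow, inner_zpow, add_sub_cancel_right]
    ring
  have hint := int_of_second_diff (r := fun k : ℤ => ⟪(T ^ k) (R y), y⟫_ℝ)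
    (RLb_tendsto hRy hy ho) (fun k => by
      obtain ⟨n, hn⟩ := hI k
      exact ⟨n, by rw [← hn, hsd]⟩)
  choose r hr using hint
  have hr' : ∀ k, ⟪(T ^ k) (R y), y⟫_ℝ = r k := hr
  refine ⟨r, hr', fun k => by rw [hsd, hr', hr', hr'], fun k l hk hl => ?_, fun k => ?_⟩
  · by_contra hkl
    have h1 := RLb_bessel hRy hy ho {k, l}
    rw [Finset.sum_pair hkl, hr', hr'] at h1
    have h2 : r k ^ 2 + r l ^ 2 ≤ 1 := by exact_mod_cast h1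
    have h3 : 1 ≤ r k ^ 2 := by
      have := pow_pos (abs_pos.2 hk) 2
      rw [sq_abs] at this
      omega
    have h4 : 1 ≤ r l ^ 2 := by
      have := pow_pos (abs_pos.2 hl) 2
      rw [sq_abs] at this
      omega
    omega
  · have h1 := RLb_bessel hRy hy ho {k}
    rw [Finset.sum_singleton, hr'] at h1
    have h2 : r k ^ 2 ≤ 1 := by exact_mod_cast h1
    exact abs_le_one_iff_mul_self_le_one.2 (by rw [← pow_two]; exact h2)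

end Pool.Agent.EEAG1
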