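import Pool.Agent.W_eea520_g1.C6

/-!
# Isometries commuting with `T` (MP_eea520_nt, theorem G)
-/

set_option autoImplicit false

namespace Pool.Agent.EEAG1

open Filter Topology
open scoped InnerProductSpace

theorem RLc_comm {H : Type*} [NormedAddCommGroup H] [InnerProductSpace ℝ H] {T R : H ≃ₗᵢ[ℝ] H}
    (hTR : ∀ x, R (T x) = T (R x)) (k : ℤ) (x : H) : R ((T ^ k) x) = (T ^ k) (R x) := by
  have hc : Commute R T := LinearIsometryEquiv.ext hTR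
  have h := congrArg (fun f : H ≃ₗᵢ[ℝ] H => f x) (hc.zpow_right k).eq
  exact h

theorem RLc_zpow_neg {H : Type*} [NormedAddCommGroup H] [InnerProductSpace ℝ H] {T : H ≃ₗᵢ[ℝ] H}
    {w : H} (hTw : T w = -w) (k : ℤ) : (T ^ k) w = ((-1 : ℝ) ^ k.natAbs) • w := by
  have h2 : (T ^ (2 : ℤ)) w = w := by
    have h : (T ^ ((1 : ℤ) + 1)) w = w := by
      rw [zpow_add_apply, zpow_one, hTw, map_neg, hTw, neg_neg]
    exact h
  rcases Int.even_or_odd' k with ⟨n, rfl | rfl⟩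
  · rw [mul_comm, zpow_mul_of_fix h2, Even.neg_one_pow, one_smul]
    rw [Int.natAbs_even]
    exact ⟨n, by ring⟩
  · rw [mul_comm, zpow_add_apply, zpow_one, hTw, map_neg, zpow_mul_of_fix h2, Odd.neg_one_pow, neg_one_smul]
    rw [Int.natAbs_odd]
    exact ⟨n, by ring⟩

/-- `r_k = ⟪T^k R u, u⟫`, `s = ⟪R w, w⟫`; the cross terms `⟪T^k R u, w⟫ = ± ⟪R u, w⟫`, `⟪T^k R w, u⟫` vanish by
`bessel_const` (the `T^k R u` are orthonormal; pass to even `k`); so `⟪T^k R v, v⟫ = r_k + (-1)^k s`; `r_k → 0`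
(Bessel), so `s` is a limit of integers, so all `r_k` are integers, `∑ r_k ^ 2 ≤ 1`. -/
theorem rlem_cm {H : Type*} [NormedAddCommGroup H] [InnerProductSpace ℝ H] {T R : H ≃ₗᵢ[ℝ] H}
    (hTR : ∀ x, R (T x) = T (R x)) {v u w : H} (hv : v = u + w) (hu : ‖u‖ ^ 2 = 1)
    (hw : ‖w‖ ^ 2 = 1) (ho : ∀ k : ℤ, k ≠ 0 → ⟪(T ^ k) u, u⟫_ℝ = 0)
    (huw : ∀ k : ℤ, ⟪(T ^ k) u, w⟫_ℝ = 0) (hTw : T w = -w)
    (hI : ∀ k : ℤ, ∃ n : ℤ, ⟪(T ^ k) (R v), v⟫_ℝ = n) :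
    ∃ (r : ℤ → ℤ) (s : ℤ), (∀ k, ⟪(T ^ k) (R u), u⟫_ℝ = r k) ∧ ⟪R w, w⟫_ℝ = s ∧
      (∀ k : ℤ, ⟪(T ^ k) (R v), v⟫_ℝ = r k + (-1) ^ k.natAbs * s) ∧
      (∀ k l, r k ≠ 0 → r l ≠ 0 → k = l) ∧ (∀ k, |r k| ≤ 1) ∧ |s| ≤ 1 := by
  have hRk := RLc_comm hTR
  have hTk := RLc_zpow_neg hTw
  -- the orthonormal families
  have horb := orthonormal_orbit hu ho
  have hRo : Orthonormal ℝ (fun k : ℤ => (T ^ k) (R u)) := by
    refine orthonormal_orbit (by rw [LinearIsometryEquiv.norm_map, hu]) fun i hi => ?_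
    rw [← hRk, LinearIsometryEquiv.inner_map_map]
    exact ho i hi
  have hinj : Function.Injective (fun n : ℤ => n * 2) := fun a b h => by
    have h' : a * 2 = b * 2 := h
    omega
  have heven : ∀ n : ℤ, ((-1 : ℝ)) ^ (n * 2).natAbs = 1 := fun n => by
    rw [Even.neg_one_pow]
    rw [Int.natAbs_even]
    exact ⟨n, by ring⟩
  have hevenn : ∀ n : ℤ, ((-1 : ℝ)) ^ (-(n * 2)).natAbs = 1 := fun n => by
    rw [Int.natAbs_neg]
    exact heven n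
  have hc1 : ⟪R u, w⟫_ℝ = 0 := by
    refine bessel_const (hRo.comp _ hinj) w _ fun n => ?_
    show ⟪(T ^ (n * 2)) (R u), w⟫_ℝ = ⟪R u, w⟫_ℝ
    rw [inner_zpow_left, hTk, hevenn, one_smul]
  have hc2 : ⟪u, R w⟫_ℝ = 0 := by
    refine bessel_const (horb.comp _ hinj) (R w) _ fun n => ?_
    show ⟪(T ^ (n * 2)) u, R w⟫_ℝ = ⟪u, R w⟫_ℝ
    rw [inner_zpow_left, ← hRk, hTk, hevenn, one_smul]
  have hexp : ∀ k : ℤ, ⟪(T ^ k) (R v), v⟫_ℝ = ⟪(T ^ k) (R u), u⟫_ℝ + (-1) ^ k.natAbs * ⟪R w, w⟫_ℝ := by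
    intro k
    have e1 : (T ^ k) (R v) = (T ^ k) (R u) + ((-1 : ℝ) ^ k.natAbs) • R w := by
      rw [hv, map_add, map_add, ← hRk k w, hTk, map_smul]
    have e2 : ⟪(T ^ k) (R u), w⟫_ℝ = 0 := by
      rw [inner_zpow_left, hTk, inner_smul_right, hc1, mul_zero]
    have e3 : ⟪R w, u⟫_ℝ = 0 := by rw [real_inner_comm]; exact hc2
    rw [e1, hv, inner_add_left, inner_add_right, inner_add_right, real_inner_smul_left,
      real_inner_smul_left, e2, e3]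
    ring
  -- r_k → 0
  have hsum : Summable fun k : ℤ => ‖⟪(T ^ k) (R u), u⟫_ℝ‖ ^ 2 := hRo.inner_products_summable u
  have hlim : Tendsto (fun k : ℤ => ⟪(T ^ k) (R u), u⟫_ℝ) cofinite (𝓝 0) := by
    have h := hsum.tendsto_cofinite_zero.sqrt
    rw [Real.sqrt_zero] at h
    rw [tendsto_zero_iff_norm_tendsto_zero]
    refine h.congr fun k => ?_
    rw [Real.sqrt_sq (norm_nonneg _)]
  have hs : ∃ s : ℤ, ⟪R w, w⟫_ℝ = s := by
    have h1 : Tendsto (fun n : ℤ => ⟪(T ^ (n * 2)) (R v), v⟫_ℝ) cofinite (𝓝 ⟪R w, w⟫_ℝ) := by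
      have h2 := (hlim.comp hinj.tendsto_cofinite).add_const ⟪R w, w⟫_ℝ
      rw [zero_add] at h2
      refine h2.congr fun n => ?_
      rw [hexp, heven, one_mul]
      rfl
    exact int_of_tendsto (fun n => hI (n * 2)) h1
  obtain ⟨s, hs⟩ := hs
  have hr : ∀ k : ℤ, ∃ n : ℤ, ⟪(T ^ k) (R u), u⟫_ℝ = n := by
    intro k
    obtain ⟨m, hm⟩ := hI k
    refine ⟨m - (-1) ^ k.natAbs * s, ?_⟩
    have h1 := hexp k
    rw [hm, hs] at h1
    push_cast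
    linarith
  choose r hr using hr
  have hnu : ‖u‖ = 1 := by
    have := norm_nonneg u
    nlinarith
  have hnw : ‖w‖ = 1 := by
    have := norm_nonneg w
    nlinarith
  refine ⟨r, s, hr, hs, fun k => by rw [hexp, hr, hs], fun k l hk hl => ?_, fun k => ?_, ?_⟩
  · by_contra hkl
    have h1 := hRo.sum_inner_products_le u (s := {k, l})
    rw [Finset.sum_pair hkl, hr, hr, hu] at h1
    rw [Real.norm_eq_abs, Real.norm_eq_abs, sq_abs, sq_abs] at h1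
    have h2 : r k ^ 2 + r l ^ 2 ≤ 1 := by exact_mod_cast h1
    have h3 : 0 < r k ^ 2 := by positivity
    have h4 : 0 < r l ^ 2 := by positivity
    omega
  · have h1 := abs_real_inner_le_norm ((T ^ k) (R u)) u
    rw [norm_zpow, LinearIsometryEquiv.norm_map, hnu, hr, one_mul, ← Int.cast_abs] at h1
    exact_mod_cast h1
  · have h1 := abs_real_inner_le_norm (R w) w
    rw [LinearIsometryEquiv.norm_map, hnw, hs, one_mul, ← Int.cast_abs] at h1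
    exact_mod_cast h1

end Pool.Agent.EEAG1
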