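import Pool.Agent.W_eea520_g1.C6

/-!
# Isometries commuting with `T` (MP_eea520_nt, theorem G)
-/

set_option autoImplicit false

namespace Pool.Agent.EEAG1

open Filter Topology
open scoped InnerProductSpace

/-- The case `⟪T v, v⟫ = -1` (`caseA_vec`, `caseB_vec`, `Set.finite_or_infinite`; in the first case `m = 1` and
`e = -1` because `⟪T v, v⟫ = -1`, in the second `m ∣ 1` and `e = -1`). -/
theorem three_cases {H : Type*} [NormedAddCommGroup H] [InnerProductSpace ℝ H] [CompleteSpace H]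
    {T : H ≃ₗᵢ[ℝ] H} {v : H} (hv : ‖v‖ ^ 2 = 2) (h : IP T v v) (h1 : ⟪T v, v⟫_ℝ = -1) :
    (∃ y : H, v = y - T y ∧ ‖y‖ ^ 2 = 1 ∧ ∀ k : ℤ, k ≠ 0 → ⟪(T ^ k) y, y⟫_ℝ = 0) ∨
    (∃ u w : H, v = u + w ∧ ‖u‖ ^ 2 = 1 ∧ ‖w‖ ^ 2 = 1 ∧ (∀ k : ℤ, k ≠ 0 → ⟪(T ^ k) u, u⟫_ℝ = 0) ∧
      (∀ k : ℤ, ⟪(T ^ k) u, w⟫_ℝ = 0) ∧ T w = -w) ∨
    ∃ r : ℕ, 0 < r ∧ (T ^ (r : ℤ)) v = v := by
  have hT1 : ∀ x, (T ^ (1 : ℤ)) x = T x := fun x => by rw [zpow_one]
  by_cases hfin : {k : ℤ | ⟪(T ^ k) v, v⟫_ℝ ≠ 0}.Finite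
  · left
    rcases caseA_vec hv h hfin with h0 | ⟨m, hm, e, he, y, hy, hy1, -, hy2⟩
    · exfalso
      have h2 := h0 1 one_ne_zero
      rw [hT1, h1] at h2
      norm_num at h2
    · have hyy : ⟪y, y⟫_ℝ = 1 := by rw [real_inner_self_eq_norm_sq, hy1]
      have hd : ∀ k : ℤ, ⟪(T ^ k) y, y⟫_ℝ = if k = 0 then 1 else 0 := by
        intro k
        split_ifs with hk
        · rw [hk, zpow_zero_apply, hyy]
        · exact hy2 k hk
      have h2 : ⟪(T ^ (1 : ℤ)) v, v⟫_ℝ = ⟪(T ^ (1 : ℤ)) y, y⟫_ℝ + e * ⟪(T ^ (1 - m)) y, y⟫_ℝ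
          + e * ⟪(T ^ (1 + m)) y, y⟫_ℝ + e * e * ⟪(T ^ (1 : ℤ)) y, y⟫_ℝ := by
        conv_lhs => rw [hy]
        rw [map_add, map_smul, ← zpow_add_apply, inner_add_left, inner_add_right, inner_add_right,
          real_inner_smul_left, real_inner_smul_left, inner_smul_right, inner_smul_right, inner_zpow,
          inner_zpow, show 1 + m - m = (1 : ℤ) by ring]
        ring
      rw [hT1, h1, hd, hd, hd, if_neg one_ne_zero] at h2
      have hm1 : m = 1 := by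
        by_contra hne
        rw [if_neg (by omega), if_neg (by omega)] at h2
        norm_num at h2
      subst hm1
      rw [if_pos (by norm_num), if_neg (by norm_num)] at h2
      have he1 : (e : ℝ) = -1 := by linarith
      refine ⟨y, ?_, hy1, hy2⟩
      rw [hT1, he1, neg_smul, one_smul, ← sub_eq_add_neg] at hy
      exact hy
  · right
    rcases caseB_vec hv h hfin with ⟨r, hr, hr2⟩ | ⟨u, w, huw, hu, hw, -, -, hu2, huw2, m, hm, e, he, hTw,
      hw2⟩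
    · right
      refine ⟨r.natAbs, Int.natAbs_pos.2 hr, ?_⟩
      rcases Int.natAbs_eq r with h3 | h3
      · rw [← h3]
        exact hr2
      · have h4 : ((r.natAbs : ℕ) : ℤ) = (-1) * r := by omega
        rw [h4]
        exact zpow_mul_of_fix hr2 _
    · left
      have hwu : ⟪(T ^ (1 : ℤ)) w, u⟫_ℝ = 0 := by
        rw [inner_zpow_left, real_inner_comm]
        exact huw2 _
      have h2 : ⟪(T ^ (1 : ℤ)) v, v⟫_ℝ = ⟪(T ^ (1 : ℤ)) w, w⟫_ℝ := by
        rw [huw, map_add, inner_add_left, inner_add_right, inner_add_right, hu2 1 one_ne_zero, huw2, hwu]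
        ring
      rw [hT1, h1] at h2
      have hm1 : m ∣ 1 := by
        by_contra hne
        rw [hw2 1 hne] at h2
        norm_num at h2
      have hm2 : m = 1 := Int.eq_one_of_dvd_one hm.le hm1
      subst hm2
      have hww : ⟪w, w⟫_ℝ = 1 := by rw [real_inner_self_eq_norm_sq, hw]
      rw [hTw, real_inner_smul_left, hww, mul_one] at h2
      refine ⟨u, w, huw, hu, hw, hu2, huw2, ?_⟩
      rw [← hT1, hTw, ← h2, neg_smul, one_smul]

end Pool.Agent.EEAG1
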