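import Pool.Agent.W_eea520_h99.ZetaP
import Pool.Agent.W_eea520_h99.RLa
import Pool.Agent.W_eea520_h99.RLb
import Pool.Agent.W_eea520_h99.RLc
import Pool.Agent.W_eea520_h99.RLd

/-!
# `GL_2`: the characters, the function of the pole orders (MP_eea520_nt, theorem G)
-/

set_option autoImplicit false

namespace Pool.Agent.EEA520

open Filter Topology Pool.Agent.EEAG1
open scoped InnerProductSpace

/-- The weight `c ^ K * x ^ M` for `n = 1`. -/
def w1 (K M : ℤ) : Wt 1 := (K, fun _ => M)

/-- The character of the representation `Sym^k ⊗ det^j` of `GL_2(ℂ) = GSpin_3(ℂ)`: the classes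
`π p = (c, x)` have the eigenvalues `c`, `c x`. -/
noncomputable def symdet (k : ℕ) (j : ℤ) : Wt 1 →₀ ℤ :=
  ∑ i ∈ Finset.range (k + 1), Finsupp.single (w1 (k + 2 * j) (i + j)) 1

theorem symdet_apply (k : ℕ) (j : ℤ) (u : Wt 1) : symdet k j u =
    ∑ i ∈ Finset.range (k + 1), if w1 (k + 2 * j) (i + j) = u then 1 else 0 := by
  classical
  unfold symdet
  rw [Finsupp.finsetSum_apply]
  refine Finset.sum_congr rfl fun g _ => ?_
  rw [Finsupp.single_apply]

theorem symdet_isCharacter (k : ℕ) (j : ℤ) : IsCharacter (symdet k j) := by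
  classical
  constructor
  · intro σ K μ
    have h1 : σ = 1 := Subsingleton.elim _ _
    rw [h1]
    rfl
  · intro i K μ
    rw [symdet_apply, symdet_apply, ← Finset.sum_range_reflect]
    refine Finset.sum_congr rfl fun a ha => if_congr ?_ rfl rfl
    rw [Finset.mem_range] at ha
    unfold w1
    rw [Prod.mk.injEq, Prod.mk.injEq]
    refine and_congr_right fun h0 => ?_
    have hi : i = 0 := Subsingleton.elim _ _
    subst hi
    have h2 : ((k + 1 - 1 - a : ℕ) : ℤ) = k - a := by
      rw [Nat.add_sub_cancel]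
      push_cast [Nat.le_of_lt_succ ha]
      ring
    rw [h2]
    constructor
    · intro h
      funext l
      have hl : l = 0 := Subsingleton.elim _ _
      subst hl
      have h3 := congrFun h 0
      rw [Function.update_self] at h3
      linarith
    · intro h
      funext l
      have hl : l = 0 := Subsingleton.elim _ _
      subst hl
      have h3 := congrFun h 0
      rw [Function.update_self]
      linarith

/-- The pole orders of `Sym^k ⊗ det^j`. -/
theorem order_symdet {π : GSys 1} (hπ : Tempered π) {E : AddSubgroup ℝ} {c : Wt 1 × E → ℤ}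
    (hc : IsOrd π E c) {k : ℕ} {j : ℤ} {t : E} {o : ℤ} (ho : PoleOrder π (symdet k j) (pt t) o) :
    2 * o = ∑ i ∈ Finset.range (k + 1), c (w1 (k + 2 * j) (i + j), t) := by
  classical
  have h1 := order_formula hπ hc (symdet_isCharacter k j) t ho
  rw [card_WG] at h1
  have h2 : ((symdet k j).sum fun w e => e * c (w, t)) =
      ∑ i ∈ Finset.range (k + 1), c (w1 (k + 2 * j) (i + j), t) := by
    unfold symdet
    rw [← Finsupp.sum_finsetSum_index (by intro a; simp) (by intro a b c; ring)]
    refine Finset.sum_congr rfl fun i _ => ?_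
    rw [Finsupp.sum_single_index (by simp)]
    ring
  rw [h2] at h1
  rw [← h1]
  norm_num

/-- The Weyl group of `GL_2`. -/
theorem orb_sum_one (K M : ℤ) (f : Wt 1 → ℝ) :
    ∑ g : WG 1, f (act g (w1 K M)) = f (w1 K M) + f (w1 K (K - M)) := by
  classical
  rw [Fintype.sum_prod_type, Fintype.sum_unique]
  have h1 : (Finset.univ : Finset (Finset (Fin 1))) = {∅, {0}} := by decide
  rw [h1, Finset.sum_pair (by decide)]
  have e1 : act (default, ∅) (w1 K M) = w1 K M := by
    rw [act_apply]
    unfold w1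
    simp
  have e2 : act (default, {0}) (w1 K M) = w1 K (K - M) := by
    rw [act_apply]
    unfold w1
    refine Prod.ext rfl ?_
    funext l
    have hl : l = 0 := Subsingleton.elim _ _
    subst hl
    simp
  rw [e1, e2]

theorem ord_reflect {π : GSys 1} (hπ : Tempered π) {E : AddSubgroup ℝ} {c : Wt 1 × E → ℤ}
    (hc : IsOrd π E c) (K M : ℤ) (t : E) : c (w1 K (K - M), t) = c (w1 K M, t) := by
  have h0 : ∀ M' : ℤ, (fun p => ∑ g : WG 1, zre π (act g (w1 K M')) (t : ℝ) p) =
      fun p => zre π (w1 K M') (t : ℝ) p + zre π (w1 K (K - M')) (t : ℝ) p := by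
    intro M'
    funext p
    exact orb_sum_one K M' fun w => zre π w (t : ℝ) p
  have h1 : MeanP (fun p => ∑ g : WG 1, zre π (act g (w1 K (K - M))) (t : ℝ) p)
      (c (w1 K (K - M), t)) := hc.mean hπ (w1 K (K - M), t)
  have h2 : MeanP (fun p => ∑ g : WG 1, zre π (act g (w1 K M)) (t : ℝ) p)
      (c (w1 K M, t)) := hc.mean hπ (w1 K M, t)
  rw [h0] at h1 h2
  rw [sub_sub_cancel] at h1
  have h3 : MeanP (fun p => zre π (w1 K M) (t : ℝ) p + zre π (w1 K (K - M)) (t : ℝ) p)
      (c (w1 K (K - M), t)) := by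
    refine h1.congr fun s => ?_
    congr 2
    funext p
    ring
  exact_mod_cast MeanP.unique h3 h2

theorem ord_zero {n : ℕ} {π : GSys n} (hπ : Tempered π) {E : AddSubgroup ℝ} {c : Wt n × E → ℤ}
    (hc : IsOrd π E c) (t : E) : c (0, t) = if t = 0 then (Fintype.card (WG n) : ℤ) else 0 := by
  classical
  have h1 := hc.mean hπ (0, t)
  have h2 := (mean_pit (t : ℝ)).const_mul (Fintype.card (WG n))
  have h3 : (fun p => ∑ g : WG n, zre π (act g ((0 : Wt n), t).1) (((0 : Wt n), t).2 : ℝ) p) =
      fun p : Pr => (Fintype.card (WG n) : ℝ) *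
        (((p : ℕ) : ℂ) ^ (-(((t : ℝ) : ℂ) * Complex.I))).re := by
    funext p
    have h4 : ∀ g ∈ (Finset.univ : Finset (WG n)),
        zre π (act g (0 : Wt n)) (t : ℝ) p =
          (((p : ℕ) : ℂ) ^ (-(((t : ℝ) : ℂ) * Complex.I))).re := by
      intro g _
      rw [map_zero]
      unfold zre
      have h5 : (π p).ev 0 = 1 := by
        unfold Torus.ev
        simp
      rw [h5]
      simp
    show ∑ g : WG n, zre π (act g (0 : Wt n)) (t : ℝ) p = _
    rw [Finset.sum_congr rfl h4, Finset.sum_const, Finset.card_univ, nsmul_eq_mul]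
  rw [h3] at h1
  have h4 := MeanP.unique h1 h2
  have h5 : ((t : ℝ) = 0) ↔ t = 0 := by
    constructor
    · intro h
      exact Subtype.ext h
    · rintro rfl
      rfl
  by_cases ht : t = 0
  · rw [if_pos ht]
    rw [if_pos (h5.2 ht), mul_one] at h4
    exact_mod_cast h4
  · rw [if_neg ht]
    rw [if_neg (fun h => ht (h5.1 h)), mul_zero] at h4
    exact_mod_cast h4

end Pool.Agent.EEA520
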