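import Pool.Agent.W_eea520_h99.MainG

/-!
# The ordinates of the zeros and poles lie in a finitely generated group (MP_eea520_nt, theorem G)
-/

set_option autoImplicit false

namespace Pool.Agent.EEA520

open Filter Topology Pool.Agent.EEAG1

theorem IsPosDef.le_zero {G : Type} [AddCommGroup G] {c : G → ℤ} (h : IsPosDef c) (g : G) :
    |c g| ≤ c 0 := by
  classical
  by_cases hg : g = 0
  · subst hg
    have h1 := h.2 (Finsupp.single 0 1)
    rw [Finsupp.sum_single_index (by simp), Finsupp.sum_single_index (by simp)] at h1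
    simp only [sub_zero, mul_one, one_mul] at h1
    rw [abs_of_nonneg h1]
  · have key : ∀ e : ℤ, (e = 1 ∨ e = -1) → 0 ≤ 2 * c 0 + 2 * e * c g := by
      intro e he
      have h1 := h.2 (Finsupp.single 0 1 + Finsupp.single g e)
      have h2 : ∀ f : G → ℤ → ℤ, (∀ a, f a 0 = 0) →
          (Finsupp.single 0 1 + Finsupp.single g e : G →₀ ℤ).sum f = f 0 1 + f g e := by
        intro f hf
        rw [Finsupp.sum_add_index_of_disjoint, Finsupp.sum_single_index (hf _),
          Finsupp.sum_single_index (hf _)]
        refine Finset.disjoint_of_subset_left Finsupp.support_single_subset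
          (Finset.disjoint_of_subset_right Finsupp.support_single_subset ?_)
        simpa using Ne.symm hg
      rw [h2 _ (fun a => by simp), h2 _ (fun a => by simp), h2 _ (fun a => by simp)] at h1
      rw [sub_self, sub_self, zero_sub, sub_zero, h.1] at h1
      rcases he with rfl | rfl <;> linarith
    have h1 := key 1 (Or.inl rfl)
    have h2 := key (-1) (Or.inr rfl)
    rw [abs_le]
    constructor <;> linarith

theorem IsPosDef.sum {G : Type} [AddCommGroup G] {c : G → ℤ} (h : IsPosDef c) (N : ℕ) (g : ℕ → G) :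
    0 ≤ ∑ a ∈ Finset.range N, ∑ b ∈ Finset.range N, c (g a - g b) := by
  classical
  have h1 := h.2 (∑ a ∈ Finset.range N, Finsupp.single (g a) 1)
  have h2 : ∀ f : G → ℤ → ℤ, (∀ a, f a 0 = 0) → (∀ a x y, f a (x + y) = f a x + f a y) →
      (∑ a ∈ Finset.range N, Finsupp.single (g a) (1 : ℤ)).sum f =
        ∑ a ∈ Finset.range N, f (g a) 1 := by
    intro f hf hf'
    rw [← Finsupp.sum_finsetSum_index hf hf']
    refine Finset.sum_congr rfl fun a _ => ?_
    rw [Finsupp.sum_single_index (hf _)]
  rw [h2 _ (fun a => by simp) (fun a x y => by simp [add_mul, Finsupp.sum_add])] at h1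
  refine h1.trans_eq (Finset.sum_congr rfl fun a _ => ?_)
  rw [h2 _ (fun b => by simp) (fun b x y => by ring)]
  refine Finset.sum_congr rfl fun b _ => ?_
  ring

theorem single_isCharacter (n : ℕ) : IsCharacter (Finsupp.single (0 : Wt n) (1 : ℤ)) := by
  classical
  constructor
  · intro σ k μ
    rw [Finsupp.single_apply, Finsupp.single_apply]
    refine if_congr ?_ rfl rfl
    show ((0 : ℤ), (0 : Fin n → ℤ)) = (k, μ ∘ σ) ↔ ((0 : ℤ), (0 : Fin n → ℤ)) = (k, μ)
    rw [Prod.mk.injEq, Prod.mk.injEq]
    refine and_congr_right fun _ => ⟨fun h => ?_, fun h => ?_⟩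
    · funext i
      have := congrFun h (σ.symm i)
      simpa using this
    · rw [← h]
      rfl
  · intro i k μ
    rw [Finsupp.single_apply, Finsupp.single_apply]
    refine if_congr ?_ rfl rfl
    show ((0 : ℤ), (0 : Fin n → ℤ)) = (k, Function.update μ i (k - μ i)) ↔
      ((0 : ℤ), (0 : Fin n → ℤ)) = (k, μ)
    rw [Prod.mk.injEq, Prod.mk.injEq]
    refine and_congr_right fun h0 => ⟨fun h => ?_, fun h => ?_⟩
    · funext j
      have h1 := congrFun h j
      by_cases hj : j = i
      · subst hj
        rw [Function.update_self] at h1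
        simp only [Pi.zero_apply] at h1 ⊢
        linarith
      · rw [Function.update_of_ne hj] at h1
        exact h1
    · funext j
      by_cases hj : j = i
      · subst hj
        rw [Function.update_self, ← h, ← h0]
        simp
      · rw [Function.update_of_ne hj, ← h]

theorem order_one {n : ℕ} {π : GSys n} (hπ : Tempered π) {t : ℝ} {k : ℤ}
    (h : PoleOrder π (Finsupp.single 0 1) (pt t) k) : k = if t = 0 then 1 else 0 := by
  have h1 := mean_of_poleOrder hπ h
  have h2 := mean_pit t
  have h3 : tre π (Finsupp.single 0 1) t = fun p : Pr =>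
      (((p : ℕ) : ℂ) ^ (-(t * Complex.I))).re := by
    funext p
    unfold tre zre
    rw [Finsupp.sum_single_index (by simp)]
    have h5 : (π p).ev 0 = 1 := by
      unfold Torus.ev
      simp
    rw [h5]
    simp
  rw [h3] at h1
  have h4 := MeanP.unique h1 h2
  split_ifs with ht
  · rw [if_pos ht] at h4
    exact_mod_cast h4
  · rw [if_neg ht] at h4
    exact_mod_cast h4

/-- The ordinates. -/
theorem exists_fg {n : ℕ} {π : GSys n} (hπ : Tempered π) {E : AddSubgroup ℝ}
    (h : ∀ m, IsCharacter m → ∀ t ∈ E, MeroAt π m (pt t)) :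
    ∃ Θ : AddSubgroup ℝ, Θ.FG ∧ ∀ m, IsCharacter m → ∀ t ∈ E, ∀ k : ℤ,
      PoleOrder π m (pt t) k → k ≠ 0 → t ∈ Θ := by
  classical
  obtain ⟨r, d, L, h1, h2, h3, h4⟩ := structureG hπ h
  -- the value at `(0, t)`
  have h0 : ∀ t : E, ∑ i, d i (0, t) = if t = 0 then (2 ^ n * n.factorial : ℤ) else 0 := by
    intro t
    obtain ⟨k, hk⟩ := exists_poleOrder hπ (h _ (single_isCharacter n) t t.2)
    have h5 := h4 _ (single_isCharacter n) t k hk
    rw [Finsupp.sum_single_index (by simp), one_mul] at h5
    rw [← h5, order_one hπ hk]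
    have h6 : ((t : ℝ) = 0) ↔ t = 0 := ⟨fun h => Subtype.ext h, fun h => by rw [h]; rfl⟩
    simp only [h6]
    split_ifs <;> simp
  have hfix : ∀ i, ∀ l ∈ L i, d i l = d i 0 := by
    intro i l hl
    have := h2 i 0 l hl
    rwa [zero_add] at this
  -- trivial intersections
  have hint : ∀ i, d i 0 ≠ 0 → ∀ t : E, ((0 : Wt n), t) ∈ L i → t = 0 := by
    intro i hi t ht
    by_contra ht0
    have hpos : 1 ≤ d i 0 := by
      have := (abs_nonneg _).trans ((h1 i).le_zero 0)
      omega
    have key : ∀ N : ℕ, (N : ℤ) * N * d i 0 ≤ N * (2 ^ n * n.factorial : ℤ) := by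
      intro N
      have e1 : ∑ a ∈ Finset.range N, ∑ b ∈ Finset.range N,
          d i ((0, a • t) - (0, b • t)) = (N : ℤ) * N * d i 0 := by
        have e2 : ∀ a ∈ Finset.range N, ∑ b ∈ Finset.range N,
            d i (((0 : Wt n), a • t) - (0, b • t)) = N * d i 0 := by
          intro a _
          have e3 : ∀ b ∈ Finset.range N, d i (((0 : Wt n), a • t) - (0, b • t)) = d i 0 := by
            intro b _
            refine hfix i _ ?_
            have e4 : (((0 : Wt n), a • t) - (0, b • t) : Wt n × E) =
                ((a : ℤ) - b) • ((0 : Wt n), t) := by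
              refine Prod.ext ?_ ?_
              · simp
              · show a • t - b • t = ((a : ℤ) - b) • t
                rw [sub_smul, natCast_zsmul, natCast_zsmul]
            rw [e4]
            exact (L i).zsmul_mem ht _
          rw [Finset.sum_congr rfl e3, Finset.sum_const, Finset.card_range, nsmul_eq_mul]
        rw [Finset.sum_congr rfl e2, Finset.sum_const, Finset.card_range, nsmul_eq_mul]
        ring
      have e5 : ∑ j, ∑ a ∈ Finset.range N, ∑ b ∈ Finset.range N,
          d j (((0 : Wt n), a • t) - (0, b • t)) = N * (2 ^ n * n.factorial : ℤ) := by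
        rw [Finset.sum_comm]
        have e6 : ∀ a ∈ Finset.range N, ∑ j, ∑ b ∈ Finset.range N,
            d j (((0 : Wt n), a • t) - (0, b • t)) = (2 ^ n * n.factorial : ℤ) := by
          intro a ha
          rw [Finset.sum_comm]
          have e7 : ∀ b ∈ Finset.range N, ∑ j, d j (((0 : Wt n), a • t) - (0, b • t)) =
              if b = a then (2 ^ n * n.factorial : ℤ) else 0 := by
            intro b _
            have e8 : (((0 : Wt n), a • t) - (0, b • t) : Wt n × E) = (0, ((a : ℤ) - b) • t) := by
              refine Prod.ext ?_ ?_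
              · simp
              · show a • t - b • t = ((a : ℤ) - b) • t
                rw [sub_smul, natCast_zsmul, natCast_zsmul]
            rw [e8, h0]
            refine if_congr ?_ rfl rfl
            constructor
            · intro h9
              have h10 : (((a : ℤ) - b : ℤ) : ℝ) * (t : ℝ) = 0 := by
                have := congrArg (Subtype.val : E → ℝ) h9
                simpa using this
              rcases mul_eq_zero.1 h10 with h11 | h11
              · have h12 : ((a : ℤ) - b) = 0 := by exact_mod_cast h11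
                omega
              · exact absurd (Subtype.ext h11) ht0
            · rintro rfl
              simp
          rw [Finset.sum_congr rfl e7, Finset.sum_ite_eq', if_pos ha]
        rw [Finset.sum_congr rfl e6, Finset.sum_const, Finset.card_range, nsmul_eq_mul]
      rw [← e1, ← e5]
      exact Finset.single_le_sum (f := fun j => ∑ a ∈ Finset.range N, ∑ b ∈ Finset.range N,
          d j (((0 : Wt n), a • t) - (0, b • t)))
        (fun j _ => (h1 j).sum N fun a => ((0 : Wt n), a • t)) (Finset.mem_univ i)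
    have h5 := key (2 ^ n * n.factorial + 1)
    push_cast at h5
    have h6 : (0 : ℤ) < 2 ^ n * n.factorial + 1 := by positivity
    nlinarith
  -- generators
  have hgen : ∀ i, ∃ S : Finset ℝ, d i 0 ≠ 0 → ∀ l ∈ L i, ((l.2 : E) : ℝ) ∈ AddSubgroup.closure
      (S : Set ℝ) := by
    intro i
    by_cases hi : d i 0 = 0
    · exact ⟨∅, fun h => absurd hi h⟩
    · let f : L i →ₗ[ℤ] Wt n :=
        ((AddMonoidHom.fst (Wt n) E).comp (L i).subtype).toIntLinearMap
      have hinj : Function.Injective f := by
        rw [injective_iff_map_eq_zero]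
        intro a ha
        have ha1 : (a : Wt n × E).1 = 0 := ha
        have ha2 := hint i hi (a : Wt n × E).2 (by
          have e : ((0 : Wt n), (a : Wt n × E).2) = (a : Wt n × E) := Prod.ext ha1.symm rfl
          rw [e]
          exact a.2)
        exact Subtype.ext (Prod.ext ha1 ha2)
      have hN : IsNoetherian ℤ (L i) := isNoetherian_of_injective f hinj
      have hF : (⊤ : Submodule ℤ (L i)).FG := hN.noetherian ⊤
      obtain ⟨S, hS⟩ := hF
      let g : L i →+ ℝ := E.subtype.comp ((AddMonoidHom.snd (Wt n) E).comp (L i).subtype)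
      refine ⟨S.image g, fun _ l hl => ?_⟩
      have hmem : (⟨l, hl⟩ : L i) ∈ Submodule.span ℤ (S : Set (L i)) := by
        rw [hS]
        trivial
      rw [← Submodule.mem_toAddSubgroup, Submodule.span_int_eq_addSubgroupClosure] at hmem
      have h7 : g ⟨l, hl⟩ ∈ (AddSubgroup.closure (S : Set (L i))).map g := ⟨_, hmem, rfl⟩
      rw [AddMonoidHom.map_closure] at h7
      rw [Finset.coe_image]
      exact h7
  choose S hS using hgen
  choose F hF using h3
  set T : Finset ℝ := Finset.univ.biUnion fun i => S i ∪ (F i).image fun x => ((x.2 : E) : ℝ) with hT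
  refine ⟨AddSubgroup.closure (T : Set ℝ), ⟨T, rfl⟩, fun m hm t ht k hk hk0 => ?_⟩
  have h5 := h4 m hm ⟨t, ht⟩ k hk
  have h6 : ∃ w i, d i (w, ⟨t, ht⟩) ≠ 0 := by
    by_contra hcon
    push Not at hcon
    have h7 : (m.sum fun w e => e * ∑ i, d i (w, (⟨t, ht⟩ : E))) = 0 := by
      unfold Finsupp.sum
      refine Finset.sum_eq_zero fun w _ => ?_
      show m w * ∑ i, d i (w, (⟨t, ht⟩ : E)) = 0
      rw [Finset.sum_eq_zero fun i _ => hcon w i, mul_zero]
    rw [h7] at h5
    have h8 : (2 ^ n * n.factorial : ℤ) ≠ 0 := by positivity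
    exact hk0 ((mul_eq_zero.1 h5).resolve_left h8)
  obtain ⟨w, i, hwi⟩ := h6
  have hi : d i 0 ≠ 0 := by
    intro h7
    have h8 := (h1 i).le_zero (w, ⟨t, ht⟩)
    rw [h7, abs_nonpos_iff] at h8
    exact hwi h8
  obtain ⟨y, hy, hyL⟩ := hF i _ hwi
  have h7 := hS i hi _ hyL
  have hsub1 : AddSubgroup.closure ((S i : Finset ℝ) : Set ℝ) ≤ AddSubgroup.closure (T : Set ℝ) := by
    refine AddSubgroup.closure_mono ?_
    intro a ha
    rw [hT, Finset.mem_coe, Finset.mem_biUnion]
    exact ⟨i, Finset.mem_univ i, Finset.mem_union_left _ ha⟩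
  have h8 : ((y.2 : E) : ℝ) ∈ AddSubgroup.closure (T : Set ℝ) := by
    refine AddSubgroup.subset_closure ?_
    rw [hT, Finset.mem_coe, Finset.mem_biUnion]
    exact ⟨i, Finset.mem_univ i, Finset.mem_union_right _ (Finset.mem_image_of_mem _ hy)⟩
  have h9 := (AddSubgroup.closure (T : Set ℝ)).add_mem (hsub1 h7) h8
  have h10 : ((((w, (⟨t, ht⟩ : E)) - y : Wt n × E).2 : E) : ℝ) + ((y.2 : E) : ℝ) = t := by
    simp
  rw [h10] at h9
  exact h9

end Pool.Agent.EEA520
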