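import Pool.Agent.W_eea520_h99.Fin2
import Pool.Agent.W_eea520_h99.Fg

/-!
# `GL_2`: the final theorem (MP_eea520_nt, theorem G)
-/

set_option autoImplicit false

namespace Pool.Agent.EEA520

open Filter Topology Pool.Agent.EEAG1 MeasureTheory

theorem moments_of {π : GSys 1} {c : ℤ → ℤ}
    (h : ∀ k : ℤ, Mean (fun p => ((π p).x 0 : ℂ)) (fun z => 2 * (z ^ k).re) (c k)) : Moments π c :=
  h

theorem order_ad_zero {π : GSys 1} (hπ : Tempered π) {t : ℝ}
    (h : MeroAt π (symdet (2 * 0) (-((0 : ℕ) : ℤ))) (pt t)) :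
    PoleOrder π (symdet (2 * 0) (-((0 : ℕ) : ℤ))) (pt t) (if t = 0 then 1 else 0) := by
  obtain ⟨k, hk⟩ := exists_poleOrder hπ h
  have h1 : symdet (2 * 0) (-((0 : ℕ) : ℤ)) = Finsupp.single 0 1 := by
    unfold symdet
    simp
    rfl
  have h2 := hk
  rw [h1] at h2
  have h3 := order_one hπ h2
  rw [← h3]
  exact hk

/-- Finitely many `L`-functions. -/
theorem finiteA {π : GSys 1} (hπ : Tempered π) (had : PoleOrder π (symdet 2 (-1)) 1 0) {M : ℕ}
    (hM : 9 ≤ M) (h : ∀ a : ℕ, a ≤ M → MeroAt π (symdet (2 * a) (-a)) 1) :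
    ∃ c : ℤ → ℤ, (c = stSeq ∨ c = cmSeq ∨ (FinType c ∧ Moments π c)) ∧
      ∀ a : ℕ, a < M → PoleOrder π (symdet (2 * a) (-a)) 1 (adOrder c a) := by
  have h00 : PoleOrder π (symdet (2 * 0) (-((0 : ℕ) : ℤ))) 1 1 := by
    have h1 := order_ad_zero (t := 0) hπ (by rw [pt_zeroF]; exact h 0 (by omega))
    rw [pt_zeroF, if_pos rfl] at h1
    exact h1
  rcases gl2_finite hπ hM h had with h1 | h1 | ⟨L, hL, h1⟩
  · refine ⟨stSeq, Or.inl rfl, fun a ha => ?_⟩
    rw [adOrder_st]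
    by_cases ha0 : a = 0
    · subst ha0
      rw [if_pos rfl]
      exact h00
    · rw [if_neg ha0]
      exact h1 a (by omega) ha
  · refine ⟨cmSeq, Or.inr (Or.inl rfl), fun a ha => ?_⟩
    rw [adOrder_cm]
    by_cases ha0 : a = 0
    · subst ha0
      rw [if_pos Even.zero]
      exact h00
    · exact h1 a (by omega) ha
  · refine ⟨L.val, Or.inr (Or.inr ⟨finType_val hL, h1⟩), fun a ha => ?_⟩
    obtain ⟨o, ho⟩ := exists_poleOrder (t := 0) hπ (by rw [pt_zeroF]; exact h a (by omega))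
    have h2 := order_of_moments hπ h1 ho
    rw [pt_zeroF, h2] at ho
    exact ho

/-- All levels, on the line. -/
theorem lineB {π : GSys 1} (hπ : Tempered π) (had : PoleOrder π (symdet 2 (-1)) 1 0)
    {E : AddSubgroup ℝ} (h : ∀ (k : ℕ) (j : ℤ), ∀ t ∈ E, MeroAt π (symdet k j) (pt t)) :
    ∃ c : ℤ → ℤ, (c = stSeq ∨ c = cmSeq ∨ FinType c) ∧
      (∀ a : ℕ, ∀ t ∈ E,
        PoleOrder π (symdet (2 * a) (-a)) (pt t) (if t = 0 then adOrder c a else 0)) ∧
      Moments π c ∧ (E = ⊤ → NatMoments π c) ∧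
      (c = stSeq → (∀ k : ℕ, 1 ≤ k → ∀ (j : ℤ), ∀ t ∈ E, PoleOrder π (symdet k j) (pt t) 0) ∧
        TraceLaw π satoTate ∧ (E = ⊤ → NatLaw π satoTate)) ∧
      (c = cmSeq → (∀ k : ℕ, Odd k → ∀ (j : ℤ), ∀ t ∈ E, PoleOrder π (symdet k j) (pt t) 0) ∧
        TraceLaw π cmLaw ∧ (E = ⊤ → NatLaw π cmLaw)) := by
  classical
  have hall : ∀ m, IsCharacter m → ∀ t ∈ E, MeroAt π m (pt t) := fun m hm t ht =>
    mero_of_symdet hπ (fun k j => h k j t ht) hm
  have hx : ∀ p, ‖((π p).x 0 : ℂ)‖ = 1 := fun p => (hπ p).2 0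
  -- the orders at `1`
  have hex : ∀ a : ℕ, ∃ k : ℤ, PoleOrder π (symdet (2 * a) (-a)) 1 k := by
    intro a
    obtain ⟨k, hk⟩ := exists_poleOrder (t := 0) hπ (h (2 * a) (-a) 0 E.zero_mem)
    rw [pt_zeroF] at hk
    exact ⟨k, hk⟩
  choose N hN using hex
  have hN0 : N 0 = 1 := by
    have h1 := order_ad_zero (t := 0) hπ (h _ _ 0 E.zero_mem)
    rw [if_pos rfl] at h1
    have h2 := hN 0
    rw [← pt_zeroF] at h2
    exact order_unique hπ h2 h1
  have hN1 : N 1 = 0 := by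
    have h2 := hN 1
    have h3 : PoleOrder π (symdet (2 * 1) (-((1 : ℕ) : ℤ))) 1 0 := had
    rw [← pt_zeroF] at h2 h3
    exact order_unique hπ h2 h3
  set P : ℕ → ℤ := fun k => if k = 0 then 2 else N k - N (k - 1) with hPdef
  have hP0 : P 0 = 2 := by simp [hPdef]
  have hP1 : P 1 = -1 := by simp [hPdef, hN0, hN1]
  have hmean : ∀ k : ℕ, Mean (fun p => ((π p).x 0 : ℂ)) (fun z => 2 * (z ^ (k : ℤ)).re) (P k) :=
    fun k => mean_ad hπ (M := k) (fun a _ => hN a) k le_rfl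
  have hsymm : ∀ (k : ℕ) (v : ℝ), Mean (fun p => ((π p).x 0 : ℂ)) (fun z => 2 * (z ^ (k : ℤ)).re) v →
      Mean (fun p => ((π p).x 0 : ℂ)) (fun z => 2 * (z ^ (-(k : ℤ))).re) v := by
    intro k v h1
    refine Mean.congr hx h1 fun z hz => ?_
    rw [A5_re hz]
  have hmc : ∀ c : ℤ → ℤ, (∀ k, c (-k) = c k) → (∀ k : ℕ, P k = c k) →
      ∀ k : ℤ, Mean (fun p => ((π p).x 0 : ℂ)) (fun z => 2 * (z ^ k).re) (c k) := by
    intro c hc1 hc2 k
    rcases Int.natAbs_eq k with hk | hk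
    · rw [hk, ← hc2]
      exact hmean _
    · rw [hk, hc1, ← hc2]
      exact hsymm _ _ (hmean _)
  -- the sequence
  obtain ⟨c, hcT, hcm⟩ : ∃ c : ℤ → ℤ, (c = stSeq ∨ c = cmSeq ∨ FinType c) ∧
      ∀ k : ℤ, Mean (fun p => ((π p).x 0 : ℂ)) (fun z => 2 * (z ^ k).re) (c k) := by
    rcases all_levels hP0 hP1 with h1 | h1 | ⟨M, L, hL, h1⟩
    · exact ⟨stSeq, Or.inl rfl, hmc _ stSeq_neg h1⟩
    · exact ⟨cmSeq, Or.inr (Or.inl rfl), hmc _ cmSeq_neg h1⟩
    · exact ⟨L.val, Or.inr (Or.inr (finType_val hL)),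
        fun k => mean_of_level hx h1 (fun j _ => hmean j) k⟩
  have hex2 : ∀ a : ℕ, ∀ t ∈ E,
      PoleOrder π (symdet (2 * a) (-a)) (pt t) (if t = 0 then adOrder c a else 0) := by
    obtain ⟨cc, hcc⟩ := exists_isOrd hπ hall
    have had' := had_of hπ hcc had
    intro a t ht
    by_cases ht0 : t = 0
    · subst ht0
      rw [if_pos rfl]
      have h1 := hN a
      rw [← pt_zeroF] at h1
      have h2 := order_of_moments hπ hcm h1
      rw [← h2]
      exact h1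
    · rw [if_neg ht0]
      obtain ⟨o, ho⟩ := exists_poleOrder hπ (h (2 * a) (-a) t ht)
      have h1 := order_symdet (t := ⟨t, ht⟩) hπ hcc ho
      have e0 : ((2 * a : ℕ) : ℤ) + 2 * -(a : ℤ) = 0 := by push_cast; ring
      rw [e0, Finset.sum_eq_zero fun i _ =>
        ord_line hπ hcc had' _ (fun h2 => ht0 (congrArg Subtype.val h2))] at h1
      have h2 : o = 0 := by linarith
      rw [h2] at ho
      exact ho
  refine ⟨c, hcT, hex2, moments_of hcm, ?_, ?_, ?_⟩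
  · rintro rfl k
    obtain ⟨cc, hcc⟩ := exists_isOrd hπ hall
    obtain ⟨_, L, hL1, hL2⟩ := good_x hπ hcc (had_of hπ hcc had) k
    have h1 : L = c k := MeanP.unique hL1 (hcm k)
    rw [← h1]
    exact hL2
  · rintro rfl
    rcases gl2_cases hπ hall had with ⟨h1, h2⟩ | ⟨_, h2, _⟩ | ⟨r, hr, _, h2⟩
    · refine ⟨h1, h2, ?_⟩
      rintro rfl
      exact natLaw_of_traceLaw hπ (fun m hm t => hall m hm t trivial) had h2
    · exfalso
      have h3 := h2 2 0 E.zero_mem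
      have h4 := hex2 2 0 E.zero_mem
      have h5 := order_unique hπ h3 h4
      rw [if_pos rfl, if_pos ⟨rfl, even_two⟩, adOrder_st] at h5
      norm_num at h5
    · exfalso
      have h3 := tendsto_nhds_unique (hcm r) h2
      unfold stSeq at h3
      rw [if_neg (by omega)] at h3
      split_ifs at h3 <;> norm_num at h3
  · rintro rfl
    rcases gl2_cases hπ hall had with ⟨h1, _⟩ | ⟨h1, _, h2⟩ | ⟨r, hr, hre, h2⟩
    · exfalso
      have h3 := h1 4 (by norm_num) (-2) 0 E.zero_mem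
      have h4 : PoleOrder π (symdet 4 (-2)) (pt 0) (if (0 : ℝ) = 0 then adOrder cmSeq 2 else 0) :=
        hex2 2 0 E.zero_mem
      have h5 := order_unique hπ h3 h4
      rw [if_pos rfl, adOrder_cm, if_pos even_two] at h5
      norm_num at h5
    · refine ⟨h1, h2, ?_⟩
      rintro rfl
      exact natLaw_of_traceLaw hπ (fun m hm t => hall m hm t trivial) had h2
    · exfalso
      have h3 := tendsto_nhds_unique (hcm r) h2
      unfold cmSeq at h3
      rw [if_neg (by omega), Int.natAbs_natCast, hre.neg_one_pow] at h3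
      norm_num at h3

end Pool.Agent.EEA520
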