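import Pool.Agent.W_eea520_h99.T1

/-!
# The list of the laws (MP_eea520_nt, theorem G)
-/

set_option autoImplicit false

namespace Pool.Agent.EEAG1

/-- The sequence of the Sato-Tate law. -/
def stSeq (k : ℤ) : ℤ := if k = 0 then 2 else if k = 1 ∨ k = -1 then -1 else 0

/-- The sequence of the law of forms with complex multiplication. -/
def cmSeq (k : ℤ) : ℤ := if k = 0 then 2 else (-1) ^ k.natAbs

/-- The finite types. -/
def FinType (c : ℤ → ℤ) : Prop :=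
  (∃ (N : ℕ) (η : ℤ), 3 ≤ N ∧ (η = 1 ∨ η = -1) ∧ c = famA N η) ∨
  (∃ (N : ℕ) (η : ℤ), 2 ≤ N ∧ (η = 1 ∨ η = -1) ∧ c = famD N η) ∨
  ∃ l ∈ excL, c = per l

/-- The finite types with `c 2 = c 3 = c 4 = 0`; the last three are the members of `excL` with this
property, the first of them is the icosahedral one. -/
def ShortType (c : ℤ → ℤ) : Prop :=
  (∃ (N : ℕ) (η : ℤ), 6 ≤ N ∧ (η = 1 ∨ η = -1) ∧ c = famA N η) ∨
  c = per [2, -1, 0, 0, 0, 0, 1, -1, 0, 0, 1, -1, 1, -1, 0, 1, 0, -1, 1, -1, 1, 0, 0, -1, 1, 0, 0, 0,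
    0, -1] ∨
  c = per [2, -1, 0, 0, 0, 1, -1, 0, 1, -1, 1, -1, 1, 0, -1, 1, 0, 0, 0, -1] ∨
  c = per [2, -1, 0, 0, 0, 1, -1, 0, 0, 1, -1, 0, 0, 0, 1, -2, 1, 0, 0, 0, -1, 1, 0, 0, -1, 1, 0, 0,
    0, -1]

theorem finType_val {L : Law} (h : L.ok = true) : FinType L.val := by
  cases L with
  | A N η =>
    simp only [Law.ok, decide_eq_true_eq] at h
    exact Or.inl ⟨N, η, h.1, h.2, rfl⟩
  | D N η =>
    simp only [Law.ok, decide_eq_true_eq] at h
    exact Or.inr (Or.inl ⟨N, η, h.1, h.2, rfl⟩)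
  | E i =>
    simp only [Law.ok, decide_eq_true_eq] at h
    refine Or.inr (Or.inr ⟨excL.getD i [], ?_, rfl⟩)
    rw [List.getD_eq_getElem _ _ h]
    exact List.getElem_mem h

end Pool.Agent.EEAG1
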