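import Pool.Agent.W_eea520_h99.ZetaP

/-!
# The argument: complex mean values (MP_eea520_nt, theorem G)
-/

set_option autoImplicit false

namespace Pool.Agent.EEA520

open Filter Topology Pool.Agent.EEAG1

/-- A continuous function on an interval with `exp f = 1` is constant. -/
theorem const_of_exp {a b : ℝ} {f : ℝ → ℂ} (hf : ContinuousOn f (Set.Ioo a b))
    (h : ∀ s ∈ Set.Ioo a b, Complex.exp (f s) = 1) : ∃ c : ℂ, ∀ s ∈ Set.Ioo a b, f s = c := by
  rcases Set.eq_empty_or_nonempty (Set.Ioo a b) with he | ⟨s₀, hs₀⟩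
  · exact ⟨0, fun s hs => by rw [he] at hs; exact hs.elim⟩
  have h1 : ∀ s ∈ Set.Ioo a b, ∃ n : ℤ, f s = n * (2 * Real.pi * Complex.I) := fun s hs =>
    Complex.exp_eq_one_iff.1 (h s hs)
  refine ⟨f s₀, fun s hs => ?_⟩
  -- the function `f / (2 π i)` is continuous with integral values
  have hpre : IsPreconnected (Set.Ioo a b) := isPreconnected_Ioo
  let g : ℝ → ℝ := fun s => (f s / (2 * Real.pi * Complex.I)).re
  have hg : ContinuousOn g (Set.Ioo a b) := by
    refine Complex.continuous_re.comp_continuousOn (hf.div_const _)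
  have hgi : ∀ s ∈ Set.Ioo a b, ∃ n : ℤ, g s = n ∧ f s = n * (2 * Real.pi * Complex.I) := by
    intro s hs
    obtain ⟨n, hn⟩ := h1 s hs
    refine ⟨n, ?_, hn⟩
    show (f s / (2 * Real.pi * Complex.I)).re = n
    rw [hn, mul_div_cancel_right₀ _ Complex.two_pi_I_ne_zero]
    simp
  have hconst : g s = g s₀ := by
    have himg : IsPreconnected (g '' Set.Ioo a b) := hpre.image g hg
    have hsub : (g '' Set.Ioo a b).Subsingleton := by
      by_contra hcon
      rw [Set.not_subsingleton_iff] at hcon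
      obtain ⟨x, hx, y, hy, hxy⟩ := hcon
      wlog hlt : x < y generalizing x y
      · exact this y hy x hx hxy.symm (lt_of_le_of_ne (not_lt.1 hlt) hxy.symm)
      obtain ⟨s1, hs1, rfl⟩ := hx
      obtain ⟨s2, hs2, rfl⟩ := hy
      obtain ⟨n1, hn1, -⟩ := hgi s1 hs1
      obtain ⟨n2, hn2, -⟩ := hgi s2 hs2
      have hI := himg.Icc_subset ⟨s1, hs1, rfl⟩ ⟨s2, hs2, rfl⟩
      have hlt' : n1 < n2 := by
        rw [hn1, hn2] at hlt
        exact_mod_cast hlt
      have hle : ((n1 : ℝ) + 1) ≤ n2 := by exact_mod_cast hlt'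
      have hmem : (n1 : ℝ) + 1 / 2 ∈ Set.Icc (g s1) (g s2) := by
        rw [hn1, hn2]
        constructor <;> linarith
      obtain ⟨s3, hs3, hs4⟩ := hI hmem
      obtain ⟨n3, hn3, -⟩ := hgi s3 hs3
      rw [hn3] at hs4
      have h5 : (2 * n3 : ℤ) = 2 * n1 + 1 := by
        have : (2 * (n3 : ℝ)) = 2 * n1 + 1 := by linarith
        exact_mod_cast this
      omega
    exact hsub ⟨s, hs, rfl⟩ ⟨s₀, hs₀, rfl⟩
  obtain ⟨n, hn, hn'⟩ := hgi s hs
  obtain ⟨m, hm, hm'⟩ := hgi s₀ hs₀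
  rw [hn, hm] at hconst
  have : n = m := by exact_mod_cast hconst
  rw [hn', hm', this]

/-- The logarithm of the Euler product on a horizontal half line. -/
noncomputable def LamP {n : ℕ} (π : GSys n) (m : Wt n →₀ ℤ) (t s : ℝ) : ℂ :=
  ∑' p : Pr, lfac (π p) m (((p : ℕ) : ℂ) ^ (-((s : ℂ) + t * Complex.I)))

theorem q_norm (p : Pr) (t s : ℝ) :
    ‖(((p : ℕ) : ℂ) ^ (-((s : ℂ) + t * Complex.I)))‖ = ((p : ℕ) : ℝ) ^ (-s) := by
  have h := Complex.norm_natCast_cpow_of_pos p.2.pos (-((s : ℂ) + t * Complex.I))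
  rw [h]
  simp

theorem q_half (p : Pr) (t : ℝ) {s : ℝ} (hs : 1 ≤ s) :
    ‖(((p : ℕ) : ℂ) ^ (-((s : ℂ) + t * Complex.I)))‖ ≤ 1 / 2 := by
  rw [q_norm]
  have hp2 : (2 : ℝ) ≤ ((p : ℕ) : ℝ) := by exact_mod_cast p.2.two_le
  have h1 : ((p : ℕ) : ℝ) ^ (-s) ≤ ((p : ℕ) : ℝ) ^ (-1 : ℝ) :=
    Real.rpow_le_rpow_of_exponent_le (by linarith) (by linarith)
  refine h1.trans ?_
  rw [Real.rpow_neg_one, one_div]
  exact inv_anti₀ (by norm_num) hp2

theorem lfac_le {n : ℕ} {t : Torus n} (ht : ∀ w, ‖(t.ev w : ℂ)‖ = 1) (m : Wt n →₀ ℤ) {q : ℂ}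
    (hq : ‖q‖ ≤ 1 / 2) : ‖lfac t m q‖ ≤ 2 * mnorm m * ‖q‖ := by
  have h1 := lfac_bound ht m hq
  have h2 := trq_bound ht m q
  have h3 : ‖lfac t m q‖ ≤ ‖lfac t m q - trq t m q‖ + ‖trq t m q‖ := by
    have := norm_add_le (lfac t m q - trq t m q) (trq t m q)
    rwa [sub_add_cancel] at this
  have h4 := mnorm_nonneg m
  have h5 := norm_nonneg q
  have h6 : mnorm m * ‖q‖ ^ 2 ≤ mnorm m * ‖q‖ := by
    refine mul_le_mul_of_nonneg_left ?_ h4
    nlinarith
  linarith

theorem continuousOn_LamP {n : ℕ} {π : GSys n} (hπ : Tempered π) (m : Wt n →₀ ℤ) (t : ℝ) :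
    ContinuousOn (LamP π m t) (Set.Ioi 1) := by
  intro s₀ hs₀
  have hs₀' : (1 : ℝ) < s₀ := hs₀
  set σ : ℝ := (1 + s₀) / 2 with hσ
  have hσ1 : 1 < σ := by rw [hσ]; linarith
  have hσ2 : σ < s₀ := by rw [hσ]; linarith
  refine ContinuousAt.continuousWithinAt ?_
  have h1 : ContinuousOn (LamP π m t) (Set.Ioi σ) := by
    refine continuousOn_tsum (u := fun p : Pr => 2 * mnorm m * ((p : ℕ) : ℝ) ^ (-σ)) ?_
      ((summable_pz hσ1).mul_left _) ?_
    · intro p s hs
      have hs' : (σ : ℝ) < s := hs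
      refine ContinuousAt.continuousWithinAt ?_
      unfold lfac Finsupp.sum
      refine tendsto_finsetSum _ fun w _ => ?_
      refine ContinuousAt.neg (ContinuousAt.mul continuousAt_const ?_)
      have hc : ContinuousAt (fun s : ℝ => (((p : ℕ) : ℂ) ^ (-((s : ℂ) + t * Complex.I)))) s := by
        have hp0 : ((p : ℕ) : ℂ) ≠ 0 := by exact_mod_cast p.2.ne_zero
        refine ContinuousAt.const_cpow ?_ (Or.inl hp0)
        fun_prop
      refine ContinuousAt.clog (by fun_prop) ?_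
      have h2 : ‖((π p).ev w : ℂ) * (((p : ℕ) : ℂ) ^ (-((s : ℂ) + t * Complex.I)))‖ < 1 := by
        rw [norm_mul, norm_ev hπ, one_mul]
        have := q_half p t (s := s) (by linarith)
        linarith
      have h3 := Complex.mem_slitPlane_of_norm_lt_one
        (z := -(((π p).ev w : ℂ) * (((p : ℕ) : ℂ) ^ (-((s : ℂ) + t * Complex.I)))))
        (by rw [norm_neg]; exact h2)
      rwa [← sub_eq_add_neg] at h3
    · intro p s hs
      have hs' : (σ : ℝ) < s := hs
      refine (lfac_le (fun w => norm_ev hπ p w) m (q_half p t (by linarith))).trans ?_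
      rw [q_norm]
      refine mul_le_mul_of_nonneg_left ?_ (by have := mnorm_nonneg m; positivity)
      exact Real.rpow_le_rpow_of_exponent_le (by exact_mod_cast p.2.one_lt.le) (by linarith)
  exact (h1 s₀ hσ2).continuousAt (Ioi_mem_nhds hσ2)

/-- The complex number `tr(A_p) p ^ (-i t)`. -/
noncomputable def tc {n : ℕ} (π : GSys n) (m : Wt n →₀ ℤ) (t : ℝ) (p : Pr) : ℂ :=
  tcx π m p * (((p : ℕ) : ℂ) ^ (-(t * Complex.I)))

theorem tc_le {n : ℕ} {π : GSys n} (hπ : Tempered π) (m : Wt n →₀ ℤ) (t : ℝ) (p : Pr) :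
    ‖tc π m t p‖ ≤ mnorm m := by
  unfold tc
  rw [norm_mul, norm_pit, mul_one]
  exact tcx_le hπ m p

theorem LamP_bound {n : ℕ} {π : GSys n} (hπ : Tempered π) (m : Wt n →₀ ℤ) : ∃ C : ℝ,
    ∀ (t s : ℝ), 1 < s →
      HasProd (fun p : Pr => (π p).factor m (((p : ℕ) : ℂ) ^ (-((s : ℂ) + t * Complex.I))))
        (Complex.exp (LamP π m t s)) ∧
      |(LamP π m t s).im - psm (fun p => (tc π m t p).im) s| ≤ C := by
  have hsum2 : Summable fun p : Pr => ((p : ℕ) : ℝ) ^ (-2 : ℝ) :=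
    Nat.Primes.summable_rpow.2 (by norm_num)
  refine ⟨∑' p : Pr, mnorm m * ((p : ℕ) : ℝ) ^ (-2 : ℝ), fun t s hs => ?_⟩
  set q : Pr → ℂ := fun p => ((p : ℕ) : ℂ) ^ (-((s : ℂ) + t * Complex.I)) with hq
  have hp2 : ∀ p : Pr, (2 : ℝ) ≤ ((p : ℕ) : ℝ) := fun p => by exact_mod_cast p.2.two_le
  have hqr : ∀ p, q p = (((p : ℕ) : ℂ) ^ (-(t * Complex.I))) *
      (((((p : ℕ) : ℝ) ^ (-s) : ℝ)) : ℂ) := by
    intro p
    simp only [hq]
    rw [Complex.ofReal_cpow (by linarith [hp2 p])]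
    push_cast
    rw [← Complex.cpow_add _ _ (by exact_mod_cast p.2.ne_zero)]
    congr 1
    ring
  have hsq : ∀ p, ‖q p‖ ^ 2 ≤ ((p : ℕ) : ℝ) ^ (-2 : ℝ) := by
    intro p
    have h0 : ‖q p‖ = ((p : ℕ) : ℝ) ^ (-s) := q_norm p t s
    rw [h0]
    have h1 : ((p : ℕ) : ℝ) ^ (-2 : ℝ) = (((p : ℕ) : ℝ) ^ (-1 : ℝ)) ^ 2 := by
      rw [← Real.rpow_natCast, ← Real.rpow_mul (by linarith [hp2 p])]
      norm_num
    rw [h1]
    refine pow_le_pow_left₀ (Real.rpow_nonneg (by linarith [hp2 p]) _) ?_ 2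
    exact Real.rpow_le_rpow_of_exponent_le (by linarith [hp2 p]) (by linarith)
  have hev : ∀ p w, ‖((π p).ev w : ℂ)‖ = 1 := fun p w => norm_ev hπ p w
  have hD : ∀ p, ‖lfac (π p) m (q p) - trq (π p) m (q p)‖ ≤
      mnorm m * ((p : ℕ) : ℝ) ^ (-2 : ℝ) := fun p =>
    (lfac_bound (hev p) m (q_half p t hs.le)).trans
      (mul_le_mul_of_nonneg_left (hsq p) (mnorm_nonneg m))
  have hsumC : Summable fun p : Pr => mnorm m * ((p : ℕ) : ℝ) ^ (-2 : ℝ) := hsum2.mul_left _
  have hsumD : Summable fun p => lfac (π p) m (q p) - trq (π p) m (q p) :=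
    Summable.of_norm_bounded hsumC hD
  have hsuml : Summable fun p => lfac (π p) m (q p) := by
    refine Summable.of_norm_bounded ((summable_pz hs).mul_left (2 * mnorm m)) fun p => ?_
    rw [← q_norm p t s]
    exact lfac_le (hev p) m (q_half p t hs.le)
  have hsumX : Summable fun p => trq (π p) m (q p) := by
    refine (hsuml.sub hsumD).congr fun p => ?_
    ring
  have hprod : HasProd (fun p : Pr => (π p).factor m (q p))
      (Complex.exp (∑' p, lfac (π p) m (q p))) := by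
    have h1 := hsuml.hasSum.cexp
    have h2 : (Complex.exp ∘ fun p => lfac (π p) m (q p)) =
        fun p : Pr => (π p).factor m (q p) := by
      funext p
      exact exp_lfac (hev p) m (q_half p t hs.le)
    rw [h2] at h1
    exact h1
  refine ⟨hprod, ?_⟩
  have hps : psm (fun p => (tc π m t p).im) s = (∑' p, trq (π p) m (q p)).im := by
    rw [Complex.im_tsum hsumX]
    unfold psm
    refine tsum_congr fun p => ?_
    have h3 : trq (π p) m (q p) = tc π m t p * (((((p : ℕ) : ℝ) ^ (-s) : ℝ)) : ℂ) := by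
      rw [hqr p]
      unfold trq tc tcx Finsupp.sum
      rw [Finset.sum_mul, Finset.sum_mul]
      refine Finset.sum_congr rfl fun w _ => ?_
      ring
    rw [h3, Complex.im_mul_ofReal]
  rw [hps]
  unfold LamP
  rw [← Complex.sub_im, ← hsuml.tsum_sub hsumX]
  exact (Complex.abs_im_le_norm _).trans (tsum_of_norm_bounded hsumC.hasSum hD)

/-- The imaginary part of the logarithm is bounded. -/
theorem im_bounded {n : ℕ} {π : GSys n} (hπ : Tempered π) {m : Wt n →₀ ℤ} {t : ℝ} {k : ℤ}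
    (h : PoleOrder π m (pt t) k) : ∃ C : ℝ, ∀ᶠ s : ℝ in 𝓝[>] 1, |(LamP π m t s).im| ≤ C := by
  obtain ⟨g, hg, hk, hL⟩ := h
  obtain ⟨C, hC⟩ := LamP_bound hπ m
  obtain ⟨h, hh, hh1, hev⟩ := (meromorphicOrderAt_eq_int_iff hg).1 hk
  have hmap : Tendsto (fun s : ℝ => (s : ℂ) + t * Complex.I) (𝓝[>] 1) (𝓝 (pt t)) :=
    (tendsto_pt t).mono_right nhdsWithin_le_nhds
  have hmap' : Tendsto (fun s : ℝ => (s : ℂ) + t * Complex.I) (𝓝[>] 1) (𝓝[≠] (pt t)) := by
    refine tendsto_nhdsWithin_iff.2 ⟨hmap, ?_⟩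
    filter_upwards [self_mem_nhdsWithin] with s hs
    have hs' : (1 : ℝ) < s := hs
    intro h0
    have h1 : (s : ℂ) + t * Complex.I = pt t := h0
    have h2 := congrArg Complex.re h1
    unfold pt at h2
    simp at h2
    linarith
  -- everything happens on an interval
  have e1 : ∀ᶠ s : ℝ in 𝓝[>] 1, g ((s : ℂ) + t * Complex.I) =
      Complex.exp (LamP π m t s) := by
    filter_upwards [(tendsto_pt t).eventually hL, self_mem_nhdsWithin] with s hs hs1
    exact hs.unique (hC t s hs1).1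
  have e2 : ∀ᶠ s : ℝ in 𝓝[>] 1, g ((s : ℂ) + t * Complex.I) =
      (((s : ℂ) + t * Complex.I) - pt t) ^ (-k) • h ((s : ℂ) + t * Complex.I) :=
    hmap'.eventually hev
  have e3 : ∀ᶠ s : ℝ in 𝓝[>] 1, AnalyticAt ℂ h ((s : ℂ) + t * Complex.I) :=
    hmap.eventually hh.eventually_analyticAt
  have e4 : ∀ᶠ s : ℝ in 𝓝[>] 1, ‖h ((s : ℂ) + t * Complex.I) / h (pt t) - 1‖ < 1 / 2 := by
    have h1 : Tendsto (fun s : ℝ => ‖h ((s : ℂ) + t * Complex.I) / h (pt t) - 1‖) (𝓝[>] 1)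
        (𝓝 ‖h (pt t) / h (pt t) - 1‖) :=
      (((hh.continuousAt.tendsto.comp hmap).div_const _).sub_const _).norm
    rw [div_self hh1, sub_self, norm_zero] at h1
    exact h1.eventually (gt_mem_nhds (by norm_num))
  obtain ⟨δ, hδ, hδ2⟩ := mem_nhdsGT_iff_exists_Ioo_subset.1 (e1.and (e2.and (e3.and e4)))
  have hδ1 : (1 : ℝ) < δ := hδ
  have hsl : ∀ s ∈ Set.Ioo (1 : ℝ) δ, h ((s : ℂ) + t * Complex.I) / h (pt t) ∈
      Complex.slitPlane := by
    intro s hs
    have h1 := (hδ2 hs).2.2.2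
    have h2 := Complex.mem_slitPlane_of_norm_lt_one
      (z := h ((s : ℂ) + t * Complex.I) / h (pt t) - 1) (by linarith)
    rwa [add_sub_cancel] at h2
  set f : ℝ → ℂ := fun s => LamP π m t s + k * (Real.log (s - 1) : ℝ) -
    Complex.log (h ((s : ℂ) + t * Complex.I) / h (pt t)) - Complex.log (h (pt t)) with hf
  have hfc : ContinuousOn f (Set.Ioo 1 δ) := by
    refine ContinuousOn.sub (ContinuousOn.sub (ContinuousOn.add ?_ ?_) ?_) continuousOn_const
    · exact (continuousOn_LamP hπ m t).mono fun s hs => hs.1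
    · refine continuousOn_const.mul ?_
      refine Complex.continuous_ofReal.comp_continuousOn ?_
      refine ContinuousOn.log (by fun_prop) fun s hs => ?_
      have := hs.1
      exact (sub_pos.2 this).ne'
    · refine ContinuousOn.clog (ContinuousOn.div_const ?_ _) hsl
      intro s hs
      refine ContinuousAt.continuousWithinAt ?_
      have h1 := (hδ2 hs).2.2.1.continuousAt
      exact ContinuousAt.comp (f := fun s : ℝ => (s : ℂ) + t * Complex.I) h1 (by fun_prop)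
  have hfe : ∀ s ∈ Set.Ioo (1 : ℝ) δ, Complex.exp (f s) = 1 := by
    intro s hs
    obtain ⟨a1, a2, a3, a4⟩ := hδ2 hs
    have hs0 : (0 : ℝ) < s - 1 := sub_pos.2 hs.1
    have hne : h ((s : ℂ) + t * Complex.I) / h (pt t) ≠ 0 := Complex.slitPlane_ne_zero (hsl s hs)
    have hd : ((s : ℂ) + t * Complex.I) - pt t = ((s - 1 : ℝ) : ℂ) := by
      unfold pt
      push_cast
      ring
    rw [hf]
    simp only
    rw [Complex.exp_sub, Complex.exp_sub, Complex.exp_add, ← a1, a2, hd, Complex.exp_int_mul,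
      ← Complex.ofReal_exp, Real.exp_log hs0, Complex.exp_log hne, Complex.exp_log hh1, smul_eq_mul]
    have hs00 : ((s - 1 : ℝ) : ℂ) ≠ 0 := by exact_mod_cast hs0.ne'
    have hh2 : h ((s : ℂ) + t * Complex.I) ≠ 0 := fun h0 => hne (by rw [h0, zero_div])
    rw [zpow_neg]
    have hz : (((s - 1 : ℝ) : ℂ)) ^ k ≠ 0 := zpow_ne_zero _ hs00
    field_simp
  obtain ⟨c, hc⟩ := const_of_exp hfc hfe
  refine ⟨|c.im| + 1 + |(Complex.log (h (pt t))).im|, ?_⟩
  filter_upwards [Ioo_mem_nhdsGT hδ1] with s hs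
  have h1 := hc s hs
  have h2 : LamP π m t s = c - k * (Real.log (s - 1) : ℝ) +
      Complex.log (h ((s : ℂ) + t * Complex.I) / h (pt t)) + Complex.log (h (pt t)) := by
    rw [← h1, hf]
    ring
  have h3 : (LamP π m t s).im = c.im +
      (Complex.log (h ((s : ℂ) + t * Complex.I) / h (pt t))).im +
      (Complex.log (h (pt t))).im := by
    rw [h2]
    simp
  have h4 : ‖Complex.log (h ((s : ℂ) + t * Complex.I) / h (pt t))‖ ≤ 1 := by
    have h5 := (hδ2 hs).2.2.2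
    have h6 := Complex.norm_log_one_add_half_le_self
      (z := h ((s : ℂ) + t * Complex.I) / h (pt t) - 1) h5.le
    rw [add_sub_cancel] at h6
    linarith
  have h5 := (Complex.abs_im_le_norm _).trans h4
  rw [h3]
  refine (abs_add_le _ _).trans (add_le_add ((abs_add_le _ _).trans (add_le_add le_rfl h5)) le_rfl)

/-- The complex mean value. -/
theorem mean_im {n : ℕ} {π : GSys n} (hπ : Tempered π) {m : Wt n →₀ ℤ} {t : ℝ} {k : ℤ}
    (h : PoleOrder π m (pt t) k) : MeanP (fun p => (tc π m t p).im) 0 := by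
  obtain ⟨C, hC⟩ := LamP_bound hπ m
  obtain ⟨D, hD⟩ := im_bounded hπ h
  refine meanP_of_log (C := D + C) ?_
  filter_upwards [hD, self_mem_nhdsWithin] with s h1 hs
  have h2 := (hC t s hs).2
  rw [zero_mul, add_zero]
  have e : psm (fun p => (tc π m t p).im) s = (LamP π m t s).im -
      ((LamP π m t s).im - psm (fun p => (tc π m t p).im) s) := by ring
  rw [e]
  exact (abs_sub _ _).trans (add_le_add h1 h2)

/-- The order of the pole is the mean value of the numbers `tr(A_p) p ^ (-i t)`. -/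
theorem mean_complex {n : ℕ} {π : GSys n} (hπ : Tempered π) {m : Wt n →₀ ℤ} {t : ℝ} {k : ℤ}
    (h : PoleOrder π m (pt t) k) :
    Tendsto (fun s : ℝ => (∑' p : Pr, tc π m t p * (((((p : ℕ) : ℝ) ^ (-s) : ℝ)) : ℂ)) /
      ((∑' p : Pr, ((p : ℕ) : ℝ) ^ (-s) : ℝ) : ℂ)) (𝓝[>] 1) (𝓝 (k : ℂ)) := by
  have h1 := mean_of_poleOrder hπ h
  have h2 := mean_im hπ h
  have hre : ∀ p, (tc π m t p).re = tre π m t p := fun p => (tre_eq π m t p).symm
  have h3 : Tendsto (fun s : ℝ => ((psm (tre π m t) s / pz s : ℝ) : ℂ) +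
      ((psm (fun p => (tc π m t p).im) s / pz s : ℝ) : ℂ) * Complex.I) (𝓝[>] 1)
      (𝓝 (((k : ℝ) : ℂ) + ((0 : ℝ) : ℂ) * Complex.I)) :=
    ((Complex.continuous_ofReal.tendsto _).comp h1).add
      (((Complex.continuous_ofReal.tendsto _).comp h2).mul_const _)
  have h4 : (((k : ℝ) : ℂ) + ((0 : ℝ) : ℂ) * Complex.I) = (k : ℂ) := by
    push_cast
    ring
  rw [h4] at h3
  refine h3.congr' ?_
  filter_upwards [self_mem_nhdsWithin] with s hs
  have hs' : (1 : ℝ) < s := hs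
  have hsum : Summable fun p : Pr => tc π m t p * (((((p : ℕ) : ℝ) ^ (-s) : ℝ)) : ℂ) := by
    refine Summable.of_norm_bounded ((summable_pz hs').mul_left (mnorm m)) fun p => ?_
    rw [norm_mul, Complex.norm_real, Real.norm_eq_abs, abs_of_pos (Mean_pow_pos p s)]
    exact mul_le_mul_of_nonneg_right (tc_le hπ m t p) (Mean_pow_pos p s).le
  have hR : psm (tre π m t) s =
      (∑' p : Pr, tc π m t p * (((((p : ℕ) : ℝ) ^ (-s) : ℝ)) : ℂ)).re := by
    rw [Complex.re_tsum hsum]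
    unfold psm
    refine tsum_congr fun p => ?_
    rw [Complex.re_mul_ofReal, hre]
  have hI : psm (fun p => (tc π m t p).im) s =
      (∑' p : Pr, tc π m t p * (((((p : ℕ) : ℝ) ^ (-s) : ℝ)) : ℂ)).im := by
    rw [Complex.im_tsum hsum]
    unfold psm
    refine tsum_congr fun p => ?_
    rw [Complex.im_mul_ofReal]
  rw [hR, hI]
  show _ = _ / ((pz s : ℝ) : ℂ)
  rw [Complex.ofReal_div, Complex.ofReal_div, div_mul_eq_mul_div, ← add_div, Complex.re_add_im]

end Pool.Agent.EEA520
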