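import Pool.Agent.W_eea520_h99.Str
import Pool.Agent.W_eea520_g1.K2

/-!
# Integer valued positive definite functions (MP_eea520_nt, theorem G)
-/

set_option autoImplicit false

namespace Pool.Agent.EEAG1

open Filter Topology
open scoped InnerProductSpace

/-- Matrix coefficients are positive definite. -/
theorem Dec_posDef {G : Type*} [AddCommGroup G] {H : Type*} [NormedAddCommGroup H]
    [InnerProductSpace ℝ H] {U : G → H ≃ₗᵢ[ℝ] H}
    (hU : ∀ a b x, U (a + b) x = U a (U b x)) (v : H) : PosDefG fun g => ⟪U g v, v⟫_ℝ := by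
  refine ⟨fun k => ?_, fun x => ?_⟩
  · show ⟪U (-k) v, v⟫_ℝ = ⟪U k v, v⟫_ℝ
    rw [inner_U_left hU k, real_inner_comm]
  · have h1 : (x.sum fun i a => x.sum fun j b => a * b * ⟪U (i - j) v, v⟫_ℝ) =
        ⟪x.sum fun i a => a • U i v, x.sum fun i a => a • U i v⟫_ℝ := by
      rw [Finsupp.sum, Finsupp.sum, sum_inner]
      refine Finset.sum_congr rfl fun i _ => ?_
      rw [inner_sum, Finsupp.sum]
      refine Finset.sum_congr rfl fun j _ => ?_
      rw [real_inner_smul_left, real_inner_smul_right, inner_U hU]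
      ring
    show 0 ≤ x.sum fun i a => x.sum fun j b => a * b * ⟪U (i - j) v, v⟫_ℝ
    rw [h1]
    exact real_inner_self_nonneg

/-- Induction on `N = ‖v‖ ^ 2` with `split`. If the image of the support in `G ⧸ L`, `L` the stabiliser of
`v`, is finite, take `r = 1`; otherwise `v = e + f`, `⟪U g v, v⟫ = ⟪U g e, e⟫ + ⟪U g f, f⟫` (the cross terms
vanish; `⟪U g f, e⟫ = ⟪e, U g f⟫ = ⟪U (-g) e, f⟫ = 0`), and `‖e‖ ^ 2, ‖f‖ ^ 2` are positive integers with the sum
`N`. The functions `g ↦ ⟪U g v, v⟫` are positive definite: `∑ a_i a_j ⟪U (i - j) v, v⟫ = ‖∑ a_i U i v‖ ^ 2`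
(`inner_U`). Append the families (`Fin.append` or `Sum`/`Fin r ⊕ Fin s`). -/
theorem decompose_vec {G : Type*} [AddCommGroup G] {H : Type*} [NormedAddCommGroup H]
    [InnerProductSpace ℝ H] [CompleteSpace H] {U : G → H ≃ₗᵢ[ℝ] H}
    (hU : ∀ a b x, U (a + b) x = U a (U b x)) (N : ℕ) (v : H) (hN : ‖v‖ ^ 2 = N) (h : IQ U v v) :
    ∃ (r : ℕ) (d : Fin r → G → ℤ) (L : Fin r → AddSubgroup G),
      (∀ i, PosDefG fun g => (d i g : ℝ)) ∧ (∀ i g, ∀ l ∈ L i, d i (g + l) = d i g) ∧
      (∀ i, ∃ F : Finset G, ∀ g, d i g ≠ 0 → ∃ y ∈ F, g - y ∈ L i) ∧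
      ∀ g, ⟪U g v, v⟫_ℝ = ∑ i, (d i g : ℝ) := by
  classical
  induction N using Nat.strong_induction_on generalizing v with
  | _ N ih =>
    -- the stabiliser
    let L : AddSubgroup G :=
      { carrier := {g | U g v = v}
        zero_mem' := U_zero hU v
        add_mem' := fun {a b} ha hb => by
          show U (a + b) v = v
          have ha' : U a v = v := ha
          have hb' : U b v = v := hb
          rw [hU, hb', ha']
        neg_mem' := fun {a} ha => by
          show U (-a) v = v
          have ha' : U a v = v := ha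
          calc U (-a) v = U (-a) (U a v) := by rw [ha']
            _ = v := by rw [← hU, neg_add_cancel, U_zero hU] }
    have hL : ∀ g, g ∈ L ↔ U g v = v := fun g => Iff.rfl
    by_cases hfin : ((QuotientAddGroup.mk : G → G ⧸ L) '' {g | ⟪U g v, v⟫_ℝ ≠ 0}).Finite
    · choose c hc using h
      have hcf : (fun g => (c g : ℝ)) = fun g => ⟪U g v, v⟫_ℝ := by
        funext g
        exact (hc g).symm
      refine ⟨1, fun _ g => c g, fun _ => L, fun _ => ?_, fun _ g l hl => ?_, fun _ => ?_,
        fun g => ?_⟩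
      · rw [hcf]
        exact Dec_posDef hU v
      · have h1 : (c (g + l) : ℝ) = c g := by
          rw [← hc, ← hc, hU, (hL l).1 hl]
        exact_mod_cast h1
      · refine ⟨hfin.toFinset.image Quotient.out, fun g hg => ?_⟩
        have hg' : ⟪U g v, v⟫_ℝ ≠ 0 := by
          rw [hc]
          exact_mod_cast hg
        refine ⟨Quotient.out (QuotientAddGroup.mk g : G ⧸ L), ?_, ?_⟩
        · refine Finset.mem_image_of_mem _ ?_
          rw [Set.Finite.mem_toFinset]
          exact ⟨g, hg', rfl⟩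
        · have h1 : (QuotientAddGroup.mk (Quotient.out (QuotientAddGroup.mk g : G ⧸ L)) : G ⧸ L) =
              QuotientAddGroup.mk g := QuotientAddGroup.out_eq' _
          have h2 := QuotientAddGroup.eq.1 h1
          rwa [neg_add_eq_sub] at h2
      · simp [hc]
    · obtain ⟨e, f, hv, he, hf, hIe, hIf, horth⟩ := split hU h L hL hfin
      have horth' : ∀ g, ⟪U g f, e⟫_ℝ = 0 := by
        intro g
        rw [inner_U_left hU, real_inner_comm]
        exact horth _
      have hsum : ∀ g, ⟪U g v, v⟫_ℝ = ⟪U g e, e⟫_ℝ + ⟪U g f, f⟫_ℝ := by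
        intro g
        rw [hv, map_add, inner_add_left, inner_add_right, inner_add_right, horth, horth']
        ring
      have hnat : ∀ x : H, IQ U x x → x ≠ 0 → ∃ k : ℕ, ‖x‖ ^ 2 = k ∧ 0 < k := by
        intro x hx hx0
        obtain ⟨n, hn⟩ := hx 0
        rw [U_zero hU, real_inner_self_eq_norm_sq] at hn
        have hpos : (0 : ℝ) < n := by
          rw [← hn]
          have := norm_pos_iff.2 hx0
          positivity
        have hpos' : 0 < n := by exact_mod_cast hpos
        obtain ⟨k, hk⟩ := Int.eq_ofNat_of_zero_le hpos'.le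
        refine ⟨k, ?_, by omega⟩
        rw [hn, hk]
        norm_cast
      obtain ⟨a, ha, ha0⟩ := hnat e hIe he
      obtain ⟨b, hb, hb0⟩ := hnat f hIf hf
      have hab : a + b = N := by
        have h1 := hsum 0
        rw [U_zero hU, U_zero hU, U_zero hU, real_inner_self_eq_norm_sq,
          real_inner_self_eq_norm_sq, real_inner_self_eq_norm_sq, hN, ha, hb] at h1
        have h2 : (N : ℝ) = ((a + b : ℕ) : ℝ) := by rw [h1]; push_cast; ring
        exact (by exact_mod_cast h2.symm)
      obtain ⟨r₁, d₁, L₁, p₁, q₁, s₁, t₁⟩ := ih a (by omega) e ha hIe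
      obtain ⟨r₂, d₂, L₂, p₂, q₂, s₂, t₂⟩ := ih b (by omega) f hb hIf
      refine ⟨r₁ + r₂, Fin.append d₁ d₂, Fin.append L₁ L₂, fun i => ?_, fun i => ?_, fun i => ?_,
        fun g => ?_⟩
      · refine Fin.addCases (fun i => ?_) (fun i => ?_) i
        · simp only [Fin.append_left]
          exact p₁ i
        · simp only [Fin.append_right]
          exact p₂ i
      · refine Fin.addCases (fun i => ?_) (fun i => ?_) i
        · simp only [Fin.append_left]
          exact q₁ i
        · simp only [Fin.append_right]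
          exact q₂ i
      · refine Fin.addCases (fun i => ?_) (fun i => ?_) i
        · simp only [Fin.append_left]
          exact s₁ i
        · simp only [Fin.append_right]
          exact s₂ i
      · rw [Fin.sum_univ_add]
        simp only [Fin.append_left, Fin.append_right]
        rw [hsum, t₁, t₂]

/-- The structure theorem (the theorem of Cohen in the positive definite case). `exists_gnsG` and
`decompose_vec` (`‖v‖ ^ 2 = c 0` is a natural number). -/
theorem decompose {G : Type*} [AddCommGroup G] {c : G → ℝ} (hc : PosDefG c)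
    (hint : ∀ g, ∃ k : ℤ, c g = k) :
    ∃ (r : ℕ) (d : Fin r → G → ℤ) (L : Fin r → AddSubgroup G),
      (∀ i, PosDefG fun g => (d i g : ℝ)) ∧ (∀ i g, ∀ l ∈ L i, d i (g + l) = d i g) ∧
      (∀ i, ∃ F : Finset G, ∀ g, d i g ≠ 0 → ∃ y ∈ F, g - y ∈ L i) ∧
      ∀ g, c g = ∑ i, (d i g : ℝ) := by
  obtain ⟨H, _, _, _, U, v, hU, h0, hv⟩ := exists_gnsG hc
  have hI : IQ U v v := by
    intro g
    obtain ⟨k, hk⟩ := hint g
    exact ⟨k, by rw [hv, hk]⟩
  obtain ⟨n, hn⟩ := hI 0
  rw [h0, real_inner_self_eq_norm_sq] at hn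
  have hn0 : (0 : ℝ) ≤ n := by rw [← hn]; positivity
  have hn0' : 0 ≤ n := by exact_mod_cast hn0
  obtain ⟨k, hk⟩ := Int.eq_ofNat_of_zero_le hn0'
  obtain ⟨r, d, L, p, q, s, t⟩ := decompose_vec hU k v (by rw [hn, hk]; norm_cast) hI
  exact ⟨r, d, L, p, q, s, fun g => by rw [← hv, t]⟩

end Pool.Agent.EEAG1
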