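import Pool.Agent.W_eea520_h25.Defs

/-!
# Pole orders on the line `Re s = 1` (MP_eea520_nt, theorem G)
-/

set_option autoImplicit false

namespace Pool.Agent.EEA520

open Filter Topology

/-- The system of parameters is tempered, with unitary central character: the classes `A_p` are in
the compact torus. (The values at finitely many primes do not matter; let `π p = 1` there.) -/
def Tempered {n : ℕ} (π : GSys n) : Prop := ∀ p, ‖((π p).c : ℂ)‖ = 1 ∧ ∀ i, ‖((π p).x i : ℂ)‖ = 1

/-- Near the point `s₀`, `Re s₀ = 1`, the Euler product of `π` for the character `m` is, in the half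
plane `Re s > 1`, equal to `g`. -/
def IsL {n : ℕ} (π : GSys n) (m : Wt n →₀ ℤ) (s₀ : ℂ) (g : ℂ → ℂ) : Prop :=
  ∀ᶠ s in 𝓝[{s | 1 < s.re}] s₀,
    HasProd (fun p : Pr => (π p).factor m (((p : ℕ) : ℂ) ^ (-s))) (g s)

/-- The Euler product of `π` for `m` is meromorphic at the point `s₀` of the line `Re s = 1`. -/
def MeroAt {n : ℕ} (π : GSys n) (m : Wt n →₀ ℤ) (s₀ : ℂ) : Prop :=
  ∃ g : ℂ → ℂ, MeromorphicAt g s₀ ∧ IsL π m s₀ g

/-- The Euler product of `π` for `m` is meromorphic at the point `s₀` of the line `Re s = 1`, with a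
pole of order `k` if `k > 0`, a zero of order `-k` if `k < 0`, and it is holomorphic and not zero there
if `k = 0`. -/
def PoleOrder {n : ℕ} (π : GSys n) (m : Wt n →₀ ℤ) (s₀ : ℂ) (k : ℤ) : Prop :=
  ∃ g : ℂ → ℂ, MeromorphicAt g s₀ ∧ meromorphicOrderAt g s₀ = ((-k : ℤ) : WithTop ℤ) ∧
    IsL π m s₀ g

/-- The point `1 + i t`. -/
noncomputable def pt (t : ℝ) : ℂ := 1 + t * Complex.I

end Pool.Agent.EEA520
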