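import Pool.Agent.W_eea520_h99.T0

/-!
# The exceptional periodic sequences (MP_eea520_nt, theorem G)
-/

set_option autoImplicit false

namespace Pool.Agent.EEAG1

/-- The exceptional periodic sequences. -/
def excL : List (List ℤ) :=
  [
   [2,-1,0,1,0,-1],
   [2,-1,1,0,0,1,-1],
   [2,-1,0,1,-1,1,0,-1],
   [2,-1,1,0,0,0,1,-1],
   [2,-1,1,-1,0,0,-1,1,-1],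
   [2,-1,1,0,0,1,0,0,1,-1],
   [2,-1,0,0,1,-1,1,-1,1,0,0,-1],
   [2,-1,0,1,-1,0,0,0,-1,1,0,-1],
   [2,-1,1,-1,0,0,0,0,0,-1,1,-1],
   [2,-1,1,0,-1,1,-2,1,-1,0,1,-1],
   [2,-1,1,0,0,0,0,0,0,0,1,-1],
   [2,-1,1,0,0,1,-1,1,0,0,1,-1],
   [2,-1,0,0,1,-1,0,1,0,-1,1,0,0,-1],
   [2,-1,0,1,-1,0,1,-2,1,0,-1,1,0,-1],
   [2,-1,1,-1,0,0,0,1,0,0,0,-1,1,-1],
   [2,-1,0,1,-1,1,0,0,0,0,1,-1,1,0,-1],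
   [2,-1,1,-1,1,-1,0,0,0,0,-1,1,-1,1,-1],
   [2,-1,0,0,1,-1,0,0,1,-2,1,0,0,-1,1,0,0,-1],
   [2,-1,0,1,-1,1,-1,0,1,-2,1,0,-1,1,-1,1,0,-1],
   [2,-1,1,-1,1,0,0,0,0,1,0,0,0,0,1,-1,1,-1],
   [2,-1,1,0,0,0,0,-1,1,-2,1,-1,0,0,0,0,1,-1],
   [2,-1,0,0,0,1,-1,0,1,-1,1,-1,1,0,-1,1,0,0,0,-1],
   [2,-1,0,1,-1,0,1,-1,0,1,-2,1,0,-1,1,0,-1,1,0,-1],
   [2,-1,1,-1,0,0,0,1,-1,1,-2,1,-1,1,0,0,0,-1,1,-1],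
   [2,-1,1,0,0,0,0,0,-1,1,-2,1,-1,0,0,0,0,0,1,-1],
   [2,-1,0,0,1,-1,0,1,-1,0,0,1,-2,1,0,0,-1,1,0,-1,1,0,0,-1],
   [2,-1,0,1,-1,0,1,-1,1,0,0,0,0,0,0,0,1,-1,1,0,-1,1,0,-1],
   [2,-1,1,-1,1,0,0,0,-1,1,-1,1,-2,1,-1,1,-1,0,0,0,1,-1,1,-1],
   [2,-1,0,0,0,0,1,-1,0,0,1,-1,1,-1,0,1,0,-1,1,-1,1,0,0,-1,1,0,0,0,0,-1],
   [2,-1,0,0,0,1,-1,0,0,1,-1,0,0,0,1,-2,1,0,0,0,-1,1,0,0,-1,1,0,0,0,-1],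
   [2,-1,0,1,-1,1,0,-1,1,0,-1,1,-1,0,1,-2,1,0,-1,1,-1,0,1,-1,0,1,-1,1,0,-1],
   [2,-1,1,0,0,1,-1,1,-1,1,-1,0,0,-1,1,-2,1,-1,0,0,-1,1,-1,1,-1,1,0,0,1,-1]
  ]

end Pool.Agent.EEAG1
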