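import Pool.Agent.W_eea520_h99.Ultra
import Pool.Agent.W_eea520_h99.LawG

/-!
# `GL_2`: finitely many `L`-functions (MP_eea520_nt, theorem G)
-/

set_option autoImplicit false

namespace Pool.Agent.EEA520

open Filter Topology Pool.Agent.EEAG1 MeasureTheory

theorem tre_ad {π : GSys 1} (hπ : Tempered π) (a : ℕ) (p : Pr) :
    tre π (symdet (2 * a) (-a)) 0 p =
      ∑ i ∈ Finset.range (2 * a + 1), (((π p).x 0 : ℂ) ^ ((i : ℤ) - a)).re := by
  classical
  unfold tre symdet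
  rw [← Finsupp.sum_finsetSum_index (by intro w; simp) (by intro w b d; push_cast; ring)]
  refine Finset.sum_congr rfl fun i _ => ?_
  rw [Finsupp.sum_single_index (by simp)]
  have h0 : ((2 * a : ℕ) : ℤ) + 2 * -(a : ℤ) = 0 := by push_cast; ring
  rw [h0]
  unfold zre Torus.ev w1
  simp [sub_eq_add_neg]

theorem tre_ad_succ {π : GSys 1} (hπ : Tempered π) (a : ℕ) (p : Pr) :
    2 * (((π p).x 0 : ℂ) ^ ((a + 1 : ℕ) : ℤ)).re =
      tre π (symdet (2 * (a + 1)) (-((a + 1 : ℕ) : ℤ))) 0 p - tre π (symdet (2 * a) (-a)) 0 p := by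
  have hx : ‖((π p).x 0 : ℂ)‖ = 1 := (hπ p).2 0
  have h1 := tre_ad hπ (a + 1) p
  have h2 := tre_ad hπ a p
  rw [h1, h2, show 2 * (a + 1) + 1 = (2 * a + 1) + 1 + 1 by ring, Finset.sum_range_succ,
    Finset.sum_range_succ']
  have e1 : ∀ i ∈ Finset.range (2 * a + 1),
      (((π p).x 0 : ℂ) ^ (((i + 1 : ℕ) : ℤ) - ((a + 1 : ℕ) : ℤ))).re =
      (((π p).x 0 : ℂ) ^ ((i : ℤ) - a)).re := by
    intro i _
    congr 2
    push_cast
    ring
  rw [Finset.sum_congr rfl e1]
  have e2 : ((0 : ℕ) : ℤ) - ((a + 1 : ℕ) : ℤ) = -((a + 1 : ℕ) : ℤ) := by push_cast; ring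
  have e3 : ((2 * a + 1 + 1 : ℕ) : ℤ) - ((a + 1 : ℕ) : ℤ) = ((a + 1 : ℕ) : ℤ) := by push_cast; ring
  rw [e2, e3, A5_re hx]
  ring

theorem pt_zeroF : pt 0 = 1 := by
  unfold pt
  simp

/-- The moments of the ratios from the orders of the poles. -/
theorem mean_ad {π : GSys 1} (hπ : Tempered π) {M : ℕ} {N : ℕ → ℤ}
    (hN : ∀ a ≤ M, PoleOrder π (symdet (2 * a) (-a)) 1 (N a)) (k : ℕ) (hk : k ≤ M) :
    Mean (fun p => ((π p).x 0 : ℂ)) (fun z => 2 * (z ^ (k : ℤ)).re)
      ((if k = 0 then 2 else N k - N (k - 1) : ℤ) : ℝ) := by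
  have hx : ∀ p, ‖((π p).x 0 : ℂ)‖ = 1 := fun p => (hπ p).2 0
  cases k with
  | zero =>
    have h1 := (Mean.one (a := fun p => ((π p).x 0 : ℂ))).const_mul 2
    refine (Mean.congr hx ?_ fun z _ => rfl)
    rw [if_pos rfl]
    push_cast
    simpa using h1
  | succ a =>
    rw [if_neg (Nat.succ_ne_zero a), Nat.add_sub_cancel]
    have h1 := mean_of_poleOrder (t := 0) hπ (by rw [pt_zeroF]; exact hN (a + 1) hk)
    have h2 := mean_of_poleOrder (t := 0) hπ (by rw [pt_zeroF]; exact hN a (by omega))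
    have h3 := MeanP.add (bdP_tre hπ _ _) ((bdP_tre hπ _ _).const_mul (-1)) h1 (h2.const_mul (-1))
    have e : ((N (a + 1) : ℤ) : ℝ) + -1 * (N a : ℤ) = ((N (a + 1) - N a : ℤ) : ℝ) := by
      push_cast
      ring
    rw [e] at h3
    refine h3.congr fun s => ?_
    congr 1
    unfold psm psum
    refine tsum_congr fun p => ?_
    congr 1
    show _ = 2 * (((π p).x 0 : ℂ) ^ ((a + 1 : ℕ) : ℤ)).re
    rw [tre_ad_succ hπ]
    ring

/-- The finite level theorem. -/
theorem gl2_finite {π : GSys 1} (hπ : Tempered π) {M : ℕ} (hM : 9 ≤ M)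
    (h : ∀ a : ℕ, a ≤ M → MeroAt π (symdet (2 * a) (-a)) 1)
    (had : PoleOrder π (symdet 2 (-1)) 1 0) :
    (∀ a : ℕ, 1 ≤ a → a < M → PoleOrder π (symdet (2 * a) (-a)) 1 0) ∨
    (∀ a : ℕ, 1 ≤ a → a < M → PoleOrder π (symdet (2 * a) (-a)) 1 (if Even a then 1 else 0)) ∨
    ∃ L : Law, L.ok = true ∧
      ∀ k : ℤ, Mean (fun p => ((π p).x 0 : ℂ)) (fun z => 2 * (z ^ k).re) (L.val k) := by
  classical
  have hex : ∀ a : ℕ, ∃ k : ℤ, a ≤ M → PoleOrder π (symdet (2 * a) (-a)) 1 k := by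
    intro a
    by_cases ha : a ≤ M
    · obtain ⟨k, hk⟩ := exists_poleOrder (t := 0) hπ (by rw [pt_zeroF]; exact h a ha)
      rw [pt_zeroF] at hk
      exact ⟨k, fun _ => hk⟩
    · exact ⟨0, fun h => absurd h ha⟩
  choose N hN using hex
  have hx : ∀ p, ‖((π p).x 0 : ℂ)‖ = 1 := fun p => (hπ p).2 0
  -- uniqueness of the order
  have huniq : ∀ (m : Wt 1 →₀ ℤ) (k l : ℤ), PoleOrder π m 1 k → PoleOrder π m 1 l → k = l := by
    intro m k l h1 h2
    rw [← pt_zeroF] at h1 h2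
    have := MeanP.unique (mean_of_poleOrder hπ h1) (mean_of_poleOrder hπ h2)
    exact_mod_cast this
  have hN0 : N 0 = 1 := by
    have h1 := mean_of_poleOrder (t := 0) hπ (by rw [pt_zeroF]; exact hN 0 (by omega))
    have h2 : MeanP (tre π (symdet (2 * 0) (-((0 : ℕ) : ℤ))) 0) 1 := by
      have h3 := MeanP.one
      refine h3.congr fun s => ?_
      congr 2
      funext p
      rw [tre_ad hπ]
      simp
    have h4 := MeanP.unique h1 h2
    exact_mod_cast h4
  have hN1 : N 1 = 0 := by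
    refine huniq _ _ _ (hN 1 (by omega)) ?_
    exact had
  set P : ℕ → ℤ := fun k => if k = 0 then 2 else N k - N (k - 1) with hPdef
  have hP0 : P 0 = 2 := by simp [hPdef]
  have hP1 : P 1 = -1 := by simp [hPdef, hN0, hN1]
  have hsum : ∀ a : ℕ, N a = 1 + ∑ i ∈ Finset.range a, P (i + 1) := by
    intro a
    have h1 : ∀ i ∈ Finset.range a, P (i + 1) = N (i + 1) - N i := by
      intro i _
      simp [hPdef]
    rw [Finset.sum_congr rfl h1, Finset.sum_range_sub, hN0]
    ring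
  rcases finite_level hM hP0 hP1 with h1 | h1 | ⟨L, hL, h1⟩
  · left
    intro a ha1 haM
    have h2 := hN a (by omega)
    have h3 : N a = 0 := by
      obtain ⟨b, rfl⟩ : ∃ b, a = b + 1 := ⟨a - 1, by omega⟩
      rw [hsum, Finset.sum_range_succ', hP1, Finset.sum_eq_zero]
      · norm_num
      · intro i hi
        rw [Finset.mem_range] at hi
        exact h1 _ (by omega) (by omega)
    rwa [h3] at h2
  · right
    left
    intro a ha1 haM
    have h2 := hN a (by omega)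
    have h3 : N a = if Even a then 1 else 0 := by
      rw [hsum]
      have h4 : ∀ i ∈ Finset.range a, P (i + 1) = -(-1) ^ i := by
        intro i hi
        rw [Finset.mem_range] at hi
        rw [h1 _ (by omega) (by omega), pow_succ]
        ring
      rw [Finset.sum_congr rfl h4, Finset.sum_neg_distrib, neg_one_geom_sum]
      split_ifs <;> norm_num
    rwa [h3] at h2
  · right
    right
    exact ⟨L, hL, fun k => mean_of_level hx h1 (fun j hj => mean_ad hπ hN j hj) k⟩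

end Pool.Agent.EEA520
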