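import Pool.Agent.W_eea520_h99.OneA
import Pool.Agent.W_eea520_h70.NatHol

/-!
# The virtual characters of `GL_2` (MP_eea520_nt, theorem G)
-/

set_option autoImplicit false

namespace Pool.Agent.EEA520

open Filter Topology Pool.Agent.EEAG1

variable {n : ℕ}

theorem Gen2_ne {t : Torus n} (ht : ∀ w, ‖(t.ev w : ℂ)‖ = 1) {q : ℂ} (hq : ‖q‖ < 1) (w : Wt n) :
    1 - (t.ev w : ℂ) * q ≠ 0 := by
  intro h
  have h1 : (t.ev w : ℂ) * q = 1 := (sub_eq_zero.1 h).symm
  have h2 : ‖(t.ev w : ℂ) * q‖ = 1 := by rw [h1, norm_one]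
  rw [norm_mul, ht, one_mul] at h2
  linarith

theorem Gen2_factor_add {t : Torus n} (ht : ∀ w, ‖(t.ev w : ℂ)‖ = 1) {q : ℂ} (hq : ‖q‖ < 1)
    (m m' : Wt n →₀ ℤ) : t.factor (m + m') q = t.factor m q * t.factor m' q := by
  classical
  unfold Torus.factor
  refine Finsupp.prod_add_index' (fun w => by simp) fun w a b => ?_
  rw [neg_add, zpow_add₀ (Gen2_ne ht hq w)]

theorem Gen2_norm {s : ℂ} (hs : 1 < s.re) (p : Pr) : ‖(((p : ℕ) : ℂ) ^ (-s))‖ < 1 := by
  have := hol_le (s := s) (by linarith) p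
  linarith

theorem Gen2_mem (t : ℝ) : ∀ᶠ s in 𝓝[{s : ℂ | 1 < s.re}] (pt t), 1 < s.re :=
  eventually_mem_nhdsWithin

/-- For `Re s > 1` the Euler product is `exp (LSeries (chn π m) s + hol π m s)` (`factor_hasProd`), and the
exponent is additive in `m`. -/
theorem MeroAt.add {n : ℕ} {π : GSys n} (hπ : Tempered π) {m m' : Wt n →₀ ℤ} {t : ℝ}
    (h : MeroAt π m (pt t)) (h' : MeroAt π m' (pt t)) : MeroAt π (m + m') (pt t) := by
  obtain ⟨g, hg, hL⟩ := h
  obtain ⟨g', hg', hL'⟩ := h'
  refine ⟨g * g', hg.mul hg', ?_⟩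
  filter_upwards [hL, hL', Gen2_mem t] with s h1 h2 hs
  have h3 := h1.mul h2
  refine h3.congr_fun fun p => ?_
  exact Gen2_factor_add (fun w => norm_ev hπ p w) (Gen2_norm hs p) m m'

theorem MeroAt.neg {n : ℕ} {π : GSys n} (hπ : Tempered π) {m : Wt n →₀ ℤ} {t : ℝ}
    (h : MeroAt π m (pt t)) : MeroAt π (-m) (pt t) := by
  obtain ⟨g, hg, hL⟩ := h
  refine ⟨g⁻¹, hg.inv, ?_⟩
  filter_upwards [hL, Gen2_mem t] with s h1 hs
  have h2 := factor_hasProd hπ (-m) hs
  have h3 := h1.mul h2
  have h4 : HasProd (fun _ : Pr => (1 : ℂ)) (g s * Complex.exp (LSeries (chn π (-m)) s +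
      hol π (-m) s)) := by
    refine h3.congr_fun fun p => ?_
    rw [← Gen2_factor_add (fun w => norm_ev hπ p w) (Gen2_norm hs p) m (-m), add_neg_cancel]
    unfold Torus.factor
    rw [Finsupp.prod_zero_index]
  have h5 := h4.unique hasProd_one
  have h6 : (g⁻¹) s = Complex.exp (LSeries (chn π (-m)) s + hol π (-m) s) := by
    rw [Pi.inv_apply]
    exact inv_eq_of_mul_eq_one_right h5
  rw [h6]
  exact h2

/-- The characters for which the Euler product is meromorphic at the point. -/
def Gen2_S {π : GSys 1} (hπ : Tempered π) {t : ℝ} (h : MeroAt π (symdet 0 0) (pt t)) :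
    AddSubgroup (Wt 1 →₀ ℤ) where
  carrier := {m | MeroAt π m (pt t)}
  add_mem' ha hb := MeroAt.add hπ ha hb
  zero_mem' := by
    have := MeroAt.add hπ h (MeroAt.neg hπ h)
    rwa [add_neg_cancel] at this
  neg_mem' ha := MeroAt.neg hπ ha

open Classical in
/-- The sum of the orbit. -/
noncomputable def Gen2_O (w : Wt 1) : Wt 1 →₀ ℤ :=
  Finsupp.single w 1 + if 2 * w.2 0 = w.1 then 0 else
    Finsupp.single (w1 w.1 (w.1 - w.2 0)) 1

theorem Gen2_w1 (w : Wt 1) : w1 w.1 (w.2 0) = w := by
  refine Prod.ext rfl ?_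
  funext l
  have hl : l = 0 := Subsingleton.elim _ _
  subst hl
  rfl

theorem Gen2_O_mem {π : GSys 1} (hπ : Tempered π) {t : ℝ}
    (h : ∀ (k : ℕ) (j : ℤ), MeroAt π (symdet k j) (pt t)) {w : Wt 1} (hw : 2 * w.2 0 ≤ w.1) :
    Gen2_O w ∈ Gen2_S hπ (h 0 0) := by
  classical
  have hmem : ∀ (k : ℕ) (j : ℤ), symdet k j ∈ Gen2_S hπ (h 0 0) := h
  obtain ⟨K, M, rfl⟩ : ∃ K M, w = w1 K M := ⟨w.1, w.2 0, (Gen2_w1 w).symm⟩
  have hw' : 2 * M ≤ K := hw
  unfold Gen2_O
  show Finsupp.single (w1 K M) 1 + (if 2 * M = K then 0 else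
    Finsupp.single (w1 K (K - M)) 1) ∈ _
  obtain ⟨k, hk⟩ : ∃ k : ℕ, K = k + 2 * M := ⟨(K - 2 * M).toNat, by omega⟩
  subst hk
  rcases k with _ | _ | l
  · rw [if_pos (by push_cast; ring), add_zero]
    have := hmem 0 M
    unfold symdet at this
    rw [Finset.sum_range_one] at this
    simpa using this
  · rw [if_neg (by push_cast; omega)]
    have := hmem 1 M
    unfold symdet at this
    rw [Finset.sum_range_succ, Finset.sum_range_one] at this
    have e1 : ((0 + 1 : ℕ) : ℤ) + 2 * M - M = ((1 : ℕ) : ℤ) + M := by push_cast; ring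
    rw [e1]
    simpa using this
  · rw [if_neg (by push_cast; omega)]
    have h1 := hmem (l + 2) M
    have h2 := hmem l (M + 1)
    have h3 := AddSubgroup.sub_mem _ h1 h2
    have e : symdet (l + 2) M - symdet l (M + 1) =
        Finsupp.single (w1 (((l + 1 + 1 : ℕ) : ℤ) + 2 * M) M) 1 +
          Finsupp.single (w1 (((l + 1 + 1 : ℕ) : ℤ) + 2 * M)
            (((l + 1 + 1 : ℕ) : ℤ) + 2 * M - M)) 1 := by
      unfold symdet
      rw [Finset.sum_range_succ, Finset.sum_range_succ']
      have e2 : ∀ i ∈ Finset.range (l + 1),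
          (Finsupp.single (w1 (((l + 2 : ℕ) : ℤ) + 2 * M) (((i + 1 : ℕ) : ℤ) + M)) 1 : Wt 1 →₀ ℤ) =
            Finsupp.single (w1 ((l : ℤ) + 2 * (M + 1)) ((i : ℤ) + (M + 1))) 1 := by
        intro i _
        congr 2
        · push_cast
          ring
        · push_cast
          ring
      rw [Finset.sum_congr rfl e2]
      have e3 : (((l + 2 : ℕ) : ℤ) + M) = ((l + 1 + 1 : ℕ) : ℤ) + 2 * M - M := by
        push_cast
        ring
      rw [e3, Nat.cast_zero, zero_add]
      abel
    rw [e] at h3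
    exact h3

/-- Every virtual character of `GL_2` is a linear combination of the `symdet k j`: the sum of the orbit of
`w1 K M` is `symdet k j - symdet (k - 2) (j + 1)` for `j = min M (K - M)`, `k = |K - 2 M| ≥ 2` (for
`k = 1` it is `symdet 1 j`, and `w1 K M = symdet 0 j` for `k = 0`). -/
theorem mero_of_symdet {π : GSys 1} (hπ : Tempered π) {t : ℝ}
    (h : ∀ (k : ℕ) (j : ℤ), MeroAt π (symdet k j) (pt t)) {m : Wt 1 →₀ ℤ} (hm : IsCharacter m) :
    MeroAt π m (pt t) := by
  classical
  have hrefl : ∀ K M : ℤ, m (w1 K (K - M)) = m (w1 K M) := by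
    intro K M
    have h1 := hm.2 0 K (fun _ => M)
    refine Eq.trans ?_ h1
    congr 1
    refine Prod.ext rfl ?_
    funext l
    have hl : l = 0 := Subsingleton.elim _ _
    subst hl
    show K - M = Function.update (fun _ => M) 0 (K - M) 0
    rw [Function.update_self]
  have key : m = ∑ w ∈ m.support.filter (fun w => 2 * w.2 0 ≤ w.1), m w • Gen2_O w := by
    ext u
    rw [Finsupp.finsetSum_apply]
    have hO : ∀ w : Wt 1, (m w • Gen2_O w) u = m w * ((if w = u then 1 else 0) +
        if 2 * w.2 0 = w.1 then 0 else if w1 w.1 (w.1 - w.2 0) = u then 1 else 0) := by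
      intro w
      unfold Gen2_O
      rw [Finsupp.smul_apply, smul_eq_mul, Finsupp.add_apply, Finsupp.single_apply]
      congr 2
      split_ifs with h1 h2
      · rfl
      · rw [Finsupp.single_apply, if_pos h2]
      · rw [Finsupp.single_apply, if_neg h2]
    rw [Finset.sum_congr rfl fun w _ => hO w]
    by_cases hu : 2 * u.2 0 ≤ u.1
    · have h1 : ∀ w ∈ m.support.filter (fun w => 2 * w.2 0 ≤ w.1), m w * ((if w = u then 1 else 0) +
          if 2 * w.2 0 = w.1 then 0 else if w1 w.1 (w.1 - w.2 0) = u then 1 else 0) =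
          if w = u then m w else 0 := by
        intro w hw
        rw [Finset.mem_filter] at hw
        have h2 : (if 2 * w.2 0 = w.1 then 0 else if w1 w.1 (w.1 - w.2 0) = u then (1 : ℤ) else 0)
            = 0 := by
          split_ifs with h3 h4
          · rfl
          · exfalso
            rw [← h4] at hu
            have h5 : 2 * (w.1 - w.2 0) ≤ w.1 := hu
            omega
          · rfl
        rw [h2, add_zero]
        split_ifs <;> simp
      rw [Finset.sum_congr rfl h1, Finset.sum_ite_eq']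
      split_ifs with h2
      · rfl
      · by_contra h3
        exact h2 (Finset.mem_filter.2 ⟨Finsupp.mem_support_iff.2 h3, hu⟩)
    · have h1 : ∀ w ∈ m.support.filter (fun w => 2 * w.2 0 ≤ w.1), m w * ((if w = u then 1 else 0) +
          if 2 * w.2 0 = w.1 then 0 else if w1 w.1 (w.1 - w.2 0) = u then 1 else 0) =
          if w = w1 u.1 (u.1 - u.2 0) then m w else 0 := by
        intro w hw
        rw [Finset.mem_filter] at hw
        have h2 : w ≠ u := by
          rintro rfl
          exact hu hw.2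
        rw [if_neg h2, zero_add]
        by_cases h3 : w = w1 u.1 (u.1 - u.2 0)
        · rw [if_pos h3, h3]
          have h4 : ¬ (2 * (w1 u.1 (u.1 - u.2 0)).2 0 = (w1 u.1 (u.1 - u.2 0)).1) := by
            show ¬ (2 * (u.1 - u.2 0) = u.1)
            omega
          rw [if_neg h4, if_pos, mul_one]
          show w1 u.1 (u.1 - (u.1 - u.2 0)) = u
          rw [sub_sub_cancel]
          exact Gen2_w1 u
        · rw [if_neg h3]
          split_ifs with h4 h5
          · rw [mul_zero]
          · exfalso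
            apply h3
            rw [← h5]
            show w = w1 w.1 (w.1 - (w.1 - w.2 0))
            rw [sub_sub_cancel]
            exact (Gen2_w1 w).symm
          · rw [mul_zero]
      rw [Finset.sum_congr rfl h1, Finset.sum_ite_eq']
      have h2 : m u = m (w1 u.1 (u.1 - u.2 0)) := by
        rw [hrefl, Gen2_w1]
      split_ifs with h3
      · exact h2
      · rw [h2]
        by_contra h4
        refine h3 (Finset.mem_filter.2 ⟨Finsupp.mem_support_iff.2 h4, ?_⟩)
        show 2 * (u.1 - u.2 0) ≤ u.1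
        omega
  have hfin : m ∈ Gen2_S hπ (h 0 0) := by
    rw [key]
    refine AddSubgroup.sum_mem _ fun w hw => AddSubgroup.zsmul_mem _ ?_ _
    rw [Finset.mem_filter] at hw
    exact Gen2_O_mem hπ h hw.2
  exact hfin

end Pool.Agent.EEA520
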