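import Pool.Agent.W_eea520_h99.FinType

/-!
# The finite types with `c 2 = c 3 = c 4 = 0` (MP_eea520_nt, theorem G)
-/

set_option autoImplicit false

namespace Pool.Agent.EEAG1

theorem Short_exc : ∀ l ∈ excL, per l 2 = 0 → per l 3 = 0 → per l 4 = 0 →
    l = [2, -1, 0, 0, 0, 0, 1, -1, 0, 0, 1, -1, 1, -1, 0, 1, 0, -1, 1, -1, 1, 0, 0, -1, 1, 0, 0, 0,
    0, -1] ∨
    l = [2, -1, 0, 0, 0, 1, -1, 0, 1, -1, 1, -1, 1, 0, -1, 1, 0, 0, 0, -1] ∨
    l = [2, -1, 0, 0, 0, 1, -1, 0, 0, 1, -1, 0, 0, 0, 1, -2, 1, 0, 0, 0, -1, 1, 0, 0, -1, 1, 0, 0,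
    0, -1] := by
  decide

theorem Short_comb_zero (N : ℕ) (η k : ℤ) (h : ¬ (N : ℤ) ∣ k) : comb N η k = 0 := by
  unfold comb
  rw [if_neg h]

theorem Short_comb_self (N : ℕ) (hN : 1 ≤ N) (η : ℤ) : comb N η N = η := by
  unfold comb
  have h0 : (N : ℤ) ≠ 0 := by omega
  rw [if_pos (dvd_refl _), Int.ediv_self h0]
  simp

/-- `famA N η` has `c (N - 1) = - η`, so `N ≥ 6` (for `N = 3, 4, 5` one of `c 2, c 3, c 4` is not `0`);
`famD N η` has `c 2 = 1 + comb N η 2`, so `N = 2` and `c 3 = -1`; `excL` is finite (`decide`, with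
`per l 2 = l.getD 2 0` etc.). -/
theorem short_of {c : ℤ → ℤ} (hc : FinType c) (h2 : c 2 = 0) (h3 : c 3 = 0) (h4 : c 4 = 0) :
    ShortType c := by
  rcases hc with ⟨N, η, hN, hη, rfl⟩ | ⟨N, η, hN, hη, rfl⟩ | ⟨l, hl, rfl⟩
  · left
    refine ⟨N, η, ?_, hη, rfl⟩
    have hη0 : η ≠ 0 := by rcases hη with h | h <;> omega
    by_contra hlt
    have h5 : N = 3 ∨ N = 4 ∨ N = 5 := by omega
    rcases h5 with rfl | rfl | rfl
    · unfold famA at h2
      rw [Short_comb_zero 3 η 2 (by decide), Short_comb_zero 3 η (2 - 1) (by decide)] at h2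
      have h6 : comb 3 η (2 + 1) = η := Short_comb_self 3 (by decide) η
      rw [h6] at h2
      omega
    · unfold famA at h3
      rw [Short_comb_zero 4 η 3 (by decide), Short_comb_zero 4 η (3 - 1) (by decide)] at h3
      have h6 : comb 4 η (3 + 1) = η := Short_comb_self 4 (by decide) η
      rw [h6] at h3
      omega
    · unfold famA at h4
      rw [Short_comb_zero 5 η 4 (by decide), Short_comb_zero 5 η (4 - 1) (by decide)] at h4
      have h6 : comb 5 η (4 + 1) = η := Short_comb_self 5 (by decide) η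
      rw [h6] at h4
      omega
  · exfalso
    unfold famD at h2 h3
    by_cases hd : (N : ℤ) ∣ 2
    · have hN2 : N = 2 := by
        have := Int.le_of_dvd (by decide) hd
        omega
      subst hN2
      rw [Short_comb_zero 2 η 3 (by decide)] at h3
      revert h3
      decide
    · rw [Short_comb_zero N η 2 hd] at h2
      revert h2
      decide
  · right
    rcases Short_exc l hl h2 h3 h4 with rfl | rfl | rfl
    · exact Or.inl rfl
    · exact Or.inr (Or.inl rfl)
    · exact Or.inr (Or.inr rfl)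

end Pool.Agent.EEAG1
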