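import Pool.Agent.W_eea520_h99.OneC
import Pool.Agent.W_eea520_h99.FinL
import Pool.Agent.W_eea520_h99.FinType
import Pool.Agent.W_eea520_h99.Short
import Pool.Agent.W_eea520_h99.Gen2
import Pool.Agent.W_eea520_h70.NatLaw

/-!
# `GL_2`: the theorem (MP_eea520_nt, theorem G)
-/

set_option autoImplicit false

namespace Pool.Agent.EEA520

open Filter Topology Pool.Agent.EEAG1 MeasureTheory

/-- The three cases. -/
theorem gl2_cases {π : GSys 1} (hπ : Tempered π) {E : AddSubgroup ℝ}
    (h : ∀ m, IsCharacter m → ∀ t ∈ E, MeroAt π m (pt t))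
    (had : PoleOrder π (symdet 2 (-1)) 1 0) :
    ((∀ k : ℕ, 1 ≤ k → ∀ (j : ℤ), ∀ t ∈ E, PoleOrder π (symdet k j) (pt t) 0) ∧
      TraceLaw π satoTate) ∨
    ((∀ k : ℕ, Odd k → ∀ (j : ℤ), ∀ t ∈ E, PoleOrder π (symdet k j) (pt t) 0) ∧
      (∀ a : ℕ, ∀ t ∈ E, PoleOrder π (symdet (2 * a) (-a)) (pt t)
        (if t = 0 ∧ Even a then 1 else 0)) ∧
      TraceLaw π cmLaw) ∨
    ∃ r : ℕ, 0 < r ∧ Even r ∧
      Mean (fun p => ((π p).x 0 : ℂ)) (fun z => 2 * (z ^ (r : ℤ)).re) 2 := by
  classical
  obtain ⟨c, hc⟩ := exists_isOrd hπ h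
  have had' := had_of hπ hc had
  -- the orders of the symmetric powers
  have hord : ∀ (k : ℕ) (j : ℤ) (t : ℝ) (ht : t ∈ E) (o : ℤ),
      2 * o = ∑ i ∈ Finset.range (k + 1), c (w1 (k + 2 * j) (i + j), ⟨t, ht⟩) →
      PoleOrder π (symdet k j) (pt t) o := by
    intro k j t ht o ho
    obtain ⟨o', ho'⟩ := exists_poleOrder hπ (h _ (symdet_isCharacter k j) t ht)
    have h1 := order_symdet (t := ⟨t, ht⟩) hπ hc ho'
    have h2 : o = o' := by linarith
    rw [h2]
    exact ho'
  rcases one_cases hπ hc had' with ⟨r, h1, h2, h3⟩ | ⟨r, s, h1, h2, h3, h4, h5, h6⟩ | ⟨r, hr, h1⟩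
  · left
    refine ⟨fun k hk j t ht => hord k j t ht 0 ?_, ?_⟩
    · set f : ℕ → ℤ := fun i => r (k + 2 * j) ⟨t, ht⟩ (i + j) - r (k + 2 * j) ⟨t, ht⟩ (i + j - 1)
        with hf
      have e1 : ∀ i ∈ Finset.range (k + 1), c (w1 (k + 2 * j) (i + j), ⟨t, ht⟩) = f i - f (i + 1) := by
        intro i _
        rw [h1, hf]
        push_cast
        have e2 : (i : ℤ) + 1 + j = i + j + 1 := by ring
        have e3 : (i : ℤ) + j + 1 - 1 = i + j := by ring
        rw [e2, e3]
        ring
      rw [Finset.sum_congr rfl e1, telescope]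
      have hz : ∀ M : ℤ, 2 * M ≠ k + 2 * j → r (k + 2 * j) ⟨t, ht⟩ M = 0 := by
        intro M hM
        by_contra hne
        exact hM (h2 _ _ _ hne)
      rw [hf]
      push_cast
      rw [hz _ (by push_cast; omega), hz _ (by push_cast; omega), hz _ (by push_cast; omega),
        hz _ (by push_cast; omega)]
      ring
    · obtain ⟨μ, hμ, hμ1, hμ2⟩ := exists_st
      have hx : ∀ k : ℤ, (c (w1 0 k, 0) : ℝ) =
          if k = 0 then 2 else if k = 1 ∨ k = -1 then -1 else 0 := by
        intro k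
        rw [h1, h3, h3, h3]
        by_cases hk0 : k = 0
        · subst hk0
          norm_num
        · rw [if_neg hk0, if_neg hk0]
          by_cases hk1 : k = 1
          · subst hk1
            norm_num
          · by_cases hk2 : k = -1
            · subst hk2
              norm_num
            · rw [if_neg (by omega), if_neg (by omega), if_neg (by omega)]
              norm_num
      have h7 := traceLaw_of_moments hπ hc μ (fun k => by
        rw [hμ2, hx]
        by_cases hk0 : k = 0
        · subst hk0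
          norm_num
        · rw [if_neg (by omega), if_neg hk0]
          by_cases hk1 : k = 1 ∨ k = -1
          · rw [if_pos (by omega), if_pos hk1]
          · rw [if_neg (by omega), if_neg hk1]) (fun hnu k => by
        rcases Int.even_or_odd' k with ⟨i, rfl | rfl⟩
        · rw [ord_nu hπ hnu hc, hx, hμ2]
          by_cases hk0 : i = 0
          · subst hk0
            norm_num
          · rw [if_neg (by omega), if_neg hk0]
            by_cases hk1 : i = 1 ∨ i = -1
            · rw [if_pos (by omega), if_pos hk1]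
            · rw [if_neg (by omega), if_neg hk1]
        · have hz : ∀ M : ℤ, r (2 * i + 1) 0 M = 0 := by
            intro M
            by_contra hne
            have := h2 _ _ _ hne
            omega
          rw [h1, hz, hz, hz, hμ2, if_neg (by omega), if_neg (by omega)]
          norm_num)
      simp only [hμ1] at h7
      exact h7
  · right
    left
    have hr0 : ∀ K t M, 2 * M ≠ K → r K t M = 0 := by
      intro K t M hM
      by_contra hne
      exact hM (h2 _ _ _ hne)
    refine ⟨fun k hk j t ht => hord k j t ht 0 ?_, fun a t ht => hord _ _ t ht _ ?_, ?_⟩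
    · rw [Finset.sum_eq_zero, mul_zero]
      intro i _
      have hodd : Odd ((k : ℤ) + 2 * j) := by
        have : Odd (k : ℤ) := by exact_mod_cast hk
        exact this.add_even (even_two_mul j)
      rw [h1, h3 _ _ hodd, hr0, mul_zero, add_zero]
      intro h7
      rw [← h7] at hodd
      exact (Int.not_odd_iff_even.2 (even_two_mul _)) hodd
    · have e0 : ((2 * a : ℕ) : ℤ) + 2 * -(a : ℤ) = 0 := by push_cast; ring
      rw [e0]
      by_cases ht0 : t = 0
      · subst ht0
        have e1 : ∀ i ∈ Finset.range (2 * a + 1), c (w1 0 (i + -(a : ℤ)), ⟨0, ht⟩) =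
            (if i = a then 1 else 0) + (-1) ^ ((i : ℤ) + -(a : ℤ)).natAbs := by
          intro i _
          have e2 : (⟨0, ht⟩ : E) = 0 := rfl
          rw [e2, h1, h5, h6, mul_one]
          congr 1
          refine if_congr ?_ rfl rfl
          omega
        rw [Finset.sum_congr rfl e1, Finset.sum_add_distrib, sum_alt, Finset.sum_ite_eq',
          if_pos (Finset.mem_range.2 (by omega))]
        by_cases ha : Even a
        · rw [if_pos ⟨rfl, ha⟩, ha.neg_one_pow]
          norm_num
        · rw [if_neg (fun h7 => ha h7.2), (Nat.not_even_iff_odd.1 ha).neg_one_pow]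
          norm_num
      · rw [if_neg (fun h7 => ht0 h7.1), mul_zero, Finset.sum_eq_zero]
        intro i _
        have e2 : (⟨t, ht⟩ : E) ≠ 0 := fun h7 => ht0 (congrArg Subtype.val h7)
        obtain ⟨h7, h8⟩ := h4 _ e2
        rw [h1, h7, h8]
        ring
    · obtain ⟨μ, hμ, hμ1, hμ2, hμ3⟩ := exists_cm
      have hx : ∀ k : ℤ, (c (w1 0 k, 0) : ℝ) = (if k = 0 then 1 else 0) + (-1) ^ k.natAbs := by
        intro k
        rw [h1, h5, h6]
        push_cast
        ring
      have h7 := traceLaw_of_moments hπ hc μ (fun k => by rw [hμ2, hx]) (fun hnu k => by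
        rcases Int.even_or_odd' k with ⟨i, rfl | rfl⟩
        · rw [ord_nu hπ hnu hc, hx, hμ2]
        · rw [h1, hr0 _ _ _ (by omega), h3 _ _ ⟨i, rfl⟩, hμ3]
          norm_num)
      refine ⟨fun f hf => ?_, fun hnu f hf => ?_⟩
      · have h8 := h7.1 f hf
        have h9 : ContinuousOn (fun y : ℝ => f |y|) (Set.Icc (-2) 2) := by
          refine hf.comp (by fun_prop) fun y hy => ⟨abs_nonneg _, abs_le.2 hy⟩
        rw [← hμ1 _ h9]
        exact h8
      · have h8 := h7.2 hnu f hf
        rw [← hμ1 f hf]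
        exact h8
  · right
    right
    refine ⟨r + r, by omega, Even.add_self r, ?_⟩
    have h2 := mean_x hπ hc ((r + r : ℕ) : ℤ)
    have h3 : c (w1 0 ((r + r : ℕ) : ℤ), 0) = 2 := by
      have h4 := h1 0
      have h6 := h1 (w1 0 r, 0)
      have h7 : ((w1 0 r, (0 : E)) + (w1 0 r, 0) : Wt 1 × E) = (w1 0 ((r + r : ℕ) : ℤ), 0) := by
        show (w1 0 r + w1 0 r, (0 : E) + 0) = _
        rw [w1_add, add_zero, add_zero]
        push_cast
        rfl
      rw [zero_add] at h4
      rw [← h7, h6, h4]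
      have h5 := ord_base hπ hc 0
      rw [if_pos rfl] at h5
      exact h5
    rw [h3] at h2
    exact_mod_cast h2

/-- The order of `Sym^(2 a) ⊗ det^(-a)`. -/
def adOrder (c : ℤ → ℤ) (a : ℕ) : ℤ := 1 + ∑ i ∈ Finset.range a, c ((i : ℤ) + 1)

/-- The mean values. -/
def Moments (π : GSys 1) (c : ℤ → ℤ) : Prop :=
  ∀ k : ℤ, Tendsto (fun s : ℝ => (∑' p : Pr, 2 * (((π p).x 0 : ℂ) ^ k).re * ((p : ℕ) : ℝ) ^ (-s)) /
    ∑' p : Pr, ((p : ℕ) : ℝ) ^ (-s)) (𝓝[>] 1) (𝓝 (c k))

/-- The mean values in the sense of natural density. -/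
def NatMoments (π : GSys 1) (c : ℤ → ℤ) : Prop :=
  ∀ k : ℤ, NMean (fun p => 2 * (((π p).x 0 : ℂ) ^ k).re) (c k)

theorem adOrder_st (a : ℕ) : adOrder stSeq a = if a = 0 then 1 else 0 := by
  unfold adOrder
  cases a with
  | zero => simp
  | succ a =>
    rw [Finset.sum_range_succ', if_neg (Nat.succ_ne_zero a), Finset.sum_eq_zero]
    · simp [stSeq]
    · intro i _
      unfold stSeq
      rw [if_neg (by push_cast; omega), if_neg (by push_cast; omega)]

theorem adOrder_cm (a : ℕ) : adOrder cmSeq a = if Even a then 1 else 0 := by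
  unfold adOrder
  have h1 : ∀ i ∈ Finset.range a, cmSeq ((i : ℤ) + 1) = -(-1) ^ i := by
    intro i _
    unfold cmSeq
    rw [if_neg (by omega), show ((i : ℤ) + 1).natAbs = i + 1 by omega, pow_succ]
    ring
  rw [Finset.sum_congr rfl h1, Finset.sum_neg_distrib, neg_one_geom_sum]
  split_ifs <;> norm_num

/-- Uniqueness of the order. -/
theorem order_unique {n : ℕ} {π : GSys n} (hπ : Tempered π) {m : Wt n →₀ ℤ} {t : ℝ} {k l : ℤ}
    (h1 : PoleOrder π m (pt t) k) (h2 : PoleOrder π m (pt t) l) : k = l := by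
  have := MeanP.unique (mean_of_poleOrder hπ h1) (mean_of_poleOrder hπ h2)
  exact_mod_cast this

/-- The order of `Sym^(2 a) ⊗ det^(-a)` at `1`, from the mean values. -/
theorem order_of_moments {π : GSys 1} (hπ : Tempered π) {c : ℤ → ℤ}
    (hc : ∀ k : ℤ, Mean (fun p => ((π p).x 0 : ℂ)) (fun z => 2 * (z ^ k).re) (c k)) {a : ℕ} {o : ℤ}
    (ho : PoleOrder π (symdet (2 * a) (-a)) (pt 0) o) : o = adOrder c a := by
  have hx : ∀ p, ‖((π p).x 0 : ℂ)‖ = 1 := fun p => (hπ p).2 0
  have h1 := mean_of_poleOrder hπ ho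
  have key : ∀ a : ℕ, MeanP (tre π (symdet (2 * a) (-a)) 0) (adOrder c a : ℤ) := by
    intro a
    induction a with
    | zero =>
      have h3 := MeanP.one
      have e : ((adOrder c 0 : ℤ) : ℝ) = 1 := by simp [adOrder]
      rw [e]
      refine h3.congr fun s => ?_
      congr 2
      funext p
      rw [tre_ad hπ]
      simp
    | succ a ih =>
      have h2 : MeanP (fun p => 2 * (((π p).x 0 : ℂ) ^ ((a + 1 : ℕ) : ℤ)).re) (c ((a + 1 : ℕ) : ℤ)) :=
        hc _
      have hb : BdP fun p => 2 * (((π p).x 0 : ℂ) ^ ((a + 1 : ℕ) : ℤ)).re := by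
        obtain ⟨C, hC⟩ := A5_re_bd ((a + 1 : ℕ) : ℤ)
        exact ⟨C, fun p => hC _ (hx p)⟩
      have h3 := MeanP.add (bdP_tre hπ _ _) hb ih h2
      have e : ((adOrder c (a + 1) : ℤ) : ℝ) = (adOrder c a : ℤ) + (c ((a + 1 : ℕ) : ℤ) : ℝ) := by
        unfold adOrder
        rw [Finset.sum_range_succ]
        push_cast
        ring
      rw [e]
      refine h3.congr fun s => ?_
      congr 2
      funext p
      rw [tre_ad_succ hπ]
      ring
  have h4 := MeanP.unique h1 (key a)
  exact_mod_cast h4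

theorem seq_ext {c d : ℤ → ℤ} (hc : ∀ k, c (-k) = c k) (hd : ∀ k, d (-k) = d k)
    (h : ∀ k : ℕ, c k = d k) : c = d := by
  funext k
  rcases Int.natAbs_eq k with hk | hk
  · rw [hk]
    exact h _
  · rw [hk, hc, hd]
    exact h _

theorem stSeq_neg (k : ℤ) : stSeq (-k) = stSeq k := by
  unfold stSeq
  simp only [neg_eq_zero]
  congr 1
  refine if_congr ?_ rfl rfl
  omega

theorem cmSeq_neg (k : ℤ) : cmSeq (-k) = cmSeq k := by
  unfold cmSeq
  simp only [neg_eq_zero, Int.natAbs_neg]

/-- All levels. -/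
theorem all_levels {P : ℕ → ℤ} (h0 : P 0 = 2) (h1 : P 1 = -1) :
    (∀ k : ℕ, P k = stSeq k) ∨ (∀ k : ℕ, P k = cmSeq k) ∨
      ∃ (M : ℕ) (L : Law), L.ok = true ∧ ∀ c : ℤ → ℝ, PosDef c → (∀ k : ℕ, k ≤ M → c k = P k) →
        ∀ k, c k = L.val k := by
  by_cases hM : ∃ (M : ℕ) (L : Law), L.ok = true ∧ ∀ c : ℤ → ℝ, PosDef c →
      (∀ k : ℕ, k ≤ M → c k = P k) → ∀ k, c k = L.val k
  · exact Or.inr (Or.inr hM)
  · have h2 : ∀ M : ℕ, 9 ≤ M → (∀ k, 2 ≤ k → k < M → P k = 0) ∨
        (∀ k, 1 ≤ k → k < M → P k = (-1) ^ k) := by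
      intro M h9
      rcases finite_level h9 h0 h1 with h | h | h
      · exact Or.inl h
      · exact Or.inr h
      · exact absurd ⟨M, h⟩ hM
    by_cases hz : P 2 = 0
    · left
      intro k
      unfold stSeq
      by_cases hk0 : k = 0
      · subst hk0
        simpa using h0
      · by_cases hk1 : k = 1
        · subst hk1
          simpa using h1
        · rw [if_neg (by omega), if_neg (by omega)]
          rcases h2 (k + 9) (by omega) with h | h
          · exact h k (by omega) (by omega)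
          · have := h 2 (by omega) (by omega)
            rw [hz] at this
            norm_num at this
    · right
      left
      intro k
      unfold cmSeq
      by_cases hk0 : k = 0
      · subst hk0
        simpa using h0
      · rw [if_neg (by omega), Int.natAbs_natCast]
        rcases h2 (k + 9) (by omega) with h | h
        · exact absurd (h 2 (by omega) (by omega)) hz
        · exact h k (by omega) (by omega)

end Pool.Agent.EEA520
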