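import Pool.Agent.W_eea520_h99.MeanP

/-!
# The Weyl group, sums over orbits (MP_eea520_nt, theorem G)
-/

set_option autoImplicit false

namespace Pool.Agent.EEA520

open Filter Topology Pool.Agent.EEAG1

variable {n : ℕ}

/-- The elements of the Weyl group. -/
abbrev WG (n : ℕ) : Type := Equiv.Perm (Fin n) × Finset (Fin n)

/-- The action of the Weyl group on the weights. -/
def act (g : WG n) : Wt n →+ Wt n where
  toFun w := (w.1, fun i => if i ∈ g.2 then w.1 - w.2 (g.1 i) else w.2 (g.1 i))
  map_zero' := by
    ext i
    · rfl
    · simp
  map_add' v w := by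
    ext i
    · rfl
    · simp only [Prod.fst_add, Prod.snd_add, Pi.add_apply]
      split_ifs
      · ring
      · rfl

theorem act_apply (g : WG n) (w : Wt n) :
    act g w = (w.1, fun i => if i ∈ g.2 then w.1 - w.2 (g.1 i) else w.2 (g.1 i)) := rfl

/-- The sum over the orbit of a weight. -/
noncomputable def orb (w : Wt n) : Wt n →₀ ℤ := ∑ g : WG n, Finsupp.single (act g w) 1

theorem orb_apply (w u : Wt n) : orb w u = ∑ g : WG n, if act g w = u then 1 else 0 := by
  classical
  unfold orb
  rw [Finsupp.finsetSum_apply]
  refine Finset.sum_congr rfl fun g _ => ?_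
  rw [Finsupp.single_apply]

theorem orb_isCharacter (w : Wt n) : IsCharacter (orb w) := by
  classical
  constructor
  · intro τ k μ
    rw [orb_apply, orb_apply]
    refine Fintype.sum_equiv ((Equiv.mulRight τ⁻¹).prodCongr (Equiv.finsetCongr τ)) _ _ fun g => ?_
    refine if_congr ?_ rfl rfl
    rw [act_apply, act_apply, Prod.mk.injEq, Prod.mk.injEq]
    refine and_congr Iff.rfl ?_
    constructor
    · intro h
      funext i
      have h1 := congrFun h (τ.symm i)
      simp only [Function.comp_apply, Equiv.apply_symm_apply] at h1
      rw [← h1]
      simp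
    · intro h
      funext i
      rw [Function.comp_apply, ← h]
      simp
  · intro i k μ
    rw [orb_apply, orb_apply]
    have hinv : Function.Involutive fun I : Finset (Fin n) => symmDiff I {i} := fun I => by
      simp
    refine Fintype.sum_equiv ((Equiv.refl _).prodCongr hinv.toPerm) _ _ fun g => ?_
    refine if_congr ?_ rfl rfl
    rw [act_apply, act_apply, Prod.mk.injEq, Prod.mk.injEq]
    refine and_congr_right fun h0 => ?_
    simp only [Equiv.prodCongr_apply, Prod.map_fst, Equiv.refl_apply, Prod.map_snd,
      Function.Involutive.coe_toPerm, Finset.mem_symmDiff, Finset.mem_singleton]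
    constructor
    · intro h
      funext j
      have h1 := congrFun h j
      by_cases hj : j = i
      · subst hj
        rw [Function.update_self] at h1
        by_cases hI : j ∈ g.2
        · simp only [hI, not_true_eq_false, and_false, or_false, if_true, if_false] at h1 ⊢
          linarith
        · simp only [hI, false_and, not_false_eq_true, and_true, false_or, if_true, if_false]
            at h1 ⊢
          linarith
      · rw [Function.update_of_ne hj] at h1
        simp only [hj, not_false_eq_true, and_true, false_and, or_false]
        exact h1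
    · intro h
      funext j
      have h1 := congrFun h j
      by_cases hj : j = i
      · subst hj
        rw [Function.update_self]
        by_cases hI : j ∈ g.2
        · simp only [hI, not_true_eq_false, and_false, or_false, if_true, if_false] at h1 ⊢
          linarith
        · simp only [hI, false_and, not_false_eq_true, and_true, false_or, if_true, if_false]
            at h1 ⊢
          linarith
      · rw [Function.update_of_ne hj]
        simp only [hj, not_false_eq_true, and_true, false_and, or_false] at h1
        exact h1

/-- A character is invariant under the Weyl group. -/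
theorem IsCharacter.act {m : Wt n →₀ ℤ} (hm : IsCharacter m) (g : WG n) (w : Wt n) :
    m (act g w) = m w := by
  classical
  obtain ⟨σ, I⟩ := g
  obtain ⟨k, μ⟩ := w
  rw [act_apply]
  simp only
  induction I using Finset.induction_on with
  | empty =>
    simp only [Finset.notMem_empty, if_false]
    exact hm.1 σ k μ
  | insert i I hi ih =>
    rw [← ih, ← hm.2 i k (fun j => if j ∈ I then k - μ (σ j) else μ (σ j))]
    congr 2
    funext j
    by_cases hj : j = i
    · subst hj
      rw [Function.update_self]
      simp [hi]
    · rw [Function.update_of_ne hj]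
      simp [hj]

theorem act_injective (g : WG n) : Function.Injective (act g) := by
  intro v w h
  rw [act_apply, act_apply, Prod.mk.injEq] at h
  obtain ⟨h1, h2⟩ := h
  ext i
  · exact h1
  · have h3 := congrFun h2 (g.1.symm i)
    simp only [Equiv.apply_symm_apply] at h3
    split_ifs at h3
    · linarith
    · exact h3

theorem act_surjective (g : WG n) : Function.Surjective (act g) := by
  intro w
  refine ⟨(w.1, fun j => if g.1.symm j ∈ g.2 then w.1 - w.2 (g.1.symm j) else w.2 (g.1.symm j)), ?_⟩
  rw [act_apply]
  ext i
  · rfl
  · simp only [Equiv.symm_apply_apply]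
    split_ifs
    · ring
    · rfl

/-- Sum over the orbits. -/
theorem sum_act {m : Wt n →₀ ℤ} (hm : IsCharacter m) (g : WG n) (f : Wt n → ℝ) :
    (m.sum fun w e => (e : ℝ) * f (act g w)) = m.sum fun w e => (e : ℝ) * f w := by
  classical
  unfold Finsupp.sum
  refine Finset.sum_bij (fun w _ => act g w) ?_ ?_ ?_ ?_
  · intro w hw
    rw [Finsupp.mem_support_iff] at hw ⊢
    rw [hm.act]
    exact hw
  · intro v _ w _ h
    exact act_injective g h
  · intro w hw
    obtain ⟨v, rfl⟩ := act_surjective g w
    refine ⟨v, ?_, rfl⟩
    rw [Finsupp.mem_support_iff] at hw ⊢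
    rw [hm.act] at hw
    exact hw
  · intro w _
    rw [hm.act]

/-- The trace of an orbit sum. -/
theorem tre_orb (π : GSys n) (w : Wt n) (t : ℝ) (p : Pr) :
    tre π (orb w) t p = ∑ g : WG n, zre π (act g w) t p := by
  classical
  unfold tre orb
  rw [← Finsupp.sum_finsetSum_index (by intro a; simp) (by intro a b c; push_cast; ring)]
  refine Finset.sum_congr rfl fun g _ => ?_
  rw [Finsupp.sum_single_index (by simp)]
  simp

/-- `∑ m(w) orb(w) = |W| m`. -/
theorem sum_tre_orb {m : Wt n →₀ ℤ} (hm : IsCharacter m) (π : GSys n) (t : ℝ) (p : Pr) :
    (m.sum fun w e => (e : ℝ) * tre π (orb w) t p) = Fintype.card (WG n) * tre π m t p := by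
  classical
  simp only [tre_orb, Finset.mul_sum]
  rw [Finsupp.sum_finsetSum_comm]
  rw [Finset.sum_congr rfl fun g _ => sum_act hm g fun w => zre π w t p]
  rw [Finset.sum_const, Finset.card_univ, nsmul_eq_mul]
  rfl

end Pool.Agent.EEA520
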