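import Pool.Agent.W_eea520_h99.LogP
import Pool.Agent.W_eea520_h99.Orb
import Pool.Agent.W_eea520_g1.K2

/-!
# The positive definite function of the pole orders (MP_eea520_nt, theorem G)
-/

set_option autoImplicit false

namespace Pool.Agent.EEA520

open Filter Topology Pool.Agent.EEAG1

variable {n : ℕ}

/-- The complex number `w(π_p) p ^ (-i t)`. -/
noncomputable def zcx (π : GSys n) (w : Wt n) (t : ℝ) (p : Pr) : ℂ :=
  ((π p).ev w : ℂ) * (((p : ℕ) : ℂ) ^ (-(t * Complex.I)))

theorem zre_eq (π : GSys n) (w : Wt n) (t : ℝ) (p : Pr) : zre π w t p = (zcx π w t p).re := rfl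

theorem ev_sub (t : Torus n) (v w : Wt n) : t.ev (v - w) = t.ev v * (t.ev w)⁻¹ := by
  unfold Torus.ev
  simp only [Prod.fst_sub, Prod.snd_sub, Pi.sub_apply, zpow_sub, Finset.prod_mul_distrib, mul_inv,
    ← Finset.prod_inv_distrib]
  rw [mul_mul_mul_comm]

theorem norm_zcx {π : GSys n} (hπ : Tempered π) (w : Wt n) (t : ℝ) (p : Pr) :
    ‖zcx π w t p‖ = 1 := by
  unfold zcx
  rw [norm_mul, norm_ev hπ, norm_pit, one_mul]

theorem zcx_sub {π : GSys n} (hπ : Tempered π) (v w : Wt n) (s t : ℝ) (p : Pr) :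
    zcx π (v - w) (s - t) p = zcx π v s p * (starRingEnd ℂ) (zcx π w t p) := by
  have h1 : (starRingEnd ℂ) (zcx π w t p) = (zcx π w t p)⁻¹ :=
    (Complex.inv_eq_conj (norm_zcx hπ w t p)).symm
  rw [h1]
  unfold zcx
  rw [ev_sub, mul_inv, Units.val_mul, Units.val_inv_eq_inv_val]
  have h2 : (((p : ℕ) : ℂ) ^ (-(((s - t : ℝ) : ℂ) * Complex.I))) =
      (((p : ℕ) : ℂ) ^ (-(s * Complex.I))) * ((((p : ℕ) : ℂ) ^ (-(t * Complex.I))))⁻¹ := by
    rw [← Complex.cpow_neg, ← Complex.cpow_add _ _ (by exact_mod_cast p.2.ne_zero)]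
    congr 1
    push_cast
    ring
  rw [h2]
  ring

/-- `c` is the function of the pole orders of the orbit sums. -/
def IsOrd (π : GSys n) (E : AddSubgroup ℝ) (c : Wt n × E → ℤ) : Prop :=
  ∀ (w : Wt n) (t : E), PoleOrder π (orb w) (pt t) (c (w, t))

theorem exists_isOrd {π : GSys n} (hπ : Tempered π) {E : AddSubgroup ℝ}
    (h : ∀ m, IsCharacter m → ∀ t ∈ E, MeroAt π m (pt t)) : ∃ c : Wt n × E → ℤ, IsOrd π E c := by
  have h1 : ∀ x : Wt n × E, ∃ k : ℤ, PoleOrder π (orb x.1) (pt x.2) k := fun x =>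
    exists_poleOrder hπ (h _ (orb_isCharacter x.1) _ x.2.2)
  choose c hc using h1
  exact ⟨c, fun w t => hc (w, t)⟩

theorem IsOrd.mean {π : GSys n} (hπ : Tempered π) {E : AddSubgroup ℝ} {c : Wt n × E → ℤ}
    (hc : IsOrd π E c) (x : Wt n × E) :
    MeanP (fun p => ∑ g : WG n, zre π (act g x.1) x.2 p) (c x) := by
  have h1 := mean_of_poleOrder hπ (hc x.1 x.2)
  have h2 : tre π (orb x.1) x.2 = fun p => ∑ g : WG n, zre π (act g x.1) x.2 p := by
    funext p
    exact tre_orb π x.1 x.2 p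
  rw [h2] at h1
  exact h1

theorem bdP_orb {π : GSys n} (hπ : Tempered π) (w : Wt n) (t : ℝ) :
    BdP fun p => ∑ g : WG n, zre π (act g w) t p :=
  BdP.sum _ fun g _ => bdP_zre hπ (act g w) t

/-- The function of the pole orders is positive definite. -/
theorem posDefG_ord {π : GSys n} (hπ : Tempered π) {E : AddSubgroup ℝ} {c : Wt n × E → ℤ}
    (hc : IsOrd π E c) : PosDefG fun x => (c x : ℝ) := by
  classical
  refine ⟨fun x => ?_, fun a => ?_⟩
  · have h1 := hc.mean hπ (-x)
    have h2 := hc.mean hπ x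
    refine MeanP.unique ?_ h2
    have h3 : (fun p => ∑ g : WG n, zre π (act g (-x).1) (-x).2 p) =
        fun p => ∑ g : WG n, zre π (act g x.1) x.2 p := by
      funext p
      refine Finset.sum_congr rfl fun g _ => ?_
      rw [zre_eq, zre_eq, Prod.fst_neg, Prod.snd_neg, map_neg]
      have h4 := zcx_sub hπ 0 (act g x.1) 0 x.2 p
      rw [zero_sub, zero_sub] at h4
      have h5 : zcx π (0 : Wt n) 0 p = 1 := by
        unfold zcx Torus.ev
        simp
      rw [h5, one_mul] at h4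
      rw [AddSubgroup.coe_neg, h4, Complex.conj_re]
    rw [h3] at h1
    exact h1
  · have h1 : MeanP (fun p => ∑ y ∈ a.support ×ˢ a.support,
        a y.1 * a y.2 * ∑ g : WG n, zre π (act g (y.1 - y.2).1) (y.1 - y.2).2 p)
        (∑ y ∈ a.support ×ˢ a.support, a y.1 * a y.2 * c (y.1 - y.2)) :=
      MeanP.sum _ (fun y _ => (bdP_orb hπ _ _).const_mul _)
        (fun y _ => (hc.mean hπ (y.1 - y.2)).const_mul _)
    have h2 : a.sum (fun i b => a.sum fun j b' => b * b' * (c (i - j) : ℝ)) =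
        ∑ y ∈ a.support ×ˢ a.support, a y.1 * a y.2 * c (y.1 - y.2) := by
      rw [Finset.sum_product]
      rfl
    rw [h2]
    refine MeanP.nonneg h1 fun p => ?_
    have h3 : ∀ g : WG n, ∑ y ∈ a.support ×ˢ a.support,
        a y.1 * a y.2 * zre π (act g (y.1 - y.2).1) (y.1 - y.2).2 p =
        Complex.normSq (∑ y ∈ a.support, (a y : ℂ) * zcx π (act g y.1) y.2 p) := by
      intro g
      have h4 : ((Complex.normSq (∑ y ∈ a.support, (a y : ℂ) * zcx π (act g y.1) y.2 p) : ℝ) : ℂ) =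
          ∑ y ∈ a.support ×ˢ a.support,
            ((a y.1 * a y.2 : ℝ) : ℂ) * zcx π (act g (y.1 - y.2).1) (y.1 - y.2).2 p := by
        rw [← Complex.mul_conj, map_sum, Finset.sum_mul_sum, Finset.sum_product]
        refine Finset.sum_congr rfl fun i _ => Finset.sum_congr rfl fun j _ => ?_
        rw [map_mul, Complex.conj_ofReal, Prod.fst_sub, Prod.snd_sub, map_sub,
          AddSubgroup.coe_sub, zcx_sub hπ]
        push_cast
        ring
      rw [← Complex.ofReal_re (Complex.normSq _), h4, Complex.re_sum]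
      refine Finset.sum_congr rfl fun y _ => ?_
      rw [Complex.re_ofReal_mul, zre_eq]
    have h5 : ∑ y ∈ a.support ×ˢ a.support,
        a y.1 * a y.2 * ∑ g : WG n, zre π (act g (y.1 - y.2).1) (y.1 - y.2).2 p =
        ∑ g : WG n, ∑ y ∈ a.support ×ˢ a.support,
          a y.1 * a y.2 * zre π (act g (y.1 - y.2).1) (y.1 - y.2).2 p := by
      rw [Finset.sum_comm]
      refine Finset.sum_congr rfl fun y _ => ?_
      rw [Finset.mul_sum]
    rw [h5]
    refine Finset.sum_nonneg fun g _ => ?_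
    rw [h3]
    exact Complex.normSq_nonneg _

/-- All pole orders in terms of those of the orbit sums. -/
theorem order_formula {π : GSys n} (hπ : Tempered π) {E : AddSubgroup ℝ} {c : Wt n × E → ℤ}
    (hc : IsOrd π E c) {m : Wt n →₀ ℤ} (hm : IsCharacter m) (t : E) {k : ℤ}
    (hk : PoleOrder π m (pt t) k) :
    (Fintype.card (WG n) : ℤ) * k = m.sum fun w e => e * c (w, t) := by
  classical
  have h1 := (mean_of_poleOrder hπ hk).const_mul (Fintype.card (WG n))
  have h2 : MeanP (fun p => ∑ w ∈ m.support, (m w : ℝ) * tre π (orb w) t p)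
      (∑ w ∈ m.support, (m w : ℝ) * c (w, t)) :=
    MeanP.sum _ (fun w _ => (bdP_tre hπ _ _).const_mul _)
      (fun w _ => (mean_of_poleOrder hπ (hc w t)).const_mul _)
  have h3 : (fun p => ∑ w ∈ m.support, (m w : ℝ) * tre π (orb w) t p) =
      fun p => (Fintype.card (WG n) : ℝ) * tre π m t p := by
    funext p
    exact sum_tre_orb hm π t p
  rw [h3] at h2
  have h4 := MeanP.unique h1 h2
  unfold Finsupp.sum
  exact_mod_cast h4

theorem card_WG (n : ℕ) : Fintype.card (WG n) = 2 ^ n * n.factorial := by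
  rw [Fintype.card_prod, Fintype.card_perm, Fintype.card_finset, Fintype.card_fin, mul_comm]

end Pool.Agent.EEA520
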