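import Pool.Agent.W_eea520_h99.MeanP

/-!
# The logarithm of the Euler product of a tempered system (MP_eea520_nt, theorem G)
-/

set_option autoImplicit false

namespace Pool.Agent.EEA520

open Filter Topology Pool.Agent.EEAG1

variable {n : ℕ}

/-- The logarithm of the factor. -/
noncomputable def lfac (t : Torus n) (m : Wt n →₀ ℤ) (q : ℂ) : ℂ :=
  m.sum fun w e => -((e : ℂ) * Complex.log (1 - (t.ev w : ℂ) * q))

/-- The trace times `q`. -/
noncomputable def trq (t : Torus n) (m : Wt n →₀ ℤ) (q : ℂ) : ℂ :=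
  m.sum fun w e => (e : ℂ) * ((t.ev w : ℂ) * q)

/-- The sum of the absolute values of the multiplicities. -/
noncomputable def mnorm (m : Wt n →₀ ℤ) : ℝ := m.sum fun _ e => |(e : ℝ)|

theorem mnorm_nonneg (m : Wt n →₀ ℤ) : 0 ≤ mnorm m := by
  unfold mnorm
  exact Finset.sum_nonneg fun w _ => abs_nonneg _

theorem exp_lfac {t : Torus n} (ht : ∀ w, ‖(t.ev w : ℂ)‖ = 1) (m : Wt n →₀ ℤ) {q : ℂ}
    (hq : ‖q‖ ≤ 1 / 2) : Complex.exp (lfac t m q) = t.factor m q := by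
  unfold lfac Torus.factor Finsupp.sum Finsupp.prod
  rw [Complex.exp_sum]
  refine Finset.prod_congr rfl fun w _ => ?_
  have h1 : (1 : ℂ) - (t.ev w : ℂ) * q ≠ 0 := by
    intro h0
    have h2 : (t.ev w : ℂ) * q = 1 := (sub_eq_zero.1 h0).symm
    have h3 : ‖(t.ev w : ℂ) * q‖ = 1 := by rw [h2, norm_one]
    rw [norm_mul, ht, one_mul] at h3
    rw [h3] at hq
    norm_num at hq
  show Complex.exp (-(((m w : ℤ) : ℂ) * Complex.log (1 - (t.ev w : ℂ) * q))) =
    (1 - (t.ev w : ℂ) * q) ^ (-(m w))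
  rw [Complex.exp_neg, Complex.exp_int_mul, Complex.exp_log h1, zpow_neg]

theorem lfac_bound {t : Torus n} (ht : ∀ w, ‖(t.ev w : ℂ)‖ = 1) (m : Wt n →₀ ℤ) {q : ℂ}
    (hq : ‖q‖ ≤ 1 / 2) : ‖lfac t m q - trq t m q‖ ≤ mnorm m * ‖q‖ ^ 2 := by
  unfold lfac trq mnorm Finsupp.sum
  rw [← Finset.sum_sub_distrib, Finset.sum_mul]
  refine norm_sum_le_of_le _ fun w _ => ?_
  have hz : ‖-((t.ev w : ℂ) * q)‖ = ‖q‖ := by rw [norm_neg, norm_mul, ht, one_mul]
  have h2 := Complex.norm_log_one_add_sub_self_le (z := -((t.ev w : ℂ) * q)) (by rw [hz]; linarith)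
  rw [hz] at h2
  have h3 : -(((m w : ℤ) : ℂ) * Complex.log (1 - (t.ev w : ℂ) * q)) -
      ((m w : ℤ) : ℂ) * ((t.ev w : ℂ) * q) =
      -((m w : ℤ) : ℂ) * (Complex.log (1 + -((t.ev w : ℂ) * q)) - -((t.ev w : ℂ) * q)) := by
    rw [← sub_eq_add_neg]
    ring
  rw [h3, norm_mul, norm_neg, Complex.norm_intCast]
  refine mul_le_mul_of_nonneg_left (h2.trans ?_) (abs_nonneg _)
  have h4 : (1 - ‖q‖)⁻¹ ≤ 2 := by
    rw [inv_le_comm₀ (by linarith) (by norm_num)]
    linarith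
  have h5 : 0 ≤ ‖q‖ ^ 2 := by positivity
  nlinarith [mul_le_mul_of_nonneg_left h4 h5]

theorem trq_bound {t : Torus n} (ht : ∀ w, ‖(t.ev w : ℂ)‖ = 1) (m : Wt n →₀ ℤ) (q : ℂ) :
    ‖trq t m q‖ ≤ mnorm m * ‖q‖ := by
  unfold trq mnorm Finsupp.sum
  rw [Finset.sum_mul]
  refine norm_sum_le_of_le _ fun w _ => ?_
  rw [norm_mul, norm_mul, ht, one_mul, Complex.norm_intCast]

/-- On a horizontal half line. -/
theorem log_prodP {π : GSys n} (hπ : Tempered π) (m : Wt n →₀ ℤ) : ∃ C : ℝ, ∀ (t s : ℝ), 1 < s →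
    ∀ P : ℂ, HasProd (fun p : Pr => (π p).factor m (((p : ℕ) : ℂ) ^ (-((s : ℂ) + t * Complex.I)))) P →
      P ≠ 0 ∧ |Real.log ‖P‖ - psm (tre π m t) s| ≤ C := by
  have hsum2 : Summable fun p : Pr => ((p : ℕ) : ℝ) ^ (-2 : ℝ) :=
    Nat.Primes.summable_rpow.2 (by norm_num)
  refine ⟨∑' p : Pr, mnorm m * ((p : ℕ) : ℝ) ^ (-2 : ℝ), fun t s hs P hP => ?_⟩
  have hp2 : ∀ p : Pr, (2 : ℝ) ≤ ((p : ℕ) : ℝ) := fun p => by exact_mod_cast p.2.two_le
  set r : Pr → ℝ := fun p => ((p : ℕ) : ℝ) ^ (-s) with hr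
  set q : Pr → ℂ := fun p => ((p : ℕ) : ℂ) ^ (-((s : ℂ) + t * Complex.I)) with hq
  have hqr : ∀ p, q p = (((p : ℕ) : ℂ) ^ (-(t * Complex.I))) * ((r p : ℝ) : ℂ) := by
    intro p
    simp only [hq, hr]
    rw [Complex.ofReal_cpow (by linarith [hp2 p])]
    push_cast
    rw [← Complex.cpow_add _ _ (by exact_mod_cast p.2.ne_zero)]
    congr 1
    ring
  have hr0 : ∀ p, 0 < r p := fun p => Real.rpow_pos_of_pos (by linarith [hp2 p]) _
  have hr1 : ∀ p, r p ≤ ((p : ℕ) : ℝ) ^ (-1 : ℝ) := fun p =>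
    Real.rpow_le_rpow_of_exponent_le (by linarith [hp2 p]) (by linarith)
  have hnq : ∀ p, ‖q p‖ = r p := by
    intro p
    rw [hqr p, norm_mul, norm_pit, one_mul, Complex.norm_real, Real.norm_of_nonneg (hr0 p).le]
  have hhalf : ∀ p, ‖q p‖ ≤ 1 / 2 := by
    intro p
    rw [hnq p]
    refine (hr1 p).trans ?_
    rw [Real.rpow_neg_one, one_div]
    exact inv_anti₀ (by norm_num) (hp2 p)
  have hsq : ∀ p, ‖q p‖ ^ 2 ≤ ((p : ℕ) : ℝ) ^ (-2 : ℝ) := by
    intro p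
    rw [hnq p]
    have h1 : ((p : ℕ) : ℝ) ^ (-2 : ℝ) = (((p : ℕ) : ℝ) ^ (-1 : ℝ)) ^ 2 := by
      rw [← Real.rpow_natCast, ← Real.rpow_mul (by linarith [hp2 p])]
      norm_num
    rw [h1]
    exact pow_le_pow_left₀ (hr0 p).le (hr1 p) 2
  have hsr : Summable r := Nat.Primes.summable_rpow.2 (by linarith)
  have hev : ∀ p w, ‖((π p).ev w : ℂ)‖ = 1 := fun p w => norm_ev hπ p w
  -- the difference
  have hD : ∀ p, ‖lfac (π p) m (q p) - trq (π p) m (q p)‖ ≤
      mnorm m * ((p : ℕ) : ℝ) ^ (-2 : ℝ) := fun p =>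
    (lfac_bound (hev p) m (hhalf p)).trans (mul_le_mul_of_nonneg_left (hsq p) (mnorm_nonneg m))
  have hsumC : Summable fun p : Pr => mnorm m * ((p : ℕ) : ℝ) ^ (-2 : ℝ) := hsum2.mul_left _
  have hsumD : Summable fun p => lfac (π p) m (q p) - trq (π p) m (q p) :=
    Summable.of_norm_bounded hsumC hD
  have hsumX : Summable fun p => trq (π p) m (q p) := by
    refine Summable.of_norm_bounded (hsr.mul_left (mnorm m)) fun p => ?_
    rw [← hnq p]
    exact trq_bound (hev p) m (q p)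
  have hsuml : Summable fun p => lfac (π p) m (q p) := by
    refine (hsumD.add hsumX).congr fun p => ?_
    ring
  have hprod : HasProd (fun p : Pr => (π p).factor m (q p))
      (Complex.exp (∑' p, lfac (π p) m (q p))) := by
    have h1 := hsuml.hasSum.cexp
    have h2 : (Complex.exp ∘ fun p => lfac (π p) m (q p)) =
        fun p : Pr => (π p).factor m (q p) := by
      funext p
      exact exp_lfac (hev p) m (hhalf p)
    rw [h2] at h1
    exact h1
  have hPe : P = Complex.exp (∑' p, lfac (π p) m (q p)) := hP.unique hprod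
  refine ⟨by rw [hPe]; exact Complex.exp_ne_zero _, ?_⟩
  rw [hPe, Complex.norm_exp, Real.log_exp]
  have hps : psm (tre π m t) s = (∑' p, trq (π p) m (q p)).re := by
    rw [Complex.re_tsum hsumX]
    unfold psm
    refine tsum_congr fun p => ?_
    rw [hqr p]
    unfold tre trq Finsupp.sum
    rw [Complex.re_sum, Finset.sum_mul]
    refine Finset.sum_congr rfl fun w _ => ?_
    show ((m w : ℤ) : ℝ) * zre π w t p * r p =
      (((m w : ℤ) : ℂ) * (((π p).ev w : ℂ) * ((((p : ℕ) : ℂ) ^ (-(t * Complex.I))) *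
        ((r p : ℝ) : ℂ)))).re
    unfold zre
    rw [← mul_assoc ((π p).ev w : ℂ), ← Complex.ofReal_intCast, Complex.re_ofReal_mul,
      Complex.re_mul_ofReal, mul_assoc]
  rw [hps, ← Complex.sub_re, ← hsuml.tsum_sub hsumX]
  exact (Complex.abs_re_le_norm _).trans (tsum_of_norm_bounded hsumC.hasSum hD)

theorem tendsto_pt (t : ℝ) : Tendsto (fun s : ℝ => (s : ℂ) + t * Complex.I) (𝓝[>] 1)
    (𝓝[{s | 1 < s.re}] (pt t)) := by
  refine tendsto_nhdsWithin_iff.2 ⟨?_, ?_⟩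
  · have h1 : ContinuousAt (fun s : ℝ => (s : ℂ) + t * Complex.I) 1 := by fun_prop
    have h2 := h1.tendsto
    have h3 : ((1 : ℝ) : ℂ) + t * Complex.I = pt t := by unfold pt; push_cast; rfl
    rw [h3] at h2
    exact h2.mono_left nhdsWithin_le_nhds
  · filter_upwards [self_mem_nhdsWithin] with s hs
    have : (1 : ℝ) < s := hs
    simpa using this

/-- Translation of `log_meromorphic`. -/
theorem log_meromorphic_pt {g : ℂ → ℂ} {t : ℝ} (hg : MeromorphicAt g (pt t))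
    (h0 : ∀ᶠ s : ℝ in 𝓝[>] 1, g ((s : ℂ) + t * Complex.I) ≠ 0) :
    ∃ k : ℤ, meromorphicOrderAt g (pt t) = k ∧
      ∃ C : ℝ, ∀ᶠ s : ℝ in 𝓝[>] 1,
        |Real.log ‖g ((s : ℂ) + t * Complex.I)‖ - k * Real.log (s - 1)| ≤ C := by
  have h1 : (fun z : ℂ => z + t * Complex.I) 1 = pt t := rfl
  have hf : AnalyticAt ℂ (fun z : ℂ => z + t * Complex.I) 1 := by fun_prop
  have hm : MeromorphicAt (g ∘ fun z : ℂ => z + t * Complex.I) 1 := by
    refine MeromorphicAt.comp_analyticAt ?_ hf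
    exact hg
  obtain ⟨k, hk, hC⟩ := log_meromorphic hm h0
  refine ⟨k, ?_, hC⟩
  rw [← hk]
  have hd : deriv (fun z : ℂ => z + t * Complex.I) 1 ≠ 0 := by
    simp
  rw [meromorphicOrderAt_comp_of_deriv_ne_zero hf hd]
  rfl

/-- A meromorphic continuation has an integral order. -/
theorem exists_poleOrder {π : GSys n} (hπ : Tempered π) {m : Wt n →₀ ℤ} {t : ℝ}
    (h : MeroAt π m (pt t)) : ∃ k : ℤ, PoleOrder π m (pt t) k := by
  obtain ⟨g, hg, hL⟩ := h
  obtain ⟨C, hC⟩ := log_prodP hπ m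
  have h0 : ∀ᶠ s : ℝ in 𝓝[>] 1, g ((s : ℂ) + t * Complex.I) ≠ 0 := by
    filter_upwards [(tendsto_pt t).eventually hL, self_mem_nhdsWithin] with s hs hs1
    exact (hC t s hs1 _ hs).1
  obtain ⟨k, hk, -⟩ := log_meromorphic_pt hg h0
  exact ⟨-k, g, hg, by rw [neg_neg]; exact hk, hL⟩

/-- The order of the pole is the mean value of the trace. -/
theorem mean_of_poleOrder {π : GSys n} (hπ : Tempered π) {m : Wt n →₀ ℤ} {t : ℝ} {k : ℤ}
    (h : PoleOrder π m (pt t) k) : MeanP (tre π m t) k := by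
  obtain ⟨g, hg, hk, hL⟩ := h
  obtain ⟨C, hC⟩ := log_prodP hπ m
  have hL' := (tendsto_pt t).eventually hL
  have h0 : ∀ᶠ s : ℝ in 𝓝[>] 1, g ((s : ℂ) + t * Complex.I) ≠ 0 := by
    filter_upwards [hL', self_mem_nhdsWithin] with s hs hs1
    exact (hC t s hs1 _ hs).1
  obtain ⟨k', hk', C', hC'⟩ := log_meromorphic_pt hg h0
  have hkk : k' = -k := by
    rw [hk] at hk'
    exact (WithTop.coe_injective hk').symm
  subst hkk
  refine meanP_of_log (C := C' + C) ?_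
  filter_upwards [hL', hC', self_mem_nhdsWithin] with s hs1 hs2 hs3
  have h1 := (hC t s hs3 _ hs1).2
  have e : psm (tre π m t) s + (k : ℝ) * Real.log (s - 1) =
      (Real.log ‖g ((s : ℂ) + t * Complex.I)‖ - ((-k : ℤ) : ℝ) * Real.log (s - 1)) -
        (Real.log ‖g ((s : ℂ) + t * Complex.I)‖ - psm (tre π m t) s) := by
    push_cast
    ring
  rw [e]
  exact (abs_sub _ _).trans (add_le_add hs2 h1)

end Pool.Agent.EEA520
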