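import Pool.Agent.W_eea520_h99.OneC
import Pool.Agent.W_eea520_h99.Dec

/-!
# The structure theorem for the pole orders (MP_eea520_nt, theorem G)
-/

set_option autoImplicit false

namespace Pool.Agent.EEA520

open Filter Topology Pool.Agent.EEAG1

/-- Integer valued positive definite functions. -/
def IsPosDef {G : Type} [AddCommGroup G] (c : G → ℤ) : Prop :=
  (∀ g, c (-g) = c g) ∧ ∀ a : G →₀ ℤ, 0 ≤ a.sum fun g x => a.sum fun h y => x * y * c (g - h)

theorem isPosDef_of {G : Type} [AddCommGroup G] {c : G → ℤ} (h : PosDefG fun g => (c g : ℝ)) :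
    IsPosDef c := by
  classical
  refine ⟨fun g => by exact_mod_cast h.symm g, fun a => ?_⟩
  have h1 := h.nonneg (a.mapRange (fun k : ℤ => (k : ℝ)) Int.cast_zero)
  have h2 : ((a.mapRange (fun k : ℤ => (k : ℝ)) Int.cast_zero).sum fun i x =>
      (a.mapRange (fun k : ℤ => (k : ℝ)) Int.cast_zero).sum fun j y => x * y * (c (i - j) : ℝ)) =
      ((a.sum fun g x => a.sum fun h y => x * y * c (g - h) : ℤ) : ℝ) := by
    rw [Finsupp.sum_mapRange_index (by simp)]
    unfold Finsupp.sum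
    push_cast
    refine Finset.sum_congr rfl fun i _ => ?_
    have h3 := Finsupp.sum_mapRange_index (g := a) (f := fun k : ℤ => (k : ℝ)) (hf := Int.cast_zero)
      (h := fun j y => (a i : ℝ) * y * (c (i - j) : ℝ)) (by simp)
    exact h3
  rw [h2] at h1
  exact_mod_cast h1

/-- The structure theorem. -/
theorem structureG {n : ℕ} {π : GSys n} (hπ : Tempered π) {E : AddSubgroup ℝ}
    (h : ∀ m, IsCharacter m → ∀ t ∈ E, MeroAt π m (pt t)) :
    ∃ (r : ℕ) (d : Fin r → Wt n × E → ℤ) (L : Fin r → AddSubgroup (Wt n × E)),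
      (∀ i, IsPosDef (d i)) ∧ (∀ i x, ∀ l ∈ L i, d i (x + l) = d i x) ∧
      (∀ i, ∃ F : Finset (Wt n × E), ∀ x, d i x ≠ 0 → ∃ y ∈ F, x - y ∈ L i) ∧
      ∀ m, IsCharacter m → ∀ (t : E) (k : ℤ), PoleOrder π m (pt t) k →
        (2 ^ n * n.factorial : ℤ) * k = m.sum fun w e => e * ∑ i, d i (w, t) := by
  obtain ⟨c, hc⟩ := exists_isOrd hπ h
  obtain ⟨r, d, L, h1, h2, h3, h4⟩ := decompose (posDefG_ord hπ hc) fun g => ⟨c g, rfl⟩
  refine ⟨r, d, L, fun i => isPosDef_of (h1 i), h2, h3, fun m hm t k hk => ?_⟩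
  have h5 := order_formula hπ hc hm t hk
  rw [card_WG] at h5
  push_cast at h5
  rw [h5]
  refine Finsupp.sum_congr fun w _ => ?_
  congr 1
  have h6 := h4 (w, t)
  exact_mod_cast h6

end Pool.Agent.EEA520
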