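import Pool.Agent.W_eea520_g1.A0
import Pool.Agent.W_eea520_g1.A2
import Pool.Agent.W_eea520_h99.Defs

/-!
# Mean values of functions on the set of primes (MP_eea520_nt, theorem G)
-/

set_option autoImplicit false

namespace Pool.Agent.EEA520

open Filter Topology Pool.Agent.EEAG1

/-- The sum over the primes. -/
noncomputable def psm (f : Pr → ℝ) (s : ℝ) : ℝ := ∑' p : Pr, f p * ((p : ℕ) : ℝ) ^ (-s)

/-- `L` is the mean value of `f`. -/
def MeanP (f : Pr → ℝ) (L : ℝ) : Prop := Tendsto (fun s : ℝ => psm f s / pz s) (𝓝[>] 1) (𝓝 L)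

/-- bounded functions -/
def BdP (f : Pr → ℝ) : Prop := ∃ C : ℝ, ∀ p, |f p| ≤ C

theorem BdP.add {f g : Pr → ℝ} (hf : BdP f) (hg : BdP g) : BdP fun p => f p + g p := by
  obtain ⟨C, hC⟩ := hf
  obtain ⟨D, hD⟩ := hg
  exact ⟨C + D, fun p => (abs_add_le _ _).trans (add_le_add (hC p) (hD p))⟩

theorem BdP.const_mul {f : Pr → ℝ} (hf : BdP f) (r : ℝ) : BdP fun p => r * f p := by
  obtain ⟨C, hC⟩ := hf
  refine ⟨|r| * C, fun p => ?_⟩
  rw [abs_mul]
  exact mul_le_mul_of_nonneg_left (hC p) (abs_nonneg r)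

theorem BdP.sum {ι : Type*} (t : Finset ι) {F : ι → Pr → ℝ} (hF : ∀ i ∈ t, BdP (F i)) :
    BdP fun p => ∑ i ∈ t, F i p := by
  classical
  induction t using Finset.induction_on with
  | empty => exact ⟨0, fun p => by simp⟩
  | insert i t hi ih =>
    have h1 := (hF i (Finset.mem_insert_self i t)).add
      (ih fun j hj => hF j (Finset.mem_insert_of_mem hj))
    obtain ⟨C, hC⟩ := h1
    exact ⟨C, fun p => by
      show |∑ i ∈ insert i t, F i p| ≤ C
      rw [Finset.sum_insert hi]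
      exact hC p⟩

theorem summable_psm {f : Pr → ℝ} (hf : BdP f) {s : ℝ} (hs : 1 < s) :
    Summable fun p : Pr => f p * ((p : ℕ) : ℝ) ^ (-s) := by
  obtain ⟨C, hC⟩ := hf
  refine Summable.of_norm_bounded ((summable_pz hs).mul_left C) fun p => ?_
  rw [Real.norm_eq_abs, abs_mul, abs_of_pos (Mean_pow_pos p s)]
  exact mul_le_mul_of_nonneg_right (hC p) (Mean_pow_pos p s).le

theorem MeanP.one : MeanP (fun _ => 1) 1 := by
  refine Tendsto.congr' ?_ tendsto_const_nhds
  filter_upwards [Mean_ev] with s hs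
  have h1 : psm (fun _ => 1) s = pz s := by
    unfold psm pz
    simp only [one_mul]
  rw [h1, div_self (pz_pos hs).ne']

theorem MeanP.add {f g : Pr → ℝ} (hf : BdP f) (hg : BdP g) {L M : ℝ} (h : MeanP f L)
    (h' : MeanP g M) : MeanP (fun p => f p + g p) (L + M) := by
  refine Tendsto.congr' ?_ (Tendsto.add h h')
  filter_upwards [Mean_ev] with s hs
  have h1 : psm (fun p => f p + g p) s = psm f s + psm g s := by
    unfold psm
    rw [← (summable_psm hf hs).tsum_add (summable_psm hg hs)]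
    exact tsum_congr fun p => add_mul _ _ _
  rw [h1, add_div]

theorem MeanP.const_mul {f : Pr → ℝ} {L : ℝ} (h : MeanP f L) (r : ℝ) :
    MeanP (fun p => r * f p) (r * L) := by
  refine Tendsto.congr (fun s => ?_) (Tendsto.const_mul r h)
  have h1 : psm (fun p => r * f p) s = r * psm f s := by
    unfold psm
    rw [← tsum_mul_left]
    exact tsum_congr fun p => mul_assoc _ _ _
  rw [h1, mul_div_assoc]

theorem MeanP.sum {ι : Type*} (t : Finset ι) {F : ι → Pr → ℝ} (hF : ∀ i ∈ t, BdP (F i))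
    {L : ι → ℝ} (h : ∀ i ∈ t, MeanP (F i) (L i)) :
    MeanP (fun p => ∑ i ∈ t, F i p) (∑ i ∈ t, L i) := by
  classical
  induction t using Finset.induction_on with
  | empty =>
    have h1 := MeanP.one.const_mul 0
    simpa using h1
  | insert i t hi ih =>
    have h1 := ih (fun j hj => hF j (Finset.mem_insert_of_mem hj))
      (fun j hj => h j (Finset.mem_insert_of_mem hj))
    have h2 := MeanP.add (hF i (Finset.mem_insert_self i t))
      (BdP.sum t fun j hj => hF j (Finset.mem_insert_of_mem hj))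
      (h i (Finset.mem_insert_self i t)) h1
    rw [Finset.sum_insert hi]
    refine h2.congr fun s => ?_
    congr 2
    funext p
    rw [Finset.sum_insert hi]

theorem MeanP.nonneg {f : Pr → ℝ} {L : ℝ} (h : MeanP f L) (hf : ∀ p, 0 ≤ f p) : 0 ≤ L := by
  refine ge_of_tendsto h (Eventually.of_forall fun s => ?_)
  exact div_nonneg (tsum_nonneg fun p => mul_nonneg (hf p) (Mean_pow_pos p s).le)
    (tsum_nonneg fun p => (Mean_pow_pos p s).le)

theorem MeanP.unique {f : Pr → ℝ} {L M : ℝ} (h : MeanP f L) (h' : MeanP f M) : L = M :=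
  tendsto_nhds_unique h h'

/-- If `psm f s = -m log (s - 1) + O(1)`, then the mean value is `m`. -/
theorem meanP_of_log {f : Pr → ℝ} {m C : ℝ}
    (h : ∀ᶠ s : ℝ in 𝓝[>] 1, |psm f s + m * Real.log (s - 1)| ≤ C) : MeanP f m := by
  obtain ⟨D, hD⟩ := pz_asymp
  unfold MeanP
  rw [tendsto_iff_norm_sub_tendsto_zero]
  have h1 : Tendsto (fun s : ℝ => (C + |m| * D) / pz s) (𝓝[>] 1) (𝓝 0) :=
    pz_atTop.const_div_atTop _
  refine squeeze_zero' (Eventually.of_forall fun s => norm_nonneg _) ?_ h1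
  filter_upwards [h, hD, self_mem_nhdsWithin] with s h2 h3 hs
  have hs' : (1 : ℝ) < s := hs
  have hz := pz_pos hs'
  have e : psm f s / pz s - m =
      ((psm f s + m * Real.log (s - 1)) - m * (pz s + Real.log (s - 1))) / pz s := by
    field_simp
    ring
  rw [Real.norm_eq_abs, e, abs_div, abs_of_pos hz]
  refine div_le_div_of_nonneg_right ?_ hz.le
  refine (abs_sub _ _).trans ?_
  rw [abs_mul]
  have := mul_le_mul_of_nonneg_left h3 (abs_nonneg m)
  linarith

/-- The real number `Re (w(π_p) p ^ (-i t))`. -/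
noncomputable def zre {n : ℕ} (π : GSys n) (w : Wt n) (t : ℝ) (p : Pr) : ℝ :=
  (((π p).ev w : ℂ) * (((p : ℕ) : ℂ) ^ (-(t * Complex.I)))).re

/-- The real part of the trace. -/
noncomputable def tre {n : ℕ} (π : GSys n) (m : Wt n →₀ ℤ) (t : ℝ) (p : Pr) : ℝ :=
  m.sum fun w e => (e : ℝ) * zre π w t p

theorem norm_ev {n : ℕ} {π : GSys n} (hπ : Tempered π) (p : Pr) (w : Wt n) :
    ‖((π p).ev w : ℂ)‖ = 1 := by
  unfold Torus.ev
  rw [Units.val_mul, Units.val_zpow_eq_zpow_val, norm_mul, norm_zpow, (hπ p).1, one_zpow, one_mul,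
    Units.coe_prod, norm_prod]
  refine Finset.prod_eq_one fun i _ => ?_
  rw [Units.val_zpow_eq_zpow_val, norm_zpow, (hπ p).2, one_zpow]

theorem norm_pit (p : Pr) (t : ℝ) : ‖(((p : ℕ) : ℂ) ^ (-(t * Complex.I)))‖ = 1 := by
  rw [← neg_mul, ← Complex.ofReal_neg]
  have h := Complex.norm_natCast_cpow_of_pos p.2.pos (((-t : ℝ) : ℂ) * Complex.I)
  rw [h]
  simp

theorem zre_le {n : ℕ} {π : GSys n} (hπ : Tempered π) (w : Wt n) (t : ℝ) (p : Pr) :
    |zre π w t p| ≤ 1 := by
  unfold zre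
  refine (Complex.abs_re_le_norm _).trans ?_
  rw [norm_mul, norm_ev hπ, norm_pit, one_mul]

theorem bdP_zre {n : ℕ} {π : GSys n} (hπ : Tempered π) (w : Wt n) (t : ℝ) : BdP (zre π w t) :=
  ⟨1, zre_le hπ w t⟩

theorem bdP_tre {n : ℕ} {π : GSys n} (hπ : Tempered π) (m : Wt n →₀ ℤ) (t : ℝ) :
    BdP (tre π m t) :=
  BdP.sum _ fun w _ => (bdP_zre hπ w t).const_mul _

end Pool.Agent.EEA520
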