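import Pool.Agent.W_eea520_g1.C1

/-!
# The structure of integer valued positive definite functions on abelian groups (MP_eea520_nt)
-/

set_option autoImplicit false

namespace Pool.Agent.EEAG1

open Filter Topology
open scoped InnerProductSpace

section

variable {G : Type*} [AddCommGroup G] {H : Type*} [NormedAddCommGroup H] [InnerProductSpace ℝ H]

theorem U_zero {U : G → H ≃ₗᵢ[ℝ] H} (hU : ∀ a b x, U (a + b) x = U a (U b x)) (x : H) :
    U 0 x = x := by
  have h := hU 0 0 x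
  rw [add_zero] at h
  exact ((U 0).injective h).symm

theorem inner_U {U : G → H ≃ₗᵢ[ℝ] H} (hU : ∀ a b x, U (a + b) x = U a (U b x)) (a b : G)
    (x y : H) : ⟪U a x, U b y⟫_ℝ = ⟪U (a - b) x, y⟫_ℝ := by
  have h : U a x = U b (U (a - b) x) := by
    rw [← hU]
    congr 2
    abel
  rw [h, LinearIsometryEquiv.inner_map_map]

theorem inner_U_left {U : G → H ≃ₗᵢ[ℝ] H} (hU : ∀ a b x, U (a + b) x = U a (U b x)) (a : G)
    (x y : H) : ⟪U a x, y⟫_ℝ = ⟪x, U (-a) y⟫_ℝ := by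
  have h := inner_U hU 0 (-a) x y
  rw [U_zero hU] at h
  rw [h]
  congr 2
  abel_nf

/-- The operator which is the weak limit of the `U g` along an ultrafilter. -/
theorem exists_op [CompleteSpace H] (U : G → H ≃ₗᵢ[ℝ] H) (V : Ultrafilter G) :
    ∃ A : H →L[ℝ] H, (∀ x, ‖A x‖ ≤ ‖x‖) ∧
      ∀ x y, Tendsto (fun g => ⟪U g x, y⟫_ℝ) V (𝓝 ⟪A x, y⟫_ℝ) := by
  have h := fun x : H => exists_weak_limit V (fun g => U g x) ‖x‖ fun g => ((U g).norm_map x).le
  choose l hl hlt using h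
  let f : H →ₗ[ℝ] H :=
    { toFun := l
      map_add' := fun x y => by
        refine ext_inner_right ℝ fun z => tendsto_nhds_unique (hlt (x + y) z) ?_
        rw [inner_add_left]
        refine ((hlt x z).add (hlt y z)).congr fun i => ?_
        rw [map_add, inner_add_left]
      map_smul' := fun r x => by
        refine ext_inner_right ℝ fun z => tendsto_nhds_unique (hlt (r • x) z) ?_
        rw [RingHom.id_apply, inner_smul_left]
        refine ((hlt x z).const_mul _).congr fun i => ?_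
        rw [map_smul, inner_smul_left] }
  refine ⟨f.mkContinuous 1 fun x => ?_, fun x => ?_, fun x y => ?_⟩
  · rw [one_mul]
    exact hl x
  · exact hl x
  · exact hlt x y

/-- All `⟨U g x, y⟩` are integers. -/
def IQ (U : G → H ≃ₗᵢ[ℝ] H) (x y : H) : Prop := ∀ g : G, ∃ n : ℤ, ⟪U g x, y⟫_ℝ = n

theorem IQ.symm {U : G → H ≃ₗᵢ[ℝ] H} (hU : ∀ a b x, U (a + b) x = U a (U b x)) {x y : H}
    (h : IQ U x y) : IQ U y x := by
  intro g
  obtain ⟨n, hn⟩ := h (-g)
  refine ⟨n, ?_⟩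
  rw [inner_U_left hU, real_inner_comm]
  exact hn

end

/-- The dichotomy. -/
theorem split {G : Type*} [AddCommGroup G] {H : Type*} [NormedAddCommGroup H]
    [InnerProductSpace ℝ H] [CompleteSpace H] {U : G → H ≃ₗᵢ[ℝ] H}
    (hU : ∀ a b x, U (a + b) x = U a (U b x)) {v : H} (h : IQ U v v) (L : AddSubgroup G)
    (hL : ∀ g, g ∈ L ↔ U g v = v)
    (hinf : ((QuotientAddGroup.mk : G → G ⧸ L) '' {g | ⟪U g v, v⟫_ℝ ≠ 0}).Infinite) :
    ∃ e f : H, v = e + f ∧ e ≠ 0 ∧ f ≠ 0 ∧ IQ U e e ∧ IQ U f f ∧ ∀ g, ⟪U g e, f⟫_ℝ = 0 := by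
  classical
  set supp : Set G := {g | ⟪U g v, v⟫_ℝ ≠ 0} with hsupp
  -- the ultrafilter
  have hne : (comap (QuotientAddGroup.mk : G → G ⧸ L) cofinite ⊓ 𝓟 supp).NeBot := by
    rw [inf_principal_neBot_iff]
    intro s hs
    rw [mem_comap] at hs
    obtain ⟨t, ht, hts⟩ := hs
    rw [mem_cofinite] at ht
    obtain ⟨q, hq, hqt⟩ := hinf.exists_notMem_finite ht
    obtain ⟨g, hg, rfl⟩ := hq
    exact ⟨g, hts (by simpa using hqt), hg⟩
  set V := Ultrafilter.of (comap (QuotientAddGroup.mk : G → G ⧸ L) cofinite ⊓ 𝓟 supp) with hV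
  have hVle : (V : Filter G) ≤ comap (QuotientAddGroup.mk : G → G ⧸ L) cofinite ⊓ 𝓟 supp :=
    Ultrafilter.of_le _
  have hVs : ∀ᶠ g in (V : Filter G), ⟪U g v, v⟫_ℝ ≠ 0 :=
    (hVle.trans inf_le_right) (mem_principal_self _)
  have hVc : ∀ g₀ : G, ∀ᶠ g in (V : Filter G), g - g₀ ∉ L := by
    intro g₀
    have h1 : {q : G ⧸ L | q ≠ (g₀ : G ⧸ L)} ∈ cofinite := by
      rw [mem_cofinite]
      refine (Set.finite_singleton (g₀ : G ⧸ L)).subset fun q hq => ?_
      simpa using hq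
    have h2 : (QuotientAddGroup.mk : G → G ⧸ L) ⁻¹' {q : G ⧸ L | q ≠ (g₀ : G ⧸ L)} ∈
        comap (QuotientAddGroup.mk : G → G ⧸ L) cofinite := preimage_mem_comap h1
    have h3 := (hVle.trans inf_le_left) h2
    filter_upwards [h3] with g hg hmem
    refine hg ?_
    rw [← sub_eq_zero, ← QuotientAddGroup.mk_sub]
    exact (QuotientAddGroup.eq_zero_iff _).2 hmem
  obtain ⟨A, hA1, hA2⟩ := exists_op U V
  -- commutation
  have hAU : ∀ a x, A (U a x) = U a (A x) := by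
    intro a x
    refine ext_inner_right ℝ fun z => tendsto_nhds_unique (hA2 (U a x) z) ?_
    rw [inner_U_left hU]
    refine (hA2 x (U (-a) z)).congr fun g => ?_
    rw [inner_U hU, sub_neg_eq_add, hU]
  set P : H →L[ℝ] H := (ContinuousLinearMap.adjoint A) ∘L A with hP
  have hPi : ∀ x y, ⟪P x, y⟫_ℝ = ⟪A x, A y⟫_ℝ := by
    intro x y
    rw [hP, ContinuousLinearMap.comp_apply, ContinuousLinearMap.adjoint_inner_left]
  have hPs : ∀ x y, ⟪P x, y⟫_ℝ = ⟪x, P y⟫_ℝ := by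
    intro x y
    rw [hPi, real_inner_comm, ← hPi, real_inner_comm]
  have hPU : ∀ a x, P (U a x) = U a (P x) := by
    intro a x
    refine ext_inner_right ℝ fun z => ?_
    rw [hPi, hAU, inner_U_left hU, ← hAU, ← hPi, ← inner_U_left hU]
  have hPn : ∀ x, ‖P x‖ ≤ ‖A x‖ := by
    intro x
    have h1 : ‖P x‖ ^ 2 ≤ ‖A x‖ * ‖P x‖ := by
      rw [← real_inner_self_eq_norm_sq, hPi]
      refine (real_inner_le_norm _ _).trans ?_
      exact mul_le_mul_of_nonneg_left (hA1 _) (norm_nonneg _)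
    by_contra hcon
    push Not at hcon
    nlinarith [norm_nonneg (A x)]
  -- integrality
  have hIA : ∀ x y, IQ U x y → IQ U (A x) y := by
    intro x y hxy g
    rw [inner_U_left hU]
    refine int_of_tendsto (fun i => ?_) (hA2 x (U (-g) y))
    obtain ⟨n, hn⟩ := hxy (i + g)
    exact ⟨n, by rw [← hn, inner_U hU, sub_neg_eq_add]⟩
  have hIP : ∀ x y, IQ U x y → IQ U (P x) y := by
    intro x y hxy g
    have h1 : IQ U (A x) (A y) := hIA _ _ ((hIA _ _ (hxy.symm hU)).symm hU)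
    obtain ⟨n, hn⟩ := h1 g
    exact ⟨n, by rw [← hn, ← hPU, hPi, hAU]⟩
  have hIPn : ∀ n : ℕ, IQ U ((P ^ n) v) v := by
    intro n
    induction n with
    | zero => simpa using h
    | succ n ih =>
      rw [pow_succ']
      exact hIP _ _ ih
  have hPnU : ∀ (n : ℕ) a x, (P ^ n) (U a x) = U a ((P ^ n) x) := by
    intro n
    induction n with
    | zero => intro a x; simp
    | succ n ih =>
      intro a x
      rw [pow_succ', mul_apply_eq_comp, ih, hPU]
      rfl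
  have hPns : ∀ (n : ℕ) x y, ⟪(P ^ n) x, y⟫_ℝ = ⟪x, (P ^ n) y⟫_ℝ := by
    intro n
    induction n with
    | zero => intro x y; simp
    | succ n ih =>
      intro x y
      have e1 : (P ^ (n + 1)) x = P ((P ^ n) x) := by rw [pow_succ']; rfl
      have e2 : (P ^ (n + 1)) y = (P ^ n) (P y) := by rw [pow_succ]; rfl
      rw [e1, e2, hPs, ih]
  -- P^n v ≠ 0
  have hne0 : ∀ n : ℕ, A ((P ^ n) v) ≠ 0 := by
    have hAv : A v ≠ 0 := by
      intro h0
      have h1 := hA2 v v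
      rw [h0, inner_zero_left] at h1
      have h2 := eventually_eq_of_tendsto (n := 0) h (by simpa using h1)
      obtain ⟨g, hg1, hg2⟩ := (h2.and hVs).exists
      exact hg2 (by simpa using hg1)
    intro n
    induction n with
    | zero => simpa using hAv
    | succ n ih =>
      intro h0
      have e1 : (P ^ (n + 1)) v = P ((P ^ n) v) := by rw [pow_succ']; rfl
      have h1 : ⟪P ((P ^ n) v), P ((P ^ n) v)⟫_ℝ = 0 := by
        rw [hPi, ← e1, h0, inner_zero_right]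
      have h2 : P ((P ^ n) v) = 0 := inner_self_eq_zero.1 h1
      have h3 : ⟪A ((P ^ n) v), A ((P ^ n) v)⟫_ℝ = 0 := by
        rw [← hPi, h2, inner_zero_left]
      exact ih (inner_self_eq_zero.1 h3)
  have hne1 : ∀ n : ℕ, (P ^ n) v ≠ 0 := fun n h0 => hne0 n (by rw [h0, map_zero])
  -- the integers |P^n v|^2 become constant
  have hb : ∀ n : ℕ, ∃ k : ℕ, ‖(P ^ n) v‖ ^ 2 = k := by
    intro n
    obtain ⟨k, hk⟩ := hIPn (n + n) 0
    rw [U_zero hU, pow_add, mul_apply_eq_comp, hPns,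
      real_inner_self_eq_norm_sq] at hk
    have h0 : (0 : ℝ) ≤ k := by rw [← hk]; positivity
    have h0' : 0 ≤ k := by exact_mod_cast h0
    refine ⟨k.toNat, ?_⟩
    rw [hk]
    have : ((k.toNat : ℤ) : ℝ) = k := by rw [Int.toNat_of_nonneg h0']
    rw [← this]
    norm_cast
  choose b hb using hb
  have hbmono : ∀ n, ‖P ((P ^ n) v)‖ ≤ ‖(P ^ n) v‖ := fun n => (hPn _).trans (hA1 _)
  have hex : ∃ n, b (n + 1) = b n := by
    by_contra hcon
    push Not at hcon
    have hanti : ∀ n, b (n + 1) < b n := by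
      intro n
      refine lt_of_le_of_ne ?_ (hcon n)
      have h1 : ‖(P ^ (n + 1)) v‖ ^ 2 ≤ ‖(P ^ n) v‖ ^ 2 := by
        have e1 : (P ^ (n + 1)) v = P ((P ^ n) v) := by rw [pow_succ']; rfl
        rw [e1]
        exact pow_le_pow_left₀ (norm_nonneg _) (hbmono n) 2
      rw [hb, hb] at h1
      exact_mod_cast h1
    exact not_strictAnti_of_wellFoundedLT b (strictAnti_nat_of_succ_lt hanti)
  obtain ⟨n, hn⟩ := hex
  set e : H := (P ^ n) v with he
  have hPe1 : ‖P e‖ = ‖e‖ := by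
    have e1 : (P ^ (n + 1)) v = P e := by rw [pow_succ']; rfl
    have h1 : ‖P e‖ ^ 2 = ‖e‖ ^ 2 := by rw [← e1, hb, he, hb, hn]
    exact (pow_left_inj₀ (norm_nonneg _) (norm_nonneg _) two_ne_zero).1 h1
  have hfix : ∀ x, ‖P x‖ = ‖x‖ → P x = x := by
    intro x hx
    have hAx : ‖A x‖ = ‖x‖ := le_antisymm (hA1 x) (by rw [← hx]; exact hPn x)
    have h1 : ‖P x - x‖ ^ 2 = 0 := by
      rw [norm_sub_sq_real, hPi, real_inner_self_eq_norm_sq, hx, hAx]
      ring
    rwa [sq_eq_zero_iff, norm_eq_zero, sub_eq_zero] at h1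
  have hPe : P e = e := hfix e hPe1
  have hPne : ∀ k : ℕ, (P ^ k) e = e := by
    intro k
    induction k with
    | zero => simp
    | succ k ih =>
      rw [pow_succ', mul_apply_eq_comp, ih, hPe]
  have hPf : (P ^ n) (v - e) = 0 := by
    rw [map_sub, hPne, ← he, sub_self]
  have horth : ∀ g, ⟪U g e, v - e⟫_ℝ = 0 := by
    intro g
    rw [he, ← hPnU, hPns, ← he, hPf, inner_zero_right]
  have hIe : IQ U e e := by
    intro g
    obtain ⟨k, hk⟩ := hIPn n g
    refine ⟨k, ?_⟩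
    have h1 := horth g
    rw [inner_sub_right, sub_eq_zero] at h1
    rw [← h1]
    exact hk
  have hIf : IQ U (v - e) (v - e) := by
    intro g
    obtain ⟨k, hk⟩ := h g
    obtain ⟨l, hl⟩ := hIe g
    refine ⟨k - l, ?_⟩
    have h1 := horth g
    have h2 : ⟪U g (v - e), e⟫_ℝ = 0 := by
      rw [inner_U_left hU, real_inner_comm]
      exact horth _
    have h3 : ⟪U g v, v⟫_ℝ = ⟪U g e, e⟫_ℝ + ⟪U g (v - e), v - e⟫_ℝ := by
      have e1 : v = e + (v - e) := by abel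
      conv_lhs => rw [e1]
      rw [map_add, inner_add_left, inner_add_right, inner_add_right, h1, h2]
      ring
    push_cast
    linarith
  refine ⟨e, v - e, by abel, hne1 n, ?_, hIe, hIf, horth⟩
  -- v - e ≠ 0
  intro hf
  have hev : e = v := (sub_eq_zero.1 hf).symm
  have hPv : P v = v := by rw [← hev]; exact hPe
  have hAv : ‖A v‖ = ‖v‖ := le_antisymm (hA1 v) (by
    calc ‖v‖ = ‖P v‖ := by rw [hPv]
      _ ≤ ‖A v‖ := hPn v)
  have hlim : Tendsto (fun g => ‖U g v - A v‖ ^ 2) V (𝓝 0) := by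
    have h1 : Tendsto (fun g => ‖v‖ ^ 2 - 2 * ⟪U g v, A v⟫_ℝ + ‖A v‖ ^ 2) V
        (𝓝 (‖v‖ ^ 2 - 2 * ⟪A v, A v⟫_ℝ + ‖A v‖ ^ 2)) :=
      (((hA2 v (A v)).const_mul 2).const_sub _).add_const _
    have h2 : ‖v‖ ^ 2 - 2 * ⟪A v, A v⟫_ℝ + ‖A v‖ ^ 2 = 0 := by
      rw [real_inner_self_eq_norm_sq, hAv]
      ring
    rw [h2] at h1
    refine h1.congr fun g => ?_
    rw [norm_sub_sq_real, LinearIsometryEquiv.norm_map]
  have hev2 : ∀ᶠ g in (V : Filter G), ‖U g v - A v‖ ^ 2 < 1 / 4 :=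
    hlim.eventually (gt_mem_nhds (by norm_num))
  have hev3 : ∀ᶠ g in (V : Filter G), ‖U g v - A v‖ < 1 / 2 := by
    filter_upwards [hev2] with g hg
    have := norm_nonneg (U g v - A v)
    nlinarith
  obtain ⟨g₀, hg₀⟩ := hev3.exists
  obtain ⟨g, hg, hgL⟩ := (hev3.and (hVc g₀)).exists
  refine hgL ((hL _).2 ?_)
  have h1 : ‖U g v - U g₀ v‖ < 1 := by
    calc ‖U g v - U g₀ v‖ = ‖(U g v - A v) - (U g₀ v - A v)‖ := by congr 1; abel
      _ ≤ ‖U g v - A v‖ + ‖U g₀ v - A v‖ := norm_sub_le _ _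
      _ < 1 := by linarith
  have h2 : ‖U g v - U g₀ v‖ ^ 2 < 1 := by
    have := norm_nonneg (U g v - U g₀ v)
    nlinarith
  have h3 : ∃ k : ℤ, ‖U g v - U g₀ v‖ ^ 2 = k := by
    obtain ⟨k, hk⟩ := h (g - g₀)
    obtain ⟨l, hl⟩ := h 0
    rw [U_zero hU, real_inner_self_eq_norm_sq] at hl
    refine ⟨2 * l - 2 * k, ?_⟩
    rw [norm_sub_sq_real, LinearIsometryEquiv.norm_map, LinearIsometryEquiv.norm_map, inner_U hU,
      hk, hl]
    push_cast
    ring
  obtain ⟨k, hk⟩ := h3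
  have h4 : k = 0 := by
    have h5 : (k : ℝ) < 1 := by rw [← hk]; exact h2
    have h6 : (0 : ℝ) ≤ k := by rw [← hk]; positivity
    have h7 : k < 1 := by exact_mod_cast h5
    have h8 : 0 ≤ k := by exact_mod_cast h6
    omega
  rw [h4, Int.cast_zero, sq_eq_zero_iff, norm_eq_zero, sub_eq_zero] at hk
  have h9 : U (-g₀) (U g v) = U (-g₀) (U g₀ v) := by rw [hk]
  rw [← hU, ← hU] at h9
  rw [show -g₀ + g = g - g₀ by abel, show -g₀ + g₀ = 0 by abel, U_zero hU] at h9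
  exact h9

end Pool.Agent.EEAG1
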