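import Pool.Agent.W_eea520_h99.OneA
import Pool.Agent.W_eea520_h99.Str

/-!
# `GL_2`: the three cases (MP_eea520_nt, theorem G)
-/

set_option autoImplicit false

namespace Pool.Agent.EEA520

open Filter Topology Pool.Agent.EEAG1
open scoped InnerProductSpace

theorem U_zpow {G : Type*} [AddCommGroup G] {H : Type*} [NormedAddCommGroup H]
    [InnerProductSpace ℝ H] {U : G → H ≃ₗᵢ[ℝ] H} (hU : ∀ a b x, U (a + b) x = U a (U b x)) (g : G)
    (k : ℤ) (x : H) : ((U g) ^ k) x = U (k • g) x := by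
  have h0 : ∀ x, U 0 x = x := U_zero hU
  induction k using Int.induction_on with
  | zero => rw [zpow_zero_apply, zero_smul, h0]
  | succ k ih =>
    rw [add_comm, zpow_add_apply, zpow_one, ih, ← hU]
    congr 2
    rw [add_smul, one_smul]
  | pred k ih =>
    refine (U g).injective ?_
    have h1 : (U g) (((U g) ^ (-(k : ℤ) - 1)) x) = ((U g) ^ (-(k : ℤ))) x := by
      rw [show -(k : ℤ) = 1 + (-(k : ℤ) - 1) by ring, zpow_add_apply, zpow_one]
      congr 3
      ring
    rw [h1, ih, ← hU]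
    congr 2
    rw [sub_smul, one_smul]
    abel

theorem w1_smul (k K M : ℤ) : k • w1 K M = w1 (k * K) (k * M) := by
  unfold w1
  rfl

theorem w1_add (K M K' M' : ℤ) : w1 K M + w1 K' M' = w1 (K + K') (M + M') := rfl

theorem w1_zero : w1 0 0 = 0 := rfl

theorem one_cases {π : GSys 1} (hπ : Tempered π) {E : AddSubgroup ℝ} {c : Wt 1 × E → ℤ}
    (hc : IsOrd π E c) (had : c (w1 0 1, 0) = -1) :
    (∃ r : ℤ → E → ℤ → ℤ, (∀ K t M, c (w1 K M, t) = 2 * r K t M - r K t (M + 1) - r K t (M - 1)) ∧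
      (∀ K t M, r K t M ≠ 0 → 2 * M = K) ∧ ∀ M, r 0 0 M = if M = 0 then 1 else 0) ∨
    (∃ (r : ℤ → E → ℤ → ℤ) (s : ℤ → E → ℤ),
      (∀ K t M, c (w1 K M, t) = r K t M + (-1) ^ M.natAbs * s K t) ∧
      (∀ K t M, r K t M ≠ 0 → 2 * M = K) ∧ (∀ K t, Odd K → s K t = 0) ∧
      (∀ t, t ≠ 0 → (∀ M, r 0 t M = 0) ∧ s 0 t = 0) ∧
      (∀ M, r 0 0 M = if M = 0 then 1 else 0) ∧ s 0 0 = 1) ∨
    ∃ r : ℕ, 0 < r ∧ ∀ x, c (x + (w1 0 r, 0)) = c x := by
  classical
  obtain ⟨H, i1, i2, i3, U, v, hU, hU0, hv⟩ := exists_gnsG (posDefG_ord hπ hc)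
  set T := U (w1 0 1, 0) with hT
  have hcomm : ∀ a b x, U a (U b x) = U b (U a x) := by
    intro a b x
    rw [← hU, ← hU, add_comm]
  have hTk : ∀ (k : ℤ) x, (T ^ k) x = U (w1 0 k, 0) x := by
    intro k x
    rw [hT, U_zpow hU]
    congr 2
    show (k • w1 0 1, k • (0 : E)) = _
    rw [w1_smul, smul_zero, mul_zero, mul_one]
  have hR : ∀ K (t : E) (k : ℤ), ⟪(T ^ k) (U (w1 K 0, t) v), v⟫_ℝ = c (w1 K k, t) := by
    intro K t k
    rw [hTk, ← hU, hv]
    congr 2
    show (w1 0 k + w1 K 0, 0 + t) = _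
    rw [w1_add, zero_add, add_zero, zero_add]
  have hid : ∀ x, U (w1 0 0, (0 : E)) x = x := fun x => hU0 x
  have hv2 : ‖v‖ ^ 2 = 2 := by
    have h1 := hv 0
    rw [hU0, real_inner_self_eq_norm_sq] at h1
    rw [h1]
    have h2 := ord_zero hπ hc 0
    rw [if_pos rfl, card_WG] at h2
    have h3 : c 0 = 2 := by
      rw [show (0 : Wt 1 × E) = (0, 0) from rfl, h2]
      norm_num
    rw [h3]
    norm_num
  have hT1 : ⟪T v, v⟫_ℝ = -1 := by
    rw [hT, hv, had]
    norm_num
  have hIT : IP T v v := by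
    intro k
    have h1 := hR 0 0 k
    rw [hid] at h1
    exact ⟨_, h1⟩
  rcases three_cases hv2 hIT hT1 with ⟨y, hvy, hy, hyo⟩ | ⟨u, w, hvuw, hu, hw, huo, huw, hTw⟩ |
    ⟨r, hr, hr2⟩
  · left
    have h1 : ∀ (K : ℤ) (t : E), ∃ r : ℤ → ℤ, (∀ k, ⟪(T ^ k) (U (w1 K 0, t) y), y⟫_ℝ = r k) ∧
        (∀ k, ⟪(T ^ k) (U (w1 K 0, t) v), v⟫_ℝ = 2 * r k - r (k + 1) - r (k - 1)) ∧
        (∀ k l, r k ≠ 0 → r l ≠ 0 → k = l) ∧ ∀ k, |r k| ≤ 1 := fun K t =>
      rlem_st (fun x => hcomm _ _ x) hvy hy hyo fun k => ⟨_, hR K t k⟩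
    choose r hr1 hr2 hr3 hr4 using h1
    have h2 : ∀ K t M, c (w1 K M, t) = 2 * r K t M - r K t (M + 1) - r K t (M - 1) := by
      intro K t M
      have h3 := hr2 K t M
      rw [hR] at h3
      exact_mod_cast h3
    refine ⟨r, h2, fun K t M hM => ?_, fun M => ?_⟩
    · have h3 := sym_of_second_diff (hr3 K t) K (fun k => by
        rw [← h2, ← h2, ord_reflect hπ hc]) M
      have h4 := hr3 K t M (K - M) hM (by rw [← h3]; exact hM)
      linarith
    · have h3 := hr1 0 0 M
      rw [hid] at h3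
      by_cases hM : M = 0
      · rw [if_pos hM]
        rw [hM, zpow_zero_apply, real_inner_self_eq_norm_sq, hy] at h3
        rw [hM]
        exact_mod_cast h3.symm
      · rw [if_neg hM]
        rw [hyo M hM] at h3
        exact_mod_cast h3.symm
  · right
    left
    have h1 : ∀ (K : ℤ) (t : E), ∃ (r : ℤ → ℤ) (s : ℤ),
        (∀ k, ⟪(T ^ k) (U (w1 K 0, t) u), u⟫_ℝ = r k) ∧ ⟪U (w1 K 0, t) w, w⟫_ℝ = s ∧
        (∀ k : ℤ, ⟪(T ^ k) (U (w1 K 0, t) v), v⟫_ℝ = r k + (-1) ^ k.natAbs * s) ∧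
        (∀ k l, r k ≠ 0 → r l ≠ 0 → k = l) ∧ (∀ k, |r k| ≤ 1) ∧ |s| ≤ 1 := fun K t =>
      rlem_cm (fun x => hcomm _ _ x) hvuw hu hw huo huw hTw fun k => ⟨_, hR K t k⟩
    choose r s hr1 hs1 hr2 hr3 hr4 hs2 using h1
    have hsv : ∀ K t, ⟪U (w1 K 0, t) w, w⟫_ℝ = s K t := hs1
    have h2 : ∀ K t M, c (w1 K M, t) = r K t M + (-1) ^ M.natAbs * s K t := by
      intro K t M
      have h3 := hr2 K t M
      rw [hR] at h3
      exact_mod_cast h3
    have hz : ∀ K t, ∃ M, r K t M = 0 ∧ r K t (K - M) = 0 := by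
      intro K t
      by_contra hcon
      push Not at hcon
      have h3 : ∀ M, r K t M ≠ 0 ∨ r K t (K - M) ≠ 0 := by
        intro M
        by_cases hM : r K t M = 0
        · exact Or.inr (hcon M hM)
        · exact Or.inl hM
      rcases h3 0 with a0 | a0 <;> rcases h3 1 with a1 | a1 <;> rcases h3 2 with a2 | a2
      all_goals
        first
        | (have := hr3 K t _ _ a0 a1; omega)
        | (have := hr3 K t _ _ a0 a2; omega)
        | (have := hr3 K t _ _ a1 a2; omega)
    have hsym : ∀ K t M, r K t (K - M) + (-1) ^ (K - M).natAbs * s K t =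
        r K t M + (-1) ^ M.natAbs * s K t := by
      intro K t M
      rw [← h2, ← h2, ord_reflect hπ hc]
    have hpar : ∀ M : ℤ, ((-1 : ℤ)) ^ M.natAbs = if Even M then 1 else -1 := by
      intro M
      by_cases hM : Even M
      · rw [if_pos hM]
        exact (Int.natAbs_even.2 hM).neg_one_pow
      · rw [if_neg hM]
        exact (Int.natAbs_odd.2 (Int.not_even_iff_odd.1 hM)).neg_one_pow
    have hodd : ∀ K t, Odd K → s K t = 0 := by
      intro K t hK
      obtain ⟨M, hM1, hM2⟩ := hz K t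
      have h3 := hsym K t M
      rw [hM1, hM2, hpar, hpar] at h3
      by_cases hM : Even M
      · have h4 : ¬ Even (K - M) := by
          rw [Int.not_even_iff_odd]
          exact hK.sub_even hM
        rw [if_pos hM, if_neg h4] at h3
        linarith
      · have h4 : Even (K - M) := hK.sub_odd (Int.not_even_iff_odd.1 hM)
        rw [if_neg hM, if_pos h4] at h3
        linarith
    have hrs : ∀ K t M, r K t (K - M) = r K t M := by
      intro K t M
      have h3 := hsym K t M
      by_cases hK : Even K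
      · have h4 : Even (K - M) ↔ Even M := by
          rw [Int.even_sub]
          tauto
        rw [hpar, hpar] at h3
        simp only [h4] at h3
        linarith
      · rw [hodd K t (Int.not_even_iff_odd.1 hK)] at h3
        linarith
    have hsupp : ∀ K t M, r K t M ≠ 0 → 2 * M = K := by
      intro K t M hM
      have h4 := hr3 K t M (K - M) hM (by rw [hrs]; exact hM)
      linarith
    have hbase : ∀ t, t ≠ 0 → (∀ M, r 0 t M = 0) ∧ s 0 t = 0 := by
      intro t ht
      have h3 : r 0 t 0 + s 0 t = 0 := by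
        have h4 := h2 0 t 0
        rw [w1_zero, ord_zero hπ hc, if_neg ht] at h4
        simpa using h4.symm
      have h4 : s 0 t = 0 := by
        by_contra hs0
        have hs1 : s 0 t = 1 ∨ s 0 t = -1 := by
          have := abs_le.1 (hs2 0 t)
          omega
        have hsq : ((s 0 t : ℤ) : ℝ) ^ 2 = 1 := by rcases hs1 with h | h <;> rw [h] <;> norm_num
        have hr0 : r 0 t 0 = -s 0 t := by omega
        have e1 : U (w1 0 0, t) w = ((s 0 t : ℤ) : ℝ) • w := by
          refine eq_smul_of_inner ?_ hw hsq (hsv 0 t)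
          rw [LinearIsometryEquiv.norm_map, hw]
        have e2 : U (w1 0 0, t) u = (-((s 0 t : ℤ) : ℝ)) • u := by
          refine eq_smul_of_inner ?_ hu (by rw [neg_sq]; exact hsq) ?_
          · rw [LinearIsometryEquiv.norm_map, hu]
          · have h5 := hr1 0 t 0
            rw [zpow_zero_apply, hr0] at h5
            rw [h5]
            push_cast
            rfl
        have e3 : U (w1 0 0, t) (U (w1 0 0, t) v) = v := by
          rw [hvuw, map_add, e1, e2, map_add, map_smul, map_smul, e1, e2, smul_smul, smul_smul]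
          have h6 : ((s 0 t : ℤ) : ℝ) * ((s 0 t : ℤ) : ℝ) = 1 := by rw [← pow_two]; exact hsq
          rw [neg_mul_neg, h6, one_smul, one_smul]
        have h7 : ⟪U (w1 0 0, t) (U (w1 0 0, t) v), v⟫_ℝ = c (0, t + t) := by
          rw [← hU, hv]
          rfl
        have h8 : t + t ≠ 0 := by
          intro h9
          refine ht (Subtype.ext ?_)
          have h10 : ((t : ℝ)) + t = 0 := by
            have := congrArg Subtype.val h9
            simpa using this
          show (t : ℝ) = 0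
          linarith
        rw [e3, real_inner_self_eq_norm_sq, hv2, ord_zero hπ hc, if_neg h8] at h7
        norm_num at h7
      refine ⟨fun M => ?_, h4⟩
      by_contra hM
      have h5 : M = 0 := by
        have := hsupp 0 t M hM
        omega
      rw [h5] at hM
      omega
    refine ⟨r, s, h2, hsupp, hodd, hbase, fun M => ?_, ?_⟩
    · have h3 := hr1 0 0 M
      rw [hid] at h3
      by_cases hM : M = 0
      · rw [if_pos hM]
        rw [hM, zpow_zero_apply, real_inner_self_eq_norm_sq, hu] at h3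
        rw [hM]
        exact_mod_cast h3.symm
      · rw [if_neg hM]
        rw [huo M hM] at h3
        exact_mod_cast h3.symm
    · have h3 := hs1 0 0
      rw [hid, real_inner_self_eq_norm_sq, hw] at h3
      exact_mod_cast h3.symm
  · right
    right
    refine ⟨r, hr, fun x => ?_⟩
    have h1 := hv (x + (w1 0 r, 0))
    rw [hU, ← hTk, hr2, hv] at h1
    exact_mod_cast h1.symm

end Pool.Agent.EEA520
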