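import Pool.Agent.W_eea520_g1.C2

/-!
# The list of laws (MP_eea520_nt, theorem G)
-/

set_option autoImplicit false

namespace Pool.Agent.EEAG1

/-- `[N ∣ k] η ^ (k / N)`, for `η = ± 1`. -/
def comb (N : ℕ) (η : ℤ) (k : ℤ) : ℤ := if (N : ℤ) ∣ k then η ^ (k / N).natAbs else 0

/-- The moments of the measure `(2 - 2 cos θ)` on the set of the `x = exp(i θ)` with `x ^ N = η` (the
mean value over this set). -/
def famA (N : ℕ) (η : ℤ) (k : ℤ) : ℤ := 2 * comb N η k - comb N η (k - 1) - comb N η (k + 1)

/-- The moments of the sum of the Dirac measure at `-1` and of the uniform distribution on the set of the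
`x` with `x ^ N = η`. -/
def famD (N : ℕ) (η : ℤ) (k : ℤ) : ℤ := (-1) ^ k.natAbs + comb N η k

/-- The periodic sequence with the given period. -/
def per (l : List ℤ) (k : ℤ) : ℤ := l.getD (k % l.length).toNat 0

end Pool.Agent.EEAG1
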