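import Pool.Agent.W_eea520_h99.T2

/-!
# Sequences which begin with `2, -1, 0, …, 0`: the version with finitely many integers
(MP_eea520_nt, theorem G)
-/

set_option autoImplicit false

namespace Pool.Agent.EEAG1

open Filter Topology
open scoped InnerProductSpace

variable {H : Type*} [NormedAddCommGroup H] [InnerProductSpace ℝ H]

theorem T2R_inner {T : H ≃ₗᵢ[ℝ] H} {v : H} {c : ℤ → ℝ} (hc : ∀ k, ⟪(T ^ k) v, v⟫_ℝ = c k)
    (i j : ℤ) : ⟪(T ^ i) v, (T ^ j) v⟫_ℝ = c (i - j) := by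
  rw [inner_zpow, hc]

theorem T2R_even {T : H ≃ₗᵢ[ℝ] H} {v : H} {c : ℤ → ℝ} (hc : ∀ k, ⟪(T ^ k) v, v⟫_ℝ = c k)
    (k : ℤ) : c (-k) = c k := by
  rw [← hc, inner_zpow_left, neg_neg, real_inner_comm, hc]

theorem T2R_periodic {N : ℕ} {η : ℤ} (hη : η = 1 ∨ η = -1) (hN : 1 ≤ N) {D : ℤ → ℝ}
    (hD : ∀ k, D (k + N) = η * D k) (h0 : ∀ k : ℤ, 0 ≤ k → k < N → D k = 0) (k : ℤ) : D k = 0 := by
  have hNpos : (0 : ℤ) < N := by exact_mod_cast hN
  have hper : Function.Periodic (fun k => D k = 0) (N : ℤ) := by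
    intro k
    apply propext
    show D (k + N) = 0 ↔ D k = 0
    rw [hD]
    rcases hη with rfl | rfl <;> simp
  have h1 := hper.sub_zsmul_eq (x := k) (k / N)
  have h2 : k - (k / N) • (N : ℤ) = k % N := by
    rw [smul_eq_mul, Int.emod_def, mul_comm]
  rw [h2] at h1
  have h3 : D (k % N) = 0 := h0 _ (Int.emod_nonneg _ hNpos.ne') (Int.emod_lt_of_pos _ hNpos)
  have h4 : (D (k % N) = 0) = (D k = 0) := h1
  rwa [h4] at h3

theorem T2R_famA {N : ℕ} {η : ℤ} (hη : η = 1 ∨ η = -1) (hN : 3 ≤ N) {c : ℤ → ℝ}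
    (hc : ∀ k, c (k + N) = η * c k) (h0 : c 0 = 2) (h1 : c 1 = -1)
    (h2 : ∀ k : ℤ, 2 ≤ k → k ≤ N - 2 → c k = 0) (h3 : c (N - 1) = -η) (k : ℤ) :
    c k = famA N η k := by
  have hN1 : 1 ≤ N := by omega
  have hcN : comb N η N = η := by
    have h := T2_comb_add N hN1 η hη 0
    rw [zero_add, T2_comb_zero, mul_one] at h
    exact h
  have hz : c k - famA N η k = 0 := by
    refine T2R_periodic (D := fun k => c k - famA N η k) hη hN1 ?_ ?_ k
    · intro k
      show c (k + N) - famA N η (k + N) = η * (c k - famA N η k)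
      unfold famA
      rw [hc, T2_comb_add N hN1 η hη k, show k + (N : ℤ) - 1 = (k - 1) + N by ring,
        show k + (N : ℤ) + 1 = (k + 1) + N by ring, T2_comb_add N hN1 η hη (k - 1),
        T2_comb_add N hN1 η hη (k + 1)]
      push_cast
      ring
    · intro k hk0 hkN
      show c k - famA N η k = 0
      unfold famA
      rcases eq_or_lt_of_le hk0 with h | h
      · rw [← h, h0, T2_comb_zero, zero_sub, T2_comb_neg N η (by omega), zero_add,
          T2_comb_mid N η 1 (by norm_num) (by omega)]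
        norm_num
      rcases eq_or_lt_of_le (Int.add_one_le_iff.2 h) with h' | h'
      · rw [zero_add] at h'
        rw [← h', h1, T2_comb_mid N η 1 (by norm_num) (by omega), sub_self, T2_comb_zero,
          T2_comb_mid N η (1 + 1) (by norm_num) (by omega)]
        norm_num
      rcases eq_or_lt_of_le (Int.add_one_le_iff.2 hkN) with h'' | h''
      · have hk : k = N - 1 := by omega
        rw [hk, h3, T2_comb_mid N η (N - 1) (by omega) (by omega),
          T2_comb_mid N η (N - 1 - 1) (by omega) (by omega), sub_add_cancel, hcN]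
        push_cast
        ring
      · rw [h2 k (by omega) (by omega), T2_comb_mid N η k (by omega) (by omega),
          T2_comb_mid N η (k - 1) (by omega) (by omega),
          T2_comb_mid N η (k + 1) (by omega) (by omega)]
        norm_num
  linarith

/-- `⟪∑_{i<n} T^i v, T^n v⟫` for `1 ≤ n ≤ K` -/
theorem T2R_SK {T : H ≃ₗᵢ[ℝ] H} {v : H} {c : ℤ → ℝ} (hc : ∀ k, ⟪(T ^ k) v, v⟫_ℝ = c k)
    (h1 : c 1 = -1) {K : ℕ} (hK : ∀ k : ℤ, 2 ≤ k → k < K → c k = 0) (n : ℕ) (hn : 1 ≤ n)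
    (hnK : n ≤ K) (hK2 : 2 ≤ K) :
    ⟪∑ i ∈ Finset.range n, (T ^ (i : ℤ)) v, (T ^ (n : ℤ)) v⟫_ℝ =
      -1 + if n = K then (c K : ℝ) else 0 := by
  obtain ⟨m, rfl⟩ : ∃ m, n = m + 1 := ⟨n - 1, by omega⟩
  rw [sum_inner]
  have hterm : ∀ i ∈ Finset.range (m + 1), ⟪(T ^ (i : ℤ)) v, (T ^ ((m + 1 : ℕ) : ℤ)) v⟫_ℝ =
      c ((m : ℤ) + 1 - i) := by
    intro i _
    rw [T2R_inner hc, ← T2R_even hc]
    congr 2
    push_cast
    ring
  rw [Finset.sum_congr rfl hterm, Finset.sum_range_succ]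
  have hlast : (c ((m : ℤ) + 1 - (m : ℕ)) : ℝ) = -1 := by
    rw [show (m : ℤ) + 1 - (m : ℕ) = 1 by ring, h1]
  rw [hlast, add_comm]
  congr 1
  by_cases h : m + 1 = K
  · rw [if_pos h]
    rw [Finset.sum_eq_single 0]
    · congr 2
      push_cast [← h]
      ring
    · intro i hi hi0
      rw [Finset.mem_range] at hi
      rw [hK _ (by omega) (by omega)]
    · intro hm
      rw [Finset.mem_range] at hm
      omega
  · rw [if_neg h]
    refine Finset.sum_eq_zero fun i hi => ?_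
    rw [Finset.mem_range] at hi
    rw [hK _ (by omega) (by omega)]

theorem T2R_norm {T : H ≃ₗᵢ[ℝ] H} {v : H} {c : ℤ → ℝ} (hc : ∀ k, ⟪(T ^ k) v, v⟫_ℝ = c k)
    (h0 : c 0 = 2) (i : ℤ) : ‖(T ^ i) v‖ ^ 2 = 2 := by
  rw [← real_inner_self_eq_norm_sq, T2R_inner hc, sub_self, h0]

/-- `‖∑_{i<n} T^i v‖² = 2` for `1 ≤ n ≤ K` -/
theorem T2R_Snorm {T : H ≃ₗᵢ[ℝ] H} {v : H} {c : ℤ → ℝ} (hc : ∀ k, ⟪(T ^ k) v, v⟫_ℝ = c k)
    (h0 : c 0 = 2) (h1 : c 1 = -1) {K : ℕ} (hK : ∀ k : ℤ, 2 ≤ k → k < K → c k = 0)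
    (hK2 : 2 ≤ K) (n : ℕ) (hn : n + 1 ≤ K) :
    ‖∑ i ∈ Finset.range (n + 1), (T ^ (i : ℤ)) v‖ ^ 2 = 2 := by
  induction n with
  | zero =>
    rw [Finset.sum_range_one]
    exact T2R_norm hc h0 _
  | succ n ih =>
    rw [Finset.sum_range_succ, norm_add_sq_real, ih (by omega), T2R_norm hc h0,
      T2R_SK hc h1 hK (n + 1) (by omega) (by omega) hK2, if_neg (by omega)]
    norm_num

/-- the vector with growing coefficients -/
theorem T2R_key {T : H ≃ₗᵢ[ℝ] H} {v : H} {c : ℤ → ℝ} (hc : ∀ k, ⟪(T ^ k) v, v⟫_ℝ = c k)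
    (h0 : c 0 = 2) (h1 : c 1 = -1) {K : ℕ} (hK : ∀ k : ℤ, 2 ≤ k → k < K → c k = 0)
    (hK9 : 9 ≤ K) (hcK : c K = 1) {e' : ℤ} (he' : c (K + 1) = e') :
    (T ^ ((K : ℤ) + 1)) v = -v := by
  set a : ℕ → ℝ := fun i => (K : ℝ) + 1 - 2 * i with ha
  set G : H := ∑ i ∈ Finset.range (K + 1), a i • (T ^ (i : ℤ)) v with hG
  set u : H := (T ^ ((K : ℤ) + 1)) v + v with hu
  have hneg : ∀ k : ℤ, k ≤ -2 → -(K : ℤ) < k → c k = 0 := by
    intro k hk hk2
    rw [← neg_neg k, T2R_even hc]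
    exact hK _ (by omega) (by omega)
  have hm1 : c (-1) = -1 := by rw [T2R_even hc, h1]
  have hmK : c (-(K : ℤ)) = 1 := by rw [T2R_even hc, hcK]
  have hGin : ∀ z : H, ⟪G, z⟫_ℝ = ∑ i ∈ Finset.range (K + 1), a i * ⟪(T ^ (i : ℤ)) v, z⟫_ℝ := by
    intro z
    rw [hG, sum_inner]
    refine Finset.sum_congr rfl fun i _ => ?_
    rw [inner_smul_left]
    rfl
  -- the rows
  have hrow : ∀ j : ℕ, j < K + 1 → ⟪G, (T ^ (j : ℤ)) v⟫_ℝ = if j = 0 then 4 else 0 := by
    intro j hj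
    rw [hGin]
    have hterm : ∀ i ∈ Finset.range (K + 1), a i * ⟪(T ^ (i : ℤ)) v, (T ^ (j : ℤ)) v⟫_ℝ =
        a i * (c ((i : ℤ) - j) : ℝ) := fun i _ => by rw [T2R_inner hc]
    rw [Finset.sum_congr rfl hterm]
    rcases Nat.eq_zero_or_pos j with hj0 | hj0
    · subst hj0
      rw [if_pos rfl, T2_three _ (K + 1) 0 1 K (by omega) (by omega) (by omega) (by omega)
        (by omega) (by omega)]
      · simp only [ha, Nat.cast_zero, sub_zero, h0, Nat.cast_one, h1, hcK]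
        push_cast
        ring
      · intro i hi hi0 hi1 hiK
        rw [hK _ (by omega) (by omega), mul_zero]
    · rw [if_neg (by omega)]
      obtain ⟨m, rfl⟩ : ∃ m, j = m + 1 := ⟨j - 1, by omega⟩
      rcases Nat.lt_or_ge (m + 1) K with hlt | hge
      · rw [T2_three _ (K + 1) m (m + 1) (m + 2) (by omega) (by omega) (by omega) (by omega)
          (by omega) (by omega)]
        · have e1 : ((m : ℕ) : ℤ) - ((m + 1 : ℕ) : ℤ) = -1 := by push_cast; ring
          have e2 : ((m + 2 : ℕ) : ℤ) - ((m + 1 : ℕ) : ℤ) = 1 := by push_cast; ring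
          rw [e1, e2, sub_self, h0, h1, hm1]
          simp only [ha]
          push_cast
          ring
        · intro i hi hi0 hi1 hi2
          have : c ((i : ℤ) - ((m + 1 : ℕ) : ℤ)) = 0 := by
            rcases Nat.lt_or_ge i (m + 1) with h | h
            · exact hneg _ (by omega) (by omega)
            · exact hK _ (by omega) (by omega)
          rw [this, mul_zero]
      · have hmK' : m + 1 = K := by omega
        rw [T2_three _ (K + 1) 0 m (m + 1) (by omega) (by omega) (by omega) (by omega)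
          (by omega) (by omega)]
        · have e1 : ((m : ℕ) : ℤ) - ((m + 1 : ℕ) : ℤ) = -1 := by push_cast; ring
          have e2 : ((0 : ℕ) : ℤ) - ((m + 1 : ℕ) : ℤ) = -(K : ℤ) := by rw [hmK']; push_cast; ring
          rw [e1, e2, sub_self, h0, hm1, hmK]
          have hKm : (K : ℝ) = m + 1 := by rw [← hmK']; push_cast; ring
          simp only [ha, hKm]
          push_cast
          ring
        · intro i hi hi0 hi1 hi2
          have : c ((i : ℤ) - ((m + 1 : ℕ) : ℤ)) = 0 := hneg _ (by omega) (by omega)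
          rw [this, mul_zero]
  have hGG : ‖G‖ ^ 2 = 4 * ((K : ℝ) + 1) := by
    rw [← real_inner_self_eq_norm_sq]
    conv_lhs => rw [hGin]
    rw [Finset.sum_eq_single 0]
    · rw [real_inner_comm, hrow 0 (by omega), if_pos rfl]
      simp only [ha]
      push_cast
      ring
    · intro j hj hj0
      rw [real_inner_comm, hrow j (Finset.mem_range.1 hj), if_neg hj0, mul_zero]
    · intro h
      exact absurd (Finset.mem_range.2 (by omega)) h
  have huj : ∀ j : ℕ, ⟪(T ^ (j : ℤ)) v, u⟫_ℝ = (c ((K : ℤ) + 1 - j) : ℝ) + c j := by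
    intro j
    rw [hu, inner_add_right, hc, real_inner_comm, T2R_inner hc]
  have huG : ⟪G, u⟫_ℝ = ((K : ℝ) + 1) * ((c ((K : ℤ) + 1) : ℝ) + 2) := by
    rw [hGin, Finset.sum_eq_single 0]
    · rw [huj]
      simp only [ha, Nat.cast_zero, sub_zero, h0]
      push_cast
      ring
    · intro j hj hj0
      rw [Finset.mem_range] at hj
      rw [huj]
      have : c ((K : ℤ) + 1 - j) + c j = 0 := by
        rcases Nat.lt_or_ge 1 j with h | h
        · rcases Nat.lt_or_ge j K with h' | h'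
          · rw [hK _ (by omega) (by omega), hK _ (by omega) (by omega)]
            norm_num
          · have : j = K := by omega
            rw [this, show (K : ℤ) + 1 - K = 1 by ring, h1, hcK]
            norm_num
        · have : j = 1 := by omega
          rw [this, Nat.cast_one, show (K : ℤ) + 1 - 1 = K by ring, h1, hcK]
          norm_num
      have h' : (c ((K : ℤ) + 1 - j) : ℝ) + c j = 0 := by exact_mod_cast this
      rw [h', mul_zero]
    · intro h
      exact absurd (Finset.mem_range.2 (by omega)) h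
  have huu : ‖u‖ ^ 2 = 4 + 2 * (c ((K : ℤ) + 1) : ℝ) := by
    have hv : ‖v‖ ^ 2 = 2 := by
      have := T2R_norm hc h0 0
      rwa [zpow_zero_apply] at this
    rw [hu, norm_add_sq_real, T2R_norm hc h0, hc, hv]
    ring
  have hcs : ⟪G, u⟫_ℝ ^ 2 ≤ ‖G‖ ^ 2 * ‖u‖ ^ 2 := by
    have h := abs_real_inner_le_norm G u
    have h2 := pow_le_pow_left₀ (abs_nonneg _) h 2
    rwa [sq_abs, mul_pow] at h2
  rw [huG, hGG, huu] at hcs
  have hpos : 0 ≤ 4 + 2 * (c ((K : ℤ) + 1) : ℝ) := by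
    rw [← huu]
    positivity
  have hx : c ((K : ℤ) + 1) = -2 := by
    rw [he'] at hcs hpos ⊢
    suffices hx' : e' = -2 by
      rw [hx']
      norm_num
    generalize e' = x at hcs hpos
    have hx0 : (0 : ℝ) ≤ ((x + 2 : ℤ) : ℝ) := by
      push_cast
      linarith
    have hx0' : 0 ≤ x + 2 := by exact_mod_cast hx0
    by_contra hne
    have hx1 : 1 ≤ x + 2 := by omega
    have hx1' : (1 : ℝ) ≤ (x : ℝ) + 2 := by exact_mod_cast hx1
    have hK10 : (10 : ℝ) ≤ (K : ℝ) + 1 := by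
      have : (9 : ℝ) ≤ K := by exact_mod_cast hK9
      linarith
    generalize (K : ℝ) + 1 = q at hcs hK10
    obtain ⟨t, ht⟩ : ∃ t : ℝ, t = (x : ℝ) + 2 := ⟨_, rfl⟩
    rw [← ht] at hx1' hcs
    have e : 4 + 2 * (x : ℝ) = 2 * t := by rw [ht]; ring
    rw [e] at hcs
    have h5 : (q * t) * (q * t) ≤ 8 * (q * t) := by
      calc (q * t) * (q * t) = (q * t) ^ 2 := by ring
        _ ≤ 4 * q * (2 * t) := hcs
        _ = 8 * (q * t) := by ring
    have h6 : 10 ≤ q * t := by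
      calc (10 : ℝ) = 10 * 1 := by norm_num
        _ ≤ q * t := mul_le_mul hK10 hx1' (by norm_num) (by linarith)
    have h7 : 0 < q * t := by linarith
    have h8 := le_of_mul_le_mul_right h5 h7
    linarith
  rw [hx] at huu
  have h9 : u = 0 := by
    have : ‖u‖ ^ 2 = 0 := by
      rw [huu]
      norm_num
    rwa [sq_eq_zero_iff, norm_eq_zero] at this
  rw [hu] at h9
  exact eq_neg_of_add_eq_zero_left h9

/-- The real valued version of `fam_zero` (same proof, T2.lean): only the two values `c K` and `c (K + 1)` are known to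
be integers, `K` is the first index `≥ 2` with `c K ≠ 0`. -/
theorem fam_zeroR {T : H ≃ₗᵢ[ℝ] H} {v : H} {c : ℤ → ℝ} (hc : ∀ k, ⟪(T ^ k) v, v⟫_ℝ = c k)
    {K : ℕ} (hK9 : 9 ≤ K) (h0 : c 0 = 2) (h1 : c 1 = -1) (h2 : ∀ k : ℤ, 2 ≤ k → k < K → c k = 0)
    {e e' : ℤ} (hK : c K = e) (hK' : c (K + 1) = e') (he : e ≠ 0) :
    (e = 1 ∨ e = -1) ∧ ∀ k, c k = famA (K + 1) (-e) k := by
  have hK2 : 2 ≤ K := by omega
  have hv : ‖v‖ ^ 2 = 2 := by
    have := T2R_norm hc h0 0
    rwa [zpow_zero_apply] at this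
  -- the bounds for `c K`
  have hSK : ‖∑ i ∈ Finset.range K, (T ^ (i : ℤ)) v‖ ^ 2 = 2 := by
    obtain ⟨m, rfl⟩ : ∃ m, K = m + 1 := ⟨K - 1, by omega⟩
    exact T2R_Snorm hc h0 h1 h2 hK2 m le_rfl
  have hS1 : ‖∑ i ∈ Finset.range (K + 1), (T ^ (i : ℤ)) v‖ ^ 2 = 2 + 2 * (e : ℝ) := by
    rw [Finset.sum_range_succ, norm_add_sq_real, hSK, T2R_norm hc h0,
      T2R_SK hc h1 h2 K (by omega) le_rfl hK2, if_pos rfl, hK]
    ring
  have hlow : -1 ≤ e := by
    have h3 : 0 ≤ 2 + 2 * (e : ℝ) := by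
      rw [← hS1]
      positivity
    have h4 : (-1 : ℝ) ≤ e := by linarith
    exact_mod_cast h4
  have hdiff : ‖(T ^ (K : ℤ)) v - v‖ ^ 2 = 4 - 2 * (e : ℝ) := by
    rw [norm_sub_sq_real, T2R_norm hc h0, hc, hv, hK]
    ring
  have hup : e ≤ 2 := by
    have h3 : 0 ≤ 4 - 2 * (e : ℝ) := by
      rw [← hdiff]
      positivity
    have h4 : (e : ℝ) ≤ 2 := by linarith
    exact_mod_cast h4
  have hne2 : e ≠ 2 := by
    intro h3
    rw [h3] at hdiff
    have h4 : (T ^ (K : ℤ)) v - v = 0 := by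
      have : ‖(T ^ (K : ℤ)) v - v‖ ^ 2 = 0 := by
        rw [hdiff]
        norm_num
      rwa [sq_eq_zero_iff, norm_eq_zero] at this
    rw [sub_eq_zero] at h4
    have h5 : c ((K : ℤ) - 1) = c (-1) := by
      rw [← hc, ← hc, show (K : ℤ) - 1 = -1 + K by ring, zpow_add_apply, h4]
    rw [h2 _ (by omega) (by omega), T2R_even hc, h1] at h5
    norm_num at h5
  have hfin : ∀ η : ℤ, (η = 1 ∨ η = -1) → (T ^ ((K : ℤ) + 1)) v = (η : ℝ) • v →
      ∀ k, c k = famA (K + 1) η k := by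
    intro η hη hT
    have hper : ∀ k, c (k + ((K + 1 : ℕ) : ℤ)) = η * c k := by
      intro k
      rw [← hc, ← hc, zpow_add_apply]
      push_cast
      rw [hT, map_smul, inner_smul_left]
      rfl
    refine T2R_famA hη (by omega) hper h0 h1 (fun k hk hk2 => h2 k hk (by push_cast at hk2; omega)) ?_
    have h3 := hper (-1)
    rw [T2R_even hc, h1] at h3
    rw [show ((K + 1 : ℕ) : ℤ) - 1 = -1 + ((K + 1 : ℕ) : ℤ) by ring, h3]
    ring
  have hcases : e = -1 ∨ e = 1 := by omega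
  rcases hcases with h3 | h3
  · -- `c K = -1`
    refine ⟨Or.inr h3, ?_⟩
    rw [h3, neg_neg]
    refine hfin 1 (Or.inl rfl) ?_
    rw [h3] at hS1
    have h4 : ∑ i ∈ Finset.range (K + 1), (T ^ (i : ℤ)) v = 0 := by
      have : ‖∑ i ∈ Finset.range (K + 1), (T ^ (i : ℤ)) v‖ ^ 2 = 0 := by
        rw [hS1]
        norm_num
      rwa [sq_eq_zero_iff, norm_eq_zero] at this
    have h5 : ∑ i ∈ Finset.range (K + 1), (T ^ ((i + 1 : ℕ) : ℤ)) v = 0 := by
      have h6 : (T ^ (1 : ℤ)) (∑ i ∈ Finset.range (K + 1), (T ^ (i : ℤ)) v) = 0 := by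
        rw [h4, map_zero]
      rw [map_sum] at h6
      rw [← h6]
      refine Finset.sum_congr rfl fun i _ => ?_
      rw [← zpow_add_apply]
      congr 2
      push_cast
      ring
    have h7 : ∑ i ∈ Finset.range (K + 1 + 1), (T ^ (i : ℤ)) v =
        ∑ i ∈ Finset.range (K + 1), (T ^ ((i + 1 : ℕ) : ℤ)) v + (T ^ ((0 : ℕ) : ℤ)) v :=
      Finset.sum_range_succ' _ _
    rw [Finset.sum_range_succ, h4, h5, zero_add, zero_add, Nat.cast_zero, zpow_zero_apply] at h7
    rw [Int.cast_one, one_smul, ← h7]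
    congr 2
  · refine ⟨Or.inl h3, ?_⟩
    rw [h3]
    refine hfin (-1) (Or.inr rfl) ?_
    rw [T2R_key hc h0 h1 h2 hK9 (by rw [hK, h3, Int.cast_one]) hK']
    push_cast
    rw [neg_smul, one_smul]

end Pool.Agent.EEAG1
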