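import Pool.Agent.W_eea520_h99.T3

/-!
# Sequences which begin with `2, -1, 1, -1, …`: the version with finitely many integers
(MP_eea520_nt, theorem G)
-/

set_option autoImplicit false

namespace Pool.Agent.EEAG1

open Filter Topology
open scoped InnerProductSpace

variable {H : Type*} [NormedAddCommGroup H] [InnerProductSpace ℝ H]

theorem T3R_comb {q : ℕ} (hq : 2 ≤ q) {η : ℤ} (hη : η = 1 ∨ η = -1) {f : ℤ → ℝ}
    (hf : ∀ k, f (k + q) = η * f k) (h0 : f 0 = 1) (h1 : ∀ k : ℤ, 1 ≤ k → k < q → f k = 0)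
    (k : ℤ) : f k = comb q η k := by
  have hη2 : (η : ℝ) * η = 1 := by rcases hη with rfl | rfl <;> norm_num
  have hf' : ∀ k, f (k - q) = η * f k := by
    intro k
    have h := hf (k - q)
    rw [sub_add_cancel] at h
    rw [h, ← mul_assoc, hη2, one_mul]
  have hN : ∀ (n : ℕ) (r : ℤ), f (r + n * q) = (η : ℝ) ^ n * f r := by
    intro n r
    induction n with
    | zero => simp
    | succ n ih =>
      rw [show r + ((n + 1 : ℕ) : ℤ) * q = (r + n * q) + q by push_cast; ring, hf, ih, pow_succ]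
      ring
  have hN' : ∀ (n : ℕ) (r : ℤ), f (r - n * q) = (η : ℝ) ^ n * f r := by
    intro n r
    induction n with
    | zero => simp
    | succ n ih =>
      rw [show r - ((n + 1 : ℕ) : ℤ) * q = (r - n * q) - q by push_cast; ring, hf', ih, pow_succ]
      ring
  have hZ : ∀ (n r : ℤ), f (r + n * q) = (η : ℝ) ^ n.natAbs * f r := by
    intro n r
    rcases n.eq_nat_or_neg with ⟨m, rfl | rfl⟩
    · rw [hN, Int.natAbs_natCast]
    · rw [Int.natAbs_neg, Int.natAbs_natCast, ← hN', neg_mul, sub_eq_add_neg]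
  have hk : k % (q : ℤ) + (k / q) * q = k := Int.emod_add_ediv_mul k q
  unfold comb
  split_ifs with hd
  · have h3 : k % (q : ℤ) = 0 := Int.emod_eq_zero_of_dvd hd
    conv_lhs => rw [← hk, h3, hZ, h0, mul_one]
    push_cast
    rfl
  · have hr0 : 0 ≤ k % (q : ℤ) := Int.emod_nonneg _ (by omega)
    have hr1 : k % (q : ℤ) < q := Int.emod_lt_of_pos _ (by omega)
    have hr2 : k % (q : ℤ) ≠ 0 := fun h => hd (Int.dvd_of_emod_eq_zero h)
    conv_lhs => rw [← hk, hZ, h1 _ (by omega) hr1, mul_zero]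
    rw [Int.cast_zero]

theorem T3R_main {T : H ≃ₗᵢ[ℝ] H} {v : H} {d : ℤ → ℝ} (hc : ∀ k, ⟪(T ^ k) v, v⟫_ℝ = d k)
    {q : ℕ} (hq9 : 9 ≤ q) (h0 : d 0 = 2) (hmin : ∀ k : ℤ, 1 ≤ k → k < q → d k = 1)
    {D D' : ℤ} (hq : d q = D) (hq' : d (q + 1) = D') (hD : D ≠ 1) :
    (D - 1 = 1 ∨ D - 1 = -1) ∧ ∀ k, d k = 1 + comb q (D - 1) k := by
  obtain ⟨V, hVdef⟩ : ∃ V : ℤ → H, V = fun j : ℤ => (T ^ j) v := ⟨_, rfl⟩
  have hV : ∀ i j : ℤ, ⟪V i, V j⟫_ℝ = d (i - j) := by
    intro i j
    rw [hVdef]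
    show ⟪(T ^ i) v, (T ^ j) v⟫_ℝ = d (i - j)
    rw [inner_zpow, hc]
  have hTV : ∀ i j : ℤ, (T ^ i) (V j) = V (i + j) := by
    intro i j
    rw [hVdef]
    show (T ^ i) ((T ^ j) v) = (T ^ (i + j)) v
    rw [zpow_add_apply]
  have heven : ∀ k, d (-k) = d k := by
    intro k
    have e1 := hV 0 k
    have e2 := hV k 0
    rw [real_inner_comm, e2, sub_zero, zero_sub] at e1
    exact e1.symm
  have hd1 : ∀ k : ℤ, k ≠ 0 → -(q : ℤ) < k → k < q → d k = 1 := by
    intro k hk hk1 hk2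
    rcases lt_or_gt_of_ne hk with h | h
    · rw [← heven]
      exact hmin _ (by omega) (by omega)
    · exact hmin _ (by omega) hk2
  have hone : ∀ i j : ℤ, i ≠ j → -(q : ℤ) < i - j → i - j < q → ⟪V i, V j⟫_ℝ = 1 := by
    intro i j hij h3 h4
    rw [hV, hd1 _ (sub_ne_zero.2 hij) h3 h4]
  have htwo : ∀ i : ℤ, ⟪V i, V i⟫_ℝ = 2 := by
    intro i
    rw [hV, sub_self, h0]
  have hq0 : ⟪V q, V 0⟫_ℝ = D := by rw [hV, sub_zero, hq]
  have h0q : ⟪V 0, V q⟫_ℝ = D := by rw [real_inner_comm, hq0]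
  have hup : D ≤ 2 := by
    have h3 : 0 ≤ ⟪V q - V 0, V q - V 0⟫_ℝ := real_inner_self_nonneg
    rw [inner_sub_left, inner_sub_right, inner_sub_right, htwo, htwo, hq0, h0q] at h3
    have h4 : (D : ℝ) ≤ 2 := by linarith
    exact_mod_cast h4
  have hlo : 0 ≤ D := by
    have h3 : 0 ≤ ⟪(3 : ℝ) • (V 0 + V q) - (2 : ℝ) • (V 1 + V 2),
        (3 : ℝ) • (V 0 + V q) - (2 : ℝ) • (V 1 + V 2)⟫_ℝ := real_inner_self_nonneg
    simp only [inner_add_left, inner_add_right, inner_sub_left, inner_sub_right,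
      real_inner_smul_left, real_inner_smul_right] at h3
    rw [htwo, htwo, htwo, htwo, hq0, h0q, hone 0 1 (by omega) (by omega) (by omega),
      hone 0 2 (by omega) (by omega) (by omega), hone q 1 (by omega) (by omega) (by omega),
      hone q 2 (by omega) (by omega) (by omega), hone 1 0 (by omega) (by omega) (by omega),
      hone 1 q (by omega) (by omega) (by omega), hone 1 2 (by omega) (by omega) (by omega),
      hone 2 0 (by omega) (by omega) (by omega), hone 2 q (by omega) (by omega) (by omega),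
      hone 2 1 (by omega) (by omega) (by omega)] at h3
    have h4 : (-1 : ℝ) < D := by linarith
    have h5 : -1 < D := by exact_mod_cast h4
    omega
  have hcase : D = 2 ∨ D = 0 := by omega
  have hfin : (D - 1 = 1 ∨ D - 1 = -1) → (∀ k, d (k + q) - 1 = ((D - 1 : ℤ) : ℝ) * (d k - 1)) →
      (D - 1 = 1 ∨ D - 1 = -1) ∧ ∀ k, d k = 1 + comb q (D - 1) k := by
    intro hη hk
    refine ⟨hη, fun k => ?_⟩
    have h3 := T3R_comb (q := q) (by omega) hη (f := fun k => d k - 1) hk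
      (by rw [h0]; norm_num)
      (fun k hk1 hk2 => by rw [hmin k hk1 hk2, sub_self]) k
    rw [← h3]
    ring
  rcases hcase with hdq | hdq
  · -- the orbit is periodic
    have hVq : V q = V 0 := by
      have h3 : ⟪V q - V 0, V q - V 0⟫_ℝ = 0 := by
        rw [inner_sub_left, inner_sub_right, inner_sub_right, htwo, htwo, hq0, h0q, hdq]
        norm_num
      exact sub_eq_zero.1 (inner_self_eq_zero.1 h3)
    refine hfin (Or.inl (by omega)) fun k => ?_
    have h3 : d (k + q) = d k := by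
      have e1 : V (k + q) = V k := by
        rw [← hTV, hVq, hTV, add_zero]
      have e2 := hV (k + q) 0
      rw [e1, hV, sub_zero, sub_zero] at e2
      exact e2.symm
    rw [h3, hdq]
    norm_num
  · -- the orbit is antiperiodic modulo a fixed vector
    have hnn : 0 ≤ (1 - D') * (9 * D' - 1) := by
      obtain ⟨Y, hY⟩ : ∃ Y : ℝ, Y = ((D' : ℝ) + 1) / 2 := ⟨_, rfl⟩
      have hy0 : ⟪V (q + 1), V 0⟫_ℝ = D' := by rw [hV, sub_zero, hq']
      have h0y : ⟪V 0, V (q + 1)⟫_ℝ = D' := by rw [real_inner_comm, hy0]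
      have hy1 : ⟪V (q + 1), V 1⟫_ℝ = 0 := by
        rw [hV, add_sub_cancel_right, hq, hdq, Int.cast_zero]
      have h1y : ⟪V 1, V (q + 1)⟫_ℝ = 0 := by rw [real_inner_comm, hy1]
      have hyq : ⟪V (q + 1), V q⟫_ℝ = 1 := hone _ _ (by omega) (by omega) (by omega)
      have hqy : ⟪V q, V (q + 1)⟫_ℝ = 1 := by rw [real_inner_comm, hyq]
      obtain ⟨S, hS⟩ : ∃ S : H, S = V 2 + V 3 + V 4 + V 5 + V 6 + V 7 := ⟨_, rfl⟩
      have hSj : ∀ j : ℤ, (j ≤ 1 ∨ 8 ≤ j) → -1 ≤ j → j ≤ q + 1 → ⟪S, V j⟫_ℝ = 6 := by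
        intro j hj hj1 hj2
        rw [hS]
        simp only [inner_add_left]
        rw [hone 2 j (by omega) (by omega) (by omega), hone 3 j (by omega) (by omega) (by omega),
          hone 4 j (by omega) (by omega) (by omega), hone 5 j (by omega) (by omega) (by omega),
          hone 6 j (by omega) (by omega) (by omega), hone 7 j (by omega) (by omega) (by omega)]
        norm_num
      have hjS : ∀ j : ℤ, (j ≤ 1 ∨ 8 ≤ j) → -1 ≤ j → j ≤ q + 1 → ⟪V j, S⟫_ℝ = 6 := by
        intro j hj hj1 hj2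
        rw [real_inner_comm, hSj j hj hj1 hj2]
      have hSS : ⟪S, S⟫_ℝ = 42 := by
        have e1 : ∀ j : ℤ, 2 ≤ j → j ≤ 7 → ⟪S, V j⟫_ℝ = 7 := by
          intro j hj1 hj2
          rw [hS]
          simp only [inner_add_left]
          have e2 : ∀ i : ℤ, 2 ≤ i → i ≤ 7 → ⟪V i, V j⟫_ℝ = 1 + if i = j then 1 else 0 := by
            intro i hi1 hi2
            split_ifs with hij
            · rw [hij, htwo]
              norm_num
            · rw [hone i j hij (by omega) (by omega), add_zero]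
          rw [e2 2 (by omega) (by omega), e2 3 (by omega) (by omega), e2 4 (by omega) (by omega),
            e2 5 (by omega) (by omega), e2 6 (by omega) (by omega), e2 7 (by omega) (by omega)]
          interval_cases j <;> norm_num
        have e3 : ⟪S, S⟫_ℝ = ⟪S, V 2⟫_ℝ + ⟪S, V 3⟫_ℝ + ⟪S, V 4⟫_ℝ + ⟪S, V 5⟫_ℝ + ⟪S, V 6⟫_ℝ +
            ⟪S, V 7⟫_ℝ := by
          conv_lhs => rw [show (⟪S, S⟫_ℝ : ℝ) = ⟪S, V 2 + V 3 + V 4 + V 5 + V 6 + V 7⟫_ℝ by rw [← hS]]
          simp only [inner_add_right]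
        rw [e3, e1 2 (by omega) (by omega), e1 3 (by omega) (by omega), e1 4 (by omega) (by omega),
          e1 5 (by omega) (by omega), e1 6 (by omega) (by omega), e1 7 (by omega) (by omega)]
        norm_num
      have h3 : 0 ≤ ⟪V (q + 1) - (Y - 1) • V 0 + Y • V 1 - (1 - Y) • S -
            ((7 * Y - 5) / 2) • (V 0 + V q),
          V (q + 1) - (Y - 1) • V 0 + Y • V 1 - (1 - Y) • S -
            ((7 * Y - 5) / 2) • (V 0 + V q)⟫_ℝ := real_inner_self_nonneg
      simp only [inner_add_left, inner_add_right, inner_sub_left, inner_sub_right,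
        real_inner_smul_left, real_inner_smul_right] at h3
      rw [htwo, htwo, htwo, htwo, hSS, hy0, h0y, hy1, h1y, hyq, hqy, hq0, h0q, hdq,
        hSj 0 (by omega) (by omega) (by omega), hSj 1 (by omega) (by omega) (by omega),
        hSj q (by omega) (by omega) (by omega), hSj (q + 1) (by omega) (by omega) (by omega),
        hjS 0 (by omega) (by omega) (by omega), hjS 1 (by omega) (by omega) (by omega),
        hjS q (by omega) (by omega) (by omega), hjS (q + 1) (by omega) (by omega) (by omega),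
        hone 0 1 (by omega) (by omega) (by omega), hone 1 0 (by omega) (by omega) (by omega),
        hone q 1 (by omega) (by omega) (by omega), hone 1 q (by omega) (by omega) (by omega)] at h3
      have h4 : (D' : ℝ) = 2 * Y - 1 := by rw [hY]; ring
      have h5 : (0 : ℝ) ≤ (1 - D') * (9 * D' - 1) := by
        rw [h4] at h3 ⊢
        push_cast at h3
        nlinarith [h3]
      exact_mod_cast h5
    have hd2 : D' = 1 := by
      by_contra hne
      rcases lt_or_gt_of_ne hne with h | h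
      · have : D' ≤ 0 := by omega
        nlinarith
      · have : 2 ≤ D' := by omega
        nlinarith
    have hy : V (q + 1) = V 0 + V q - V 1 := by
      have hy0 : ⟪V (q + 1), V 0⟫_ℝ = 1 := by rw [hV, sub_zero, hq', hd2, Int.cast_one]
      have h0y : ⟪V 0, V (q + 1)⟫_ℝ = 1 := by rw [real_inner_comm, hy0]
      have hy1 : ⟪V (q + 1), V 1⟫_ℝ = 0 := by
        rw [hV, add_sub_cancel_right, hq, hdq, Int.cast_zero]
      have h1y : ⟪V 1, V (q + 1)⟫_ℝ = 0 := by rw [real_inner_comm, hy1]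
      have hyq : ⟪V (q + 1), V q⟫_ℝ = 1 := hone _ _ (by omega) (by omega) (by omega)
      have hqy : ⟪V q, V (q + 1)⟫_ℝ = 1 := by rw [real_inner_comm, hyq]
      have h3 : ⟪V (q + 1) - (V 0 + V q - V 1), V (q + 1) - (V 0 + V q - V 1)⟫_ℝ = 0 := by
        simp only [inner_add_left, inner_add_right, inner_sub_left, inner_sub_right]
        rw [htwo, htwo, htwo, htwo, hy0, h0y, hy1, h1y, hyq, hqy, hq0, h0q, hdq,
          hone 0 1 (by omega) (by omega) (by omega), hone 1 0 (by omega) (by omega) (by omega),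
          hone q 1 (by omega) (by omega) (by omega), hone 1 q (by omega) (by omega) (by omega)]
        norm_num
      exact sub_eq_zero.1 (inner_self_eq_zero.1 h3)
    have hW : (T ^ (1 : ℤ)) (V 0 + V q) = V 0 + V q := by
      rw [map_add, hTV, hTV, add_zero, add_comm (1 : ℤ) q, hy]
      abel
    refine hfin (Or.inr (by omega)) fun k => ?_
    have h3 : V k + V (k + q) = V 0 + V q := by
      have e1 := zpow_mul_of_fix hW k
      rw [mul_one, map_add, hTV, hTV, add_zero] at e1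
      exact e1
    have h4 : (d k : ℝ) + d (k + q) = 2 := by
      have e1 : ⟪V k + V (k + q), V 0⟫_ℝ = ⟪V 0 + V q, V 0⟫_ℝ := by rw [h3]
      rw [inner_add_left, inner_add_left, hV, hV, htwo, hq0, hdq, sub_zero, sub_zero] at e1
      rw [e1]
      norm_num
    rw [hdq]
    push_cast
    linarith

theorem T3R_sign (k : ℤ) : ((-1 : ℝ) ^ k.natAbs) * ((-1 : ℝ) ^ k.natAbs) = 1 := by
  rw [← pow_add, ← two_mul, pow_mul]
  simp

/-- The real valued version of `fam_alt` (same proof, T3.lean): only the two values `c q` and `c (q + 1)` are known to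
be integers, `q` is the first index `≥ 1` with `c q ≠ (-1) ^ q`. -/
theorem fam_altR {T : H ≃ₗᵢ[ℝ] H} {v : H} {c : ℤ → ℝ} (hc : ∀ k, ⟪(T ^ k) v, v⟫_ℝ = c k)
    {q : ℕ} (hq9 : 9 ≤ q) (h0 : c 0 = 2) (h2 : ∀ k : ℤ, 1 ≤ k → k < q → c k = (-1) ^ k.natAbs)
    {e e' : ℤ} (hq : c q = e) (hq' : c (q + 1) = e') (he : e ≠ (-1) ^ q) :
    (e - (-1) ^ q = 1 ∨ e - (-1) ^ q = -1) ∧ ∀ k, c k = famD q (e - (-1) ^ q) k := by
  have hc' : ∀ k, ⟪(((LinearIsometryEquiv.neg ℝ : H ≃ₗᵢ[ℝ] H) * T) ^ k) v, v⟫_ℝ =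
      (-1 : ℝ) ^ k.natAbs * c k := by
    intro k
    rw [T3_neg, real_inner_smul_left, hc]
  have hback : ∀ k, c k = (-1 : ℝ) ^ k.natAbs * ((-1 : ℝ) ^ k.natAbs * c k) := by
    intro k
    rw [← mul_assoc, T3R_sign, one_mul]
  have hs : ((-1 : ℤ) ^ q) * ((-1 : ℤ) ^ q) = 1 := by
    rw [← pow_add, ← two_mul, pow_mul]
    simp
  have hD : (-1 : ℤ) ^ q * e ≠ 1 := by
    intro h
    apply he
    calc e = ((-1) ^ q * (-1) ^ q) * e := by rw [hs, one_mul]
      _ = (-1) ^ q * ((-1) ^ q * e) := by ring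
      _ = (-1) ^ q := by rw [h, mul_one]
  obtain ⟨h1, h3⟩ := T3R_main (d := fun k => (-1 : ℝ) ^ k.natAbs * c k) (q := q)
    (D := (-1) ^ q * e) (D' := (-1) ^ (q + 1) * e') hc' hq9 (by simp [h0])
    (fun k hk1 hk2 => by
      show (-1 : ℝ) ^ k.natAbs * c k = 1
      rw [h2 k hk1 hk2, T3R_sign])
    (by
      show (-1 : ℝ) ^ ((q : ℤ)).natAbs * c q = _
      rw [hq, Int.natAbs_natCast]
      push_cast
      rfl)
    (by
      show (-1 : ℝ) ^ ((q : ℤ) + 1).natAbs * c (q + 1) = _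
      rw [hq', show ((q : ℤ) + 1).natAbs = q + 1 by omega]
      push_cast
      rfl) hD
  have h4 : e - (-1) ^ q = (-1) ^ q * ((-1) ^ q * e - 1) := by
    rw [mul_sub, ← mul_assoc, hs, one_mul, mul_one]
  refine ⟨?_, fun k => ?_⟩
  · rw [h4]
    rcases neg_one_pow_eq_or ℤ q with e1 | e1 <;> rcases h1 with e2 | e2 <;> rw [e2, e1] <;>
      norm_num
  · have h5 : (-1 : ℝ) ^ k.natAbs * c k = 1 + comb q ((-1) ^ q * e - 1) k := h3 k
    rw [hback, h5, h4]
    unfold famD comb
    split_ifs with hd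
    · obtain ⟨m, rfl⟩ := hd
      have hN0 : (q : ℤ) ≠ 0 := by omega
      rw [Int.mul_ediv_cancel_left _ hN0, Int.natAbs_mul, Int.natAbs_natCast, mul_pow, ← pow_mul]
      push_cast
      ring
    · push_cast
      ring

end Pool.Agent.EEAG1
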