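import Pool.Agent.W_eea520_h99.T1a
import Pool.Agent.W_eea520_h99.T2R
import Pool.Agent.W_eea520_h99.T3R
import Pool.Agent.W_eea520_g1.K1

/-!
# Integer valued positive definite sequences with `c 0 = 2`, `c 1 = -1`, the version with finitely many
integers (MP_eea520_nt, theorem G)
-/

set_option autoImplicit false

namespace Pool.Agent.EEAG1

open Filter Topology
open scoped InnerProductSpace

theorem recur_congr {c c' : ℤ → ℤ} (a : List ℤ) (k k' : ℤ)
    (h : ∀ i : ℕ, i < a.length → c (k + i) = c' (k' + i)) : recur c k a = recur c' k' a := by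
  induction a generalizing k k' with
  | nil => rfl
  | cons x a ih =>
    simp only [recur]
    have h0 := h 0 (by simp)
    simp only [Nat.cast_zero, add_zero] at h0
    rw [h0, ih (k + 1) (k' + 1) (fun i hi => ?_)]
    have h1 := h (i + 1) (by simpa using hi)
    push_cast at h1
    rw [add_assoc, add_comm 1 (i : ℤ), h1, add_assoc, add_comm 1 (i : ℤ)]

/-- The value of a recurrence. -/
noncomputable def recurR (c : ℤ → ℝ) : ℤ → List ℤ → ℝ
  | _, [] => 0
  | k, x :: a => x * c k + recurR c (k + 1) a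

theorem recurR_cast (c : ℤ → ℤ) (a : List ℤ) (k : ℤ) :
    recurR (fun k => (c k : ℝ)) k a = (recur c k a : ℤ) := by
  induction a generalizing k with
  | nil => simp [recur, recurR]
  | cons x a ih =>
    simp only [recur, recurR, ih]
    push_cast
    ring

theorem recurR_congr {c c' : ℤ → ℝ} (a : List ℤ) (k : ℤ)
    (h : ∀ i : ℕ, i < a.length → c (k + i) = c' (k + i)) : recurR c k a = recurR c' k a := by
  induction a generalizing k with
  | nil => rfl
  | cons x a ih =>
    simp only [recurR]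
    have h0 := h 0 (by simp)
    simp only [Nat.cast_zero, add_zero] at h0
    rw [h0, ih (k + 1) (fun i hi => ?_)]
    have h1 := h (i + 1) (by simpa using hi)
    push_cast at h1
    rw [add_assoc, add_comm 1 (i : ℤ), h1]

theorem recurR_append (c : ℤ → ℝ) (b : List ℤ) (z k : ℤ) :
    recurR c k (b ++ [z]) = recurR c k b + z * c (k + b.length) := by
  induction b generalizing k with
  | nil => simp [recurR]
  | cons x b ih =>
    rw [List.cons_append]
    simp only [recurR, ih, List.length_cons]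
    push_cast
    rw [add_assoc k 1 (b.length : ℤ), add_comm 1 (b.length : ℤ)]
    ring

theorem dot_eq {c : ℤ → ℝ} (a p : List ℤ) (k : ℤ)
    (h : ∀ i : ℕ, i < p.length → c (k + i) = (p.getD i 0 : ℤ)) (hl : a.length ≤ p.length) :
    ((dot a p : ℤ) : ℝ) = recurR c k a := by
  induction a generalizing p k with
  | nil => simp [dot, recurR]
  | cons x a ih =>
    cases p with
    | nil => simp at hl
    | cons y p =>
      simp only [dot, recurR]
      have h0 := h 0 (by simp)
      simp only [Nat.cast_zero, add_zero, List.getD_cons_zero] at h0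
      rw [h0, ← ih p (k + 1) (fun i hi => ?_) (by simpa using hl)]
      · push_cast
        ring
      · have h1 := h (i + 1) (by simpa using hi)
        push_cast at h1
        rw [List.getD_cons_succ] at h1
        rw [add_assoc, add_comm 1 (i : ℤ), h1]

theorem pow_natAbs_add_two {η : ℤ} (hη : η = 1 ∨ η = -1) (m : ℤ) :
    η ^ (m + 2).natAbs = η ^ m.natAbs := by
  rcases hη with rfl | rfl
  · simp
  · have h1 : Even (m + 2).natAbs ↔ Even m.natAbs := by
      rw [Int.natAbs_even, Int.natAbs_even, Int.even_add]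
      simp
    by_cases h2 : Even m.natAbs
    · rw [h2.neg_one_pow, (h1.2 h2).neg_one_pow]
    · rw [(Nat.not_even_iff_odd.1 h2).neg_one_pow,
        (Nat.not_even_iff_odd.1 (fun h3 => h2 (h1.1 h3))).neg_one_pow]

theorem comb_add {N : ℕ} (hN : 0 < N) {η : ℤ} (hη : η = 1 ∨ η = -1) (k : ℤ) :
    comb N η (k + 2 * N) = comb N η k := by
  unfold comb
  have h1 : (N : ℤ) ∣ k + 2 * N ↔ (N : ℤ) ∣ k :=
    (Int.dvd_add_left (Dvd.intro_left 2 rfl))
  have h2 : (k + 2 * N) / N = k / N + 2 :=
    Int.add_mul_ediv_right _ _ (by exact_mod_cast hN.ne')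
  rw [h2, pow_natAbs_add_two hη]
  simp only [h1]

theorem pow_natAbs_add_even (m : ℤ) (N : ℕ) :
    ((-1 : ℤ)) ^ (m + 2 * N).natAbs = (-1) ^ m.natAbs := by
  induction N with
  | zero => simp
  | succ N ih =>
    have h := pow_natAbs_add_two (Or.inr rfl : (-1 : ℤ) = 1 ∨ (-1 : ℤ) = -1) (m + 2 * N)
    rw [← ih, ← h]
    congr 2
    push_cast
    ring

theorem Law.periodic {L : Law} (hL : L.ok = true) (k : ℤ) : L.val (k + L.len) = L.val k := by
  cases L with
  | A N η =>
    simp only [Law.ok, decide_eq_true_eq] at hL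
    obtain ⟨h1, h2⟩ := hL
    simp only [Law.val, Law.len, famA]
    push_cast
    have e1 : k + 2 * (N : ℤ) - 1 = k - 1 + 2 * N := by ring
    have e2 : k + 2 * (N : ℤ) + 1 = k + 1 + 2 * N := by ring
    rw [e1, e2, comb_add (by omega) h2, comb_add (by omega) h2, comb_add (by omega) h2]
  | D N η =>
    simp only [Law.ok, decide_eq_true_eq] at hL
    obtain ⟨h1, h2⟩ := hL
    simp only [Law.val, Law.len, famD]
    push_cast
    rw [comb_add (by omega) h2, pow_natAbs_add_even]
  | E i =>
    simp only [Law.val, Law.len, per, Int.add_emod_right]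

theorem Law.emod {L : Law} (hL : L.ok = true) (k j : ℤ) :
    L.val (k + j) = L.val (k % L.len + j) := by
  have hp : Function.Periodic L.val (L.len : ℤ) := fun k => Law.periodic hL k
  have h1 := (hp.int_mul (k / L.len)) (k % L.len + j)
  rw [← h1]
  congr 1
  have h2 := Int.emod_add_mul_ediv k L.len
  simp only [Int.cast_id]
  linarith

/-- The recurrence and the symmetry hold on a period, hence everywhere. -/
theorem Law.recur {L : Law} (hL : L.ok = true) (h0 : 0 < L.len) {a : List ℤ}
    (h : ∀ k < L.len, Pool.Agent.EEAG1.recur L.val (k : ℕ) a = 0) (k : ℤ) :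
    Pool.Agent.EEAG1.recur L.val k a = 0 := by
  have hlen : (0 : ℤ) < L.len := by exact_mod_cast h0
  have h1 : ((k % L.len).toNat : ℤ) = k % L.len :=
    Int.toNat_of_nonneg (Int.emod_nonneg _ hlen.ne')
  have h2 : (k % L.len).toNat < L.len := by
    have := Int.emod_lt_of_pos k hlen
    omega
  rw [← h _ h2]
  refine recur_congr _ _ _ fun j _ => ?_
  rw [Law.emod hL, h1]

theorem Law.even {L : Law} (hL : L.ok = true) (h0 : 0 < L.len)
    (h : ∀ k < L.len, L.val (-((k : ℕ) : ℤ)) = L.val k) (k : ℤ) : L.val (-k) = L.val k := by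
  have hlen : (0 : ℤ) < L.len := by exact_mod_cast h0
  have h1 : ((k % L.len).toNat : ℤ) = k % L.len :=
    Int.toNat_of_nonneg (Int.emod_nonneg _ hlen.ne')
  have h2 : (k % L.len).toNat < L.len := by
    have := Int.emod_lt_of_pos k hlen
    omega
  have e1 := Law.emod hL k 0
  have e3 := h _ h2
  rw [h1] at e3
  rw [add_zero, add_zero] at e1
  rw [e1, ← e3]
  have e4 := Law.emod hL (-k) 0
  have e5 := Law.emod hL (-(k % L.len)) 0
  rw [add_zero, add_zero] at e4 e5
  rw [e4, e5]
  congr 1
  have e6 : -k = -(k % L.len) + L.len * (-(k / L.len)) := by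
    have := Int.emod_add_mul_ediv k L.len
    linarith
  conv_lhs => rw [e6, Int.add_mul_emod_self_left]

variable {H : Type*} [NormedAddCommGroup H] [InnerProductSpace ℝ H]

/-- `∑ i, a i • T ^ i v`. -/
noncomputable def vec (T : H ≃ₗᵢ[ℝ] H) (v : H) : List ℤ → H
  | [] => 0
  | x :: a => (x : ℝ) • v + T (vec T v a)

theorem inner_vec {T : H ≃ₗᵢ[ℝ] H} {v : H} {c : ℤ → ℝ} (hc : ∀ k, ⟪(T ^ k) v, v⟫_ℝ = c k)
    (a : List ℤ) (k : ℤ) : ⟪(T ^ k) (vec T v a), v⟫_ℝ = recurR c k a := by
  induction a generalizing k with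
  | nil => simp [vec, recurR]
  | cons x a ih =>
    have h1 : (T ^ k) (T (vec T v a)) = (T ^ (k + 1)) (vec T v a) := by
      rw [zpow_add_apply, zpow_one]
    simp only [vec, recurR, map_add, map_smul, inner_add_left, inner_smul_left, hc, h1, ih]
    simp

theorem norm_vec {T : H ≃ₗᵢ[ℝ] H} {v : H} {c : ℤ → ℝ} (hc : ∀ k, ⟪(T ^ k) v, v⟫_ℝ = c k)
    (a p : List ℤ) (h : ∀ i : ℕ, i < p.length → c i = (p.getD i 0 : ℤ))
    (hl : a.length ≤ p.length) : ‖vec T v a‖ ^ 2 = (quad a p : ℤ) := by
  induction a with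
  | nil => simp [vec, quad]
  | cons x a ih =>
    have ih' := ih (by simp only [List.length_cons] at hl; omega)
    cases p with
    | nil => simp at hl
    | cons y p =>
      have h0 := h 0 (by simp)
      simp only [Nat.cast_zero, List.getD_cons_zero] at h0
      have h1 : ((dot a p : ℤ) : ℝ) = recurR c 1 a := by
        refine dot_eq a p 1 (fun i hi => ?_) (by simpa using hl)
        have h2 := h (i + 1) (by simpa using hi)
        push_cast at h2
        rw [List.getD_cons_succ] at h2
        rw [add_comm, h2]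
      have h2 := inner_vec hc a 1
      rw [zpow_one] at h2
      have h3 : ‖v‖ ^ 2 = c 0 := by
        rw [← hc 0, zpow_zero_apply, real_inner_self_eq_norm_sq]
      simp only [vec, quad]
      rw [norm_add_sq_real, inner_smul_left, real_inner_comm, h2, norm_smul, mul_pow, h3,
        LinearIsometryEquiv.norm_map, ih', h0]
      simp only [List.tail_cons, List.getD_cons_zero, conj_trivial, Real.norm_eq_abs, sq_abs]
      push_cast
      rw [h1]
      ring

theorem le_two_of {T : H ≃ₗᵢ[ℝ] H} {v : H} {c : ℤ → ℝ} (hc : ∀ k, ⟪(T ^ k) v, v⟫_ℝ = c k)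
    (h0 : c 0 = 2) (k : ℤ) : -2 ≤ c k ∧ c k ≤ 2 := by
  have h3 : ‖v‖ * ‖v‖ = 2 := by
    rw [← real_inner_self_eq_norm_mul_norm]
    have := hc 0
    rw [zpow_zero_apply, h0] at this
    exact this
  have h4 := abs_real_inner_le_norm ((T ^ k) v) v
  rw [norm_zpow, h3, hc k] at h4
  exact abs_le.1 h4

theorem eq_neg_of {T : H ≃ₗᵢ[ℝ] H} {v : H} {c : ℤ → ℝ} (hc : ∀ k, ⟪(T ^ k) v, v⟫_ℝ = c k) (k : ℤ) :
    c (-k) = c k := by
  have h1 := hc (-k)
  rw [inner_zpow_left, neg_neg, real_inner_comm, hc k] at h1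
  exact h1.symm

/-- A certified leaf. -/
theorem leaf_sound {T : H ≃ₗᵢ[ℝ] H} {v : H} {c : ℤ → ℝ} (hc : ∀ k, ⟪(T ^ k) v, v⟫_ℝ = c k)
    {b : List ℤ} {z : ℤ} {L : Law} {p : List ℤ} (h : chk (.leaf b z L) p = true)
    (hp : ∀ i : ℕ, i < p.length → c i = (p.getD i 0 : ℤ)) (k : ℤ) : c k = L.val k := by
  simp only [chk, Bool.and_eq_true, decide_eq_true_eq, List.all_eq_true, List.mem_range] at h
  obtain ⟨⟨⟨⟨⟨⟨⟨g1, g2⟩, g3⟩, g4⟩, g5⟩, g6⟩, g7⟩, g8⟩ := h
  have h1 : vec T v (b ++ [z]) = 0 := by
    have h2 := norm_vec hc (b ++ [z]) p hp (by simpa using g2)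
    rw [g1, Int.cast_zero] at h2
    exact norm_eq_zero.1 (pow_eq_zero_iff (two_ne_zero) |>.1 h2)
  have h2 : ∀ k, recurR c k (b ++ [z]) = 0 := by
    intro k
    have h3 := inner_vec hc (b ++ [z]) k
    rw [h1, map_zero, inner_zero_left] at h3
    exact h3.symm
  have h3 : ∀ k, recurR (fun k => (L.val k : ℝ)) k (b ++ [z]) = 0 := by
    intro k
    rw [recurR_cast, Law.recur g4 g5 g6, Int.cast_zero]
  have hz : (z : ℝ) ≠ 0 := by exact_mod_cast g3
  have h5 : ∀ k : ℕ, c k = L.val k := by
    intro k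
    induction k using Nat.strong_induction_on with
    | _ k ih =>
      by_cases hk : k < b.length
      · rw [hp k (by omega), g8 k hk]
      · have e1 := h2 ((k : ℤ) - b.length)
        have e2 := h3 ((k : ℤ) - b.length)
        rw [recurR_append, sub_add_cancel] at e1 e2
        have e3 : recurR c ((k : ℤ) - b.length) b =
            recurR (fun k => (L.val k : ℝ)) ((k : ℤ) - b.length) b := by
          refine recurR_congr _ _ fun i hi => ?_
          have e4 : (k : ℤ) - b.length + i = ((k - b.length + i : ℕ) : ℤ) := by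
            push_cast [Nat.cast_sub (not_lt.1 hk)]
            ring
          rw [e4]
          exact ih _ (by omega)
        rw [e3] at e1
        exact mul_left_cancel₀ hz (by linarith)
  rcases Int.natAbs_eq k with hk | hk
  · rw [hk]
    exact h5 _
  · rw [hk, eq_neg_of hc, Law.even g4 g5 g7]
    exact h5 _

/-- The soundness of the certificates. -/
theorem chk_sound {P : ℕ → ℤ} {M : ℕ} (hM : 9 ≤ M) (h0 : P 0 = 2) (t : Tree) (p : List ℤ)
    (h : chk t p = true) (hp : ∀ i : ℕ, i < p.length → P i = p.getD i 0)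
    (hpM : p.length ≤ 10) :
    (∃ L : Law, L.ok = true ∧ ∀ c : ℤ → ℝ, PosDef c → (∀ k : ℕ, k ≤ M → c k = P k) →
      ∀ k, c k = L.val k) ∨ (∀ k : ℕ, 2 ≤ k → k ≤ 8 → P k = 0) ∨
      (∀ k : ℕ, 1 ≤ k → k ≤ 8 → P k = (-1) ^ k) := by
  have hA : (Law.A 3 1).ok = true := by decide
  induction t generalizing p with
  | neg a =>
    refine Or.inl ⟨_, hA, fun c hc hcP => ?_⟩
    exfalso
    obtain ⟨H, i1, i2, i3, T, v, hv⟩ := exists_gns hc
    simp only [chk, Bool.and_eq_true, decide_eq_true_eq] at h
    have h1 := norm_vec hv a p (fun i hi => by rw [hcP i (by omega), hp i hi]) h.2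
    have h2 : (0 : ℝ) ≤ (quad a p : ℤ) := by
      rw [← h1]
      positivity
    have h3 : 0 ≤ quad a p := by exact_mod_cast h2
    omega
  | leaf b z L =>
    have hL : L.ok = true := by
      simp only [chk, Bool.and_eq_true] at h
      exact h.1.1.1.1.2
    refine Or.inl ⟨L, hL, fun c hc hcP => ?_⟩
    obtain ⟨H, i1, i2, i3, T, v, hv⟩ := exists_gns hc
    exact leaf_sound hv h (fun i hi => by rw [hcP i (by omega), hp i hi])
  | fam =>
    right
    simp only [chk, decide_eq_true_eq] at h
    rcases h with h | h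
    · left
      intro k h1 h2
      have h3 := hp k (by rw [h]; simp; omega)
      rw [h] at h3
      interval_cases k <;> simpa using h3
    · right
      intro k h1 h2
      have h3 := hp k (by rw [h]; simp; omega)
      rw [h] at h3
      interval_cases k <;> simpa using h3
  | node t₁ t₂ t₃ t₄ t₅ i1 i2 i3 i4 i5 =>
    simp only [chk, Bool.and_eq_true, decide_eq_true_eq] at h
    obtain ⟨⟨⟨⟨⟨g0, g1⟩, g2⟩, g3⟩, g4⟩, g5⟩ := h
    have hext : ∀ x : ℤ, P p.length = x → ∀ i : ℕ, i < (p ++ [x]).length →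
        P i = (p ++ [x]).getD i 0 := by
      intro x hx i hi
      simp only [List.length_append, List.length_cons, List.length_nil] at hi
      by_cases hi' : i < p.length
      · rw [hp i hi', List.getD_append _ _ _ _ hi']
      · have : i = p.length := by omega
        subst this
        rw [hx, List.getD_append_right _ _ _ _ le_rfl]
        simp
    have hl : ∀ x : ℤ, (p ++ [x]).length ≤ 10 := by
      intro x
      simp only [List.length_append, List.length_cons, List.length_nil]
      omega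
    by_cases hb : -2 ≤ P p.length ∧ P p.length ≤ 2
    · have h3 : P p.length = -2 ∨ P p.length = -1 ∨ P p.length = 0 ∨ P p.length = 1 ∨
          P p.length = 2 := by omega
      rcases h3 with h3 | h3 | h3 | h3 | h3
      · exact i1 _ g1 (hext _ h3) (hl _)
      · exact i2 _ g2 (hext _ h3) (hl _)
      · exact i3 _ g3 (hext _ h3) (hl _)
      · exact i4 _ g4 (hext _ h3) (hl _)
      · exact i5 _ g5 (hext _ h3) (hl _)
    · refine Or.inl ⟨_, hA, fun c hc hcP => ?_⟩
      exfalso
      obtain ⟨H, j1, j2, j3, T, v, hv⟩ := exists_gns hc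
      have e0 : c 0 = 2 := by
        have := hcP 0 (by omega)
        rw [h0] at this
        exact_mod_cast this
      have e1 := le_two_of hv e0 p.length
      rw [hcP p.length (by omega)] at e1
      exact hb ⟨by exact_mod_cast e1.1, by exact_mod_cast e1.2⟩

/-- The classification at a finite level. -/
theorem finite_level {P : ℕ → ℤ} {M : ℕ} (hM : 9 ≤ M) (h0 : P 0 = 2) (h1 : P 1 = -1) :
    (∀ k, 2 ≤ k → k < M → P k = 0) ∨ (∀ k, 1 ≤ k → k < M → P k = (-1) ^ k) ∨
      ∃ L : Law, L.ok = true ∧ ∀ c : ℤ → ℝ, PosDef c → (∀ k : ℕ, k ≤ M → c k = P k) →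
        ∀ k, c k = L.val k := by
  classical
  have hA : (Law.A 3 1).ok = true := by decide
  rcases chk_sound hM h0 theTree [2, -1] theTree_chk (fun i hi => by
    simp only [List.length_cons, List.length_nil] at hi
    interval_cases i
    · simpa using h0
    · simpa using h1) (by simp) with h | h | h
  · exact Or.inr (Or.inr h)
  · by_cases hall : ∀ k, 2 ≤ k → k < M → P k = 0
    · exact Or.inl hall
    right
    right
    have hex : ∃ k, 2 ≤ k ∧ k < M ∧ P k ≠ 0 := by
      push Not at hall
      obtain ⟨k, h2, h3, h4⟩ := hall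
      exact ⟨k, h2, h3, h4⟩
    obtain ⟨K, hK⟩ : ∃ K, K = Nat.find hex := ⟨_, rfl⟩
    have hK1 := Nat.find_spec hex
    rw [← hK] at hK1
    have hK2 : ∀ k, 2 ≤ k → k < K → P k = 0 := by
      intro k h2 h3
      by_contra h4
      rw [hK] at h3
      exact Nat.find_min hex h3 ⟨h2, by omega, h4⟩
    have hK9 : 9 ≤ K := by
      by_contra h4
      exact hK1.2.2 (h K hK1.1 (by omega))
    have key : ∀ c : ℤ → ℝ, PosDef c → (∀ k : ℕ, k ≤ M → c k = P k) →
        (P K = 1 ∨ P K = -1) ∧ ∀ k, c k = famA (K + 1) (-P K) k := by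
      intro c hc hcP
      obtain ⟨H, i1, i2, i3, T, v, hv⟩ := exists_gns hc
      refine fam_zeroR hv hK9 ?_ ?_ ?_ (e := P K) (e' := P (K + 1)) (hcP K (by omega)) ?_ hK1.2.2
      · have := hcP 0 (by omega)
        rw [h0] at this
        exact_mod_cast this
      · have := hcP 1 (by omega)
        rw [h1] at this
        exact_mod_cast this
      · intro k h2 h3
        lift k to ℕ using by omega
        rw [hcP k (by omega), hK2 k (by omega) (by omega), Int.cast_zero]
      · have := hcP (K + 1) (by omega)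
        exact_mod_cast this
    by_cases he : P K = 1 ∨ P K = -1
    · refine ⟨.A (K + 1) (-P K), ?_, fun c hc hcP => (key c hc hcP).2⟩
      simp only [Law.ok, decide_eq_true_eq]
      omega
    · exact ⟨_, hA, fun c hc hcP => absurd (key c hc hcP).1 he⟩
  · by_cases hall : ∀ k, 1 ≤ k → k < M → P k = (-1) ^ k
    · exact Or.inr (Or.inl hall)
    right
    right
    have hex : ∃ k, 1 ≤ k ∧ k < M ∧ P k ≠ (-1) ^ k := by
      push Not at hall
      obtain ⟨k, h2, h3, h4⟩ := hall
      exact ⟨k, h2, h3, h4⟩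
    obtain ⟨q, hq⟩ : ∃ q, q = Nat.find hex := ⟨_, rfl⟩
    have hq1 := Nat.find_spec hex
    rw [← hq] at hq1
    have hq2 : ∀ k, 1 ≤ k → k < q → P k = (-1) ^ k := by
      intro k h2 h3
      by_contra h4
      rw [hq] at h3
      exact Nat.find_min hex h3 ⟨h2, by omega, h4⟩
    have hq9 : 9 ≤ q := by
      by_contra h4
      exact hq1.2.2 (h q hq1.1 (by omega))
    have key : ∀ c : ℤ → ℝ, PosDef c → (∀ k : ℕ, k ≤ M → c k = P k) →
        (P q - (-1) ^ q = 1 ∨ P q - (-1) ^ q = -1) ∧ ∀ k, c k = famD q (P q - (-1) ^ q) k := by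
      intro c hc hcP
      obtain ⟨H, i1, i2, i3, T, v, hv⟩ := exists_gns hc
      refine fam_altR hv hq9 ?_ ?_ (e := P q) (e' := P (q + 1)) (hcP q (by omega)) ?_ hq1.2.2
      · have := hcP 0 (by omega)
        rw [h0] at this
        exact_mod_cast this
      · intro k h2 h3
        lift k to ℕ using by omega
        rw [hcP k (by omega), hq2 k (by omega) (by omega)]
        push_cast
        simp
      · have := hcP (q + 1) (by omega)
        exact_mod_cast this
    by_cases he : P q - (-1) ^ q = 1 ∨ P q - (-1) ^ q = -1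
    · refine ⟨.D q (P q - (-1) ^ q), ?_, fun c hc hcP => (key c hc hcP).2⟩
      simp only [Law.ok, decide_eq_true_eq]
      exact ⟨by omega, he⟩
    · exact ⟨_, hA, fun c hc hcP => absurd (key c hc hcP).1 he⟩

end Pool.Agent.EEAG1
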