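import Pool.Agent.W_eea520_h99.ExcL

/-!
# A verified search: integer valued positive definite sequences with `c 0 = 2`, `c 1 = -1`
(MP_eea520_nt, theorem G)
-/

set_option autoImplicit false

namespace Pool.Agent.EEAG1

open Filter Topology
open scoped InnerProductSpace

/-- Types of sequences. -/
inductive Law
  | A (N : ℕ) (η : ℤ)
  | D (N : ℕ) (η : ℤ)
  | E (i : ℕ)

/-- The sequence of a type. -/
def Law.val : Law → ℤ → ℤ
  | .A N η, k => famA N η k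
  | .D N η, k => famD N η k
  | .E i, k => per (excL.getD i []) k

/-- A period. -/
def Law.len : Law → ℕ
  | .A N _ => 2 * N
  | .D N _ => 2 * N
  | .E i => (excL.getD i []).length

/-- The admissible types. -/
def Law.ok : Law → Bool
  | .A N η => decide (3 ≤ N ∧ (η = 1 ∨ η = -1))
  | .D N η => decide (2 ≤ N ∧ (η = 1 ∨ η = -1))
  | .E i => decide (i < excL.length)

/-- Certificates. -/
inductive Tree
  | neg (a : List ℤ)
  | leaf (b : List ℤ) (z : ℤ) (L : Law)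
  | fam
  | node (t₁ t₂ t₃ t₄ t₅ : Tree)

/-- The sum of the products. -/
def dot : List ℤ → List ℤ → ℤ
  | x :: a, y :: b => x * y + dot a b
  | _, _ => 0

/-- The quadratic form. -/
def quad : List ℤ → List ℤ → ℤ
  | [], _ => 0
  | x :: a, p => x * (x * p.getD 0 0 + 2 * dot a p.tail) + quad a p

/-- The value of a recurrence. -/
def recur (c : ℤ → ℤ) : ℤ → List ℤ → ℤ
  | _, [] => 0
  | k, x :: a => x * c k + recur c (k + 1) a

/-- The check of a certificate. -/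
def chk : Tree → List ℤ → Bool
  | .neg a, p => decide (quad a p < 0) && decide (a.length ≤ p.length)
  | .leaf b z L, p => decide (quad (b ++ [z]) p = 0) && decide (b.length + 1 ≤ p.length) &&
      decide (z ≠ 0) && L.ok && decide (0 < L.len) &&
      (List.range L.len).all (fun k => decide (recur L.val k (b ++ [z]) = 0)) &&
      (List.range L.len).all (fun k => decide (L.val (-(k : ℤ)) = L.val k)) &&
      (List.range b.length).all (fun k => decide (p.getD k 0 = L.val k))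
  | .fam, p => decide (p = [2, -1, 0, 0, 0, 0, 0, 0, 0] ∨ p = [2, -1, 1, -1, 1, -1, 1, -1, 1])
  | .node t₁ t₂ t₃ t₄ t₅, p => decide (p.length ≤ 9) && chk t₁ (p ++ [-2]) && chk t₂ (p ++ [-1]) &&
      chk t₃ (p ++ [0]) && chk t₄ (p ++ [1]) && chk t₅ (p ++ [2])

/-- The certificate. -/
def theTree : Tree :=
(.node
  (.neg [5,4,3])
  (.leaf [1,1] (1) (.A 3 (1)))
  (.node
   (.neg [7,6,5,4])
   (.leaf [1,1,1] (1) (.A 4 (1)))
   (.node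
    (.neg [9,8,7,6,5])
    (.leaf [1,1,1,1] (1) (.A 5 (1)))
    (.node
     (.neg [11,10,9,8,7,6])
     (.leaf [1,1,1,1,1] (1) (.A 6 (1)))
     (.node
      (.neg [13,12,11,10,9,8,7])
      (.leaf [1,1,1,1,1,1] (1) (.A 7 (1)))
      (.node
       (.neg [15,14,13,12,11,10,9,8])
       (.leaf [1,1,1,1,1,1,1] (1) (.A 8 (1)))
       (.node
        (.neg [17,16,15,14,13,12,11,10,9])
        (.leaf [1,1,1,1,1,1,1,1] (1) (.A 9 (1)))
        .fam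
        (.node
         (.leaf [1,0,0,0,0,0,0,0,0] (1) (.A 9 (-1)))
         (.neg [-5,-7,-5,-3,-1,1,3,5,7,4])
         (.neg [-7,-7,-5,-3,-1,1,3,5,7,2])
         (.neg [-23,-21,-15,-9,-3,3,9,15,21,4])
         (.neg [-8,-7,-5,-3,-1,1,3,5,7,1]))
        (.neg [-5,-4,-3,-2,-1,0,1,2,3]))
       (.node
        (.leaf [1,0,0,0,0,0,0,0] (1) (.A 8 (-1)))
        (.node
         (.neg [4,6,4,2,0,-2,-4,-6,-4,3])
         (.neg [4,6,4,2,0,-2,-4,-6,-4,1])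
         (.neg [-4,-6,-4,-2,0,2,4,6,4,1])
         (.neg [-4,-6,-4,-2,0,2,4,6,4,3])
         (.neg [-4,-6,-4,-2,0,2,4,6,4,5]))
        (.neg [-3,-3,-2,-1,0,1,2,3,1])
        (.neg [-10,-9,-6,-3,0,3,6,9,2])
        (.neg [-7,-6,-4,-2,0,2,4,6,1]))
       (.neg [-13,-10,-7,-4,-1,2,5,8]))
      (.node
       (.leaf [1,0,0,0,0,0,0] (1) (.A 7 (-1)))
       (.node
        (.neg [7,8,4,1,-2,-5,-8,-4,1])
        (.neg [3,3,1,0,-1,-2,-3,-1,1])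
        (.leaf [-1,-2,-2,-1,0,1,2,2] (1) (.E 28))
        (.neg [-5,-7,-5,-2,1,4,7,5,1])
        (.neg [-9,-12,-8,-3,2,7,12,8,1]))
       (.neg [-5,-5,-3,-1,1,3,5,2])
       (.neg [-17,-15,-9,-3,3,9,15,4])
       (.neg [-6,-5,-3,-1,1,3,5,1]))
      (.neg [-11,-8,-5,-2,1,4,7]))
     (.node
      (.leaf [1,0,0,0,0,0] (1) (.A 6 (-1)))
      (.node
       (.neg [8,7,2,-1,-4,-7,-2,2])
       (.neg [4,3,0,-1,-2,-3,0,2])
       (.node
        (.neg [5,5,2,-1,-3,-5,-2,1,1])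
        (.neg [3,3,1,-1,-2,-3,-1,1,1])
        (.leaf [1,1,0,-1,-1,-1,0,1] (1) (.E 29))
        (.leaf [-1,-1,-1,-1,0,1,1,1] (1) (.E 21))
        (.neg [-3,-3,-2,-1,1,3,2,1,1]))
       (.neg [-4,-5,-4,-1,2,5,4,2])
       (.neg [-8,-9,-6,-1,4,9,6,2]))
      (.neg [-2,-2,-1,0,1,2,1])
      (.neg [-7,-6,-3,0,3,6,2])
      (.neg [-5,-4,-2,0,2,4,1]))
     (.neg [-3,-2,-1,0,1,2]))
    (.node
     (.leaf [1,0,0,0,0] (1) (.A 5 (-1)))
     (.node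
      (.neg [3,2,0,-1,-2,0,1])
      (.neg [5,3,-1,-2,-3,1,3])
      (.node
       (.neg [4,3,0,-2,-3,0,2,1])
       (.neg [5,4,0,-3,-4,0,3,2])
       (.leaf [1,1,0,-1,-1,0,1] (1) (.E 17))
       (.node
        (.neg [3,1,0,0,-2,0,0,-1,1])
        (.leaf [1,0,0,0,-1,0,0,0] (1) (.E 25))
        (.leaf [-1,-1,0,0,0,0,0,1] (1) (.E 12))
        (.neg [-3,-2,0,0,1,0,0,2,1])
        (.neg [-5,-3,0,0,2,0,0,3,1]))
       (.neg [-2,-1,0,0,1,0,0,1]))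
      (.leaf [-1,-1,-1,0,1,1] (1) (.E 6))
      (.neg [-7,-6,-4,1,6,4,3]))
     (.neg [-3,-3,-1,1,3,2])
     (.neg [-11,-9,-3,3,9,4])
     (.neg [-4,-3,-1,1,3,1]))
    (.neg [-7,-4,-1,2,5]))
   (.node
    (.leaf [1,0,0,0] (1) (.A 4 (-1)))
    (.node
     (.neg [10,5,-2,-5,2,4])
     (.neg [6,3,-2,-3,2,4])
     (.node
      (.neg [11,7,-2,-7,2,7,3])
      (.neg [7,5,-1,-5,1,5,3])
      (.leaf [1,1,0,-1,0,1] (1) (.E 7))
      (.node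
       (.leaf [1,0,0,0,0,0,0] (1) (.E 13))
       (.node
        (.neg [5,2,-3,-2,3,2,-3,-2,1])
        (.neg [3,1,-2,-1,2,1,-2,-1,1])
        (.leaf [1,0,-1,0,1,0,-1,0] (1) (.E 22))
        (.leaf [-1,-1,0,1,0,-1,0,1] (1) (.E 26))
        (.neg [-3,-2,1,2,-1,-2,1,2,1]))
       (.neg [-2,-1,1,1,-1,-1,1,1])
       (.neg [-7,-3,3,3,-3,-3,3,2])
       (.neg [-5,-2,2,2,-2,-2,2,1]))
      (.neg [-5,-1,2,1,-2,-1,3]))
     (.node
      (.neg [7,2,1,-5,-1,-2,3])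
      (.leaf [1,0,0,-1,0,0] (1) (.E 18))
      (.node
       (.neg [2,1,0,-1,-1,-1,0,1])
       (.node
        (.neg [7,4,0,-4,-4,-4,0,4,1])
        (.neg [5,3,0,-3,-3,-3,0,3,1])
        (.neg [3,2,0,-2,-2,-2,0,2,1])
        (.leaf [1,1,0,-1,-1,-1,0,1] (1) (.E 30))
        (.leaf [-1,0,0,0,0,0,0,0] (1) (.E 2)))
       (.leaf [-1,-1,-1,0,0,1,1] (1) (.E 15))
       (.neg [-5,-4,-3,1,1,4,3,2])
       (.neg [-4,-3,-2,1,1,3,2,1]))
      (.neg [-5,-4,-2,1,2,4,3])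
      (.neg [-3,-2,-1,1,1,2,1]))
     (.neg [-6,-3,-2,3,2,4]))
    (.leaf [-1,-1,0,1] (1) (.E 0))
    (.neg [-4,-3,0,3,2])
    (.neg [-3,-2,0,2,1]))
   (.neg [-5,-2,1,4]))
  (.node
   (.leaf [1,0,0] (1) (.A 3 (-1)))
   (.node
    (.neg [11,4,-4,4,5])
    (.neg [7,3,-3,3,5])
    (.node
     (.neg [9,6,-2,2,7,4])
     (.leaf [1,1,0,0,1] (1) (.D 4 (-1)))
     (.node
      (.neg [7,1,-2,5,2,-1,3])
      (.leaf [1,0,0,1,0,0] (1) (.E 4))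
      (.node
       (.neg [4,1,-3,2,3,-2,-1,1])
       (.neg [5,1,-4,3,4,-3,-1,2])
       (.leaf [1,0,-1,1,1,-1,0] (1) (.E 8))
       (.node
        (.neg [3,1,-2,0,2,0,-2,-1,1])
        (.leaf [1,0,-1,0,1,0,-1,0] (1) (.E 23))
        (.leaf [-1,-1,0,0,0,0,0,1] (1) (.E 14))
        (.neg [-3,-2,1,0,-1,0,1,2,1])
        (.neg [-5,-3,2,0,-2,0,2,3,1]))
       (.neg [-2,-1,1,0,-1,0,1,1]))
      (.neg [-5,-2,4,-1,-4,2,3])
      (.neg [-3,-1,2,-1,-2,1,1]))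
     (.neg [-3,0,2,-2,-1,2])
     (.neg [-11,-2,6,-6,-5,4]))
    (.node
     (.leaf [1,0,0,0,0] (1) (.D 5 (-1)))
     (.node
      (.neg [17,4,-4,4,-4,4,7])
      (.neg [11,3,-3,3,-3,3,7])
      (.node
       (.neg [11,6,-2,2,-2,2,9,4])
       (.leaf [1,1,0,0,0,0,1] (1) (.D 6 (-1)))
       (.node
        (.neg [9,-3,-4,5,-5,5,4,-7,1])
        (.neg [5,-2,-2,3,-3,3,2,-4,1])
        (.leaf [1,-1,0,1,-1,1,0,-1] (1) (.E 16))
        (.neg [-3,0,2,-1,1,-1,-2,2,1])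
        (.neg [-7,1,4,-3,3,-3,-4,5,1]))
       (.neg [-5,0,2,-2,2,-2,-3,2])
       (.neg [-17,-2,6,-6,6,-6,-11,4]))
      (.node
       (.leaf [1,0,0,0,0,0,0] (1) (.D 7 (-1)))
       (.node
        (.neg [23,4,-4,4,-4,4,-4,4,9])
        (.neg [5,1,-1,1,-1,1,-1,1,3])
        (.node
         (.neg [13,6,-2,2,-2,2,-2,2,11,4])
         (.leaf [1,1,0,0,0,0,0,0,1] (1) (.D 8 (-1)))
         (.neg [-5,2,2,-2,2,-2,2,-2,-3,4])
         (.neg [-7,0,2,-2,2,-2,2,-2,-5,2])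
         (.neg [-23,-2,6,-6,6,-6,6,-6,-17,4]))
        .fam
        (.leaf [-1,0,0,0,0,0,0,0] (1) (.D 8 (1))))
       (.node
        (.neg [10,1,-3,3,-3,3,-3,-7,2])
        (.neg [3,0,-1,1,-1,1,-1,-2,1])
        (.node
         (.neg [4,-2,-2,2,-2,2,-2,-2,4,3])
         (.neg [4,-2,-2,2,-2,2,-2,-2,4,1])
         (.neg [-4,2,2,-2,2,-2,2,2,-4,1])
         (.neg [-4,2,2,-2,2,-2,2,2,-4,3])
         (.neg [-4,2,2,-2,2,-2,2,2,-4,5]))
        (.leaf [-1,-1,0,0,0,0,0,1] (1) (.D 7 (1)))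
        (.neg [-6,-3,1,-1,1,-1,1,5,2]))
       (.neg [-13,-3,3,-3,3,-3,3,8])
       (.neg [-5,-1,1,-1,1,-1,1,2]))
      (.leaf [-1,0,0,0,0,0] (1) (.D 6 (1))))
     (.node
      (.neg [7,1,-3,3,-3,-4,2])
      (.neg [2,0,-1,1,-1,-1,1])
      (.node
       (.neg [8,1,-5,3,-3,-5,4,2])
       (.neg [4,1,-3,1,-1,-3,2,2])
       (.node
        (.neg [3,0,-1,1,-2,-1,1,0,1])
        (.leaf [1,0,0,0,-1,0,0,0] (1) (.E 27))
        (.leaf [-1,0,1,-1,0,1,-1,0] (1) (.E 19))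
        (.neg [-3,0,2,-2,1,2,-2,0,1])
        (.neg [-5,0,3,-3,2,3,-3,0,1]))
       (.neg [-4,1,1,-3,3,1,-2,2])
       (.neg [-8,1,3,-5,5,3,-4,2]))
      (.leaf [-1,-1,0,0,0,1] (1) (.D 5 (1)))
      (.neg [-5,-3,1,-1,1,4,2]))
     (.neg [-3,-1,1,-1,1,2])
     (.neg [-7,-2,2,-2,2,3]))
    (.leaf [-1,0,0,0] (1) (.D 4 (1))))
   (.node
    (.neg [4,1,-3,-1,2])
    (.leaf [1,0,-1,0] (1) (.E 9))
    (.node
     (.neg [10,5,-7,-7,2,4])
     (.neg [6,3,-5,-5,2,4])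
     (.node
      (.neg [3,2,-2,-3,0,2,1])
      (.neg [5,4,-3,-6,-1,4,3])
      (.node
       (.neg [5,4,-2,-5,-2,2,3,2])
       (.leaf [1,1,0,-1,-1,0,1] (1) (.E 20))
       (.node
        (.neg [3,1,-3,-2,2,2,-1,-1,1])
        (.leaf [1,0,-1,0,1,0,-1,0] (1) (.E 24))
        (.leaf [-1,-1,1,2,0,-2,-1,1] (1) (.E 10))
        (.neg [-3,-2,3,4,-1,-4,-1,2,1])
        (.neg [-5,-3,5,6,-2,-6,-1,3,1]))
       (.neg [-2,-1,2,2,-1,-2,0,1])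
       (.neg [-7,-4,6,7,-2,-6,-1,2]))
      (.leaf [-1,0,1,0,-1,0] (1) (.E 3))
      (.neg [-7,-2,6,3,-4,-2,3]))
     (.node
      (.neg [5,1,-2,-2,-2,-1,3])
      (.node
       (.neg [5,2,-2,-2,-2,-2,2,1])
       (.neg [7,3,-3,-3,-3,-3,3,2])
       (.neg [2,1,-1,-1,-1,-1,1,1])
       (.node
        (.neg [3,2,-1,-2,-2,-2,1,2,1])
        (.leaf [1,1,0,-1,-1,-1,0,1] (1) (.E 31))
        (.leaf [-1,0,1,0,0,0,-1,0] (1) (.E 11))
        (.neg [-3,-1,2,1,1,1,-2,-1,1])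
        (.neg [-5,-2,3,2,2,2,-3,-2,1]))
       (.leaf [-1,0,0,0,0,0,0] (1) (.E 1)))
      (.leaf [-1,-1,0,0,0,1] (1) (.E 5))
      (.neg [-7,-5,1,1,1,5,3])
      (.neg [-11,-7,2,2,2,7,3]))
     (.neg [-6,-3,1,1,2,4]))
    (.leaf [-1,-1,0,1] (1) (.D 3 (1)))
    (.neg [-4,-3,1,3,2]))
   (.neg [-5,-3,3,4])
   (.neg [-2,-1,1,1]))
  (.leaf [-1,0] (1) (.D 2 (1))))

theorem theTree_chk : chk theTree [2, -1] = true := by
  decide +kernel

end Pool.Agent.EEAG1
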