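import Pool.Agent.W_eea520_h99.T0

/-!
# Sequences which begin with `2, -1, 0, …, 0` (MP_eea520_nt, theorem G)
-/

set_option autoImplicit false

namespace Pool.Agent.EEAG1

open Filter Topology
open scoped InnerProductSpace

variable {H : Type*} [NormedAddCommGroup H] [InnerProductSpace ℝ H]

theorem T2_inner {T : H ≃ₗᵢ[ℝ] H} {v : H} {c : ℤ → ℤ} (hc : ∀ k, ⟪(T ^ k) v, v⟫_ℝ = c k)
    (i j : ℤ) : ⟪(T ^ i) v, (T ^ j) v⟫_ℝ = c (i - j) := by
  rw [inner_zpow, hc]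

theorem T2_even {T : H ≃ₗᵢ[ℝ] H} {v : H} {c : ℤ → ℤ} (hc : ∀ k, ⟪(T ^ k) v, v⟫_ℝ = c k)
    (k : ℤ) : c (-k) = c k := by
  have h : (c (-k) : ℝ) = c k := by
    rw [← hc, inner_zpow_left, neg_neg, real_inner_comm, hc]
  exact_mod_cast h

theorem T2_neg_one_pow (q : ℤ) : (-1 : ℤ) ^ (q + 1).natAbs = -1 * (-1) ^ q.natAbs := by
  rcases Int.even_or_odd q with h | h
  · have h1 : Odd (q + 1) := h.add_one
    rw [(Int.natAbs_even.2 h).neg_one_pow, (Int.natAbs_odd.2 h1).neg_one_pow]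
    norm_num
  · have h1 : Even (q + 1) := h.add_one
    rw [(Int.natAbs_odd.2 h).neg_one_pow, (Int.natAbs_even.2 h1).neg_one_pow]
    norm_num

theorem T2_comb_add (N : ℕ) (hN : 1 ≤ N) (η : ℤ) (hη : η = 1 ∨ η = -1) (k : ℤ) :
    comb N η (k + N) = η * comb N η k := by
  have hN0 : (N : ℤ) ≠ 0 := by
    have : (1 : ℤ) ≤ N := by exact_mod_cast hN
    omega
  unfold comb
  by_cases h : (N : ℤ) ∣ k
  · rw [if_pos h, if_pos (h.add (dvd_refl _))]
    obtain ⟨q, rfl⟩ := h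
    have h1 : ((N : ℤ) * q + N) / N = q + 1 := by
      rw [show (N : ℤ) * q + N = N * (q + 1) by ring]
      exact Int.mul_ediv_cancel_left _ hN0
    have h2 : ((N : ℤ) * q) / N = q := Int.mul_ediv_cancel_left _ hN0
    rw [h1, h2]
    rcases hη with rfl | rfl
    · rw [one_pow, one_pow, mul_one]
    · exact T2_neg_one_pow q
  · rw [if_neg h, if_neg, mul_zero]
    intro h'
    exact h ((Int.dvd_add_left (dvd_refl _)).1 h')

theorem T2_comb_zero (N : ℕ) (η : ℤ) : comb N η 0 = 1 := by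
  unfold comb
  rw [if_pos (dvd_zero _)]
  simp

theorem T2_comb_mid (N : ℕ) (η : ℤ) (k : ℤ) (h0 : 0 < k) (h1 : k < N) : comb N η k = 0 := by
  unfold comb
  rw [if_neg]
  intro h
  have := Int.le_of_dvd h0 h
  omega

theorem T2_comb_neg (N : ℕ) (η : ℤ) (hN : 2 ≤ N) : comb N η (-1) = 0 := by
  unfold comb
  rw [if_neg]
  intro h
  have h2 : (N : ℤ) ∣ 1 := (Int.dvd_neg).1 h
  have := Int.le_of_dvd (by norm_num) h2
  omega

theorem T2_periodic {N : ℕ} {η : ℤ} (hη : η = 1 ∨ η = -1) (hN : 1 ≤ N) {D : ℤ → ℤ}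
    (hD : ∀ k, D (k + N) = η * D k) (h0 : ∀ k : ℤ, 0 ≤ k → k < N → D k = 0) (k : ℤ) : D k = 0 := by
  have hNpos : (0 : ℤ) < N := by exact_mod_cast hN
  have hper : Function.Periodic (fun k => D k = 0) (N : ℤ) := by
    intro k
    apply propext
    show D (k + N) = 0 ↔ D k = 0
    rw [hD]
    rcases hη with rfl | rfl <;> simp
  have h1 := hper.sub_zsmul_eq (x := k) (k / N)
  have h2 : k - (k / N) • (N : ℤ) = k % N := by
    rw [smul_eq_mul, Int.emod_def, mul_comm]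
  rw [h2] at h1
  have h3 : D (k % N) = 0 := h0 _ (Int.emod_nonneg _ hNpos.ne') (Int.emod_lt_of_pos _ hNpos)
  have h4 : (D (k % N) = 0) = (D k = 0) := h1
  rwa [h4] at h3

theorem T2_famA {N : ℕ} {η : ℤ} (hη : η = 1 ∨ η = -1) (hN : 3 ≤ N) {c : ℤ → ℤ}
    (hc : ∀ k, c (k + N) = η * c k) (h0 : c 0 = 2) (h1 : c 1 = -1)
    (h2 : ∀ k : ℤ, 2 ≤ k → k ≤ N - 2 → c k = 0) (h3 : c (N - 1) = -η) (k : ℤ) :
    c k = famA N η k := by
  have hN1 : 1 ≤ N := by omega
  have hcN : comb N η N = η := by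
    have h := T2_comb_add N hN1 η hη 0
    rw [zero_add, T2_comb_zero, mul_one] at h
    exact h
  have hz : c k - famA N η k = 0 := by
    refine T2_periodic (D := fun k => c k - famA N η k) hη hN1 ?_ ?_ k
    · intro k
      show c (k + N) - famA N η (k + N) = η * (c k - famA N η k)
      unfold famA
      rw [hc, T2_comb_add N hN1 η hη k, show k + (N : ℤ) - 1 = (k - 1) + N by ring,
        show k + (N : ℤ) + 1 = (k + 1) + N by ring, T2_comb_add N hN1 η hη (k - 1),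
        T2_comb_add N hN1 η hη (k + 1)]
      ring
    · intro k hk0 hkN
      show c k - famA N η k = 0
      unfold famA
      rcases eq_or_lt_of_le hk0 with h | h
      · rw [← h, h0, T2_comb_zero, zero_sub, T2_comb_neg N η (by omega), zero_add,
          T2_comb_mid N η 1 (by norm_num) (by omega)]
        norm_num
      rcases eq_or_lt_of_le (Int.add_one_le_iff.2 h) with h' | h'
      · rw [zero_add] at h'
        rw [← h', h1, T2_comb_mid N η 1 (by norm_num) (by omega), sub_self, T2_comb_zero,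
          T2_comb_mid N η (1 + 1) (by norm_num) (by omega)]
        norm_num
      rcases eq_or_lt_of_le (Int.add_one_le_iff.2 hkN) with h'' | h''
      · have hk : k = N - 1 := by omega
        rw [hk, h3, T2_comb_mid N η (N - 1) (by omega) (by omega),
          T2_comb_mid N η (N - 1 - 1) (by omega) (by omega), sub_add_cancel, hcN]
        ring
      · rw [h2 k (by omega) (by omega), T2_comb_mid N η k (by omega) (by omega),
          T2_comb_mid N η (k - 1) (by omega) (by omega),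
          T2_comb_mid N η (k + 1) (by omega) (by omega)]
        norm_num
  linarith

/-- a sum with at most three nonzero terms -/
theorem T2_three (f : ℕ → ℝ) (n a b d : ℕ) (ha : a < n) (hb : b < n) (hd : d < n) (hab : a ≠ b)
    (had : a ≠ d) (hbd : b ≠ d) (hz : ∀ i, i < n → i ≠ a → i ≠ b → i ≠ d → f i = 0) :
    ∑ i ∈ Finset.range n, f i = f a + f b + f d := by
  have hsub : ({a, b, d} : Finset ℕ) ⊆ Finset.range n := by
    intro i hi
    rw [Finset.mem_insert, Finset.mem_insert, Finset.mem_singleton] at hi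
    rw [Finset.mem_range]
    rcases hi with rfl | rfl | rfl <;> assumption
  rw [← Finset.sum_subset hsub (fun i hi hi' => ?_)]
  · rw [Finset.sum_insert, Finset.sum_insert, Finset.sum_singleton]
    · ring
    · rw [Finset.mem_singleton]
      exact hbd
    · rw [Finset.mem_insert, Finset.mem_singleton, not_or]
      exact ⟨hab, had⟩
  · rw [Finset.mem_insert, Finset.mem_insert, Finset.mem_singleton, not_or, not_or] at hi'
    exact hz i (Finset.mem_range.1 hi) hi'.1 hi'.2.1 hi'.2.2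

/-- `⟪∑_{i<n} T^i v, T^n v⟫` for `1 ≤ n ≤ K` -/
theorem T2_SK {T : H ≃ₗᵢ[ℝ] H} {v : H} {c : ℤ → ℤ} (hc : ∀ k, ⟪(T ^ k) v, v⟫_ℝ = c k)
    (h1 : c 1 = -1) {K : ℕ} (hK : ∀ k : ℤ, 2 ≤ k → k < K → c k = 0) (n : ℕ) (hn : 1 ≤ n)
    (hnK : n ≤ K) (hK2 : 2 ≤ K) :
    ⟪∑ i ∈ Finset.range n, (T ^ (i : ℤ)) v, (T ^ (n : ℤ)) v⟫_ℝ =
      -1 + if n = K then (c K : ℝ) else 0 := by
  obtain ⟨m, rfl⟩ : ∃ m, n = m + 1 := ⟨n - 1, by omega⟩
  rw [sum_inner]
  have hterm : ∀ i ∈ Finset.range (m + 1), ⟪(T ^ (i : ℤ)) v, (T ^ ((m + 1 : ℕ) : ℤ)) v⟫_ℝ =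
      c ((m : ℤ) + 1 - i) := by
    intro i _
    rw [T2_inner hc, ← T2_even hc]
    congr 2
    push_cast
    ring
  rw [Finset.sum_congr rfl hterm, Finset.sum_range_succ]
  have hlast : (c ((m : ℤ) + 1 - (m : ℕ)) : ℝ) = -1 := by
    rw [show (m : ℤ) + 1 - (m : ℕ) = 1 by ring, h1]
    norm_num
  rw [hlast, add_comm]
  congr 1
  by_cases h : m + 1 = K
  · rw [if_pos h]
    rw [Finset.sum_eq_single 0]
    · congr 2
      push_cast [← h]
      ring
    · intro i hi hi0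
      rw [Finset.mem_range] at hi
      rw [hK _ (by omega) (by omega), Int.cast_zero]
    · intro hm
      rw [Finset.mem_range] at hm
      omega
  · rw [if_neg h]
    refine Finset.sum_eq_zero fun i hi => ?_
    rw [Finset.mem_range] at hi
    rw [hK _ (by omega) (by omega), Int.cast_zero]

theorem T2_norm {T : H ≃ₗᵢ[ℝ] H} {v : H} {c : ℤ → ℤ} (hc : ∀ k, ⟪(T ^ k) v, v⟫_ℝ = c k)
    (h0 : c 0 = 2) (i : ℤ) : ‖(T ^ i) v‖ ^ 2 = 2 := by
  rw [← real_inner_self_eq_norm_sq, T2_inner hc, sub_self, h0]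
  norm_num

/-- `‖∑_{i<n} T^i v‖² = 2` for `1 ≤ n ≤ K` -/
theorem T2_Snorm {T : H ≃ₗᵢ[ℝ] H} {v : H} {c : ℤ → ℤ} (hc : ∀ k, ⟪(T ^ k) v, v⟫_ℝ = c k)
    (h0 : c 0 = 2) (h1 : c 1 = -1) {K : ℕ} (hK : ∀ k : ℤ, 2 ≤ k → k < K → c k = 0)
    (hK2 : 2 ≤ K) (n : ℕ) (hn : n + 1 ≤ K) :
    ‖∑ i ∈ Finset.range (n + 1), (T ^ (i : ℤ)) v‖ ^ 2 = 2 := by
  induction n with
  | zero =>
    rw [Finset.sum_range_one]
    exact T2_norm hc h0 _
  | succ n ih =>
    rw [Finset.sum_range_succ, norm_add_sq_real, ih (by omega), T2_norm hc h0,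
      T2_SK hc h1 hK (n + 1) (by omega) (by omega) hK2, if_neg (by omega)]
    norm_num

/-- the vector with growing coefficients -/
theorem T2_key {T : H ≃ₗᵢ[ℝ] H} {v : H} {c : ℤ → ℤ} (hc : ∀ k, ⟪(T ^ k) v, v⟫_ℝ = c k)
    (h0 : c 0 = 2) (h1 : c 1 = -1) {K : ℕ} (hK : ∀ k : ℤ, 2 ≤ k → k < K → c k = 0)
    (hK9 : 9 ≤ K) (hcK : c K = 1) : (T ^ ((K : ℤ) + 1)) v = -v := by
  set a : ℕ → ℝ := fun i => (K : ℝ) + 1 - 2 * i with ha
  set G : H := ∑ i ∈ Finset.range (K + 1), a i • (T ^ (i : ℤ)) v with hG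
  set u : H := (T ^ ((K : ℤ) + 1)) v + v with hu
  have hneg : ∀ k : ℤ, k ≤ -2 → -(K : ℤ) < k → c k = 0 := by
    intro k hk hk2
    rw [← neg_neg k, T2_even hc]
    exact hK _ (by omega) (by omega)
  have hm1 : c (-1) = -1 := by rw [T2_even hc, h1]
  have hmK : c (-(K : ℤ)) = 1 := by rw [T2_even hc, hcK]
  have hGin : ∀ z : H, ⟪G, z⟫_ℝ = ∑ i ∈ Finset.range (K + 1), a i * ⟪(T ^ (i : ℤ)) v, z⟫_ℝ := by
    intro z
    rw [hG, sum_inner]
    refine Finset.sum_congr rfl fun i _ => ?_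
    rw [inner_smul_left]
    rfl
  -- the rows
  have hrow : ∀ j : ℕ, j < K + 1 → ⟪G, (T ^ (j : ℤ)) v⟫_ℝ = if j = 0 then 4 else 0 := by
    intro j hj
    rw [hGin]
    have hterm : ∀ i ∈ Finset.range (K + 1), a i * ⟪(T ^ (i : ℤ)) v, (T ^ (j : ℤ)) v⟫_ℝ =
        a i * (c ((i : ℤ) - j) : ℝ) := fun i _ => by rw [T2_inner hc]
    rw [Finset.sum_congr rfl hterm]
    rcases Nat.eq_zero_or_pos j with hj0 | hj0
    · subst hj0
      rw [if_pos rfl, T2_three _ (K + 1) 0 1 K (by omega) (by omega) (by omega) (by omega)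
        (by omega) (by omega)]
      · simp only [ha, Nat.cast_zero, sub_zero, h0, Nat.cast_one, h1, hcK]
        push_cast
        ring
      · intro i hi hi0 hi1 hiK
        rw [hK _ (by omega) (by omega), Int.cast_zero, mul_zero]
    · rw [if_neg (by omega)]
      obtain ⟨m, rfl⟩ : ∃ m, j = m + 1 := ⟨j - 1, by omega⟩
      rcases Nat.lt_or_ge (m + 1) K with hlt | hge
      · rw [T2_three _ (K + 1) m (m + 1) (m + 2) (by omega) (by omega) (by omega) (by omega)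
          (by omega) (by omega)]
        · have e1 : ((m : ℕ) : ℤ) - ((m + 1 : ℕ) : ℤ) = -1 := by push_cast; ring
          have e2 : ((m + 2 : ℕ) : ℤ) - ((m + 1 : ℕ) : ℤ) = 1 := by push_cast; ring
          rw [e1, e2, sub_self, h0, h1, hm1]
          simp only [ha]
          push_cast
          ring
        · intro i hi hi0 hi1 hi2
          have : c ((i : ℤ) - ((m + 1 : ℕ) : ℤ)) = 0 := by
            rcases Nat.lt_or_ge i (m + 1) with h | h
            · exact hneg _ (by omega) (by omega)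
            · exact hK _ (by omega) (by omega)
          rw [this, Int.cast_zero, mul_zero]
      · have hmK' : m + 1 = K := by omega
        rw [T2_three _ (K + 1) 0 m (m + 1) (by omega) (by omega) (by omega) (by omega)
          (by omega) (by omega)]
        · have e1 : ((m : ℕ) : ℤ) - ((m + 1 : ℕ) : ℤ) = -1 := by push_cast; ring
          have e2 : ((0 : ℕ) : ℤ) - ((m + 1 : ℕ) : ℤ) = -(K : ℤ) := by rw [hmK']; push_cast; ring
          rw [e1, e2, sub_self, h0, hm1, hmK]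
          have hKm : (K : ℝ) = m + 1 := by rw [← hmK']; push_cast; ring
          simp only [ha, hKm]
          push_cast
          ring
        · intro i hi hi0 hi1 hi2
          have : c ((i : ℤ) - ((m + 1 : ℕ) : ℤ)) = 0 := hneg _ (by omega) (by omega)
          rw [this, Int.cast_zero, mul_zero]
  have hGG : ‖G‖ ^ 2 = 4 * ((K : ℝ) + 1) := by
    rw [← real_inner_self_eq_norm_sq]
    conv_lhs => rw [hGin]
    rw [Finset.sum_eq_single 0]
    · rw [real_inner_comm, hrow 0 (by omega), if_pos rfl]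
      simp only [ha]
      push_cast
      ring
    · intro j hj hj0
      rw [real_inner_comm, hrow j (Finset.mem_range.1 hj), if_neg hj0, mul_zero]
    · intro h
      exact absurd (Finset.mem_range.2 (by omega)) h
  have huj : ∀ j : ℕ, ⟪(T ^ (j : ℤ)) v, u⟫_ℝ = (c ((K : ℤ) + 1 - j) : ℝ) + c j := by
    intro j
    rw [hu, inner_add_right, hc, real_inner_comm, T2_inner hc]
  have huG : ⟪G, u⟫_ℝ = ((K : ℝ) + 1) * ((c ((K : ℤ) + 1) : ℝ) + 2) := by
    rw [hGin, Finset.sum_eq_single 0]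
    · rw [huj]
      simp only [ha, Nat.cast_zero, sub_zero, h0]
      push_cast
      ring
    · intro j hj hj0
      rw [Finset.mem_range] at hj
      rw [huj]
      have : c ((K : ℤ) + 1 - j) + c j = 0 := by
        rcases Nat.lt_or_ge 1 j with h | h
        · rcases Nat.lt_or_ge j K with h' | h'
          · rw [hK _ (by omega) (by omega), hK _ (by omega) (by omega)]
            norm_num
          · have : j = K := by omega
            rw [this, show (K : ℤ) + 1 - K = 1 by ring, h1, hcK]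
            norm_num
        · have : j = 1 := by omega
          rw [this, Nat.cast_one, show (K : ℤ) + 1 - 1 = K by ring, h1, hcK]
          norm_num
      have h' : (c ((K : ℤ) + 1 - j) : ℝ) + c j = 0 := by exact_mod_cast this
      rw [h', mul_zero]
    · intro h
      exact absurd (Finset.mem_range.2 (by omega)) h
  have huu : ‖u‖ ^ 2 = 4 + 2 * (c ((K : ℤ) + 1) : ℝ) := by
    have hv : ‖v‖ ^ 2 = 2 := by
      have := T2_norm hc h0 0
      rwa [zpow_zero_apply] at this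
    rw [hu, norm_add_sq_real, T2_norm hc h0, hc, hv]
    ring
  have hcs : ⟪G, u⟫_ℝ ^ 2 ≤ ‖G‖ ^ 2 * ‖u‖ ^ 2 := by
    have h := abs_real_inner_le_norm G u
    have h2 := pow_le_pow_left₀ (abs_nonneg _) h 2
    rwa [sq_abs, mul_pow] at h2
  rw [huG, hGG, huu] at hcs
  have hpos : 0 ≤ 4 + 2 * (c ((K : ℤ) + 1) : ℝ) := by
    rw [← huu]
    positivity
  have hx : c ((K : ℤ) + 1) = -2 := by
    generalize c ((K : ℤ) + 1) = x at hcs hpos
    have hx0 : (0 : ℝ) ≤ ((x + 2 : ℤ) : ℝ) := by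
      push_cast
      linarith
    have hx0' : 0 ≤ x + 2 := by exact_mod_cast hx0
    by_contra hne
    have hx1 : 1 ≤ x + 2 := by omega
    have hx1' : (1 : ℝ) ≤ (x : ℝ) + 2 := by exact_mod_cast hx1
    have hK10 : (10 : ℝ) ≤ (K : ℝ) + 1 := by
      have : (9 : ℝ) ≤ K := by exact_mod_cast hK9
      linarith
    generalize (K : ℝ) + 1 = q at hcs hK10
    obtain ⟨t, ht⟩ : ∃ t : ℝ, t = (x : ℝ) + 2 := ⟨_, rfl⟩
    rw [← ht] at hx1' hcs
    have e : 4 + 2 * (x : ℝ) = 2 * t := by rw [ht]; ring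
    rw [e] at hcs
    have h5 : (q * t) * (q * t) ≤ 8 * (q * t) := by
      calc (q * t) * (q * t) = (q * t) ^ 2 := by ring
        _ ≤ 4 * q * (2 * t) := hcs
        _ = 8 * (q * t) := by ring
    have h6 : 10 ≤ q * t := by
      calc (10 : ℝ) = 10 * 1 := by norm_num
        _ ≤ q * t := mul_le_mul hK10 hx1' (by norm_num) (by linarith)
    have h7 : 0 < q * t := by linarith
    have h8 := le_of_mul_le_mul_right h5 h7
    linarith
  rw [hx] at huu
  have h9 : u = 0 := by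
    have : ‖u‖ ^ 2 = 0 := by
      rw [huu]
      norm_num
    rwa [sq_eq_zero_iff, norm_eq_zero] at this
  rw [hu] at h9
  exact eq_neg_of_add_eq_zero_left h9

/-- Write `v_j = T^j v`, so `⟪v_i, v_j⟫ = c (i - j)` and `c` is even. Suppose not all `c k`, `k ≥ 2`, are `0`; let
`K ≥ 9` be the first `k ≥ 2` with `c k ≠ 0`. Let `S = ∑_{j<K} v_j`; `‖S‖² = 2 K - 2 (K - 1) = 2`.
(a) `‖S + v_K‖² = 2 + 2 c_K ≥ 0`, so `c_K ≥ -1`. If `c_K = -1` then `∑_{j ≤ K} v_j = 0`; apply `T` and subtract: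
`v_{K+1} = v_0`, so `c` has period `N = K + 1`, and `c = famA (K+1) 1`.
(b) `c_K ≤ 2`; `c_K = 2` gives `v_K = v_0` (equality in Cauchy-Schwarz, `‖v_K - v_0‖² = 0`), so
`c_(K-1) = ⟪v_(K-1), v_0⟫ = ⟪v_(K-1), v_K⟫ = c_1 = -1`, but `c_(K-1) = 0`.
(c) `c_K = 1`: put `e_0 = (v_K + S) / 2`, `e_j = e_0 - ∑_{i<j} v_i` for `0 ≤ j ≤ K`. Then `⟪e_0, v_i⟫ = 1` for `i = 0`
and `0` for `0 < i < K`, and the `e_j` are orthonormal; `v_j = e_j - e_(j+1)` (`j < K`), `v_K = e_0 + e_K`.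
Let `y = v_(K+1)`, `y_j = ⟪y, e_j⟫`. `2 y_0` and all `y_i - y_j` are integers. If `2 y_0` is odd then all
`|y_j| ≥ 1/2` and Bessel gives `(K + 1) / 4 ≤ ‖y‖² = 2`, contradiction to `K ≥ 8`. So all `y_j` are integers.
`⟪y, v_i⟫ = c (K + 1 - i)`: `y_i = y_(i+1)` for `2 ≤ i < K`, so `y_2 = … = y_K = a`, and `(K - 1) a² ≤ 2` gives
`a = 0`; `y_0 + y_K = c_1 = -1` gives `y_0 = -1`; `y_1 - y_2 = c_K = 1` gives `y_1 = 1`; so
`c_(K+1) = ⟪y, v_0⟫ = y_0 - y_1 = -2`, and `v_(K+1) = -v_0` (`‖v_(K+1) + v_0‖² = 0`). So `c (k + K + 1) = - c k`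
and `c = famA (K+1) (-1)`. -/
theorem fam_zero {T : H ≃ₗᵢ[ℝ] H} {v : H} {c : ℤ → ℤ} (hc : ∀ k, ⟪(T ^ k) v, v⟫_ℝ = c k)
    (h0 : c 0 = 2) (h1 : c 1 = -1) (h2 : ∀ k : ℤ, 2 ≤ k → k ≤ 8 → c k = 0) :
    (∀ k : ℤ, 2 ≤ k → c k = 0) ∨
      ∃ (N : ℕ) (η : ℤ), 3 ≤ N ∧ (η = 1 ∨ η = -1) ∧ ∀ k, c k = famA N η k := by
  classical
  by_cases hall : ∀ k : ℤ, 2 ≤ k → c k = 0
  · exact Or.inl hall
  right
  have hex : ∃ n : ℕ, 2 ≤ n ∧ c n ≠ 0 := by
    push Not at hall
    obtain ⟨k, hk, hk0⟩ := hall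
    refine ⟨k.toNat, by omega, ?_⟩
    rwa [Int.toNat_of_nonneg (by omega)]
  obtain ⟨K, hKdef⟩ : ∃ K : ℕ, K = Nat.find hex := ⟨_, rfl⟩
  obtain ⟨hK2, hcK0⟩ := Nat.find_spec hex
  rw [← hKdef] at hK2 hcK0
  have hK : ∀ k : ℤ, 2 ≤ k → k < K → c k = 0 := by
    intro k hk hkK
    by_contra hne
    have h3 : k.toNat < Nat.find hex := by
      rw [← hKdef]
      omega
    refine Nat.find_min hex h3 ⟨by omega, ?_⟩
    rwa [Int.toNat_of_nonneg (by omega)]
  have hK9 : 9 ≤ K := by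
    by_contra hlt
    exact hcK0 (h2 K (by exact_mod_cast hK2) (by omega))
  have hv : ‖v‖ ^ 2 = 2 := by
    have := T2_norm hc h0 0
    rwa [zpow_zero_apply] at this
  -- the bounds for `c K`
  have hSK : ‖∑ i ∈ Finset.range K, (T ^ (i : ℤ)) v‖ ^ 2 = 2 := by
    obtain ⟨m, rfl⟩ : ∃ m, K = m + 1 := ⟨K - 1, by omega⟩
    exact T2_Snorm hc h0 h1 hK hK2 m le_rfl
  have hS1 : ‖∑ i ∈ Finset.range (K + 1), (T ^ (i : ℤ)) v‖ ^ 2 = 2 + 2 * (c K : ℝ) := by
    rw [Finset.sum_range_succ, norm_add_sq_real, hSK, T2_norm hc h0,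
      T2_SK hc h1 hK K (by omega) le_rfl hK2, if_pos rfl]
    ring
  have hlow : -1 ≤ c K := by
    have h3 : 0 ≤ 2 + 2 * (c K : ℝ) := by
      rw [← hS1]
      positivity
    have h4 : (-1 : ℝ) ≤ c K := by linarith
    exact_mod_cast h4
  have hdiff : ‖(T ^ (K : ℤ)) v - v‖ ^ 2 = 4 - 2 * (c K : ℝ) := by
    rw [norm_sub_sq_real, T2_norm hc h0, hc, hv]
    ring
  have hup : c K ≤ 2 := by
    have h3 : 0 ≤ 4 - 2 * (c K : ℝ) := by
      rw [← hdiff]
      positivity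
    have h4 : (c K : ℝ) ≤ 2 := by linarith
    exact_mod_cast h4
  have hne2 : c K ≠ 2 := by
    intro h3
    rw [h3] at hdiff
    have h4 : (T ^ (K : ℤ)) v - v = 0 := by
      have : ‖(T ^ (K : ℤ)) v - v‖ ^ 2 = 0 := by
        rw [hdiff]
        norm_num
      rwa [sq_eq_zero_iff, norm_eq_zero] at this
    rw [sub_eq_zero] at h4
    have h5 : (c ((K : ℤ) - 1) : ℝ) = c (-1) := by
      rw [← hc, ← hc, show (K : ℤ) - 1 = -1 + K by ring, zpow_add_apply, h4]
    have h6 : c ((K : ℤ) - 1) = c (-1) := by exact_mod_cast h5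
    rw [hK _ (by omega) (by omega), T2_even hc, h1] at h6
    omega
  have hfin : ∀ η : ℤ, (η = 1 ∨ η = -1) → (T ^ ((K : ℤ) + 1)) v = (η : ℝ) • v →
      ∃ (N : ℕ) (η : ℤ), 3 ≤ N ∧ (η = 1 ∨ η = -1) ∧ ∀ k, c k = famA N η k := by
    intro η hη hT
    refine ⟨K + 1, η, by omega, hη, ?_⟩
    have hper : ∀ k, c (k + ((K + 1 : ℕ) : ℤ)) = η * c k := by
      intro k
      have h3 : (c (k + ((K + 1 : ℕ) : ℤ)) : ℝ) = η * c k := by
        rw [← hc, ← hc, zpow_add_apply]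
        push_cast
        rw [hT, map_smul, inner_smul_left]
        rfl
      exact_mod_cast h3
    refine T2_famA hη (by omega) hper h0 h1 (fun k hk hk2 => hK k hk (by push_cast at hk2; omega)) ?_
    have h3 := hper (-1)
    rw [T2_even hc, h1] at h3
    rw [show ((K + 1 : ℕ) : ℤ) - 1 = -1 + ((K + 1 : ℕ) : ℤ) by ring, h3]
    ring
  have hcases : c K = -1 ∨ c K = 1 := by omega
  rcases hcases with h3 | h3
  · -- `c K = -1`
    refine hfin 1 (Or.inl rfl) ?_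
    rw [h3] at hS1
    have h4 : ∑ i ∈ Finset.range (K + 1), (T ^ (i : ℤ)) v = 0 := by
      have : ‖∑ i ∈ Finset.range (K + 1), (T ^ (i : ℤ)) v‖ ^ 2 = 0 := by
        rw [hS1]
        norm_num
      rwa [sq_eq_zero_iff, norm_eq_zero] at this
    have h5 : ∑ i ∈ Finset.range (K + 1), (T ^ ((i + 1 : ℕ) : ℤ)) v = 0 := by
      have h6 : (T ^ (1 : ℤ)) (∑ i ∈ Finset.range (K + 1), (T ^ (i : ℤ)) v) = 0 := by
        rw [h4, map_zero]
      rw [map_sum] at h6
      rw [← h6]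
      refine Finset.sum_congr rfl fun i _ => ?_
      rw [← zpow_add_apply]
      congr 2
      push_cast
      ring
    have h7 : ∑ i ∈ Finset.range (K + 1 + 1), (T ^ (i : ℤ)) v =
        ∑ i ∈ Finset.range (K + 1), (T ^ ((i + 1 : ℕ) : ℤ)) v + (T ^ ((0 : ℕ) : ℤ)) v :=
      Finset.sum_range_succ' _ _
    rw [Finset.sum_range_succ, h4, h5, zero_add, zero_add, Nat.cast_zero, zpow_zero_apply] at h7
    rw [Int.cast_one, one_smul, ← h7]
    congr 2
  · refine hfin (-1) (Or.inr rfl) ?_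
    rw [T2_key hc h0 h1 hK hK9 h3]
    push_cast
    rw [neg_smul, one_smul]

end Pool.Agent.EEAG1
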