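import Pool.Agent.W_eea520_h99.T0

/-!
# Sequences which begin with `2, -1, 1, -1, …` (MP_eea520_nt, theorem G)
-/

set_option autoImplicit false

namespace Pool.Agent.EEAG1

open Filter Topology
open scoped InnerProductSpace

variable {H : Type*} [NormedAddCommGroup H] [InnerProductSpace ℝ H]

theorem T3_comb {q : ℕ} (hq : 2 ≤ q) {η : ℤ} (hη : η = 1 ∨ η = -1) {f : ℤ → ℤ}
    (hf : ∀ k, f (k + q) = η * f k) (h0 : f 0 = 1) (h1 : ∀ k : ℤ, 1 ≤ k → k < q → f k = 0)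
    (k : ℤ) : f k = comb q η k := by
  have hη2 : η * η = 1 := by rcases hη with rfl | rfl <;> norm_num
  have hf' : ∀ k, f (k - q) = η * f k := by
    intro k
    have h := hf (k - q)
    rw [sub_add_cancel] at h
    rw [h, ← mul_assoc, hη2, one_mul]
  have hN : ∀ (n : ℕ) (r : ℤ), f (r + n * q) = η ^ n * f r := by
    intro n r
    induction n with
    | zero => simp
    | succ n ih =>
      rw [show r + ((n + 1 : ℕ) : ℤ) * q = (r + n * q) + q by push_cast; ring, hf, ih, pow_succ]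
      ring
  have hN' : ∀ (n : ℕ) (r : ℤ), f (r - n * q) = η ^ n * f r := by
    intro n r
    induction n with
    | zero => simp
    | succ n ih =>
      rw [show r - ((n + 1 : ℕ) : ℤ) * q = (r - n * q) - q by push_cast; ring, hf', ih, pow_succ]
      ring
  have hZ : ∀ (n r : ℤ), f (r + n * q) = η ^ n.natAbs * f r := by
    intro n r
    rcases n.eq_nat_or_neg with ⟨m, rfl | rfl⟩
    · rw [hN, Int.natAbs_natCast]
    · rw [Int.natAbs_neg, Int.natAbs_natCast, ← hN', neg_mul, sub_eq_add_neg]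
  have hk : k % (q : ℤ) + (k / q) * q = k := Int.emod_add_ediv_mul k q
  unfold comb
  split_ifs with hd
  · have h3 : k % (q : ℤ) = 0 := Int.emod_eq_zero_of_dvd hd
    conv_lhs => rw [← hk, h3, hZ, h0, mul_one]
  · have hr0 : 0 ≤ k % (q : ℤ) := Int.emod_nonneg _ (by omega)
    have hr1 : k % (q : ℤ) < q := Int.emod_lt_of_pos _ (by omega)
    have hr2 : k % (q : ℤ) ≠ 0 := fun h => hd (Int.dvd_of_emod_eq_zero h)
    conv_lhs => rw [← hk, hZ, h1 _ (by omega) hr1, mul_zero]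

theorem T3_main {T : H ≃ₗᵢ[ℝ] H} {v : H} {d : ℤ → ℤ} (hc : ∀ k, ⟪(T ^ k) v, v⟫_ℝ = d k)
    (h0 : d 0 = 2) (h2 : ∀ k : ℤ, 1 ≤ k → k ≤ 8 → d k = 1) :
    (∀ k : ℤ, 1 ≤ k → d k = 1) ∨
      ∃ (N : ℕ) (η : ℤ), 2 ≤ N ∧ (η = 1 ∨ η = -1) ∧ ∀ k, d k = 1 + comb N η k := by
  by_cases hall : ∀ k : ℤ, 1 ≤ k → d k = 1
  · exact Or.inl hall
  right
  have hex : ∃ n : ℕ, 1 ≤ n ∧ d n ≠ 1 := by
    push Not at hall
    obtain ⟨k, hk, hk'⟩ := hall
    lift k to ℕ using by omega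
    exact ⟨k, by omega, hk'⟩
  classical
  obtain ⟨q, hqdef⟩ : ∃ q, q = Nat.find hex := ⟨_, rfl⟩
  obtain ⟨hq1, hqd⟩ : 1 ≤ q ∧ d q ≠ 1 := by
    rw [hqdef]
    exact Nat.find_spec hex
  have hmin : ∀ k : ℤ, 1 ≤ k → k < q → d k = 1 := by
    intro k hk hkq
    lift k to ℕ using by omega
    by_contra h
    rw [hqdef] at hkq
    exact Nat.find_min hex (by exact_mod_cast hkq) ⟨by omega, h⟩
  have hq9 : 9 ≤ q := by
    by_contra hlt
    exact hqd (h2 q (by omega) (by omega))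
  obtain ⟨V, hVdef⟩ : ∃ V : ℤ → H, V = fun j : ℤ => (T ^ j) v := ⟨_, rfl⟩
  have hV : ∀ i j : ℤ, ⟪V i, V j⟫_ℝ = d (i - j) := by
    intro i j
    rw [hVdef]
    show ⟪(T ^ i) v, (T ^ j) v⟫_ℝ = d (i - j)
    rw [inner_zpow, hc]
  have hTV : ∀ i j : ℤ, (T ^ i) (V j) = V (i + j) := by
    intro i j
    rw [hVdef]
    show (T ^ i) ((T ^ j) v) = (T ^ (i + j)) v
    rw [zpow_add_apply]
  have heven : ∀ k, d (-k) = d k := by
    intro k
    have e1 := hV 0 k
    have e2 := hV k 0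
    rw [real_inner_comm, e2, sub_zero, zero_sub] at e1
    exact_mod_cast e1.symm
  have hd1 : ∀ k : ℤ, k ≠ 0 → -(q : ℤ) < k → k < q → d k = 1 := by
    intro k hk hk1 hk2
    rcases lt_or_gt_of_ne hk with h | h
    · rw [← heven]
      exact hmin _ (by omega) (by omega)
    · exact hmin _ (by omega) hk2
  have hone : ∀ i j : ℤ, i ≠ j → -(q : ℤ) < i - j → i - j < q → ⟪V i, V j⟫_ℝ = 1 := by
    intro i j hij h3 h4
    rw [hV, hd1 _ (sub_ne_zero.2 hij) h3 h4, Int.cast_one]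
  have htwo : ∀ i : ℤ, ⟪V i, V i⟫_ℝ = 2 := by
    intro i
    rw [hV, sub_self, h0]
    norm_num
  have hq0 : ⟪V q, V 0⟫_ℝ = d q := by rw [hV, sub_zero]
  have h0q : ⟪V 0, V q⟫_ℝ = d q := by rw [real_inner_comm, hq0]
  have hup : d q ≤ 2 := by
    have h3 : 0 ≤ ⟪V q - V 0, V q - V 0⟫_ℝ := real_inner_self_nonneg
    rw [inner_sub_left, inner_sub_right, inner_sub_right, htwo, htwo, hq0, h0q] at h3
    have h4 : (d q : ℝ) ≤ 2 := by linarith
    exact_mod_cast h4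
  have hlo : 0 ≤ d q := by
    have h3 : 0 ≤ ⟪(3 : ℝ) • (V 0 + V q) - (2 : ℝ) • (V 1 + V 2),
        (3 : ℝ) • (V 0 + V q) - (2 : ℝ) • (V 1 + V 2)⟫_ℝ := real_inner_self_nonneg
    simp only [inner_add_left, inner_add_right, inner_sub_left, inner_sub_right,
      real_inner_smul_left, real_inner_smul_right] at h3
    rw [htwo, htwo, htwo, htwo, hq0, h0q, hone 0 1 (by omega) (by omega) (by omega),
      hone 0 2 (by omega) (by omega) (by omega), hone q 1 (by omega) (by omega) (by omega),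
      hone q 2 (by omega) (by omega) (by omega), hone 1 0 (by omega) (by omega) (by omega),
      hone 1 q (by omega) (by omega) (by omega), hone 1 2 (by omega) (by omega) (by omega),
      hone 2 0 (by omega) (by omega) (by omega), hone 2 q (by omega) (by omega) (by omega),
      hone 2 1 (by omega) (by omega) (by omega)] at h3
    have h4 : (-1 : ℝ) < d q := by linarith
    have h5 : -1 < d q := by exact_mod_cast h4
    omega
  have hcase : d q = 2 ∨ d q = 0 := by omega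
  have hfin : ∀ η : ℤ, (η = 1 ∨ η = -1) → (∀ k, d (k + q) - 1 = η * (d k - 1)) →
      ∃ (N : ℕ) (η : ℤ), 2 ≤ N ∧ (η = 1 ∨ η = -1) ∧ ∀ k, d k = 1 + comb N η k := by
    intro η hη hk
    refine ⟨q, η, by omega, hη, fun k => ?_⟩
    have h3 := T3_comb (q := q) (by omega) hη (f := fun k => d k - 1) hk (by simp [h0])
      (fun k hk1 hk2 => by rw [hmin k hk1 hk2, sub_self]) k
    rw [← h3]
    ring
  rcases hcase with hdq | hdq
  · -- the orbit is periodic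
    have hVq : V q = V 0 := by
      have h3 : ⟪V q - V 0, V q - V 0⟫_ℝ = 0 := by
        rw [inner_sub_left, inner_sub_right, inner_sub_right, htwo, htwo, hq0, h0q, hdq]
        norm_num
      exact sub_eq_zero.1 (inner_self_eq_zero.1 h3)
    refine hfin 1 (Or.inl rfl) fun k => ?_
    have h3 : d (k + q) = d k := by
      have e1 : V (k + q) = V k := by
        rw [← hTV, hVq, hTV, add_zero]
      have e2 := hV (k + q) 0
      rw [e1, hV, sub_zero, sub_zero] at e2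
      exact_mod_cast e2.symm
    rw [h3, one_mul]
  · -- the orbit is antiperiodic modulo a fixed vector
    have hnn : 0 ≤ (1 - d (q + 1)) * (9 * d (q + 1) - 1) := by
      obtain ⟨Y, hY⟩ : ∃ Y : ℝ, Y = ((d (q + 1) : ℝ) + 1) / 2 := ⟨_, rfl⟩
      have hy0 : ⟪V (q + 1), V 0⟫_ℝ = d (q + 1) := by rw [hV, sub_zero]
      have h0y : ⟪V 0, V (q + 1)⟫_ℝ = d (q + 1) := by rw [real_inner_comm, hy0]
      have hy1 : ⟪V (q + 1), V 1⟫_ℝ = 0 := by
        rw [hV, add_sub_cancel_right, hdq, Int.cast_zero]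
      have h1y : ⟪V 1, V (q + 1)⟫_ℝ = 0 := by rw [real_inner_comm, hy1]
      have hyq : ⟪V (q + 1), V q⟫_ℝ = 1 := hone _ _ (by omega) (by omega) (by omega)
      have hqy : ⟪V q, V (q + 1)⟫_ℝ = 1 := by rw [real_inner_comm, hyq]
      obtain ⟨S, hS⟩ : ∃ S : H, S = V 2 + V 3 + V 4 + V 5 + V 6 + V 7 := ⟨_, rfl⟩
      have hSj : ∀ j : ℤ, (j ≤ 1 ∨ 8 ≤ j) → -1 ≤ j → j ≤ q + 1 → ⟪S, V j⟫_ℝ = 6 := by
        intro j hj hj1 hj2
        rw [hS]
        simp only [inner_add_left]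
        rw [hone 2 j (by omega) (by omega) (by omega), hone 3 j (by omega) (by omega) (by omega),
          hone 4 j (by omega) (by omega) (by omega), hone 5 j (by omega) (by omega) (by omega),
          hone 6 j (by omega) (by omega) (by omega), hone 7 j (by omega) (by omega) (by omega)]
        norm_num
      have hjS : ∀ j : ℤ, (j ≤ 1 ∨ 8 ≤ j) → -1 ≤ j → j ≤ q + 1 → ⟪V j, S⟫_ℝ = 6 := by
        intro j hj hj1 hj2
        rw [real_inner_comm, hSj j hj hj1 hj2]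
      have hSS : ⟪S, S⟫_ℝ = 42 := by
        have e1 : ∀ j : ℤ, 2 ≤ j → j ≤ 7 → ⟪S, V j⟫_ℝ = 7 := by
          intro j hj1 hj2
          rw [hS]
          simp only [inner_add_left]
          have e2 : ∀ i : ℤ, 2 ≤ i → i ≤ 7 → ⟪V i, V j⟫_ℝ = 1 + if i = j then 1 else 0 := by
            intro i hi1 hi2
            split_ifs with hij
            · rw [hij, htwo]
              norm_num
            · rw [hone i j hij (by omega) (by omega), add_zero]
          rw [e2 2 (by omega) (by omega), e2 3 (by omega) (by omega), e2 4 (by omega) (by omega),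
            e2 5 (by omega) (by omega), e2 6 (by omega) (by omega), e2 7 (by omega) (by omega)]
          interval_cases j <;> norm_num
        have e3 : ⟪S, S⟫_ℝ = ⟪S, V 2⟫_ℝ + ⟪S, V 3⟫_ℝ + ⟪S, V 4⟫_ℝ + ⟪S, V 5⟫_ℝ + ⟪S, V 6⟫_ℝ +
            ⟪S, V 7⟫_ℝ := by
          conv_lhs => rw [hS]
          rw [← hS]
          conv_lhs => rw [show (⟪S, S⟫_ℝ : ℝ) = ⟪S, V 2 + V 3 + V 4 + V 5 + V 6 + V 7⟫_ℝ by rw [← hS]]
          simp only [inner_add_right]
        rw [e3, e1 2 (by omega) (by omega), e1 3 (by omega) (by omega), e1 4 (by omega) (by omega),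
          e1 5 (by omega) (by omega), e1 6 (by omega) (by omega), e1 7 (by omega) (by omega)]
        norm_num
      have h3 : 0 ≤ ⟪V (q + 1) - (Y - 1) • V 0 + Y • V 1 - (1 - Y) • S -
            ((7 * Y - 5) / 2) • (V 0 + V q),
          V (q + 1) - (Y - 1) • V 0 + Y • V 1 - (1 - Y) • S -
            ((7 * Y - 5) / 2) • (V 0 + V q)⟫_ℝ := real_inner_self_nonneg
      simp only [inner_add_left, inner_add_right, inner_sub_left, inner_sub_right,
        real_inner_smul_left, real_inner_smul_right] at h3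
      rw [htwo, htwo, htwo, htwo, hSS, hy0, h0y, hy1, h1y, hyq, hqy, hq0, h0q, hdq,
        hSj 0 (by omega) (by omega) (by omega), hSj 1 (by omega) (by omega) (by omega),
        hSj q (by omega) (by omega) (by omega), hSj (q + 1) (by omega) (by omega) (by omega),
        hjS 0 (by omega) (by omega) (by omega), hjS 1 (by omega) (by omega) (by omega),
        hjS q (by omega) (by omega) (by omega), hjS (q + 1) (by omega) (by omega) (by omega),
        hone 0 1 (by omega) (by omega) (by omega), hone 1 0 (by omega) (by omega) (by omega),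
        hone q 1 (by omega) (by omega) (by omega), hone 1 q (by omega) (by omega) (by omega)] at h3
      have h4 : (d (q + 1) : ℝ) = 2 * Y - 1 := by rw [hY]; ring
      have h5 : (0 : ℝ) ≤ (1 - d (q + 1)) * (9 * d (q + 1) - 1) := by
        rw [h4] at h3 ⊢
        push_cast at h3
        nlinarith [h3]
      exact_mod_cast h5
    have hd2 : d (q + 1) = 1 := by
      by_contra hne
      rcases lt_or_gt_of_ne hne with h | h
      · have : d (q + 1) ≤ 0 := by omega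
        nlinarith
      · have : 2 ≤ d (q + 1) := by omega
        nlinarith
    have hy : V (q + 1) = V 0 + V q - V 1 := by
      have hy0 : ⟪V (q + 1), V 0⟫_ℝ = 1 := by rw [hV, sub_zero, hd2, Int.cast_one]
      have h0y : ⟪V 0, V (q + 1)⟫_ℝ = 1 := by rw [real_inner_comm, hy0]
      have hy1 : ⟪V (q + 1), V 1⟫_ℝ = 0 := by
        rw [hV, add_sub_cancel_right, hdq, Int.cast_zero]
      have h1y : ⟪V 1, V (q + 1)⟫_ℝ = 0 := by rw [real_inner_comm, hy1]
      have hyq : ⟪V (q + 1), V q⟫_ℝ = 1 := hone _ _ (by omega) (by omega) (by omega)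
      have hqy : ⟪V q, V (q + 1)⟫_ℝ = 1 := by rw [real_inner_comm, hyq]
      have h3 : ⟪V (q + 1) - (V 0 + V q - V 1), V (q + 1) - (V 0 + V q - V 1)⟫_ℝ = 0 := by
        simp only [inner_add_left, inner_add_right, inner_sub_left, inner_sub_right]
        rw [htwo, htwo, htwo, htwo, hy0, h0y, hy1, h1y, hyq, hqy, hq0, h0q, hdq,
          hone 0 1 (by omega) (by omega) (by omega), hone 1 0 (by omega) (by omega) (by omega),
          hone q 1 (by omega) (by omega) (by omega), hone 1 q (by omega) (by omega) (by omega)]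
        norm_num
      exact sub_eq_zero.1 (inner_self_eq_zero.1 h3)
    have hW : (T ^ (1 : ℤ)) (V 0 + V q) = V 0 + V q := by
      rw [map_add, hTV, hTV, add_zero, add_comm (1 : ℤ) q, hy]
      abel
    refine hfin (-1) (Or.inr rfl) fun k => ?_
    have h3 : V k + V (k + q) = V 0 + V q := by
      have e1 := zpow_mul_of_fix hW k
      rw [mul_one, map_add, hTV, hTV, add_zero] at e1
      exact e1
    have h4 : (d k : ℝ) + d (k + q) = 2 := by
      have e1 : ⟪V k + V (k + q), V 0⟫_ℝ = ⟪V 0 + V q, V 0⟫_ℝ := by rw [h3]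
      rw [inner_add_left, inner_add_left, hV, hV, htwo, hq0, hdq, sub_zero, sub_zero] at e1
      rw [e1]
      norm_num
    have h5 : d k + d (k + q) = 2 := by exact_mod_cast h4
    linarith

theorem T3_neg (T : H ≃ₗᵢ[ℝ] H) (v : H) (k : ℤ) :
    (((LinearIsometryEquiv.neg ℝ : H ≃ₗᵢ[ℝ] H) * T) ^ k) v = ((-1 : ℝ) ^ k.natAbs) • (T ^ k) v := by
  have hcomm : Commute (LinearIsometryEquiv.neg ℝ : H ≃ₗᵢ[ℝ] H) T := by
    ext x
    show (LinearIsometryEquiv.neg ℝ : H ≃ₗᵢ[ℝ] H) (T x) = T ((LinearIsometryEquiv.neg ℝ : H ≃ₗᵢ[ℝ] H) x)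
    simp
  rw [hcomm.mul_zpow]
  show ((LinearIsometryEquiv.neg ℝ : H ≃ₗᵢ[ℝ] H) ^ k) ((T ^ k) v) = _
  generalize (T ^ k) v = x
  have hn : ∀ (n : ℕ) (x : H), ((LinearIsometryEquiv.neg ℝ : H ≃ₗᵢ[ℝ] H) ^ n) x = ((-1 : ℝ) ^ n) • x := by
    intro n x
    induction n with
    | zero => simp
    | succ n ih =>
      rw [pow_succ']
      show (LinearIsometryEquiv.neg ℝ : H ≃ₗᵢ[ℝ] H) (((LinearIsometryEquiv.neg ℝ : H ≃ₗᵢ[ℝ] H) ^ n) x) = _
      rw [ih]
      simp [pow_succ]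
  rcases k.eq_nat_or_neg with ⟨n, rfl | rfl⟩
  · rw [zpow_natCast, Int.natAbs_natCast, hn]
  · rw [zpow_neg, zpow_natCast, Int.natAbs_neg, Int.natAbs_natCast]
    have h1 : ((LinearIsometryEquiv.neg ℝ : H ≃ₗᵢ[ℝ] H) ^ n)⁻¹ = (LinearIsometryEquiv.neg ℝ : H ≃ₗᵢ[ℝ] H) ^ n := by
      rw [inv_eq_iff_mul_eq_one]
      ext x
      show ((LinearIsometryEquiv.neg ℝ : H ≃ₗᵢ[ℝ] H) ^ n) (((LinearIsometryEquiv.neg ℝ : H ≃ₗᵢ[ℝ] H) ^ n) x) = x
      rw [hn, hn, smul_smul, ← pow_add, ← two_mul, pow_mul]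
      simp
    rw [h1, hn]

theorem T3_sign (k : ℤ) : ((-1 : ℤ) ^ k.natAbs) * ((-1 : ℤ) ^ k.natAbs) = 1 := by
  rw [← pow_add, ← two_mul, pow_mul]
  simp

/-- Write `v_j = (-1)^j T^j v` and `d k = (-1)^k c k`, so `⟪v_i, v_j⟫ = d (i - j)`, `d` is even, `d 0 = 2`, `d k = 1` for
`1 ≤ k ≤ 8`. (Use `T' = -T`, `T'^k = (-1)^k T^k`, if convenient.) Suppose not all `d k`, `k ≥ 1`, are `1`; let `q ≥ 9`
be the first `k` with `d k ≠ 1`. Let `m = q - 1`, `Z = ∑_{0<i<q} v_i`; `‖Z‖² = m (m + 1)`, `⟪Z, v_0⟫ = ⟪Z, v_q⟫ = m`.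
(a) `0 ≤ ‖(m + 1) (v_0 + v_q) - 2 Z‖² = (m + 1)² (4 + 2 d_q) - 8 m (m + 1) + 4 m (m + 1)`, so
`(m + 1) (2 + d_q) ≥ 2 m`, `d_q ≥ 0`; `d_q ≤ 2`, so `d_q = 0` or `2`.
(b) `d_q = 2`: `v_q = v_0` (`‖v_q - v_0‖² = 0`), so `d` has period `q`, `d k = 1 + [q ∣ k]`, and `c = famD q ((-1)^q)`.
(c) `d_q = 0`: `w = (v_0 + v_q) / 2`, `u_i = v_i - w` for `0 ≤ i < q`: `w, u_0, …, u_(q-1)` are orthonormal
(`⟪w, v_i⟫ = 1` for `0 ≤ i < q`), `v_q = w - u_0`. Let `y = v_(q+1)`. `2 ⟪y, w⟫` and the `⟪y, u_i⟫ + ⟪y, w⟫` are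
integers; if `2 ⟪y, w⟫` is odd, Bessel gives `(q + 1) / 4 ≤ 2`, contradiction. So `Y = ⟪y, w⟫` and all
`⟪y, u_i⟫` are integers. `⟪y, v_i⟫ = d (q + 1 - i)`: `⟪y, u_i⟫ = 1 - Y` for `2 ≤ i < q`, `⟪y, u_1⟫ = d_q - Y = -Y`,
`⟪y, u_0⟫ = Y - 1` (from `⟪y, v_q⟫ = 1`). Bessel: `(q - 2) (1 - Y)² ≤ 2` gives `Y = 1`. So
`‖y - (w - u_1)‖² = 2 - 2 (1 + 1) + 2 = 0`, `v_(q+1) = w - u_1`. Hence `T' w = w`, `T' u_i = u_(i+1)` for `i < q - 1`,
`T' u_(q-1) = -u_0`, so `⟪T'^k u_0, u_0⟫ = [q ∣ k] (-1)^(k/q)`, `d k = 1 + [q ∣ k] (-1)^(k/q)`, and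
`c = famD q (-(-1)^q)`. -/
theorem fam_alt {T : H ≃ₗᵢ[ℝ] H} {v : H} {c : ℤ → ℤ} (hc : ∀ k, ⟪(T ^ k) v, v⟫_ℝ = c k)
    (h0 : c 0 = 2) (h2 : ∀ k : ℤ, 1 ≤ k → k ≤ 8 → c k = (-1) ^ k.natAbs) :
    (∀ k : ℤ, 1 ≤ k → c k = (-1) ^ k.natAbs) ∨
      ∃ (N : ℕ) (η : ℤ), 2 ≤ N ∧ (η = 1 ∨ η = -1) ∧ ∀ k, c k = famD N η k := by
  have hc' : ∀ k, ⟪(((LinearIsometryEquiv.neg ℝ : H ≃ₗᵢ[ℝ] H) * T) ^ k) v, v⟫_ℝ =
      (((-1 : ℤ) ^ k.natAbs * c k : ℤ) : ℝ) := by
    intro k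
    rw [T3_neg, real_inner_smul_left, hc]
    push_cast
    ring
  have hback : ∀ k, c k = (-1 : ℤ) ^ k.natAbs * ((-1 : ℤ) ^ k.natAbs * c k) := by
    intro k
    rw [← mul_assoc, T3_sign, one_mul]
  rcases T3_main (d := fun k => (-1 : ℤ) ^ k.natAbs * c k) hc' (by simp [h0]) (fun k hk1 hk2 => by
      show (-1 : ℤ) ^ k.natAbs * c k = 1
      rw [h2 k hk1 hk2, T3_sign]) with h | h
  · left
    intro k hk
    rw [hback, h k hk, mul_one]
  · right
    obtain ⟨N, η, hN, hη, h⟩ := h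
    refine ⟨N, (-1) ^ N * η, hN, ?_, fun k => ?_⟩
    · rcases neg_one_pow_eq_or ℤ N with e | e <;> rcases hη with e' | e' <;> rw [e, e'] <;> norm_num
    · rw [hback, h k]
      unfold famD comb
      split_ifs with hd
      · obtain ⟨m, rfl⟩ := hd
        have hN0 : (N : ℤ) ≠ 0 := by omega
        rw [Int.mul_ediv_cancel_left _ hN0, Int.natAbs_mul, Int.natAbs_natCast, mul_pow, ← pow_mul]
        ring
      · ring

end Pool.Agent.EEAG1
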