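import Pool.Agent.W_eea520_h99.T1
import Pool.Agent.W_eea520_g1.A5

/-!
# Finitely many integral moments (MP_eea520_nt, theorem G)
-/

set_option autoImplicit false

namespace Pool.Agent.EEAG1

open Filter Topology
open scoped InnerProductSpace

theorem psum_sum {a : Nat.Primes → ℂ} (ha : ∀ p, ‖a p‖ = 1) {ι : Type} (t : Finset ι)
    {F : ι → ℂ → ℝ} (hF : ∀ i ∈ t, Bdc (F i)) {s : ℝ} (hs : 1 < s) :
    psum a (fun z => ∑ i ∈ t, F i z) s = ∑ i ∈ t, psum a (F i) s := by
  unfold psum
  rw [← Summable.tsum_finsetSum fun i hi => summable_psum ha (hF i hi) hs]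
  exact tsum_congr fun p => Finset.sum_mul _ _ _

/-- The means for a fixed `s > 1` form a positive definite sequence. -/
theorem posDef_at {a : Nat.Primes → ℂ} (ha : ∀ p, ‖a p‖ = 1) {s : ℝ} (hs : 1 < s) :
    PosDef fun k => psum a (fun z => 2 * (z ^ k).re) s / pz s := by
  refine ⟨fun k => ?_, fun x => ?_⟩
  · congr 1
    unfold psum
    refine tsum_congr fun p => ?_
    show 2 * (a p ^ (-k)).re * _ = 2 * (a p ^ k).re * _
    rw [A5_re (ha p)]
  · have h2 : (x.sum fun i b => x.sum fun j d =>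
        b * d * (psum a (fun z => 2 * (z ^ (i - j)).re) s / pz s)) =
        psum a (fun z => ∑ p ∈ x.support ×ˢ x.support,
          x p.1 * x p.2 * (2 * (z ^ (p.1 - p.2)).re)) s / pz s := by
      rw [psum_sum ha _ (fun p _ => A5_mul_bd (A5_re_bd _) _) hs, Finset.sum_div, Finset.sum_product]
      unfold Finsupp.sum
      refine Finset.sum_congr rfl fun i _ => Finset.sum_congr rfl fun j _ => ?_
      show x i * x j * (psum a (fun z => 2 * (z ^ (i - j)).re) s / pz s) =
        psum a (fun z => x i * x j * (2 * (z ^ (i - j)).re)) s / pz s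
      unfold psum
      rw [← mul_div_assoc, ← tsum_mul_left]
      congr 1
      exact tsum_congr fun p => by ring
    rw [h2]
    refine div_nonneg (tsum_nonneg fun p => mul_nonneg ?_ (Mean_pow_pos p s).le) (pz_pos hs).le
    show 0 ≤ ∑ q ∈ x.support ×ˢ x.support, x q.1 * x q.2 * (2 * (a p ^ (q.1 - q.2)).re)
    have hz := ha p
    generalize a p = z at hz
    have hz0 : z ≠ 0 := by
      rintro rfl
      rw [norm_zero] at hz
      exact zero_ne_one hz
    have h3 : (∑ i ∈ x.support, (x i : ℂ) * z ^ i) *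
        (starRingEnd ℂ) (∑ i ∈ x.support, (x i : ℂ) * z ^ i) =
        ∑ p ∈ x.support ×ˢ x.support, ((x p.1 * x p.2 : ℝ) : ℂ) * z ^ (p.1 - p.2) := by
      rw [map_sum, Finset.sum_mul_sum, Finset.sum_product]
      refine Finset.sum_congr rfl fun i _ => Finset.sum_congr rfl fun j _ => ?_
      rw [map_mul, Complex.conj_ofReal, ← A5_inv hz, sub_eq_add_neg, zpow_add₀ hz0]
      push_cast
      ring
    have h4 : ∑ p ∈ x.support ×ˢ x.support, x p.1 * x p.2 * (2 * (z ^ (p.1 - p.2)).re) =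
        2 * ((∑ i ∈ x.support, (x i : ℂ) * z ^ i) *
          (starRingEnd ℂ) (∑ i ∈ x.support, (x i : ℂ) * z ^ i)).re := by
      rw [h3, Complex.re_sum, Finset.mul_sum]
      refine Finset.sum_congr rfl fun p _ => ?_
      rw [Complex.re_ofReal_mul]
      ring
    rw [h4, Complex.mul_conj, Complex.ofReal_re]
    exact mul_nonneg (by norm_num) (Complex.normSq_nonneg _)

/-- The limits of the means along an ultrafilter. -/
theorem exists_ultra {a : Nat.Primes → ℂ} (ha : ∀ p, ‖a p‖ = 1) (U : Ultrafilter ℝ)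
    (hU : (U : Filter ℝ) ≤ 𝓝[>] 1) : ∃ c : ℤ → ℝ, PosDef c ∧
      ∀ k : ℤ, Tendsto (fun s => psum a (fun z => 2 * (z ^ k).re) s / pz s) U (𝓝 (c k)) := by
  have hev : ∀ᶠ s in (U : Filter ℝ), 1 < s := hU Mean_ev
  have hlim : ∀ k : ℤ, ∃ x : ℝ,
      Tendsto (fun s => psum a (fun z => 2 * (z ^ k).re) s / pz s) U (𝓝 x) := by
    intro k
    obtain ⟨C, hC⟩ := A5_re_bd k
    have h1 : ∀ᶠ s in (U : Filter ℝ), psum a (fun z => 2 * (z ^ k).re) s / pz s ∈
        Set.Icc (-C) C := by
      filter_upwards [hev] with s hs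
      exact abs_le.1 (abs_psum_le ha hC hs)
    have h2 := (isCompact_Icc (a := -C) (b := C)).ultrafilter_le_nhds
      (U.map fun s => psum a (fun z => 2 * (z ^ k).re) s / pz s)
      (by
        rw [Ultrafilter.coe_map, Filter.le_principal_iff]
        exact h1)
    obtain ⟨x, _, hx⟩ := h2
    exact ⟨x, hx⟩
  choose c hc using hlim
  refine ⟨c, ⟨fun k => ?_, fun x => ?_⟩, hc⟩
  · refine tendsto_nhds_unique ((hc (-k)).congr' ?_) (hc k)
    filter_upwards [hev] with s hs
    exact (posDef_at ha hs).symm k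
  · have h1 : Tendsto (fun s => x.sum fun i b => x.sum fun j d =>
        b * d * (psum a (fun z => 2 * (z ^ (i - j)).re) s / pz s)) U
        (𝓝 (x.sum fun i b => x.sum fun j d => b * d * c (i - j))) := by
      unfold Finsupp.sum
      exact tendsto_finsetSum _ fun i _ => tendsto_finsetSum _ fun j _ => (hc (i - j)).const_mul _
    refine ge_of_tendsto h1 ?_
    filter_upwards [hev] with s hs
    exact (posDef_at ha hs).nonneg x

/-- If the first moments are integers which determine the sequence, then all moments exist. -/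
theorem mean_of_level {a : Nat.Primes → ℂ} (ha : ∀ p, ‖a p‖ = 1) {P : ℕ → ℤ} {M : ℕ} {L : ℤ → ℤ}
    (hL : ∀ c : ℤ → ℝ, PosDef c → (∀ k : ℕ, k ≤ M → c k = P k) → ∀ k, c k = L k)
    (hP : ∀ k : ℕ, k ≤ M → Mean a (fun z => 2 * (z ^ (k : ℤ)).re) (P k)) (k : ℤ) :
    Mean a (fun z => 2 * (z ^ k).re) (L k) := by
  unfold Mean
  rw [tendsto_iff_ultrafilter]
  intro U hU
  obtain ⟨c, hc, hc'⟩ := exists_ultra ha U hU
  have h1 := hL c hc (fun j hj => tendsto_nhds_unique (hc' j) ((hP j hj).mono_left hU)) k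
  rw [← h1]
  exact hc' k

end Pool.Agent.EEAG1
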