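import Pool.Agent.W_eea520_h99.Ker

/-!
# The mean values of `p ^ (-i t)`, Bessel's inequality on the line (MP_eea520_nt, theorem G)
-/

set_option autoImplicit false

namespace Pool.Agent.EEA520

open Filter Topology Pool.Agent.EEAG1

variable {n : ℕ}

theorem pt_ne_one {t : ℝ} (ht : t ≠ 0) : pt t ≠ 1 := by
  intro h
  have h1 := congrArg Complex.im h
  unfold pt at h1
  simp at h1
  exact ht h1

theorem factor_one (t : Torus n) (q : ℂ) : t.factor (Finsupp.single 0 1) q = (1 - q)⁻¹ := by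
  unfold Torus.factor
  rw [Finsupp.prod_single_index (by simp)]
  have h1 : t.ev 0 = 1 := by
    unfold Torus.ev
    simp
  rw [h1]
  simp

/-- The Euler product of the trivial representation. -/
theorem poleOrder_zeta (π : GSys n) {t : ℝ} (ht : t ≠ 0) :
    PoleOrder π (Finsupp.single 0 1) (pt t) 0 := by
  have han : AnalyticAt ℂ riemannZeta (pt t) := by
    refine DifferentiableOn.analyticAt (s := {1}ᶜ) ?_ (isOpen_compl_singleton.mem_nhds (pt_ne_one ht))
    intro s hs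
    exact (differentiableAt_riemannZeta hs).differentiableWithinAt
  have hne : riemannZeta (pt t) ≠ 0 := by
    refine riemannZeta_ne_zero_of_one_le_re ?_
    unfold pt
    simp
  refine ⟨riemannZeta, han.meromorphicAt, ?_, ?_⟩
  · rw [han.meromorphicOrderAt_eq, (han.analyticOrderAt_eq_zero).2 hne]
    rfl
  · unfold IsL
    filter_upwards [self_mem_nhdsWithin] with s hs
    have h1 := riemannZeta_eulerProduct_hasProd (s := s) hs
    simp only [factor_one]
    exact h1

/-- The trivial system. -/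
def triv0 : GSys 0 := fun _ => ⟨1, fun _ => 1⟩

theorem triv0_tempered : Tempered triv0 := fun p => ⟨by simp [triv0], fun i => i.elim0⟩

/-- The mean value of `p ^ (-i t)`. -/
theorem mean_pit (t : ℝ) :
    MeanP (fun p : Pr => (((p : ℕ) : ℂ) ^ (-(t * Complex.I))).re) (if t = 0 then 1 else 0) := by
  by_cases ht : t = 0
  · subst ht
    rw [if_pos rfl]
    have h1 := MeanP.one
    refine h1.congr fun s => ?_
    congr 2
    funext p
    simp
  · rw [if_neg ht]
    have h1 := mean_of_poleOrder triv0_tempered (poleOrder_zeta triv0 ht)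
    rw [Int.cast_zero] at h1
    refine h1.congr fun s => ?_
    congr 2
    funext p
    unfold tre zre
    rw [Finsupp.sum_single_index (by simp)]
    have h2 : (triv0 p).ev 0 = 1 := by
      unfold Torus.ev
      simp
    rw [h2]
    simp

theorem bdP_pit (t : ℝ) : BdP (fun p : Pr => (((p : ℕ) : ℂ) ^ (-(t * Complex.I))).re) :=
  ⟨1, fun p => (Complex.abs_re_le_norm _).trans (norm_pit p t).le⟩

/-- The complex trace. -/
noncomputable def tcx (π : GSys n) (m : Wt n →₀ ℤ) (p : Pr) : ℂ :=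
  m.sum fun w e => (e : ℂ) * ((π p).ev w : ℂ)

theorem tcx_le {π : GSys n} (hπ : Tempered π) (m : Wt n →₀ ℤ) (p : Pr) :
    ‖tcx π m p‖ ≤ mnorm m := by
  unfold tcx mnorm Finsupp.sum
  refine norm_sum_le_of_le _ fun w _ => ?_
  rw [norm_mul, norm_ev hπ, mul_one, Complex.norm_intCast]

theorem tre_eq (π : GSys n) (m : Wt n →₀ ℤ) (t : ℝ) (p : Pr) :
    tre π m t p = (tcx π m p * (((p : ℕ) : ℂ) ^ (-(t * Complex.I)))).re := by
  unfold tre tcx zre Finsupp.sum
  rw [Finset.sum_mul, Complex.re_sum]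
  refine Finset.sum_congr rfl fun w _ => ?_
  rw [mul_assoc, ← Complex.ofReal_intCast, Complex.re_ofReal_mul]

theorem pit_sub (s t : ℝ) (p : Pr) : (((p : ℕ) : ℂ) ^ (-(((s - t : ℝ) : ℂ) * Complex.I))) =
    (((p : ℕ) : ℂ) ^ (-(s * Complex.I))) *
      (starRingEnd ℂ) (((p : ℕ) : ℂ) ^ (-(t * Complex.I))) := by
  have h1 : (starRingEnd ℂ) (((p : ℕ) : ℂ) ^ (-(t * Complex.I))) =
      (((p : ℕ) : ℂ) ^ (-(t * Complex.I)))⁻¹ :=
    (Complex.inv_eq_conj (norm_pit p t)).symm
  rw [h1, ← Complex.cpow_neg, ← Complex.cpow_add _ _ (by exact_mod_cast p.2.ne_zero)]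
  congr 1
  push_cast
  ring

/-- Bessel's inequality: the sum of the squares of the orders of the zeros and poles on the line is at
most the square of the degree. -/
theorem bessel_line {π : GSys n} (hπ : Tempered π) {m : Wt n →₀ ℤ} (T : Finset ℝ) (k : ℝ → ℤ)
    (hk : ∀ t ∈ T, PoleOrder π m (pt t) (k t)) :
    ∑ t ∈ T, (k t) ^ 2 ≤ (m.sum fun _ e => |e|) ^ 2 := by
  classical
  have hm : ((m.sum fun _ e => |e| : ℤ) : ℝ) = mnorm m := by
    unfold mnorm Finsupp.sum
    push_cast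
    rfl
  have h1 : MeanP (fun p => mnorm m ^ 2 + ∑ t ∈ T, (-2 * (k t : ℝ)) * tre π m t p +
      ∑ y ∈ T ×ˢ T, ((k y.1 : ℝ) * k y.2) *
        (((p : ℕ) : ℂ) ^ (-(((y.1 - y.2 : ℝ) : ℂ) * Complex.I))).re)
      (mnorm m ^ 2 * 1 + ∑ t ∈ T, (-2 * (k t : ℝ)) * k t +
        ∑ y ∈ T ×ˢ T, ((k y.1 : ℝ) * k y.2) * (if y.1 - y.2 = 0 then 1 else 0)) := by
    refine MeanP.add (BdP.add ⟨|mnorm m ^ 2|, fun p => le_rfl⟩
      (BdP.sum _ fun t _ => (bdP_tre hπ m t).const_mul _))
      (BdP.sum _ fun y _ => (bdP_pit _).const_mul _) (MeanP.add ⟨|mnorm m ^ 2|, fun p => le_rfl⟩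
      (BdP.sum _ fun t _ => (bdP_tre hπ m t).const_mul _) ?_ ?_) ?_
    · have h2 := MeanP.one.const_mul (mnorm m ^ 2)
      simpa using h2
    · exact MeanP.sum _ (fun t _ => (bdP_tre hπ m t).const_mul _)
        fun t ht => (mean_of_poleOrder hπ (hk t ht)).const_mul _
    · exact MeanP.sum _ (fun y _ => (bdP_pit _).const_mul _)
        fun y _ => (mean_pit (y.1 - y.2)).const_mul _
  have h2 := MeanP.nonneg h1 fun p => by
    have h3 : ∑ y ∈ T ×ˢ T, ((k y.1 : ℝ) * k y.2) *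
        (((p : ℕ) : ℂ) ^ (-(((y.1 - y.2 : ℝ) : ℂ) * Complex.I))).re =
        Complex.normSq (∑ t ∈ T, (k t : ℂ) * (((p : ℕ) : ℂ) ^ (-(t * Complex.I)))) := by
      have h4 : ((Complex.normSq (∑ t ∈ T, (k t : ℂ) *
          (((p : ℕ) : ℂ) ^ (-(t * Complex.I)))) : ℝ) : ℂ) =
          ∑ y ∈ T ×ˢ T, (((k y.1 : ℝ) * k y.2 : ℝ) : ℂ) *
            (((p : ℕ) : ℂ) ^ (-(((y.1 - y.2 : ℝ) : ℂ) * Complex.I))) := by
        rw [← Complex.mul_conj, map_sum, Finset.sum_mul_sum, Finset.sum_product]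
        refine Finset.sum_congr rfl fun i _ => Finset.sum_congr rfl fun j _ => ?_
        rw [map_mul, pit_sub, map_intCast]
        push_cast
        ring
      rw [← Complex.ofReal_re (Complex.normSq _), h4, Complex.re_sum]
      refine Finset.sum_congr rfl fun y _ => ?_
      rw [Complex.re_ofReal_mul]
    rw [h3]
    set z : ℂ := tcx π m p with hz
    set q : ℂ := (starRingEnd ℂ) (∑ t ∈ T, (k t : ℂ) * (((p : ℕ) : ℂ) ^ (-(t * Complex.I)))) with hq
    have h5 : ∑ t ∈ T, (-2 * (k t : ℝ)) * tre π m t p = -2 * (z * (starRingEnd ℂ) q).re := by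
      rw [hq, Complex.conj_conj, Finset.mul_sum, Complex.re_sum, Finset.mul_sum]
      refine Finset.sum_congr rfl fun t _ => ?_
      rw [tre_eq, mul_left_comm z, ← Complex.ofReal_intCast, Complex.re_ofReal_mul]
      ring
    have h6 : Complex.normSq (∑ t ∈ T, (k t : ℂ) * (((p : ℕ) : ℂ) ^ (-(t * Complex.I)))) =
        Complex.normSq q := by rw [hq, Complex.normSq_conj]
    rw [h5, h6]
    have h7 : Complex.normSq (z - q) = Complex.normSq z + Complex.normSq q -
        2 * (z * (starRingEnd ℂ) q).re := Complex.normSq_sub z q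
    have h8 : Complex.normSq z ≤ mnorm m ^ 2 := by
      rw [Complex.normSq_eq_norm_sq]
      exact pow_le_pow_left₀ (norm_nonneg _) (tcx_le hπ m p) 2
    have h9 := Complex.normSq_nonneg (z - q)
    linarith
  have h3 : ∑ y ∈ T ×ˢ T, ((k y.1 : ℝ) * k y.2) * (if y.1 - y.2 = 0 then (1 : ℝ) else 0) =
      ∑ t ∈ T, (k t : ℝ) ^ 2 := by
    rw [Finset.sum_product]
    refine Finset.sum_congr rfl fun i hi => ?_
    rw [Finset.sum_eq_single i]
    · rw [sub_self, if_pos rfl, mul_one, pow_two]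
    · intro j _ hj
      rw [if_neg (sub_ne_zero.2 (Ne.symm hj)), mul_zero]
    · intro h
      exact absurd hi h
  rw [h3] at h2
  have h4 : ∑ t ∈ T, (-2 * (k t : ℝ)) * k t = -2 * ∑ t ∈ T, (k t : ℝ) ^ 2 := by
    rw [Finset.mul_sum]
    refine Finset.sum_congr rfl fun t _ => ?_
    ring
  rw [h4, mul_one, ← hm] at h2
  have h5 : (∑ t ∈ T, (k t : ℝ) ^ 2) ≤ ((m.sum fun _ e => |e| : ℤ) : ℝ) ^ 2 := by linarith
  exact_mod_cast h5

end Pool.Agent.EEA520
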